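import Mathlib

/-!
# Finite commutative groups of complex matrices are diagonalisable
-/

set_option autoImplicit false

namespace Pool.Agent.LRch

/-- A finite commutative group with a faithful complex representation of degree `r` embeds in the
product of `r` copies of `ℂˣ`.

PROOF. `V = Fin r → ℂ`, `f a = Matrix.toLin' (σ a) : Module.End ℂ V`. The `f a` commute, and
`(f a) ^ n = 1` for `n = Nat.card A` (`pow_card_eq_one'`), so every `f a` is semisimple
(`Module.End.isSemisimple_of_squarefree_aeval_eq_zero` with `X ^ n - 1`, squarefree over `ℂ`: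
`Polynomial.separable_X_pow_sub_C`, `Polynomial.Separable.squarefree`) and its maximal generalised
eigenspaces are eigenspaces (`Module.End.IsFinitelySemisimple.maxGenEigenspace_eq_eigenspace`).
For `χ : A → ℂ` let `W χ = ⨅ a, (f a).maxGenEigenspace (χ a)`. By
`Module.End.iSup_iInf_maxGenEigenspace_eq_top_of_iSup_maxGenEigenspace_eq_top_of_commute` (with
`Module.End.iSup_maxGenEigenspace_eq_top`) the `W χ` span `V`; they are independent
(`Module.End.independent_iInf_maxGenEigenspace_of_forall_mapsTo`), so at most `r` of them are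
non-zero (`iSupIndep.subtype_ne_bot_le_finrank` or similar: search for `subtype_ne_bot_le_finrank`).
Let `X = {χ // W χ ≠ ⊥}`, finite with at most `r` elements; take an injection `e : X ↪ Fin r`
(`Function.Embedding.nonempty_of_card_le`). For `χ ∈ X` there is `v ≠ 0` with `f a v = χ a • v` for
all `a`, so `χ 1 = 1`, `χ (a * b) = χ a * χ b`: `χ` is a monoid homomorphism `A →* ℂ`, and
`MonoidHom.toHomUnits` makes it a homomorphism `A →* ℂˣ`. Define
`F a i = χ a` if `i = e χ` and `1` if `i` is not in the range of `e`: a monoid homomorphism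
`A →* (Fin r → ℂˣ)` (`MonoidHom.pi` / `Pi.monoidHom` of the homomorphisms
`if h : ∃ χ, e χ = i then (hom of χ) else 1`). Injective: if `F a = 1` then `f a v = v` for all
`v ∈ W χ` and all `χ` (for `W χ = ⊥` trivially), so `f a = 1` because the `W χ` span `V`
(`Submodule.iSup_induction` or: the submodule `ker (f a - 1)` contains every `W χ`), so `σ a = 1`
and `a = 1` (`injective_iff_map_eq_one`). -/
theorem exists_characters {r : ℕ} {A : Type*} [CommGroup A] [Finite A] (σ : A →* GL (Fin r) ℂ)
    (hσ : Function.Injective σ) :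
    ∃ F : A →* (Fin r → ℂˣ), Function.Injective F := by
  classical
  let f : A → Module.End ℂ (Fin r → ℂ) :=
    fun a => Matrix.toLin' (σ a : Matrix (Fin r) (Fin r) ℂ)
  have hmul : ∀ a b, f (a * b) = f a * f b := by
    intro a b
    simp only [f, map_mul, Units.val_mul, Matrix.toLin'_mul]
    rfl
  have hone : f 1 = 1 := by
    simp only [f, map_one, Units.val_one, Matrix.toLin'_one]
    rfl
  have hcomm : ∀ a b, Commute (f a) (f b) := fun a b => by
    rw [commute_iff_eq, ← hmul, ← hmul, mul_comm]
  have hpow : ∀ (a : A) (n : ℕ), f (a ^ n) = f a ^ n := by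
    intro a n
    induction n with
    | zero => rw [pow_zero, pow_zero, hone]
    | succ n ih => rw [pow_succ, pow_succ, hmul, ih]
  have hss : ∀ a, (f a).IsSemisimple := by
    intro a
    have hn : Nat.card A ≠ 0 := Nat.card_pos.ne'
    refine Module.End.isSemisimple_of_squarefree_aeval_eq_zero
      (p := Polynomial.X ^ Nat.card A - Polynomial.C 1) ?_ ?_
    · exact (Polynomial.separable_X_pow_sub_C (1 : ℂ) (by exact_mod_cast hn)
        one_ne_zero).squarefree
    · rw [map_sub, map_pow, Polynomial.aeval_X, Polynomial.aeval_C, ← hpow, pow_card_eq_one',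
        hone, map_one, sub_self]
  let W : (A → ℂ) → Submodule ℂ (Fin r → ℂ) := fun χ => ⨅ a, (f a).maxGenEigenspace (χ a)
  have hW : ∀ χ v, v ∈ W χ ↔ ∀ a, f a v = χ a • v := by
    intro χ v
    simp only [W, Submodule.mem_iInf, (hss _).isFinitelySemisimple.maxGenEigenspace_eq_eigenspace,
      Module.End.mem_eigenspace_iff]
  have hind : iSupIndep W :=
    Module.End.independent_iInf_maxGenEigenspace_of_forall_mapsTo f
      (fun i j φ => Module.End.mapsTo_maxGenEigenspace_of_comm (hcomm j i) φ)
  have htop : ⨆ χ, W χ = ⊤ :=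
    Module.End.iSup_iInf_maxGenEigenspace_eq_top_of_iSup_maxGenEigenspace_eq_top_of_commute f
      (fun i j _ => hcomm i j) (fun i => Module.End.iSup_maxGenEigenspace_eq_top _)
  let _ : Fintype {χ // W χ ≠ ⊥} := hind.fintypeNeBotOfFiniteDimensional
  have hcard : Fintype.card {χ // W χ ≠ ⊥} ≤ Fintype.card (Fin r) := by
    have := hind.subtype_ne_bot_le_finrank
    rw [Module.finrank_fin_fun] at this
    exact this.trans_eq (Fintype.card_fin r).symm
  obtain ⟨e⟩ := Function.Embedding.nonempty_of_card_le hcard
  have hex : ∀ x : {χ // W χ ≠ ⊥}, ∃ h : A →* ℂ, ∀ a, h a = x.1 a := by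
    rintro ⟨χ, hχ⟩
    obtain ⟨v, hv, hv0⟩ := (Submodule.ne_bot_iff _).1 hχ
    rw [hW] at hv
    have h1 : χ 1 = 1 := by
      have := hv 1
      rw [hone, Module.End.one_apply] at this
      have h2 : (χ 1 - 1) • v = 0 := by rw [sub_smul, one_smul, ← this, sub_self]
      rcases smul_eq_zero.1 h2 with h | h
      · exact sub_eq_zero.1 h
      · exact absurd h hv0
    have h2 : ∀ a b, χ (a * b) = χ a * χ b := by
      intro a b
      have h3 := hv (a * b)
      rw [hmul, Module.End.mul_apply, hv b, map_smul, hv a, smul_smul] at h3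
      have h4 : (χ (a * b) - χ a * χ b) • v = 0 := by
        rw [sub_smul, ← h3, mul_comm (χ a), sub_self]
      rcases smul_eq_zero.1 h4 with h | h
      · exact sub_eq_zero.1 h
      · exact absurd h hv0
    exact ⟨{ toFun := χ, map_one' := h1, map_mul' := h2 }, fun a => rfl⟩
  choose ho hho using hex
  let g : Fin r → (A →* ℂˣ) := Function.extend e (fun x => (ho x).toHomUnits) (fun _ => 1)
  have hg : ∀ x, g (e x) = (ho x).toHomUnits := fun x => e.injective.extend_apply _ _ x
  refine ⟨MonoidHom.pi g, (injective_iff_map_eq_one _).2 fun a ha => ?_⟩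
  have h1 : ∀ x : {χ // W χ ≠ ⊥}, x.1 a = 1 := by
    intro x
    have h2 : (MonoidHom.pi g a) (e x) = 1 := by rw [ha]; rfl
    have h3 : g (e x) a = 1 := h2
    rw [hg] at h3
    have h4 := congrArg (fun u : ℂˣ => (u : ℂ)) h3
    rw [← hho x a]
    simpa using h4
  have h2 : f a = 1 := by
    have h3 : (⊤ : Submodule ℂ (Fin r → ℂ)) ≤ LinearMap.eqLocus (f a) 1 := by
      rw [← htop]
      refine iSup_le fun χ => ?_
      intro v hv
      by_cases hχ : W χ = ⊥
      · rw [hχ, Submodule.mem_bot] at hv
        rw [hv]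
        exact Submodule.zero_mem _
      · have h4 : χ a = 1 := h1 ⟨χ, hχ⟩
        rw [hW] at hv
        change f a v = v
        rw [hv a, h4, one_smul]
    refine LinearMap.ext fun v => ?_
    exact h3 (Submodule.mem_top (x := v))
  apply hσ
  rw [map_one]
  apply Units.ext
  have h5 : Matrix.toLin' (σ a : Matrix (Fin r) (Fin r) ℂ) =
      Matrix.toLin' (1 : Matrix (Fin r) (Fin r) ℂ) := by
    rw [Matrix.toLin'_one]
    exact h2
  exact Matrix.toLin'.injective h5

end Pool.Agent.LRch
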