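import Mathlib

/-!
# Products of cyclic subgroups

`cyc [a_1, ..., a_l]` is the set of the products `a_1 ^ t_1 * ... * a_l ^ t_l`, `t_i ∈ ℕ`, and
`BGen G c` says that the group `G` is such a set for at most `c` elements `a_i`.
-/

set_option autoImplicit false

namespace Pool.Agent.LRch

/-- the products of powers of the elements of the list, in this order -/
def cyc {G : Type*} [Monoid G] : List G → Set G
  | [] => {1}
  | a :: l => {x | ∃ t : ℕ, ∃ y ∈ cyc l, x = a ^ t * y}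

/-- the group is the product of at most `c` cyclic subgroups (for finite groups) -/
def BGen (G : Type*) [Group G] (c : ℕ) : Prop :=
  ∃ l : List G, l.length ≤ c ∧ ∀ x, x ∈ cyc l

theorem mem_cyc_nil {G : Type*} [Monoid G] {x : G} : x ∈ cyc ([] : List G) ↔ x = 1 := Iff.rfl

theorem mem_cyc_cons {G : Type*} [Monoid G] {a x : G} {l : List G} :
    x ∈ cyc (a :: l) ↔ ∃ t : ℕ, ∃ y ∈ cyc l, x = a ^ t * y := Iff.rfl

theorem mem_cyc_append {G : Type*} [Monoid G] {x : G} {l m : List G} :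
    x ∈ cyc (l ++ m) ↔ ∃ y ∈ cyc l, ∃ z ∈ cyc m, x = y * z := by
  induction l generalizing x with
  | nil =>
    constructor
    · intro h
      exact ⟨1, rfl, x, h, (one_mul x).symm⟩
    · rintro ⟨y, hy, z, hz, h⟩
      have hy1 : y = 1 := hy
      rw [h, hy1, one_mul]
      exact hz
  | cons a l ih =>
    rw [List.cons_append, mem_cyc_cons]
    constructor
    · rintro ⟨t, y, hy, h⟩
      obtain ⟨y1, hy1, z1, hz1, h1⟩ := ih.1 hy
      exact ⟨a ^ t * y1, ⟨t, y1, hy1, rfl⟩, z1, hz1, by rw [h, h1, mul_assoc]⟩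
    · rintro ⟨y, ⟨t, y1, hy1, h1⟩, z, hz, h⟩
      exact ⟨t, y1 * z, ih.2 ⟨y1, hy1, z, hz, rfl⟩, by rw [h, h1, mul_assoc]⟩

theorem one_mem_cyc {G : Type*} [Monoid G] (l : List G) : (1 : G) ∈ cyc l := by
  induction l with
  | nil => exact rfl
  | cons a l ih => exact ⟨0, 1, ih, by rw [pow_zero, one_mul]⟩

theorem mem_cyc_map {G H : Type*} [Monoid G] [Monoid H] (f : G →* H) {l : List G} {y : H} :
    y ∈ cyc (l.map f) ↔ ∃ x ∈ cyc l, f x = y := by
  induction l generalizing y with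
  | nil =>
    rw [List.map_nil, mem_cyc_nil]
    constructor
    · intro h
      exact ⟨1, rfl, by rw [map_one, h]⟩
    · rintro ⟨x, hx, h⟩
      have hx1 : x = 1 := hx
      rw [← h, hx1, map_one]
  | cons a l ih =>
    rw [List.map_cons, mem_cyc_cons]
    constructor
    · rintro ⟨t, z, hz, h⟩
      obtain ⟨x, hx, h1⟩ := ih.1 hz
      exact ⟨a ^ t * x, ⟨t, x, hx, rfl⟩, by rw [map_mul, map_pow, h1, h]⟩
    · rintro ⟨x, ⟨t, z, hz, h1⟩, h⟩
      exact ⟨t, f z, ih.2 ⟨z, hz, rfl⟩, by rw [← h, h1, map_mul, map_pow]⟩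

theorem cyc_subset {G : Type*} [Monoid G] (S : Submonoid G) {l : List G} (h : ∀ a ∈ l, a ∈ S) :
    cyc l ⊆ S := by
  induction l with
  | nil =>
    intro x hx
    have hx1 : x = 1 := hx
    rw [hx1]
    exact S.one_mem
  | cons a l ih =>
    rintro x ⟨t, y, hy, rfl⟩
    exact S.mul_mem (S.pow_mem (h a List.mem_cons_self) t)
      (ih (fun b hb => h b (List.mem_cons_of_mem a hb)) hy)

theorem mem_cyc_of_mem {G : Type*} [Monoid G] {l : List G} {a : G} (h : a ∈ l) : a ∈ cyc l := by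
  induction l with
  | nil => simp at h
  | cons b l ih =>
    rcases List.mem_cons.1 h with h | h
    · exact ⟨1, 1, one_mem_cyc l, by rw [h, pow_one, mul_one]⟩
    · exact ⟨0, a, ih h, by rw [pow_zero, one_mul]⟩

theorem BGen.mono {G : Type*} [Group G] {c d : ℕ} (h : BGen G c) (hcd : c ≤ d) : BGen G d := by
  obtain ⟨l, h1, h2⟩ := h
  exact ⟨l, h1.trans hcd, h2⟩

end Pool.Agent.LRch
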