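import Mathlib
import Pool.Agent.LRch.Defs

/-!
# Finite subgroups of `(Fˣ) ^ k` are products of `k` cyclic groups
-/

set_option autoImplicit false

namespace Pool.Agent.LRch

/-- A finite commutative group which embeds in the product of `k` copies of the multiplicative
group of a field is the product of `k` cyclic groups.

PROOF. Induction on `k`, generalising `A`. `k = 0`: `A` is trivial, take the empty list. `k + 1`:
let `g : A →* Fˣ` be the component `0` of `f` (`Pi.evalMonoidHom`), `N = g.ker`. The range of `g` is
a finite subgroup of `Fˣ`, hence cyclic (instance for finite subgroups of the units of a domain: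
`isCyclic_of_subgroup_isDomain`, with the map `Units.coeHom F` composed with the subtype), generated
by `g a` for some `a : A`: every `g x` is `(g a) ^ t` with a natural number `t`
(`mem_powers_iff_mem_zpowers`, `IsCyclic.exists_generator`, finiteness). `N` embeds in the product
of the remaining `k` copies (`Fin.tail`: `i ↦ f x i.succ`; injective on `N` because the component
`0` is `1` there, `Fin.cases`). By induction `N` has a list `l` of length `≤ k` with
`cyc l = N`; take the list `a :: l.map N.subtype` (`mem_cyc_map` in Defs): for `x : A` choose `t`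
with `g x = (g a) ^ t`, then `y = (a ^ t)⁻¹ * x` is in `N`, so in the `cyc` of the mapped list, and
`x = a ^ t * y`. -/
theorem bgen_of_characters {k : ℕ} {A : Type*} [CommGroup A] [Finite A] {F : Type*} [Field F]
    (f : A →* (Fin k → Fˣ)) (hf : Function.Injective f) : BGen A k := by
  induction k generalizing A with
  | zero =>
    refine ⟨[], le_rfl, fun x => ?_⟩
    rw [mem_cyc_nil]
    exact hf (Subsingleton.elim _ _)
  | succ k ih =>
    let g : A →* Fˣ := (Pi.evalMonoidHom (fun _ : Fin (k + 1) => Fˣ) 0).comp f
    have hg : ∀ x, g x = f x 0 := fun x => rfl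
    haveI : Finite g.range := Set.finite_range g |>.to_subtype
    haveI : IsCyclic g.range := by
      refine isCyclic_of_subgroup_isDomain ((Units.coeHom F).comp g.range.subtype) ?_
      intro x y hxy
      exact Subtype.ext (Units.ext hxy)
    obtain ⟨c, hgen⟩ := IsCyclic.exists_generator (α := g.range)
    obtain ⟨a, ha⟩ := c.2
    have hpow : ∀ x : A, ∃ t : ℕ, g x = g a ^ t := by
      intro x
      have h1 : (⟨g x, x, rfl⟩ : g.range) ∈ Subgroup.zpowers c := hgen _
      rw [← mem_powers_iff_mem_zpowers] at h1
      obtain ⟨t, ht⟩ := h1
      refine ⟨t, ?_⟩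
      have h2 := congrArg Subtype.val ht
      simp only [SubmonoidClass.coe_pow] at h2
      rw [ha]
      exact h2.symm
    let h : g.ker →* (Fin k → Fˣ) :=
      { toFun := fun x i => f x i.succ
        map_one' := by
          funext i
          simp
        map_mul' := by
          intro x y
          funext i
          simp }
    have hh : Function.Injective h := by
      intro x y hxy
      apply Subtype.ext
      apply hf
      funext i
      refine Fin.cases ?_ (fun j => ?_) i
      · have hx : g x = 1 := x.2
        have hy : g y = 1 := y.2
        rw [← hg, ← hg, hx, hy]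
      · exact congrFun hxy j
    obtain ⟨l, hl, hcyc⟩ := ih h hh
    refine ⟨a :: l.map g.ker.subtype, ?_, fun x => ?_⟩
    · rw [List.length_cons, List.length_map]
      omega
    · obtain ⟨t, ht⟩ := hpow x
      have hy : (a ^ t)⁻¹ * x ∈ g.ker := by
        rw [MonoidHom.mem_ker, map_mul, map_inv, map_pow, ht, inv_mul_cancel]
      rw [mem_cyc_cons]
      refine ⟨t, (a ^ t)⁻¹ * x, ?_, by rw [mul_inv_cancel_left]⟩
      rw [mem_cyc_map]
      exact ⟨⟨(a ^ t)⁻¹ * x, hy⟩, hcyc _, rfl⟩

end Pool.Agent.LRch
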