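import Pool.Agent.LRch.BigDefs

/-!
# Package LRch-Big: evaluation, degree and substitution of the product matrix

`big E` is the list product of the matrices `(E i)(T_i)`; a ring homomorphism applied entrywise is a
ring homomorphism of matrix rings (`RingHom.mapMatrix`, `AlgHom.mapMatrix`), so it commutes with the
list product (`map_list_prod`, `List.map_ofFn`).

*`big_eval`.* `(MvPolynomial.eval t).mapMatrix`, and `eval t (aeval (X i) f) = eval (t i) f`
(`Polynomial.hom_eval₂`, `MvPolynomial.eval_X` or `Polynomial.aeval_algHom_apply`).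

*`big_degree`.* Induction over the list: the entries of a product of matrices have total degree at
most the sum of the bounds (`MvPolynomial.totalDegree_finset_sum`, `totalDegree_mul`), and
`(aeval (X i) f).totalDegree ≤ f.natDegree`.

*`big_cons`.* `List.ofFn_succ` (or `List.ofFn_cons`), `Fin.cons_zero`, `Fin.cons_succ`; apply
`(sub0 c).mapMatrix`: `sub0 c (aeval (X 0) f) = C (f.eval c)`,
`sub0 c (aeval (X i.succ) f) = aeval (X i) f`.

Difficulty: 0.6 h.
-/

set_option autoImplicit false

namespace Pool.Agent.LRch

private theorem listdeg_Big {K : Type*} [Field K] {r m d : ℕ}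
    (l : List (Matrix (Fin r) (Fin r) (MvPolynomial (Fin m) K)))
    (h : ∀ M ∈ l, ∀ i j, (M i j).totalDegree ≤ d) (i j : Fin r) :
    (l.prod i j).totalDegree ≤ l.length * d := by
  induction l generalizing i j with
  | nil =>
    rw [List.prod_nil, Matrix.one_apply]
    split_ifs <;> simp
  | cons M l ih =>
    rw [List.prod_cons, Matrix.mul_apply, List.length_cons]
    refine (MvPolynomial.totalDegree_finsetSum _ _).trans (Finset.sup_le fun k _ => ?_)
    refine (MvPolynomial.totalDegree_mul _ _).trans ?_
    have h1 := h M List.mem_cons_self i k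
    have h2 := ih (fun N hN => h N (List.mem_cons_of_mem M hN)) k j
    rw [Nat.succ_mul]
    omega

private theorem aevaldeg_Big {K : Type*} [Field K] {m : ℕ} (i : Fin m) (f : Polynomial K) :
    (Polynomial.aeval (MvPolynomial.X i : MvPolynomial (Fin m) K) f).totalDegree ≤
      f.natDegree := by
  rw [Polynomial.aeval_eq_sum_range]
  refine (MvPolynomial.totalDegree_finsetSum _ _).trans (Finset.sup_le fun k hk => ?_)
  refine (MvPolynomial.totalDegree_smul_le _ _).trans ?_
  rw [MvPolynomial.totalDegree_X_pow]
  exact Nat.lt_succ_iff.1 (Finset.mem_range.1 hk)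

theorem big_eval {K : Type*} [Field K] {r m : ℕ}
    (E : Fin m → Matrix (Fin r) (Fin r) (Polynomial K)) (t : Fin m → K) :
    (big E).map (MvPolynomial.eval t) =
      (List.ofFn fun i => (E i).map (Polynomial.eval (t i))).prod := by
  have h : (big E).map (MvPolynomial.eval t) = (MvPolynomial.eval t).mapMatrix (big E) := rfl
  rw [h, big, map_list_prod, List.map_ofFn]
  congr 1
  refine congrArg List.ofFn (funext fun i => ?_)
  ext a b
  change MvPolynomial.eval t (Polynomial.aeval (MvPolynomial.X i) (E i a b)) =
    Polynomial.eval (t i) (E i a b)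
  rw [Polynomial.aeval_def, Polynomial.hom_eval₂, MvPolynomial.eval_X, Polynomial.eval]
  congr 1
  ext x
  exact MvPolynomial.eval_C x

theorem big_degree {K : Type*} [Field K] {r m d : ℕ}
    (E : Fin m → Matrix (Fin r) (Fin r) (Polynomial K))
    (hE : ∀ k i j, (E k i j).natDegree ≤ d) (i j : Fin r) :
    (big E i j).totalDegree ≤ m * d := by
  refine (listdeg_Big (d := d) _ ?_ i j).trans (le_of_eq ?_)
  · intro M hM a b
    obtain ⟨k, rfl⟩ := List.mem_ofFn.1 hM
    exact (aevaldeg_Big k (E k a b)).trans (hE k a b)
  · rw [List.length_ofFn]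

theorem big_cons {K : Type*} [Field K] {r m : ℕ} (F : Matrix (Fin r) (Fin r) (Polynomial K))
    (E : Fin m → Matrix (Fin r) (Fin r) (Polynomial K)) (c : K) :
    (big (Fin.cons F E : Fin (m + 1) → Matrix (Fin r) (Fin r) (Polynomial K))).map (sub0 c) =
      (F.map (Polynomial.eval c)).map MvPolynomial.C * big E := by
  have h : ∀ M : Matrix (Fin r) (Fin r) (MvPolynomial (Fin (m + 1)) K),
      M.map (sub0 c) = (sub0 c).toRingHom.mapMatrix M := fun _ => rfl
  rw [h, big, List.ofFn_succ, List.prod_cons, map_mul, map_list_prod, List.map_ofFn]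
  congr 1
  · refine Matrix.ext fun a b => ?_
    change sub0 c (Polynomial.aeval (MvPolynomial.X 0) (F a b)) =
      MvPolynomial.C (Polynomial.eval c (F a b))
    rw [← Polynomial.aeval_algHom_apply, sub0, MvPolynomial.aeval_X, Fin.cons_zero]
    have h1 : (MvPolynomial.C c : MvPolynomial (Fin m) K) = algebraMap K _ c := rfl
    rw [h1, Polynomial.aeval_algebraMap_apply]
    rfl
  · rw [big]
    congr 1
    refine congrArg List.ofFn (funext fun i => ?_)
    refine Matrix.ext fun a b => ?_
    change sub0 c (Polynomial.aeval (MvPolynomial.X i.succ) (E i a b)) =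
      Polynomial.aeval (MvPolynomial.X i) (E i a b)
    rw [← Polynomial.aeval_algHom_apply, sub0, MvPolynomial.aeval_X, Fin.cons_succ]

end Pool.Agent.LRch
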