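import Mathlib

/-!
# Products of polynomial matrices in separate variables
-/

set_option autoImplicit false

namespace Pool.Agent.LRch

/-- the product `E_1(T_1) ⋯ E_m(T_m)` over the polynomial ring in `T_1, ..., T_m` -/
noncomputable def big {K : Type*} [Field K] {r m : ℕ}
    (E : Fin m → Matrix (Fin r) (Fin r) (Polynomial K)) :
    Matrix (Fin r) (Fin r) (MvPolynomial (Fin m) K) :=
  (List.ofFn fun i => (E i).map (Polynomial.aeval (MvPolynomial.X i))).prod

/-- the substitution `T_0 := c`, `T_(i+1) := T_i` -/
noncomputable def sub0 {K : Type*} [Field K] {m : ℕ} (c : K) :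
    MvPolynomial (Fin (m + 1)) K →ₐ[K] MvPolynomial (Fin m) K :=
  MvPolynomial.aeval (Fin.cons (MvPolynomial.C c) MvPolynomial.X)

end Pool.Agent.LRch
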