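import Mathlib

/-!
# Finitely generated rings of characteristic zero have complex points
-/

set_option autoImplicit false

namespace Pool.Agent.LRch

/-- A finitely generated commutative ring in which no positive integer vanishes has a
homomorphism to the complex numbers.

PROOF. Let `M = Algebra.algebraMapSubmonoid R (nonZeroDivisors ℤ)` (the non-zero integers in `R`),
`S = Localization M`. Since `R` has characteristic zero, `0 ∉ M`, so `S` is nontrivial
(`IsLocalization.subsingleton_iff`: `Subsingleton S ↔ 0 ∈ M`). Let `m` be a maximal ideal of `S`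
(`Ideal.exists_maximal`) and `K = S ⧸ m`, a field. Every non-zero integer is a unit in `S`, so `K`
has characteristic zero (`charZero_of_injective_algebraMap`, or: a non-zero natural number is a
unit of `S`, hence non-zero in `K`); `K` is a `ℚ`-algebra (`DivisionRing.toRatAlgebra`). `K` is of
finite type over `ℚ`: generated by the images of the finitely many generators of `R` over `ℤ`:
the `ℚ`-subalgebra generated by them is everything, because an element of `S` is `r / N`
(`IsLocalization.mk'_surjective`, `IsLocalization.mk'_spec`) and `1 / N` lies in the image of `ℚ`.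
(Alternatively avoid `S`: the tensor product `ℚ ⊗[ℤ] R` is of finite type over `ℚ` by
`Algebra.FiniteType.baseChange`, and it is nontrivial: `IsLocalizedModule`/flatness of `ℚ` over
`ℤ`: `ℤ → R` injective gives `ℚ = ℚ ⊗ ℤ → ℚ ⊗ R` injective by
`Module.Flat.lTensor_preserves_injective_linearMap`.) By Zariski's lemma
(`finite_of_finite_type_of_isJacobsonRing ℚ K`) `K` is finite over `ℚ`, hence algebraic, so
`IsAlgClosed.lift : K →ₐ[ℚ] ℂ` exists. Compose `R → S → K → ℂ`. -/
theorem exists_hom_complex (R : Type*) [CommRing R] [CharZero R] [Algebra.FiniteType ℤ R] :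
    Nonempty (R →+* ℂ) := by
  have hft : Algebra.FiniteType ℚ (TensorProduct ℤ ℚ R) := inferInstance
  have hnt : Nontrivial (TensorProduct ℤ ℚ R) := by
    have hinj : Function.Injective (Algebra.linearMap ℤ R) := by
      intro a b hab
      simpa using hab
    have h1 := Module.Flat.lTensor_preserves_injective_linearMap (M := ℚ)
      (Algebra.linearMap ℤ R) hinj
    have h2 : Function.Injective
        ((LinearMap.lTensor ℚ (Algebra.linearMap ℤ R)) ∘ (TensorProduct.rid ℤ ℚ).symm) :=
      h1.comp (TensorProduct.rid ℤ ℚ).symm.injective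
    exact h2.nontrivial
  obtain ⟨m, hm⟩ := Ideal.exists_maximal (TensorProduct ℤ ℚ R)
  letI : Field (TensorProduct ℤ ℚ R ⧸ m) := Ideal.Quotient.field m
  have hft2 : Algebra.FiniteType ℚ (TensorProduct ℤ ℚ R ⧸ m) :=
    Algebra.FiniteType.of_surjective (Ideal.Quotient.mkₐ ℚ m) (Ideal.Quotient.mkₐ_surjective ℚ m)
  have hfin : Module.Finite ℚ (TensorProduct ℤ ℚ R ⧸ m) :=
    finite_of_finite_type_of_isJacobsonRing ℚ (TensorProduct ℤ ℚ R ⧸ m)
  have halg : Algebra.IsAlgebraic ℚ (TensorProduct ℤ ℚ R ⧸ m) := inferInstance
  let f : (TensorProduct ℤ ℚ R ⧸ m) →ₐ[ℚ] ℂ := IsAlgClosed.lift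
  exact ⟨f.toRingHom.comp ((Ideal.Quotient.mk m).comp
    (Algebra.TensorProduct.includeRight : R →ₐ[ℤ] TensorProduct ℤ ℚ R).toRingHom)⟩

end Pool.Agent.LRch
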