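import Mathlib
import Pool.Agent.LRch.CharA

/-!
# From representations over a ring of characteristic zero to complex ones
-/

set_option autoImplicit false

namespace Pool.Agent.LRch

/-- A representation of a finite group over a commutative ring of characteristic zero, such that
every `ρ h - 1`, `h ≠ 1`, has an entry which is a unit, gives a faithful complex representation.

PROOF. Choose `i h`, `j h` for `h ≠ 1` and the inverse `w h` of the unit
`(ρ h) i j - 1 i j`. Let `T : Set B` be the finite set of all entries of all `ρ h` and all `w h`,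
`R = Algebra.adjoin ℤ T`, a subalgebra of finite type (`Subalgebra.fg_adjoin_finset` /
`Algebra.FiniteType` through `Subalgebra.fg_iff_finiteType`), of characteristic zero as a subring
of `B`. `exists_hom_complex` gives `φ : R →+* ℂ`. The entries of `ρ h` and of `ρ h⁻¹ = (ρ h)⁻¹` lie
in `R`, so there is a monoid homomorphism `ρ' : H →* Matrix (Fin r) (Fin r) R`, `ρ' h = matrix of
the entries` (`map_one`, `map_mul` by injectivity of `R → B`, i.e. `Subtype.ext`), then
`σ' = (φ.mapMatrix : ..).comp ρ' : H →* Matrix (Fin r) (Fin r) ℂ` and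
`σ = σ'.toHomUnits : H →* (Matrix ..)ˣ = GL (Fin r) ℂ` (`MonoidHom.toHomUnits`). Injective: for
`h ≠ 1` the entry `(i h, j h)` of `σ h - 1` is `φ` of a unit of `R` (its inverse `w h` is in `R`),
hence non-zero, so `σ h ≠ 1` (`injective_iff_map_eq_one`). -/
theorem exists_rep_complex {r : ℕ} {B : Type*} [CommRing B] [CharZero B] {H : Type*} [Group H]
    [Finite H] (ρ : H →* GL (Fin r) B)
    (hρ : ∀ h : H, h ≠ 1 → ∃ i j : Fin r,
      IsUnit ((ρ h : Matrix (Fin r) (Fin r) B) i j - (1 : Matrix (Fin r) (Fin r) B) i j)) :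
    ∃ σ : H →* GL (Fin r) ℂ, Function.Injective σ := by
  classical
  have hc : ∀ h : H, ∃ w : B, h ≠ 1 → ∃ i j : Fin r,
      ((ρ h : Matrix (Fin r) (Fin r) B) i j - (1 : Matrix (Fin r) (Fin r) B) i j) * w = 1 := by
    intro h
    by_cases h1 : h = 1
    · exact ⟨0, fun h2 => absurd h1 h2⟩
    · obtain ⟨i, j, hu⟩ := hρ h h1
      obtain ⟨w, hw⟩ := hu.exists_right_inv
      exact ⟨w, fun _ => ⟨i, j, hw⟩⟩
  choose w hw using hc
  set T : Set B := Set.range (fun x : H × Fin r × Fin r =>
    (ρ x.1 : Matrix (Fin r) (Fin r) B) x.2.1 x.2.2) ∪ Set.range w with hT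
  have hTf : T.Finite := (Set.finite_range _).union (Set.finite_range _)
  have hfg : (Algebra.adjoin ℤ T).FG := Subalgebra.fg_def.2 ⟨T, hTf, rfl⟩
  have hft : Algebra.FiniteType ℤ (Algebra.adjoin ℤ T) := (Subalgebra.fg_iff_finiteType _).1 hfg
  have hcz : CharZero (Algebra.adjoin ℤ T) :=
    RingHom.charZero ((Algebra.adjoin ℤ T).val : Algebra.adjoin ℤ T →+* B)
  obtain ⟨φ⟩ := exists_hom_complex (Algebra.adjoin ℤ T)
  have hent : ∀ (h : H) (i j : Fin r),
      (ρ h : Matrix (Fin r) (Fin r) B) i j ∈ Algebra.adjoin ℤ T := fun h i j =>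
    Algebra.subset_adjoin (Or.inl ⟨(h, i, j), rfl⟩)
  have hwm : ∀ h : H, w h ∈ Algebra.adjoin ℤ T := fun h =>
    Algebra.subset_adjoin (Or.inr ⟨h, rfl⟩)
  let ρ' : H →* Matrix (Fin r) (Fin r) (Algebra.adjoin ℤ T) :=
    { toFun := fun h => Matrix.of fun i j =>
        ⟨(ρ h : Matrix (Fin r) (Fin r) B) i j, hent h i j⟩
      map_one' := by
        ext i j
        rw [Matrix.of_apply]
        simp only [map_one, Units.val_one, Matrix.one_apply]
        split_ifs <;> rfl
      map_mul' := by
        intro x y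
        ext i j
        simp only [Matrix.of_apply, Matrix.mul_apply, map_mul, Units.val_mul]
        push_cast
        rfl }
  let σ' : H →* Matrix (Fin r) (Fin r) ℂ := (φ.mapMatrix.toMonoidHom).comp ρ'
  refine ⟨σ'.toHomUnits, ?_⟩
  rw [injective_iff_map_eq_one]
  intro h hh
  by_contra h1
  obtain ⟨i, j, hij⟩ := hw h h1
  have e1 : σ' h = 1 := by
    have := congrArg (fun u : (Matrix (Fin r) (Fin r) ℂ)ˣ => (u : Matrix (Fin r) (Fin r) ℂ)) hh
    simpa using this
  have e2 : φ ⟨(ρ h : Matrix (Fin r) (Fin r) B) i j, hent h i j⟩ =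
      (1 : Matrix (Fin r) (Fin r) ℂ) i j := by
    rw [← e1]
    rfl
  have e3 : (⟨(ρ h : Matrix (Fin r) (Fin r) B) i j, hent h i j⟩ -
      (1 : Matrix (Fin r) (Fin r) (Algebra.adjoin ℤ T)) i j) *
      (⟨w h, hwm h⟩ : Algebra.adjoin ℤ T) = 1 := by
    apply Subtype.ext
    rw [MulMemClass.coe_mul, AddSubgroupClass.coe_sub, OneMemClass.coe_one]
    rw [← hij]
    congr 2
    rw [Matrix.one_apply, Matrix.one_apply]
    split_ifs <;> rfl
  have e4 := congrArg φ e3
  rw [map_mul, map_sub, e2, map_one] at e4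
  have e5 : φ ((1 : Matrix (Fin r) (Fin r) (Algebra.adjoin ℤ T)) i j) =
      (1 : Matrix (Fin r) (Fin r) ℂ) i j := by
    rw [Matrix.one_apply, Matrix.one_apply]
    split_ifs
    · exact map_one φ
    · exact map_zero φ
  rw [e5, sub_self, zero_mul] at e4
  exact zero_ne_one e4

end Pool.Agent.LRch
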