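import Mathlib

/-!
# Reduction modulo `p` of invertible matrices modulo `p ^ (n + 1)`
-/

set_option autoImplicit false

namespace Pool.Agent.LRch

/-- reduction modulo `p` of the invertible matrices modulo `p ^ (n + 1)` -/
noncomputable def red (r p n : ℕ) : GL (Fin r) (ZMod (p ^ (n + 1))) →* GL (Fin r) (ZMod p) :=
  Matrix.GeneralLinearGroup.map (ZMod.castHom (dvd_pow_self p (Nat.succ_ne_zero n)) (ZMod p))

/-- the entries of `red` -/
theorem red_apply (r p n : ℕ) (g : GL (Fin r) (ZMod (p ^ (n + 1)))) (i j : Fin r) :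
    (red r p n g : Matrix (Fin r) (Fin r) (ZMod p)) i j =
      ZMod.castHom (dvd_pow_self p (Nat.succ_ne_zero n)) (ZMod p)
        ((g : Matrix (Fin r) (Fin r) (ZMod (p ^ (n + 1)))) i j) := rfl

/-- an element of `ZMod (p ^ (n + 1))` which is non-zero modulo `p` is a unit.

PROOF. Write `x = (m : ZMod (p ^ (n+1)))` with `m : ℕ` (`ZMod.natCast_zmod_val`, `m = x.val`); the
cast is `(m : ZMod p) ≠ 0`, so `p` does not divide `m`, so `m` and `p ^ (n + 1)` are coprime
(`Nat.Coprime.pow_right`, `Nat.Prime.coprime_iff_not_dvd`), and `ZMod.isUnit_iff_coprime`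
(or `ZMod.unitOfCoprime`) finishes. -/
theorem isUnit_of_cast_ne_zero (p n : ℕ) [Fact p.Prime] (x : ZMod (p ^ (n + 1)))
    (hx : ZMod.castHom (dvd_pow_self p (Nat.succ_ne_zero n)) (ZMod p) x ≠ 0) : IsUnit x := by
  have hp : p.Prime := Fact.out
  obtain ⟨m, rfl⟩ := ZMod.natCast_zmod_surjective x
  rw [map_natCast] at hx
  rw [ZMod.isUnit_iff_coprime]
  refine Nat.Coprime.pow_right _ (Nat.Coprime.symm ?_)
  rw [Nat.Prime.coprime_iff_not_dvd hp]
  intro h
  exact hx ((ZMod.natCast_eq_zero_iff m p).2 h)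

/-- Every invertible matrix modulo `p` lifts to an invertible matrix modulo `p ^ (n + 1)`.

PROOF. `ZMod.castHom _ (ZMod p)` is surjective (`ZMod.castHom_surjective` or
`ZMod.ringHom_surjective`); lift the entries of `g` arbitrarily to a matrix `A` modulo `p ^ (n+1)`.
`det A` maps to `det g ≠ 0` (`RingHom.map_det`, `RingHom.mapMatrix`), so it is a unit by
`isUnit_of_cast_ne_zero`, and `A` gives an element of `GL` by `Matrix.GeneralLinearGroup.mk''` (or
`Matrix.isUnit_iff_isUnit_det` and `IsUnit.unit`). Finish with `Units.ext` / `Matrix.ext` and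
`red_apply`. -/
theorem red_surjective (r p n : ℕ) [Fact p.Prime] : Function.Surjective (red r p n) := by
  intro g
  set φ := ZMod.castHom (dvd_pow_self p (Nat.succ_ne_zero n)) (ZMod p) with hφ
  have hs : Function.Surjective φ := ZMod.ringHom_surjective φ
  choose f hf using fun i j => hs ((g : Matrix (Fin r) (Fin r) (ZMod p)) i j)
  let A : Matrix (Fin r) (Fin r) (ZMod (p ^ (n + 1))) := Matrix.of f
  have hA : φ.mapMatrix A = (g : Matrix (Fin r) (Fin r) (ZMod p)) := by
    ext i j
    exact hf i j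
  have hdet : IsUnit A.det := by
    apply isUnit_of_cast_ne_zero
    rw [← hφ, RingHom.map_det, hA]
    have h1 : IsUnit (g : Matrix (Fin r) (Fin r) (ZMod p)).det :=
      (Matrix.isUnit_iff_isUnit_det _).1 g.isUnit
    exact h1.ne_zero
  refine ⟨Matrix.GeneralLinearGroup.mk'' A hdet, ?_⟩
  apply Units.ext
  ext i j
  rw [red_apply]
  exact hf i j

end Pool.Agent.LRch
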