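import Mathlib
import Pool.Agent.LRch.RedKer

/-!
# The kernel of the reduction modulo `p` is a `p`-group
-/

set_option autoImplicit false

namespace Pool.Agent.LRch

private theorem step {S : Type*} [Ring S] (p i : ℕ) (h : S) (hd : (p : S) ^ (i + 1) ∣ h - 1) :
    (p : S) ^ (i + 2) ∣ h ^ p - 1 := by
  obtain ⟨Y, hY⟩ := hd
  have h1 : ∀ k, (p : S) ∣ h ^ k - 1 := by
    intro k
    refine ⟨(p : S) ^ i * Y * ∑ j ∈ Finset.range k, h ^ j, ?_⟩
    rw [← mul_geom_sum h k, hY, pow_succ']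
    simp only [mul_assoc]
  have h2 : (p : S) ∣ ∑ k ∈ Finset.range p, h ^ k := by
    have e : ∑ k ∈ Finset.range p, h ^ k = (p : S) + ∑ k ∈ Finset.range p, (h ^ k - 1) := by
      rw [Finset.sum_sub_distrib, Finset.sum_const, Finset.card_range, nsmul_eq_mul, mul_one]
      abel
    rw [e]
    exact dvd_add dvd_rfl (Finset.dvd_sum fun k _ => h1 k)
  obtain ⟨W, hW⟩ := h2
  refine ⟨Y * W, ?_⟩
  rw [← mul_geom_sum h p, hY, hW, pow_succ (p : S) (i + 1), mul_assoc, mul_assoc,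
    ← mul_assoc Y (p : S) W, ← (Nat.cast_commute p Y).eq, mul_assoc (p : S) Y W]

private theorem exists_mul_of_cast {p n : ℕ} [Fact p.Prime] (x : ZMod (p ^ (n + 1)))
    (hx : ZMod.castHom (dvd_pow_self p (Nat.succ_ne_zero n)) (ZMod p) x = 0) :
    ∃ y : ZMod (p ^ (n + 1)), x = p * y := by
  have hne : NeZero (p ^ (n + 1)) := ⟨pow_ne_zero _ (Fact.out : p.Prime).ne_zero⟩
  have h1 : ((x.val : ℕ) : ZMod (p ^ (n + 1))) = x := ZMod.natCast_zmod_val x
  rw [← h1, map_natCast] at hx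
  have h2 : p ∣ x.val := (ZMod.natCast_eq_zero_iff _ _).1 hx
  obtain ⟨m, hm⟩ := h2
  refine ⟨(m : ZMod (p ^ (n + 1))), ?_⟩
  rw [← Nat.cast_mul, ← hm, h1]

/-- The kernel of the reduction is a `p`-group.

PROOF. Let `R = ZMod (p ^ (n + 1))`, `g` in the kernel. All entries of `g - 1` are divisible by `p`
in `R` (an element of `ZMod (p ^ (n + 1))` with zero cast to `ZMod p` is `p * y`: write it as the
cast of `m = x.val`, `p ∣ m`), so `g - 1 = p • X` for a matrix `X`. Claim: for every `i`,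
`g ^ p ^ i = 1 + p ^ (i + 1) • X_i` for some matrix `X_i`. Step: if `h = 1 + p ^ (i + 1) • Y` then
`h ^ p = Σ_k binom(p,k) p ^ (k (i + 1)) Y ^ k` (`Commute.add_pow`, `1` and `Y` commute); the term
`k = 0` is `1`, the term `k = 1` is divisible by `p ^ (i + 2)`, the terms `k ≥ 2` are divisible by
`p ^ (2 (i + 1))`, `2 (i + 1) ≥ i + 2`. (Shorter: `h ^ p - 1 = (h - 1) * Σ_(k<p) h ^ k`
(`geom_sum_mul` for matrices, `Commute.geom_sum₂_mul` ..) and `Σ_(k<p) h ^ k = p • 1 + (h - 1) * Z`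
is divisible by `p`.) With `i = n`: `g ^ p ^ n = 1` since `(p : R) ^ (n + 1) = 0`. So the order of
every element is a power of `p`: `IsPGroup p G := ∀ g : G, ∃ k, g ^ p ^ k = 1`. -/
theorem isPGroup_ker_red (r p n : ℕ) [Fact p.Prime] : IsPGroup p (red r p n).ker := by
  rintro ⟨g, hg⟩
  refine ⟨n, ?_⟩
  set A : Matrix (Fin r) (Fin r) (ZMod (p ^ (n + 1))) := g.val with hA
  have hg1 : red r p n g = 1 := (MonoidHom.mem_ker).1 hg
  have h0 : ∀ i j, ∃ y : ZMod (p ^ (n + 1)), (A - 1) i j = p * y := by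
    intro i j
    apply exists_mul_of_cast
    have h1 := red_apply r p n g i j
    rw [hg1] at h1
    rw [Matrix.sub_apply, map_sub, ← h1, Units.val_one, Matrix.one_apply, Matrix.one_apply]
    split_ifs
    · rw [map_one, sub_self]
    · rw [map_zero, sub_self]
  choose Y hY using h0
  have hstart : (p : Matrix (Fin r) (Fin r) (ZMod (p ^ (n + 1)))) ∣ A - 1 := by
    refine ⟨Matrix.of Y, ?_⟩
    rw [← nsmul_eq_mul]
    ext i j
    rw [hY, Matrix.smul_apply, Matrix.of_apply, nsmul_eq_mul]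
  have hall : ∀ i : ℕ, (p : Matrix (Fin r) (Fin r) (ZMod (p ^ (n + 1)))) ^ (i + 1) ∣
      A ^ p ^ i - 1 := by
    intro i
    induction i with
    | zero => simpa using hstart
    | succ i ih =>
      rw [pow_succ p i, pow_mul]
      exact step p i _ ih
  have hn := hall n
  have hz : (p : Matrix (Fin r) (Fin r) (ZMod (p ^ (n + 1)))) ^ (n + 1) = 0 := by
    rw [← Nat.cast_pow,
      ← map_natCast (algebraMap (ZMod (p ^ (n + 1)))
        (Matrix (Fin r) (Fin r) (ZMod (p ^ (n + 1))))), ZMod.natCast_self, map_zero]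
  rw [hz, zero_dvd_iff, sub_eq_zero] at hn
  apply Subtype.ext
  apply Units.ext
  change (g ^ p ^ n : GL (Fin r) (ZMod (p ^ (n + 1)))).val = 1
  rw [Units.val_pow_eq_pow_val]
  exact hn

end Pool.Agent.LRch
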