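import Mathlib

/-!
# Sections of surjective homomorphisms of coprime orders (Schur-Zassenhaus)
-/

set_option autoImplicit false

namespace Pool.Agent.LRch

/-- A surjective homomorphism `f : E → H` of finite groups whose kernel has order prime to the
order of `H` has a section which is a homomorphism.

PROOF. `N = f.ker` is normal, `N.index = Nat.card H` (`Subgroup.index_ker`, `MonoidHom.range_eq_top`
or `Nat.card_congr (QuotientGroup.quotientKerEquivOfSurjective f hf)`), so
`Subgroup.exists_right_complement'_of_coprime` (file Mathlib/GroupTheory/SchurZassenhaus) gives a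
subgroup `K` with `N.IsComplement' K`. The restriction of `f` to `K` is bijective onto `H`:
injective because `N ⊓ K = ⊥` (`Subgroup.IsComplement'.disjoint`), surjective because every `e : E`
is `n * k` with `n ∈ N`, `k ∈ K` (`Subgroup.IsComplement'.sup_eq_top` and `Subgroup.mem_sup`, or the
surjectivity in the definition), and `f (n * k) = f k`. Take the inverse of
`MulEquiv.ofBijective (f.comp K.subtype) _`, composed with `K.subtype`. -/
theorem exists_section {E H : Type*} [Group E] [Group H] [Finite E] (f : E →* H)
    (hf : Function.Surjective f) (hc : (Nat.card f.ker).Coprime (Nat.card H)) :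
    ∃ g : H →* E, ∀ h, f (g h) = h := by
  have hidx : f.ker.index = Nat.card H := by
    rw [Subgroup.index_ker]
    exact Nat.card_congr ((Equiv.setCongr (by
      rw [MonoidHom.range_eq_top.2 hf]; rfl)).trans (Equiv.Set.univ H))
  obtain ⟨K, hK⟩ := Subgroup.exists_right_complement'_of_coprime (N := f.ker)
    (by rw [hidx]; exact hc)
  have hinj : Function.Injective (f.comp K.subtype) := by
    refine (injective_iff_map_eq_one _).2 fun x hx => ?_
    have h1 : (x : E) ∈ f.ker := hx
    have h2 := Subgroup.disjoint_def.1 hK.disjoint h1 x.2
    exact Subtype.ext h2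
  have hsurj : Function.Surjective (f.comp K.subtype) := by
    intro h
    obtain ⟨e, rfl⟩ := hf h
    obtain ⟨⟨a, b⟩, hab⟩ := hK.2 e
    refine ⟨b, ?_⟩
    have h1 : (a : E) * (b : E) = e := hab
    rw [← h1, map_mul]
    have h2 : f a = 1 := a.2
    rw [h2, one_mul]
    rfl
  let e := MulEquiv.ofBijective (f.comp K.subtype) ⟨hinj, hsurj⟩
  exact ⟨K.subtype.comp e.symm.toMonoidHom, fun h => e.apply_symm_apply h⟩

end Pool.Agent.LRch
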