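import Mathlib
import Pool.Agent.LRch.Sec
import Pool.Agent.LRch.RedPGr

/-!
# Lifting `p'`-groups of matrices modulo `p` to `p ^ (n + 1)`
-/

set_option autoImplicit false

namespace Pool.Agent.LRch

/-- A group of invertible matrices modulo `p` of order prime to `p` lifts to `p ^ (n + 1)`.

PROOF. `E = H.comap (red r p n)` is a finite group, `f : E →* H` the restriction of `red r p n`
(`(red r p n).subgroupComap H` or `MonoidHom.codRestrict`/`restrict`), surjective by
`red_surjective`. Its kernel injects into `(red r p n).ker`, which is a `p`-group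
(`isPGroup_ker_red`; `IsPGroup.of_injective`), so its order is a power of `p`
(`IsPGroup.iff_card`), prime to `Nat.card H` (`Nat.Coprime.pow_left`, `hH`). Apply
`exists_section` and compose with `E.subtype`. -/
theorem exists_lift (r p n : ℕ) [Fact p.Prime] (H : Subgroup (GL (Fin r) (ZMod p)))
    (hH : (Nat.card H).Coprime p) :
    ∃ ρ : H →* GL (Fin r) (ZMod (p ^ (n + 1))), ∀ h : H, red r p n (ρ h) = h := by
  have hp : p.Prime := Fact.out
  have : NeZero (p ^ (n + 1)) := ⟨pow_ne_zero _ hp.ne_zero⟩
  have hfin : Finite (GL (Fin r) (ZMod (p ^ (n + 1)))) := inferInstance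
  have hsurj : Function.Surjective ((red r p n).subgroupComap H) := by
    rintro ⟨h, hh⟩
    obtain ⟨g, hg⟩ := red_surjective r p n h
    exact ⟨⟨g, by rw [Subgroup.mem_comap, hg]; exact hh⟩, Subtype.ext hg⟩
  have hpg : IsPGroup p ((red r p n).subgroupComap H).ker := by
    intro g
    have h1 : (g.1 : GL (Fin r) (ZMod (p ^ (n + 1)))) ∈ (red r p n).ker := by
      have h2 : (red r p n).subgroupComap H g.1 = 1 := g.2
      exact congrArg Subtype.val h2
    obtain ⟨k, hk⟩ := isPGroup_ker_red r p n ⟨_, h1⟩
    refine ⟨k, ?_⟩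
    have h3 := congrArg Subtype.val hk
    exact Subtype.ext (Subtype.ext h3)
  obtain ⟨k, hk⟩ := IsPGroup.iff_card.1 hpg
  obtain ⟨g, hg⟩ := exists_section ((red r p n).subgroupComap H) hsurj (by
    rw [hk]
    exact (hH.pow_right k).symm)
  refine ⟨(H.comap (red r p n)).subtype.comp g, fun h => ?_⟩
  exact congrArg Subtype.val (hg h)

end Pool.Agent.LRch
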