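import Mathlib
import Pool.Agent.LRch.LiftN
import Pool.Agent.LRch.CharB

/-!
# `p'`-groups of matrices modulo `p` have faithful complex representations of the same degree
-/

set_option autoImplicit false

namespace Pool.Agent.LRch

/-- A group of invertible `r × r` matrices modulo `p` whose order is prime to `p` has a faithful
complex representation of degree `r`.

PROOF. `B = (n : ℕ) → ZMod (p ^ (n + 1))` (a product of commutative rings) has characteristic zero:
if the natural number `N` is zero in `B` then `p ^ (n + 1) ∣ N` for all `n`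
(`ZMod.natCast_eq_zero_iff`), so `N = 0` (`N < p ^ (N + 1)`, `Nat.lt_pow_self`). Choose lifts
`ρ_n` by `exists_lift`, and let `ρ : H →* GL (Fin r) B` have the components `ρ_n`:
`ρ' h = (fun i j n => (ρ_n h) i j) : Matrix (Fin r) (Fin r) B` is a monoid homomorphism
(`Matrix.mul_apply`, `Finset.sum_apply`, `Pi.mul_apply`), take `ρ'.toHomUnits`. For `h ≠ 1` there
are `i, j` with `(h : Matrix) i j ≠ 1 i j` in `ZMod p`; then `(ρ_n h) i j - 1 i j` is non-zero
modulo `p` for every `n` (`red_apply`, and the equation for `ρ_n`), so a unit by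
`isUnit_of_cast_ne_zero`, and an element of a product is a unit if all components are
(`Pi.isUnit_iff`). Apply `exists_rep_complex`. -/
theorem exists_rep_p (r p : ℕ) [Fact p.Prime] (H : Subgroup (GL (Fin r) (ZMod p)))
    (hH : (Nat.card H).Coprime p) :
    ∃ σ : H →* GL (Fin r) ℂ, Function.Injective σ := by
  classical
  have hp : p.Prime := Fact.out
  choose ρn hρn using fun n => exists_lift r p n H hH
  have hcz : CharZero ((n : ℕ) → ZMod (p ^ (n + 1))) := by
    apply charZero_of_inj_zero
    intro N hN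
    have h1 : ((N : ℕ) : ZMod (p ^ (N + 1))) = 0 := congrFun hN N
    have h2 : p ^ (N + 1) ∣ N := (ZMod.natCast_eq_zero_iff _ _).1 h1
    refine Nat.eq_zero_of_dvd_of_lt h2 ?_
    exact lt_of_lt_of_le (Nat.lt_pow_self hp.one_lt)
      (Nat.pow_le_pow_right hp.pos (Nat.le_succ N))
  let ρ' : H →* Matrix (Fin r) (Fin r) ((n : ℕ) → ZMod (p ^ (n + 1))) :=
    { toFun := fun h => Matrix.of fun i j n =>
        (ρn n h : Matrix (Fin r) (Fin r) (ZMod (p ^ (n + 1)))) i j
      map_one' := by
        ext i j n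
        rw [Matrix.of_apply, map_one, Units.val_one, Matrix.one_apply, Matrix.one_apply]
        split_ifs <;> rfl
      map_mul' := by
        intro x y
        ext i j n
        rw [Matrix.of_apply, map_mul, Units.val_mul, Matrix.mul_apply, Matrix.mul_apply,
          Finset.sum_apply]
        rfl }
  have hval : ∀ h : H, ((ρ'.toHomUnits h : GL (Fin r) ((n : ℕ) → ZMod (p ^ (n + 1)))) :
      Matrix (Fin r) (Fin r) ((n : ℕ) → ZMod (p ^ (n + 1)))) = ρ' h := fun h => rfl
  refine exists_rep_complex ρ'.toHomUnits fun h h1 => ?_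
  have hne : (h : GL (Fin r) (ZMod p)) ≠ 1 := fun e => h1 (Subtype.ext e)
  have hex : ∃ i j, ((h : GL (Fin r) (ZMod p)) : Matrix (Fin r) (Fin r) (ZMod p)) i j ≠
      (1 : Matrix (Fin r) (Fin r) (ZMod p)) i j := by
    by_contra hcon
    push Not at hcon
    apply hne
    apply Units.ext
    ext i j
    exact hcon i j
  obtain ⟨i, j, hij⟩ := hex
  refine ⟨i, j, ?_⟩
  rw [hval, Pi.isUnit_iff]
  intro n
  apply isUnit_of_cast_ne_zero
  have e1 : (((ρ' h : Matrix (Fin r) (Fin r) ((n : ℕ) → ZMod (p ^ (n + 1)))) i j -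
      (1 : Matrix (Fin r) (Fin r) ((n : ℕ) → ZMod (p ^ (n + 1)))) i j) n) =
      (ρn n h : Matrix (Fin r) (Fin r) (ZMod (p ^ (n + 1)))) i j -
      (1 : Matrix (Fin r) (Fin r) (ZMod (p ^ (n + 1)))) i j := by
    rw [Pi.sub_apply]
    congr 1
    rw [Matrix.one_apply, Matrix.one_apply]
    split_ifs <;> rfl
  rw [e1, map_sub, ← red_apply, hρn n h, Matrix.one_apply]
  rw [Matrix.one_apply] at hij
  intro h0
  apply hij
  rw [sub_eq_zero] at h0
  rw [h0]
  split_ifs
  · rw [map_one]
  · rw [map_zero]

end Pool.Agent.LRch
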