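import Pool.Agent.LRch.PclTools

/-!
# Package LRch-Chars: finite groups with an injective homomorphism to `(Kˣ)^r`

*`pcl_chars`.* Induction on `r` for subgroups `H` of a fixed group `G`. `r = 0`: `H` is trivial.
`r + 1`: `f : H →* Kˣ`, `f x = χ x 0`; its range is a finite subgroup of the units of a field, hence
cyclic (`subgroup_units_cyclic` or the instance; compare `AbGen.lean`). `N = f.ker.map H.subtype`;
the other coordinates define an injective homomorphism on `N` (through `f.ker ≃* N`,
`Subgroup.equivMapOfInjective`), so `PCL r N`, and `pcl_ker` gives `PCL (r + 1) H`.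

Difficulty: 0.4 h.
-/

set_option autoImplicit false

namespace Pool.Agent.LRch

open Pool.Agent.ECD

theorem pcl_chars {K : Type*} [Field K] {G : Type*} [Group G] [Finite G] (r : ℕ)
    (H : Subgroup G) (χ : H →* (Fin r → Kˣ)) (h : Function.Injective χ) : PCL r H := by
  induction r generalizing H with
  | zero =>
    change H = ⊥
    rw [Subgroup.eq_bot_iff_forall]
    intro x hx
    have h1 : (⟨x, hx⟩ : H) = 1 := h (Subsingleton.elim _ _)
    exact congrArg Subtype.val h1
  | succ r ih =>
    let g : H →* Kˣ := (Pi.evalMonoidHom (fun _ : Fin (r + 1) => Kˣ) 0).comp χ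
    have hg : ∀ x, g x = χ x 0 := fun x => rfl
    haveI : Finite g.range := (Set.finite_range g).to_subtype
    have hcyc : IsCyclic g.range := by
      refine isCyclic_of_subgroup_isDomain ((Units.coeHom K).comp g.range.subtype) ?_
      intro x y hxy
      exact Subtype.ext (Units.ext hxy)
    have hle : g.ker.map H.subtype ≤ H := by
      rintro _ ⟨x, _, rfl⟩
      exact x.2
    let χ' : (g.ker.map H.subtype : Subgroup G) →* (Fin r → Kˣ) :=
      { toFun := fun x i => χ (Subgroup.inclusion hle x) i.succ
        map_one' := by
          funext i
          simp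
        map_mul' := by
          intro x y
          funext i
          simp }
    refine pcl_ker g (ih _ χ' ?_) hcyc
    intro x y hxy
    have hx0 : ∀ z : (g.ker.map H.subtype : Subgroup G), χ (Subgroup.inclusion hle z) 0 = 1 := by
      rintro ⟨_, w, hw, rfl⟩
      exact hw
    have h1 : χ (Subgroup.inclusion hle x) = χ (Subgroup.inclusion hle y) := by
      funext i
      refine Fin.cases ?_ (fun j => ?_) i
      · rw [hx0, hx0]
      · exact congrFun hxy j
    exact Subgroup.inclusion_injective hle (h h1)

end Pool.Agent.LRch
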