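import Pool.Agent.LRch.Big

/-!
# Package LRch-Closed: a product of curves of maximal dimension

`U` is a set of polynomial matrices `E` (curves) with `E(0) = 1`. There are `m ≤ r * r` curves `E_1,
..., E_m ∈ U` such that `m` entries of `big E` are algebraically independent and such that every
polynomial relation `f` between the entries of `big E` remains true for `F(S) * big E`, `F ∈ U`, `S`
a new variable (the variable `0` of `big (Fin.cons F E)`).

*Proof.* Choose `m` maximal such that for some curves `E_1..E_m ∈ U` there are `m` entries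
(positions `ι : Fin m → Fin r × Fin r`) of `big E` that are algebraically independent over `K`; then
`ι` is injective (`AlgebraicIndependent.injective`), so `m ≤ r * r`, and `m = 0` is possible, so the
maximum exists (`Nat.findGreatest` or `exists_max` on a bounded nonempty set of naturals). Let `f`
be a polynomial with `f(big E) = 0` and `F ∈ U`, `ψ = big (Fin.cons F E)`, over the domain `R =
MvPolynomial (Fin (m + 1)) K`, and suppose `a := f(ψ) ≠ 0`. Put `b i = ψ (ι i)` and let `s = sub0 0
: R → MvPolynomial (Fin m) K`. By `big_cons` and `F(0) = 1`, `ψ.map s = big E`, so `s a = f(big E) =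
0` and `s (b i) = big E (ι i)` are algebraically independent.

(1) `a` is transcendental over `A = Algebra.adjoin K (Set.range b)`: the `b i` are algebraically
independent (their images are: `AlgebraicIndependent.of_aeval` / `of_comp`: apply `s` to a
relation). If `P(a) = 0` with `0 ≠ P ∈ A[Y]` of minimal degree (or divide by the highest power of
`Y`, `R` is a domain and `a ≠ 0`), the constant term `P_0 ∈ A` is not `0`, `P_0 = g(b)` with `0 ≠ g
∈ K[Z_1..Z_m]`, and applying `s`: `0 = s (P(a)) = s (P_0) = g(s b)` because `s a = 0`; so `g = 0` by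
independence, contradiction. (2) If every entry of `ψ` were algebraic over `A`, then `a`, a
polynomial in the entries, would be algebraic over `A` (`Subalgebra` of the elements algebraic over
a domain: `integralClosure`-like `algebraicClosure`/`IsAlgebraic.add`, `IsAlgebraic.mul`, or
`MvPolynomial.induction_on`). So some entry `ψ e` is transcendental over `A`, and `ψ e, b_1, ...,
b_m` are algebraically independent (`algebraicIndependent_cons`-type lemma:
`AlgebraicIndependent.option_iff_transcendental`, `Fin.cons`), `m + 1` entries of `big` of `m + 1`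
curves of `U`: contradiction with the maximality.

Difficulty: 1.5 h.
-/

set_option autoImplicit false

namespace Pool.Agent.LRch

private theorem closed_le {K : Type*} [Field K] {r m : ℕ}
    {E : Fin m → Matrix (Fin r) (Fin r) (Polynomial K)} {ι : Fin m → Fin r × Fin r}
    (h : AlgebraicIndependent K (fun i => big E (ι i).1 (ι i).2)) : m ≤ r * r := by
  have h1 : Function.Injective ι := by
    intro i j hij
    refine h.injective ?_
    simp only [hij]
  have h2 := Fintype.card_le_of_injective ι h1
  rwa [Fintype.card_fin, Fintype.card_prod, Fintype.card_fin] at h2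

private theorem closed_sub {K : Type*} [Field K] {r m : ℕ}
    {F : Matrix (Fin r) (Fin r) (Polynomial K)} (hF : F.map (Polynomial.eval 0) = 1)
    (E : Fin m → Matrix (Fin r) (Fin r) (Polynomial K)) (i j : Fin r) :
    sub0 0 (big (Fin.cons F E : Fin (m + 1) → Matrix (Fin r) (Fin r) (Polynomial K)) i j) =
      big E i j := by
  have h1 := big_cons F E 0
  rw [hF, Matrix.map_one _ (map_zero _) (map_one _), one_mul] at h1
  rw [← h1, Matrix.map_apply]

private theorem closed_coeff {K R S : Type*} [Field K] [CommRing R] [IsDomain R] [CommRing S]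
    [Algebra K R] [Algebra K S] {m : ℕ} (s : R →ₐ[K] S) (b : Fin m → R)
    (hb : AlgebraicIndependent K (fun i => s (b i))) {a : R} (ha : a ≠ 0) (hs : s a = 0) (n : ℕ) :
    ∀ P : Polynomial (Algebra.adjoin K (Set.range b)), P.natDegree = n →
      Polynomial.aeval a P = 0 → P = 0 := by
  have hinj : ∀ y ∈ Algebra.adjoin K (Set.range b), s y = 0 → y = 0 := by
    intro y hy hsy
    rw [Algebra.adjoin_range_eq_range_aeval] at hy
    obtain ⟨g, rfl⟩ := hy
    have h1 : MvPolynomial.aeval (fun i => s (b i)) g = 0 := by
      rw [← hsy]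
      change _ = (s.comp (MvPolynomial.aeval b)) g
      rw [MvPolynomial.comp_aeval]
    have h2 : g = 0 := by
      have h3 := hb
      rw [algebraicIndependent_iff] at h3
      exact h3 g h1
    rw [h2]
    exact map_zero _
  have h0 : ∀ P : Polynomial (Algebra.adjoin K (Set.range b)), Polynomial.aeval a P = 0 →
      P.coeff 0 = 0 := by
    intro P hP
    have h1 : s (Polynomial.aeval a P) = s ((P.coeff 0 : Algebra.adjoin K (Set.range b)) : R) := by
      conv_lhs => rw [← Polynomial.divX_mul_X_add P]
      rw [map_add, map_mul, Polynomial.aeval_X, map_add, map_mul, hs, mul_zero, zero_add,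
        Polynomial.aeval_C]
      rfl
    rw [hP, map_zero] at h1
    exact Subtype.val_injective (hinj _ (P.coeff 0).2 h1.symm)
  have hd : ∀ P : Polynomial (Algebra.adjoin K (Set.range b)), Polynomial.aeval a P = 0 →
      Polynomial.aeval a P.divX = 0 ∧ P = P.divX * Polynomial.X := by
    intro P hP
    have h1 := Polynomial.divX_mul_X_add P
    rw [h0 P hP, map_zero, add_zero] at h1
    refine ⟨?_, h1.symm⟩
    rw [← h1, map_mul, Polynomial.aeval_X] at hP
    exact (mul_eq_zero.1 hP).resolve_right ha
  induction n with
  | zero =>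
    intro P hP h1
    rw [Polynomial.eq_C_of_natDegree_eq_zero hP, h0 P h1, map_zero]
  | succ n ih =>
    intro P hP h1
    obtain ⟨h2, h3⟩ := hd P h1
    rw [h3, ih P.divX (by rw [Polynomial.natDegree_divX_eq_natDegree_tsub_one, hP]; rfl) h2,
      zero_mul]

private theorem closed_alg {K R σ : Type*} [Field K] [CommRing R] [IsDomain R] [Algebra K R]
    (A : Subalgebra K R) (x : σ → R) (hx : ∀ i, IsAlgebraic A (x i)) (f : MvPolynomial σ K) :
    IsAlgebraic A (MvPolynomial.aeval x f) := by
  induction f using MvPolynomial.induction_on with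
  | C c =>
    rw [MvPolynomial.aeval_C, IsScalarTower.algebraMap_apply K A R]
    exact isAlgebraic_algebraMap _
  | add p q hp hq =>
    rw [map_add]
    exact hp.add hq
  | mul_X p i hp =>
    rw [map_mul, MvPolynomial.aeval_X]
    exact hp.mul (hx i)

theorem closed_max {K : Type*} [Field K] {r : ℕ}
    (U : Set (Matrix (Fin r) (Fin r) (Polynomial K)))
    (h0 : ∀ E ∈ U, E.map (Polynomial.eval 0) = 1) :
    ∃ (m : ℕ) (E : Fin m → Matrix (Fin r) (Fin r) (Polynomial K))
      (ι : Fin m → Fin r × Fin r), (∀ i, E i ∈ U) ∧ m ≤ r * r ∧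
      AlgebraicIndependent K (fun i => big E (ι i).1 (ι i).2) ∧
      ∀ f : MvPolynomial (Fin r × Fin r) K,
        MvPolynomial.aeval (fun s : Fin r × Fin r => big E s.1 s.2) f = 0 →
        ∀ F ∈ U, MvPolynomial.aeval (fun s : Fin r × Fin r =>
          big (Fin.cons F E : Fin (m + 1) → Matrix (Fin r) (Fin r) (Polynomial K)) s.1 s.2)
            f = 0 := by
  classical
  let P : ℕ → Prop := fun m => ∃ (E : Fin m → Matrix (Fin r) (Fin r) (Polynomial K))
    (ι : Fin m → Fin r × Fin r), (∀ i, E i ∈ U) ∧
      AlgebraicIndependent K (fun i => big E (ι i).1 (ι i).2)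
  have hP0 : P 0 := by
    refine ⟨fun i => i.elim0, fun i => i.elim0, fun i => i.elim0, ?_⟩
    rw [algebraicIndependent_empty_type_iff]
    exact MvPolynomial.C_injective _ _
  have hPle : ∀ m, P m → m ≤ r * r := by
    rintro m ⟨E, ι, -, h⟩
    exact closed_le h
  obtain ⟨m, hm, hmax⟩ : ∃ m, P m ∧ ¬ P (m + 1) := by
    by_contra hcon
    push Not at hcon
    have h1 : ∀ m, P m := by
      intro m
      induction m with
      | zero => exact hP0
      | succ m ih => exact hcon m ih
    have h2 := hPle (r * r + 1) (h1 _)
    omega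
  obtain ⟨E, ι, hEU, hind⟩ := hm
  refine ⟨m, E, ι, hEU, closed_le hind, hind, ?_⟩
  intro f hf F hF
  by_contra ha
  apply hmax
  set ψ : Matrix (Fin r) (Fin r) (MvPolynomial (Fin (m + 1)) K) :=
    big (Fin.cons F E : Fin (m + 1) → Matrix (Fin r) (Fin r) (Polynomial K)) with hψ
  have hs : ∀ i j, sub0 0 (ψ i j) = big E i j := closed_sub (h0 F hF) E
  set b : Fin m → MvPolynomial (Fin (m + 1)) K := fun i => ψ (ι i).1 (ι i).2 with hb
  have hsb : AlgebraicIndependent K (fun i => sub0 0 (b i)) := by
    have h1 : (fun i => sub0 0 (b i)) = fun i => big E (ι i).1 (ι i).2 := by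
      funext i
      exact hs _ _
    rw [h1]
    exact hind
  have hsa : sub0 0 (MvPolynomial.aeval (fun s : Fin r × Fin r => ψ s.1 s.2) f) = 0 := by
    rw [← hf]
    have h1 : (fun s : Fin r × Fin r => big E s.1 s.2) =
        fun s : Fin r × Fin r => sub0 0 (ψ s.1 s.2) := by
      funext s
      exact (hs _ _).symm
    rw [h1]
    change ((sub0 0).comp (MvPolynomial.aeval fun s : Fin r × Fin r => ψ s.1 s.2)) f = _
    rw [MvPolynomial.comp_aeval]
  have hbind : AlgebraicIndependent K b := AlgebraicIndependent.of_comp (sub0 0) hsb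
  have htr : ∃ e : Fin r × Fin r,
      Transcendental (Algebra.adjoin K (Set.range b)) (ψ e.1 e.2) := by
    by_contra hcon
    push Not at hcon
    have h1 : ∀ e : Fin r × Fin r,
        IsAlgebraic (Algebra.adjoin K (Set.range b)) (ψ e.1 e.2) := by
      intro e
      by_contra h2
      exact hcon e h2
    obtain ⟨Q, hQ0, hQ⟩ := closed_alg _ (fun s : Fin r × Fin r => ψ s.1 s.2) h1 f
    exact hQ0 (closed_coeff (sub0 0) b hsb ha hsa Q.natDegree Q rfl hQ)
  obtain ⟨e, he⟩ := htr
  refine ⟨Fin.cons F E, Fin.cons e ι, ?_, ?_⟩
  · intro i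
    refine Fin.cases ?_ (fun i => ?_) i
    · exact hF
    · exact hEU i
  · have h1 := (hbind.option_iff_transcendental (ψ e.1 e.2)).2 he
    have h2 := h1.comp (finSuccEquiv m) (finSuccEquiv m).injective
    have h3 : ((fun o : Option (Fin m) => o.elim (ψ e.1 e.2) b) ∘ finSuccEquiv m) =
        fun i : Fin (m + 1) => ψ ((Fin.cons e ι : Fin (m + 1) → Fin r × Fin r) i).1
          ((Fin.cons e ι : Fin (m + 1) → Fin r × Fin r) i).2 := by
      funext i
      refine Fin.cases ?_ (fun i => ?_) i
      · simp
      · simp [hb]
    rw [h3] at h2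
    exact h2

end Pool.Agent.LRch
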