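import Mathlib

/-!
# Commutators commuting with both factors, linear algebra
-/

set_option autoImplicit false

namespace Pool.Agent.LRch

/-- If `a`, `b` are invertible endomorphisms of a finite dimensional complex vector space with
`a * b = c * b * a`, `c` commutes with `a` and `b`, `c ^ n = 1` for some `n > 0` and `c ≠ 1`, then
`c` has an eigenvalue `z ≠ 1` with `z ^ k = 1` for some `1 ≤ k ≤ dim V`.

PROOF. `c` is semisimple: the polynomial `X ^ n - 1` is squarefree over `ℂ`
(`Polynomial.separable_X_pow_sub_C` / `Polynomial.Separable.squarefree`) and kills `c`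
(`Module.End.isSemisimple_of_squarefree_aeval_eq_zero`). So the eigenspaces of `c` span `V`
(`Module.End.IsSemisimple.iSup_eigenspace_eq_top`); if all of them with `μ ≠ 1` were zero,
`c.eigenspace 1 = ⊤`, i.e. `c = 1`. So there is `z ≠ 1` with `W = c.eigenspace z ≠ ⊥`
(`Module.End.HasEigenvalue`). `a` and `b` map `W` to `W` (they commute with `c`:
`Module.End.mem_eigenspace_iff`, or `Module.End.mapsTo_genEigenspace_of_comm`). The restrictions
`a'`, `b'` to `W` (`LinearMap.restrict`) are injective, hence have non-zero determinant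
(`LinearMap.isUnit_det`/`LinearMap.det_ne_zero..`, `LinearMap.isUnit_iff_ker_eq_bot` in finite
dimension), and `a' * b' = z • (b' * a')`. Taking `LinearMap.det`
(`LinearMap.det_smul`, `map_mul`): `det a' * det b' = z ^ finrank W * (det b' * det a')`, so
`z ^ finrank W = 1`. `k = finrank W` is at least `1` since `W ≠ ⊥` and at most `finrank V`
(`Submodule.finrank_le`). -/
theorem eigen_root {V : Type*} [AddCommGroup V] [Module ℂ V] [FiniteDimensional ℂ V]
    (a b c : Module.End ℂ V) (ha : IsUnit a) (hb : IsUnit b) (hab : a * b = c * b * a)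
    (hca : Commute c a) (hcb : Commute c b) (n : ℕ) (hn : 0 < n) (hc : c ^ n = 1) (hc1 : c ≠ 1) :
    ∃ z : ℂ, c.HasEigenvalue z ∧ z ≠ 1 ∧ ∃ k : ℕ, 1 ≤ k ∧ k ≤ Module.finrank ℂ V ∧ z ^ k = 1 := by
  have hsq : Squarefree (Polynomial.X ^ n - Polynomial.C (1 : ℂ)) :=
    (Polynomial.separable_X_pow_sub_C (1 : ℂ) (by exact_mod_cast hn.ne') one_ne_zero).squarefree
  have hss : c.IsSemisimple :=
    Module.End.isSemisimple_of_squarefree_aeval_eq_zero hsq (by simp [hc])
  obtain ⟨z, hz, hz1⟩ : ∃ z : ℂ, c.HasEigenvalue z ∧ z ≠ 1 := by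
    by_contra hcon
    push Not at hcon
    apply hc1
    have h1 : ⨆ μ, c.maxGenEigenspace μ = ⊤ := Module.End.iSup_maxGenEigenspace_eq_top c
    have h2 : ∀ μ, c.maxGenEigenspace μ ≤ c.eigenspace 1 := by
      intro μ
      rw [hss.isFinitelySemisimple.maxGenEigenspace_eq_eigenspace μ]
      by_cases h : μ = 1
      · rw [h]
      · have h' : ¬ c.HasEigenvalue μ := fun h' => h (hcon μ h')
        have h'' : c.eigenspace μ = ⊥ := not_not.1 h'
        rw [h'']
        exact bot_le
    have h3 : c.eigenspace 1 = ⊤ := top_le_iff.1 (h1 ▸ iSup_le h2)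
    refine LinearMap.ext fun v => ?_
    have h4 : v ∈ c.eigenspace 1 := by
      rw [h3]
      exact Submodule.mem_top
    have h5 := Module.End.mem_eigenspace_iff.1 h4
    rw [one_smul] at h5
    exact h5
  have ma : ∀ x ∈ c.eigenspace z, a x ∈ c.eigenspace z :=
    Module.End.mapsTo_genEigenspace_of_comm hca z 1
  have mb : ∀ x ∈ c.eigenspace z, b x ∈ c.eigenspace z :=
    Module.End.mapsTo_genEigenspace_of_comm hcb z 1
  have inj : ∀ f : Module.End ℂ V, IsUnit f → ∀ mf : ∀ x ∈ c.eigenspace z, f x ∈ c.eigenspace z,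
      LinearMap.det (f.restrict mf) ≠ 0 := by
    intro f hf mf
    have h1 : Function.Injective f :=
      LinearMap.ker_eq_bot.1 ((LinearMap.isUnit_iff_ker_eq_bot f).1 hf)
    have h2 : IsUnit (f.restrict mf) := by
      rw [LinearMap.isUnit_iff_ker_eq_bot, LinearMap.ker_eq_bot]
      intro x y hxy
      exact Subtype.ext (h1 (congrArg Subtype.val hxy))
    exact (LinearMap.isUnit_det _ h2).ne_zero
  have hda := inj a ha ma
  have hdb := inj b hb mb
  have hrel : a.restrict ma * b.restrict mb = z • (b.restrict mb * a.restrict ma) := by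
    refine LinearMap.ext fun x => Subtype.ext ?_
    show a (b x) = z • b (a x)
    have h1 : a (b (x : V)) = c (b (a x)) := by
      have := congrArg (fun f : Module.End ℂ V => f (x : V)) hab
      exact this
    rw [h1]
    exact Module.End.mem_eigenspace_iff.1 (mb _ (ma _ x.2))
  have hdet := congrArg LinearMap.det hrel
  rw [LinearMap.det_smul, map_mul, map_mul] at hdet
  refine ⟨z, hz, hz1, Module.finrank ℂ (c.eigenspace z), ?_, Submodule.finrank_le _, ?_⟩
  · exact Submodule.one_le_finrank_iff.2 hz
  · have h1 : (z ^ Module.finrank ℂ (c.eigenspace z) - 1) *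
        (LinearMap.det (b.restrict mb) * LinearMap.det (a.restrict ma)) = 0 := by
      linear_combination -hdet
    exact sub_eq_zero.1 ((mul_eq_zero.1 h1).resolve_right (mul_ne_zero hdb hda))

end Pool.Agent.LRch
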