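import Mathlib
import Pool.Agent.LRch.ComA

/-!
# Commutators near the identity commuting with both factors are trivial
-/

set_option autoImplicit false

namespace Pool.Agent.LRch

open scoped Matrix.Norms.L2Operator commutatorElement

/-- There is `δ > 0` with `δ ≤ ‖z - 1‖` for all `z ≠ 1` which are roots of unity of an order
between `1` and `r`.

PROOF. The set `T` of all `z : ℂ` with `z ^ k = 1` for some `1 ≤ k ≤ r` is finite (a finite union of
root sets: `Polynomial.nthRoots`, `Polynomial.mem_nthRoots`, or of the roots of `X ^ k - 1`).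
Take `δ` = the minimum of `1` and of the `‖z - 1‖`, `z ∈ T`, `z ≠ 1` (e.g. `Finset.inf'` over
`insert 1 _`, or induction over the finite set; or `Set.Finite` and `exists_min_image`). -/
theorem root_dist (r : ℕ) : ∃ δ : ℝ, 0 < δ ∧ ∀ z : ℂ, z ≠ 1 →
    (∃ k : ℕ, 1 ≤ k ∧ k ≤ r ∧ z ^ k = 1) → δ ≤ ‖z - 1‖ := by
  classical
  let T : Finset ℂ := ((Finset.Icc 1 r).biUnion
    fun k => (Polynomial.nthRoots k (1 : ℂ)).toFinset).erase 1
  let D : Finset ℝ := insert 1 (T.image fun z => ‖z - 1‖)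
  have hD : D.Nonempty := ⟨1, Finset.mem_insert_self _ _⟩
  refine ⟨D.min' hD, ?_, ?_⟩
  · rw [Finset.lt_min'_iff]
    intro y hy
    rcases Finset.mem_insert.1 hy with h | h
    · rw [h]
      exact one_pos
    · obtain ⟨z, hz, rfl⟩ := Finset.mem_image.1 h
      have hz1 : z ≠ 1 := (Finset.mem_erase.1 hz).1
      exact norm_pos_iff.2 (sub_ne_zero.2 hz1)
  · rintro z hz1 ⟨k, hk1, hkr, hzk⟩
    apply Finset.min'_le
    apply Finset.mem_insert_of_mem
    refine Finset.mem_image.2 ⟨z, ?_, rfl⟩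
    refine Finset.mem_erase.2 ⟨hz1, ?_⟩
    refine Finset.mem_biUnion.2 ⟨k, Finset.mem_Icc.2 ⟨hk1, hkr⟩, ?_⟩
    rw [Multiset.mem_toFinset, Polynomial.mem_nthRoots (by omega)]
    exact hzk

/-- Invertible complex matrices `a`, `b` whose commutator `c` has finite order, commutes with `a`
and `b` and is near the identity, commute.

PROOF. `δ` from `root_dist r`. Suppose `c = ⁅a, b⁆ ≠ 1`. Apply `eigen_root` to the endomorphisms
`Matrix.toLin' a`, `Matrix.toLin' b`, `Matrix.toLin' c` of `Fin r → ℂ` (`Matrix.toLin'` is an algebra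
equivalence: `Matrix.toLinAlgEquiv'`, so that products, powers, `1` and units are preserved;
`a * b = c * b * a` since `c = a * b * a⁻¹ * b⁻¹`, `commutatorElement_def`): there is an eigenvalue
`z ≠ 1` of `c` with `z ^ k = 1`, `1 ≤ k ≤ r` (`Module.finrank_fin_fun`). `z - 1` is an eigenvalue of
`c - 1` so `‖z - 1‖ ≤ ‖c - 1‖`: e.g. by `spectrum.norm_le_norm_of_mem` (needs `NormOneClass`, which
needs `r ≠ 0`: `Nontrivial`; `r > 0` follows from `1 ≤ k ≤ r`), or directly with an eigenvector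
`v ≠ 0`: `(c - 1) v = (z - 1) v` and `Matrix.l2_opNorm_mulVec`. So `δ ≤ ‖z - 1‖ ≤ ‖c - 1‖`,
contradiction. -/
theorem comm_near_one (r : ℕ) : ∃ δ : ℝ, 0 < δ ∧ ∀ a b : GL (Fin r) ℂ,
    IsOfFinOrder ⁅a, b⁆ → Commute ⁅a, b⁆ a → Commute ⁅a, b⁆ b →
    ‖((⁅a, b⁆ : GL (Fin r) ℂ) : Matrix (Fin r) (Fin r) ℂ) - 1‖ < δ → ⁅a, b⁆ = 1 := by
  obtain ⟨δ, hδ, hroot⟩ := root_dist r
  refine ⟨δ, hδ, ?_⟩
  intro a b hfin hca hcb hnorm
  by_contra hne
  generalize hc : ⁅a, b⁆ = c at *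
  have hab : a * b = c * b * a := by
    rw [← hc, commutatorElement_def]
    group
  obtain ⟨n, hn, hcn⟩ := isOfFinOrder_iff_pow_eq_one.1 hfin
  let e := (Matrix.toLinAlgEquiv' : Matrix (Fin r) (Fin r) ℂ ≃ₐ[ℂ] _)
  have ha' : IsUnit (e (a : Matrix (Fin r) (Fin r) ℂ)) := a.isUnit.map e
  have hb' : IsUnit (e (b : Matrix (Fin r) (Fin r) ℂ)) := b.isUnit.map e
  have hab' : e (a : Matrix (Fin r) (Fin r) ℂ) * e (b : Matrix (Fin r) (Fin r) ℂ) =
      e (c : Matrix (Fin r) (Fin r) ℂ) * e (b : Matrix (Fin r) (Fin r) ℂ) *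
        e (a : Matrix (Fin r) (Fin r) ℂ) := by
    rw [← map_mul, ← map_mul, ← map_mul]
    have := congrArg (Units.val) hab
    rw [Units.val_mul, Units.val_mul, Units.val_mul] at this
    rw [this]
  have hca' : Commute (e (c : Matrix (Fin r) (Fin r) ℂ)) (e (a : Matrix (Fin r) (Fin r) ℂ)) := by
    have : Commute (c : Matrix (Fin r) (Fin r) ℂ) (a : Matrix (Fin r) (Fin r) ℂ) :=
      hca.map (Units.coeHom _)
    exact this.map e
  have hcb' : Commute (e (c : Matrix (Fin r) (Fin r) ℂ)) (e (b : Matrix (Fin r) (Fin r) ℂ)) := by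
    have : Commute (c : Matrix (Fin r) (Fin r) ℂ) (b : Matrix (Fin r) (Fin r) ℂ) :=
      hcb.map (Units.coeHom _)
    exact this.map e
  have hcn' : e (c : Matrix (Fin r) (Fin r) ℂ) ^ n = 1 := by
    rw [← map_pow, ← Units.val_pow_eq_pow_val, hcn, Units.val_one, map_one]
  have hc1' : e (c : Matrix (Fin r) (Fin r) ℂ) ≠ 1 := by
    intro h
    apply hne
    apply Units.ext
    apply e.injective
    rw [h, Units.val_one, map_one]
  obtain ⟨z, hz, hz1, k, hk1, hkr, hzk⟩ := eigen_root (e (a : Matrix (Fin r) (Fin r) ℂ))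
    (e (b : Matrix (Fin r) (Fin r) ℂ)) (e (c : Matrix (Fin r) (Fin r) ℂ)) ha' hb' hab' hca' hcb'
    n hn hcn' hc1'
  rw [Module.finrank_fin_fun] at hkr
  have h1 := hroot z hz1 ⟨k, hk1, hkr, hzk⟩
  obtain ⟨v, hv⟩ := hz.exists_hasEigenvector
  have hv1 : (c : Matrix (Fin r) (Fin r) ℂ).mulVec v = z • v := by
    have := hv.apply_eq_smul
    exact this
  have hv2 : ((c : Matrix (Fin r) (Fin r) ℂ) - 1).mulVec v = (z - 1) • v := by
    rw [Matrix.sub_mulVec, hv1, Matrix.one_mulVec, sub_smul, one_smul]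
  have h2 := Matrix.l2_opNorm_mulVec ((c : Matrix (Fin r) (Fin r) ℂ) - 1) (WithLp.toLp 2 v)
  have h3 : (WithLp.toLp 2 (((c : Matrix (Fin r) (Fin r) ℂ) - 1).mulVec v) :
      EuclideanSpace ℂ (Fin r)) = (z - 1) • WithLp.toLp 2 v := by
    rw [hv2]
    rfl
  have h4 : ‖(z - 1) • (WithLp.toLp 2 v : EuclideanSpace ℂ (Fin r))‖ ≤
      ‖(c : Matrix (Fin r) (Fin r) ℂ) - 1‖ * ‖(WithLp.toLp 2 v : EuclideanSpace ℂ (Fin r))‖ := by
    rw [← h3]
    exact h2
  rw [norm_smul] at h4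
  have h5 : 0 < ‖(WithLp.toLp 2 v : EuclideanSpace ℂ (Fin r))‖ := by
    rw [norm_pos_iff]
    intro h
    apply hv.2
    have := congrArg WithLp.ofLp h
    exact this
  have h6 := le_of_mul_le_mul_right h4 h5
  linarith

end Pool.Agent.LRch
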