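import Mathlib

/-!
# Package LRch-Curve: the powers of a unipotent matrix are the values of a polynomial matrix

`p` prime, `r < p`, `g` an `r × r` matrix over `ℤ/p` with `g ^ p = 1`. There is a matrix `E` of
polynomials of degree at most `r` with `E(t) = g ^ t` for every natural number `t`.

*Proof.* `(g - 1) ^ p = g ^ p - 1 = 0` (`sub_pow_char` / `sub_pow_char_of_commute` in the matrix ring
of characteristic `p`: `CharP (Matrix ..) p`; for `r = 0` everything is trivial because there is one
matrix only), so `x := g - 1` is nilpotent and `x ^ r = 0` (its characteristic polynomial is `X ^ r`: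
`Matrix.isNilpotent_charpoly..`, or `LinearMap`/`Module.End` version
`IsNilpotent ... pow_finrank`; Cayley-Hamilton `Matrix.aeval_self_charpoly`). Put
`E i j = ∑_{k < r} (x ^ k) i j • C_k(X)`, where `C_k = X (X-1) ... (X-k+1) / k!`
(`descPochhammer (ZMod p) k` times `C (k! : ZMod p)⁻¹`, `k < r < p` so `k! ≠ 0` in `ZMod p`);
`C_k(t) = binom(t, k)` (`descPochhammer_eval_eq_descFactorial`,
`Nat.descFactorial_eq_factorial_mul_choose`). By the binomial theorem for the commuting `1` and `x`,
`g ^ t = (1 + x) ^ t = ∑_k binom(t, k) x ^ k`, and the terms with `k ≥ r` vanish.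

Difficulty: 0.8 h.
-/

set_option autoImplicit false

namespace Pool.Agent.LRch

private theorem nilp {r p : ℕ} [Fact p.Prime] {g : Matrix (Fin r) (Fin r) (ZMod p)}
    (hg : g ^ p = 1) : (g - 1) ^ r = 0 := by
  rcases Nat.eq_zero_or_pos r with h0 | h0
  · subst h0
    exact Subsingleton.elim _ _
  have hne : Nonempty (Fin r) := ⟨⟨0, h0⟩⟩
  have h1 : (g - 1) ^ p = 0 := by
    rw [sub_pow_char_of_commute p (Commute.one_right g), hg, one_pow, sub_self]
  have h2 : IsNilpotent (g - 1) := ⟨p, h1⟩
  have h3 := Matrix.isNilpotent_charpoly_sub_pow_of_isNilpotent h2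
  have h4 : (g - 1).charpoly = Polynomial.X ^ r := by
    have h5 := h3.eq_zero
    rw [Fintype.card_fin] at h5
    exact sub_eq_zero.1 h5
  have h6 := Matrix.aeval_self_charpoly (g - 1)
  rw [h4, map_pow, Polynomial.aeval_X] at h6
  exact h6

theorem exists_curve {r p : ℕ} [Fact p.Prime] (hp : r < p) {g : Matrix (Fin r) (Fin r) (ZMod p)}
    (hg : g ^ p = 1) :
    ∃ E : Matrix (Fin r) (Fin r) (Polynomial (ZMod p)), (∀ i j, (E i j).natDegree ≤ r) ∧
      ∀ t : ℕ, E.map (Polynomial.eval (t : ZMod p)) = g ^ t := by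
  have hx := nilp hg
  set x := g - 1 with hxd
  have hgx : g = x + 1 := by rw [hxd, sub_add_cancel]
  refine ⟨Matrix.of fun i j => ∑ k ∈ Finset.range r,
    Polynomial.C ((x ^ k) i j * ((k.factorial : ZMod p))⁻¹) * descPochhammer (ZMod p) k,
    fun i j => ?_, fun t => ?_⟩
  · rw [Matrix.of_apply]
    refine Polynomial.natDegree_sum_le_of_forall_le _ _ fun k hk => ?_
    refine (Polynomial.natDegree_C_mul_le _ _).trans ?_
    rw [descPochhammer_natDegree]
    exact (Finset.mem_range.1 hk).le
  · have h1 : g ^ t = ∑ k ∈ Finset.range r, (t.choose k : ZMod p) • x ^ k := by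
      rw [hgx, (Commute.one_right x).add_pow t]
      have h2 : ∀ k, x ^ k * 1 ^ (t - k) * ((t.choose k : ℕ) : Matrix (Fin r) (Fin r) (ZMod p)) =
          (t.choose k : ZMod p) • x ^ k := by
        intro k
        rw [one_pow, mul_one, ← nsmul_eq_mul', Nat.cast_smul_eq_nsmul]
      rw [Finset.sum_congr rfl fun k _ => h2 k]
      have e1 : ∑ k ∈ Finset.range (t + 1), (t.choose k : ZMod p) • x ^ k =
          ∑ k ∈ Finset.range (max r (t + 1)), (t.choose k : ZMod p) • x ^ k := by
        refine Finset.sum_subset (Finset.range_mono (le_max_right _ _)) fun k _ hk => ?_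
        rw [Finset.mem_range, not_lt] at hk
        rw [Nat.choose_eq_zero_of_lt hk, Nat.cast_zero, zero_smul]
      have e2 : ∑ k ∈ Finset.range r, (t.choose k : ZMod p) • x ^ k =
          ∑ k ∈ Finset.range (max r (t + 1)), (t.choose k : ZMod p) • x ^ k := by
        refine Finset.sum_subset (Finset.range_mono (le_max_left _ _)) fun k _ hk => ?_
        rw [Finset.mem_range, not_lt] at hk
        obtain ⟨j, rfl⟩ := Nat.exists_eq_add_of_le hk
        rw [pow_add, hx, zero_mul, smul_zero]
      rw [e1, e2]
    rw [h1]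
    ext i j
    rw [Matrix.map_apply, Matrix.of_apply, Polynomial.eval_finsetSum, Matrix.sum_apply]
    refine Finset.sum_congr rfl fun k hk => ?_
    rw [Polynomial.eval_mul, Polynomial.eval_C, descPochhammer_eval_eq_descFactorial,
      Matrix.smul_apply, smul_eq_mul, Nat.descFactorial_eq_factorial_mul_choose, Nat.cast_mul]
    have hk2 : (k.factorial : ZMod p) ≠ 0 := by
      rw [Ne, ZMod.natCast_eq_zero_iff, (Fact.out : p.Prime).dvd_factorial, not_le]
      exact (Finset.mem_range.1 hk).trans hp
    field_simp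

end Pool.Agent.LRch
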