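import Pool.Agent.LRch.Defs

/-!
# Package LRch-Dens: a dense symmetric generating set covers the group

`G` finite, `A ∋ 1` closed under inverses and generating, `|G| ≤ K |A|`. Then `A ^ (3 K + 1) = G`
(`A ^ n` = set of products of `n` elements, pointwise power of sets).

*Proof.* `A ^ i ⊆ A ^ (i+1)`. If `A ^ i = A ^ (i+1)` for some `i ≤ 3 K`, then `A ^ i` is closed under
multiplication by `A` on the right, contains `1`, so it contains the subgroup generated by `A`
(`Subgroup.closure_induction_right` or similar; `A` is closed under inverses) and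
`A ^ (3 K + 1) = G`. Otherwise there are `x_j ∈ A ^ (3 j + 1) \ A ^ (3 j)` for `j = 0, ..., K`. The set
`x_j A` lies in `A ^ (3 j + 2)` and is disjoint from `A ^ (3 j - 1)` for `j ≥ 1`: if
`x_j a ∈ A ^ (3 j - 1)` then `x_j = (x_j a) a⁻¹ ∈ A ^ (3 j)`. So the `K + 1` sets `x_j A` are pairwise
disjoint and each has `|A|` elements: `(K + 1) |A| ≤ |G| ≤ K |A|`, contradiction as `|A| ≥ 1`.

Difficulty: 0.7 h.
-/

set_option autoImplicit false

namespace Pool.Agent.LRch

open scoped Pointwise in
private theorem stab_Dens {G : Type*} [Group G] {A : Set G} (h1 : (1 : G) ∈ A)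
    (hinv : ∀ x ∈ A, x⁻¹ ∈ A) (hgen : Subgroup.closure A = ⊤) {i : ℕ}
    (h : A ^ (i + 1) ⊆ A ^ i) (x : G) : x ∈ A ^ i := by
  have hx : x ∈ Subgroup.closure A := by rw [hgen]; exact Subgroup.mem_top x
  have hstep : ∀ y ∈ A ^ i, ∀ a ∈ A, y * a ∈ A ^ i := by
    intro y hy a ha
    apply h
    rw [pow_succ]
    exact Set.mul_mem_mul hy ha
  induction hx using Subgroup.closure_induction_right with
  | one => exact Set.one_mem_pow h1
  | mul_right x hx y hy ih => exact hstep _ ih _ hy
  | mul_inv_cancel x hx y hy ih => exact hstep _ ih _ (hinv _ hy)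

open scoped Pointwise in
theorem dens {G : Type*} [Group G] [Finite G] {A : Set G} (h1 : (1 : G) ∈ A)
    (hinv : ∀ x ∈ A, x⁻¹ ∈ A) (hgen : Subgroup.closure A = ⊤) {K : ℕ}
    (hK : Nat.card G ≤ K * Nat.card A) (x : G) : x ∈ A ^ (3 * K + 1) := by
  classical
  have hmono : ∀ {m n : ℕ}, m ≤ n → A ^ m ⊆ A ^ n := fun h => Set.pow_subset_pow_right h1 h
  by_cases hs : ∃ i ≤ 3 * K, A ^ (i + 1) ⊆ A ^ i
  · obtain ⟨i, hi, h⟩ := hs
    exact hmono (by omega) (stab_Dens h1 hinv hgen h x)
  · exfalso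
    push Not at hs
    have hc : ∀ j : Fin (K + 1), ∃ y, y ∈ A ^ (3 * (j : ℕ) + 1) ∧ y ∉ A ^ (3 * (j : ℕ)) := by
      intro j
      have := hs (3 * (j : ℕ)) (by have := j.2; omega)
      rw [Set.not_subset] at this
      exact this
    choose y hy1 hy2 using hc
    have hlt : ∀ i j : Fin (K + 1), i < j → ∀ a ∈ A, ∀ b ∈ A, y i * a ≠ y j * b := by
      intro i j hij a ha b hb h
      apply hy2 j
      have h3 : y j = y i * a * b⁻¹ := by rw [h]; group
      have h4 : y i * a * b⁻¹ ∈ A ^ (3 * (i : ℕ) + 1 + 1 + 1) := by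
        rw [pow_succ A (3 * (i : ℕ) + 1 + 1), pow_succ A (3 * (i : ℕ) + 1)]
        exact Set.mul_mem_mul (Set.mul_mem_mul (hy1 i) ha) (hinv b hb)
      rw [h3]
      have : (i : ℕ) < (j : ℕ) := hij
      exact hmono (by omega) h4
    have hinj : Function.Injective (fun p : Fin (K + 1) × A => y p.1 * (p.2 : G)) := by
      rintro ⟨i, a⟩ ⟨j, b⟩ h
      have h' : y i * (a : G) = y j * (b : G) := h
      rcases lt_trichotomy i j with hij | hij | hij
      · exact absurd h' (hlt i j hij a a.2 b b.2)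
      · subst hij
        have := mul_left_cancel h'
        rw [Subtype.ext this]
      · exact absurd h'.symm (hlt j i hij b b.2 a a.2)
    have h5 := Nat.card_le_card_of_injective _ hinj
    rw [Nat.card_prod, Nat.card_eq_fintype_card, Fintype.card_fin] at h5
    have h6 : 0 < Nat.card A := by
      have : Nonempty A := ⟨⟨1, h1⟩⟩
      exact Nat.card_pos
    have h7 : (K + 1) * Nat.card A ≤ K * Nat.card A := h5.trans hK
    nlinarith

end Pool.Agent.LRch
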