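import Pool.Agent.LRch.Dens

/-!
# Package LRch-DensGen: a dense product of cyclic subgroups gives bounded generation

`G` finite, `l` a list of elements, `|G| ≤ K |cyc l|`. Then
`BGen G ((3 K + 1) * (2 * (l.length + K)))`.

*Proof.* (a) There is a list `k` with `k.length ≤ K` such that the elements of `l ++ k` generate `G`:
the subgroup `H_0` generated by `l` contains `cyc l` (`cyc_subset`), so its index is at most `K`
(`Subgroup.card_mul_index`); as long as the subgroup is not `⊤` add one element outside, the index
drops by a factor at least `2` (strictly, as it is a proper divisor: `Subgroup.relIndex`,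
`Subgroup.index_dvd_of_le`, `Subgroup.index_ne_one`), so at most `K` elements are needed (strong
induction on the index: for every subgroup `H` with `H.index ≤ K + 1`... any clean form is fine, e.g.
induct on `n` with the statement: every subgroup `H` of index at most `n + 1` satisfies
`∃ k, k.length ≤ n ∧ H ⊔ closure {elements of k} = ⊤`).
(b) Let `l' = l ++ k` and `A = cyc (l' ++ l'.reverse)`. In a finite group `(cyc m)⁻¹ = cyc m.reverse`
(the inverse of `a ^ t` is `a ^ (t * (Nat.card G - 1))`, or `a⁻¹ = a ^ (orderOf a - 1)`), so `A` is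
closed under inverses: `(y z)⁻¹ = z⁻¹ y⁻¹` with `y ∈ cyc l'`, `z ∈ cyc l'.reverse`. `1 ∈ A`,
all elements of `l'` are in `A` (`mem_cyc_of_mem`), so `A` generates `G`; `cyc l ⊆ A` (prefix:
`mem_cyc_append`, `one_mem_cyc`), so `|G| ≤ K |A|`.
(c) By `dens`, `A ^ (3 K + 1) = G`, and `A ^ n = cyc` of the `n`-fold repetition of the list
(`(List.replicate n m).flatten`), induction with `mem_cyc_append`. Its length is `n * m.length`.

Difficulty: 0.7 h.
-/

set_option autoImplicit false

namespace Pool.Agent.LRch

private theorem exists_gen {G : Type*} [Group G] [Finite G] (n : ℕ) :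
    ∀ H : Subgroup G, H.index ≤ n + 1 →
      ∃ k : List G, k.length ≤ n ∧ H ⊔ Subgroup.closure {x | x ∈ k} = ⊤ := by
  induction n with
  | zero =>
    intro H hH
    refine ⟨[], le_rfl, ?_⟩
    have h1 : H.index ≠ 0 := Subgroup.FiniteIndex.index_ne_zero
    have h2 : H = ⊤ := Subgroup.index_eq_one.1 (by omega)
    rw [h2, top_sup_eq]
  | succ n ih =>
    intro H hH
    by_cases hT : H = ⊤
    · exact ⟨[], Nat.zero_le _, by rw [hT, top_sup_eq]⟩
    · obtain ⟨u, hu⟩ : ∃ u, u ∉ H := by
        by_contra hcon
        push Not at hcon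
        exact hT ((Subgroup.eq_top_iff' H).2 hcon)
      have h1 : H < H ⊔ Subgroup.closure {u} := by
        refine lt_of_le_of_ne le_sup_left fun h => hu ?_
        rw [h]
        exact Subgroup.mem_sup_right (Subgroup.subset_closure (Set.mem_singleton u))
      have h2 := Subgroup.index_strictAnti h1
      obtain ⟨k, hk1, hk2⟩ := ih (H ⊔ Subgroup.closure {u}) (by omega)
      refine ⟨u :: k, by rw [List.length_cons]; omega, ?_⟩
      rw [eq_top_iff, ← hk2]
      refine sup_le (sup_le le_sup_left ?_) ?_
      · refine le_trans (Subgroup.closure_mono ?_) le_sup_right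
        intro x hx
        have hx1 : x = u := hx
        rw [hx1]
        exact List.mem_cons_self
      · refine le_trans (Subgroup.closure_mono ?_) le_sup_right
        intro x hx
        exact List.mem_cons_of_mem u hx

private theorem pow_inv_eq {G : Type*} [Group G] [Finite G] (a : G) (t : ℕ) :
    (a ^ t)⁻¹ = a ^ ((orderOf a - 1) * t) := by
  have h1 : 0 < orderOf a := orderOf_pos a
  have h2 : a⁻¹ = a ^ (orderOf a - 1) := by
    rw [inv_eq_iff_mul_eq_one, ← pow_succ']
    have h3 : orderOf a - 1 + 1 = orderOf a := by omega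
    rw [h3, pow_orderOf_eq_one]
  rw [← inv_pow, h2, ← pow_mul]

private theorem inv_mem_cyc {G : Type*} [Group G] [Finite G] (l : List G) :
    ∀ x ∈ cyc l, x⁻¹ ∈ cyc l.reverse := by
  induction l with
  | nil =>
    intro x hx
    have hx1 : x = 1 := hx
    rw [hx1, inv_one]
    exact one_mem_cyc _
  | cons a l ih =>
    rintro x ⟨t, y, hy, rfl⟩
    rw [List.reverse_cons, mem_cyc_append]
    refine ⟨y⁻¹, ih y hy, (a ^ t)⁻¹, ⟨(orderOf a - 1) * t, 1, rfl, ?_⟩, mul_inv_rev _ _⟩
    rw [mul_one, pow_inv_eq]

open scoped Pointwise in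
private theorem mem_cyc_rep {G : Type*} [Group G] (m : List G) (n : ℕ) :
    ∀ x ∈ (cyc m) ^ n, x ∈ cyc ((List.replicate n m).flatten) := by
  induction n with
  | zero =>
    intro x hx
    rw [pow_zero] at hx
    have hx1 : x = 1 := hx
    rw [hx1]
    exact one_mem_cyc _
  | succ n ih =>
    intro x hx
    rw [pow_succ'] at hx
    obtain ⟨y, hy, z, hz, h⟩ := hx
    rw [List.replicate_succ, List.flatten_cons, mem_cyc_append]
    exact ⟨y, hy, z, ih z hz, h.symm⟩

theorem bgen_dens {G : Type*} [Group G] [Finite G] {K : ℕ} (l : List G)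
    (hK : Nat.card G ≤ K * Nat.card (cyc l)) :
    BGen G ((3 * K + 1) * (2 * (l.length + K))) := by
  set H0 : Subgroup G := Subgroup.closure {x | x ∈ l} with hH0
  have hsub : cyc l ⊆ (H0 : Set G) := by
    have h1 := cyc_subset H0.toSubmonoid (l := l) fun a ha =>
      Subgroup.subset_closure (show a ∈ {x | x ∈ l} from ha)
    exact h1
  have hcard : Nat.card (cyc l) ≤ Nat.card H0 := Nat.card_mono (Set.toFinite _) hsub
  have hidx : H0.index ≤ K := by
    have h1 := Subgroup.card_mul_index H0
    have h2 : 0 < Nat.card H0 := Nat.card_pos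
    have h3 : Nat.card H0 * H0.index ≤ Nat.card H0 * K := by
      rw [h1]
      calc Nat.card G ≤ K * Nat.card (cyc l) := hK
        _ ≤ K * Nat.card H0 := Nat.mul_le_mul_left K hcard
        _ = Nat.card H0 * K := Nat.mul_comm _ _
    exact Nat.le_of_mul_le_mul_left h3 h2
  obtain ⟨k, hk1, hk2⟩ := exists_gen K H0 (by omega)
  set l' : List G := l ++ k with hl'
  set m : List G := l' ++ l'.reverse with hm
  have hA1 : (1 : G) ∈ cyc m := one_mem_cyc _
  have hAinv : ∀ x ∈ cyc m, x⁻¹ ∈ cyc m := by
    intro x hx
    have h1 := inv_mem_cyc m x hx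
    have h2 : m.reverse = m := by
      rw [hm, List.reverse_append, List.reverse_reverse]
    rwa [h2] at h1
  have hmem : ∀ a ∈ l', a ∈ cyc m := fun a ha =>
    mem_cyc_of_mem (List.mem_append_left _ ha)
  have hgen : Subgroup.closure (cyc m) = ⊤ := by
    rw [eq_top_iff, ← hk2]
    refine sup_le ?_ ?_
    · refine Subgroup.closure_mono fun x hx => hmem x ?_
      exact List.mem_append_left _ hx
    · refine Subgroup.closure_mono fun x hx => hmem x ?_
      exact List.mem_append_right _ hx
  have hsubA : cyc l ⊆ cyc m := by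
    intro x hx
    rw [hm, mem_cyc_append]
    refine ⟨x, ?_, 1, one_mem_cyc _, (mul_one x).symm⟩
    rw [hl', mem_cyc_append]
    exact ⟨x, hx, 1, one_mem_cyc _, (mul_one x).symm⟩
  have hKA : Nat.card G ≤ K * Nat.card (cyc m) :=
    hK.trans (Nat.mul_le_mul_left K (Nat.card_mono (Set.toFinite _) hsubA))
  refine ⟨(List.replicate (3 * K + 1) m).flatten, ?_, fun x =>
    mem_cyc_rep m (3 * K + 1) x (dens hA1 hAinv hgen hKA x)⟩
  have hlen : ((List.replicate (3 * K + 1) m).flatten).length = (3 * K + 1) * m.length := by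
    rw [List.length_flatten, List.map_replicate, List.sum_replicate, smul_eq_mul]
  have hmlen : m.length = 2 * (l.length + k.length) := by
    rw [hm, List.length_append, List.length_reverse, hl', List.length_append]
    ring
  rw [hlen, hmlen]
  exact Nat.mul_le_mul_left _ (by omega)

end Pool.Agent.LRch
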