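import Mathlib
import Pool.Agent.LRch.CharP

/-!
# Finite `p'`-groups of matrices modulo `p` embed in `GL_r(ℂ)`
-/

set_option autoImplicit false

namespace Pool.Agent.LRch

/-- a finite group of order prime to `p` which embeds in `GL_r(ℤ/p)` embeds in `GL_r(ℂ)` -/
theorem exists_emb_complex {r p : ℕ} [Fact p.Prime] (G : Type) [Group G] [Finite G]
    (f : G →* GL (Fin r) (ZMod p)) (hf : Function.Injective f) (hG : (Nat.card G).Coprime p) :
    ∃ g : G →* GL (Fin r) ℂ, Function.Injective g := by
  have e : G ≃* f.range := MonoidHom.ofInjective hf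
  have h1 : (Nat.card f.range).Coprime p := by
    rw [← Nat.card_congr e.toEquiv]
    exact hG
  obtain ⟨σ, hσ⟩ := exists_rep_p r p f.range h1
  exact ⟨σ.comp e.toMonoidHom, hσ.comp e.injective⟩

end Pool.Agent.LRch
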