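import Pool.Agent.LRch.Grp

/-!
# Filtered groups: subgroups are products of boundedly many cyclic groups

`Rel i g ξ` says that `g` is in the `i`-th group of a filtration and `ξ`, an element of a vector space
over `ℤ/p`, is its leading term. If `p`-th powers preserve the leading term and raise the level by one
then every subgroup is a product of at most `dim V` cyclic subgroups.
-/

set_option autoImplicit false

namespace Pool.Agent.LRch

/-- a basis adapted to a chain of subspaces -/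
theorem adapted {K V : Type*} [Field K] [AddCommGroup V] [Module K V] (L : ℕ → Submodule K V)
    (hL : Monotone L) (N : ℕ) : ∃ (B : Set V) (l : V → ℕ), LinearIndepOn K id B ∧
      (∀ ξ ∈ B, l ξ ≤ N ∧ ξ ∈ L (l ξ)) ∧
      ∀ i, i ≤ N → (L i : Set V) ⊆ Submodule.span K {ξ | ξ ∈ B ∧ l ξ ≤ i} := by
  classical
  induction N with
  | zero =>
    obtain ⟨b, hb1, -, hb2, hb3⟩ := exists_linearIndepOn_id_extension
      (linearIndepOn_empty K (id : V → V)) (Set.empty_subset (L 0 : Set V))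
    refine ⟨b, fun _ => 0, hb3, fun ξ hξ => ⟨le_rfl, hb1 hξ⟩, fun i hi => ?_⟩
    obtain rfl : i = 0 := Nat.le_zero.1 hi
    have h1 : {ξ : V | ξ ∈ b ∧ (fun _ : V => 0) ξ ≤ 0} = b := by
      ext ξ
      simp
    rw [h1]
    exact hb2
  | succ N ih =>
    obtain ⟨B, l, h1, h2, h3⟩ := ih
    obtain ⟨b, hb1, hb2, hb3, hb4⟩ := exists_linearIndepOn_id_extension h1
      (t := (L (N + 1) : Set V)) (fun ξ hξ => hL ((h2 ξ hξ).1.trans (Nat.le_succ N)) (h2 ξ hξ).2)
    refine ⟨b, fun ξ => if ξ ∈ B then l ξ else N + 1, hb4, fun ξ hξ => ?_, fun i hi => ?_⟩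
    · by_cases h4 : ξ ∈ B
      · simp only [h4, if_true]
        exact ⟨(h2 ξ h4).1.trans (Nat.le_succ N), (h2 ξ h4).2⟩
      · simp only [h4, if_false]
        exact ⟨le_rfl, hb1 hξ⟩
    · rcases Nat.lt_or_ge N i with h4 | h4
      · obtain rfl : i = N + 1 := by omega
        refine hb3.trans (Submodule.span_mono ?_)
        intro ξ hξ
        refine ⟨hξ, ?_⟩
        by_cases h5 : ξ ∈ B
        · simp only [h5, if_true]
          exact (h2 ξ h5).1.trans (Nat.le_succ N)
        · simp only [h5, if_false]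
          exact le_rfl
      · refine (h3 i h4).trans (Submodule.span_mono ?_)
        rintro ξ ⟨hξ, h5⟩
        refine ⟨hb2 hξ, ?_⟩
        simp only [hξ, if_true]
        exact h5

theorem filt_bgen {p : ℕ} [Fact p.Prime] {G V : Type*} [Group G] [AddCommGroup V]
    [Module (ZMod p) V] [FiniteDimensional (ZMod p) V] (H : Subgroup G) (s e : ℕ) (hse : s ≤ e)
    (Rel : ℕ → G → V → Prop)
    (hst : ∀ h ∈ H, ∃ ξ, Rel s h ξ)
    (hone : ∀ i, s ≤ i → Rel i 1 0)
    (hmul : ∀ i g g' ξ ξ', s ≤ i → Rel i g ξ → Rel i g' ξ' → Rel i (g * g') (ξ + ξ'))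
    (hinv : ∀ i g ξ, s ≤ i → Rel i g ξ → Rel i g⁻¹ (-ξ))
    (hpow : ∀ i g ξ, s ≤ i → Rel i g ξ → Rel (i + 1) (g ^ p) ξ)
    (hconj : ∀ i g z ξ, s ≤ i → g ∈ H → Rel i z ξ → Rel i (g⁻¹ * z * g) ξ)
    (hnext : ∀ i g, s ≤ i → i < e → Rel i g 0 → ∃ ξ, Rel (i + 1) g ξ)
    (hlast : ∀ g ξ, Rel e g ξ → g = 1) :
    BGen H (Module.finrank (ZMod p) V) := by
  classical
  -- the spaces of leading terms
  let A : ℕ → AddSubgroup V := fun i =>
    { carrier := {ξ | ∃ g ∈ H, Rel (s + i) g ξ}
      add_mem' := by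
        rintro ξ ξ' ⟨g, hg, h1⟩ ⟨g', hg', h2⟩
        exact ⟨g * g', H.mul_mem hg hg', hmul _ _ _ _ _ (Nat.le_add_right _ _) h1 h2⟩
      zero_mem' := ⟨1, H.one_mem, hone _ (Nat.le_add_right _ _)⟩
      neg_mem' := by
        rintro ξ ⟨g, hg, h1⟩
        exact ⟨g⁻¹, H.inv_mem hg, hinv _ _ _ (Nat.le_add_right _ _) h1⟩ }
  let L : ℕ → Submodule (ZMod p) V := fun i => AddSubgroup.toZModSubmodule p (A i)
  have hmemL : ∀ i ξ, ξ ∈ L i ↔ ∃ g ∈ H, Rel (s + i) g ξ := fun i ξ => Iff.rfl
  have hL : Monotone L := by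
    refine monotone_nat_of_le_succ fun i ξ hξ => ?_
    obtain ⟨g, hg, h1⟩ := (hmemL i ξ).1 hξ
    exact (hmemL (i + 1) ξ).2 ⟨g ^ p, H.pow_mem hg p, hpow _ _ _ (Nat.le_add_right _ _) h1⟩
  obtain ⟨B, l, hB1, hB2, hB3⟩ := adapted L hL (e - s)
  have hfin : B.Finite := hB1.linearIndependent.setFinite
  have hcard : hfin.toFinset.card ≤ Module.finrank (ZMod p) V := by
    have h1 := hB1.linearIndependent
    have : Fintype B := hfin.fintype
    have h2 := h1.fintype_card_le_finrank
    rw [← Set.toFinset_card] at h2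
    convert h2 using 2
    ext
    simp
  have hch : ∀ ξ : V, ∃ g ∈ H, ξ ∈ B → Rel (s + l ξ) g ξ := by
    intro ξ
    by_cases h1 : ξ ∈ B
    · obtain ⟨g, hg, h2⟩ := (hmemL _ ξ).1 (hB2 ξ h1).2
      exact ⟨g, hg, fun _ => h2⟩
    · exact ⟨1, H.one_mem, fun h => absurd h h1⟩
  choose gen hgen1 hgen2 using hch
  -- powers
  have hpowi : ∀ (i : ℕ) (g : G) (ξ : V) (j : ℕ), s ≤ i → Rel i g ξ →
      Rel (i + j) (g ^ (p ^ j)) ξ := by
    intro i g ξ j hi h
    induction j with
    | zero => simpa using h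
    | succ j ih =>
      rw [pow_succ, pow_mul]
      exact hpow _ _ _ (hi.trans (Nat.le_add_right _ _)) ih
  have hsmul : ∀ (i : ℕ) (g : G) (ξ : V) (c : ℕ), s ≤ i → Rel i g ξ → Rel i (g ^ c) (c • ξ) := by
    intro i g ξ c hi h
    induction c with
    | zero => simpa using hone i hi
    | succ c ih =>
      rw [pow_succ, succ_nsmul]
      exact hmul _ _ _ _ _ hi ih h
  -- products along a list
  let P : (V → ℕ) → List V → G := fun a m => (m.map fun ξ => gen ξ ^ a ξ).prod
  have hPH : ∀ a m, P a m ∈ H := by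
    intro a m
    refine H.list_prod_mem fun x hx => ?_
    obtain ⟨ξ, -, rfl⟩ := List.mem_map.1 hx
    exact H.pow_mem (hgen1 ξ) _
  have hPadd : ∀ (i : ℕ) (a b : V → ℕ) (c : V → V) (m : List V), s ≤ i →
      (∀ ξ ∈ m, Rel i (gen ξ ^ b ξ) (c ξ)) →
      ∃ z, Rel i z (m.map c).sum ∧ P (fun ξ => a ξ + b ξ) m = P a m * z := by
    intro i a b c m hi
    induction m with
    | nil =>
      intro _
      exact ⟨1, hone i hi, by simp [P]⟩
    | cons ξ m ih =>
      intro h
      obtain ⟨z, hz1, hz2⟩ := ih fun η hη => h η (List.mem_cons_of_mem _ hη)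
      refine ⟨(P a m)⁻¹ * gen ξ ^ b ξ * P a m * z, ?_, ?_⟩
      · rw [List.map_cons, List.sum_cons]
        exact hmul _ _ _ _ _ hi (hconj _ _ _ _ hi (hPH a m) (h ξ List.mem_cons_self)) hz1
      · have h1 : P (fun ξ => a ξ + b ξ) (ξ :: m) =
            gen ξ ^ (a ξ + b ξ) * P (fun ξ => a ξ + b ξ) m := by simp [P]
        have h2 : P a (ξ :: m) = gen ξ ^ a ξ * P a m := by simp [P]
        rw [h1, h2, hz2, pow_add]
        group
  -- approximation
  have happ : ∀ i, s + i ≤ e → ∀ h ∈ H, ∃ (a : V → ℕ) (ζ : V),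
      Rel (s + i) ((P a hfin.toFinset.toList)⁻¹ * h) ζ := by
    intro i
    induction i with
    | zero =>
      intro _ h hh
      obtain ⟨ξ, hξ⟩ := hst h hh
      exact ⟨fun _ => 0, ξ, by simpa [P] using hξ⟩
    | succ i ih =>
      intro hi h hh
      obtain ⟨a, ζ, h1⟩ := ih (by omega) h hh
      have h2 : ζ ∈ L i := (hmemL i ζ).2 ⟨_, H.mul_mem (H.inv_mem (hPH a _)) hh, h1⟩
      have h3 := hB3 i (by omega) h2
      have h4 : {ξ | ξ ∈ B ∧ l ξ ≤ i} =
          ((hfin.toFinset.filter fun ξ => l ξ ≤ i : Finset V) : Set V) := by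
        ext ξ
        simp
      rw [h4] at h3
      obtain ⟨f, -, hf⟩ := Submodule.mem_span_finset.1 h3
      obtain ⟨z, hz1, hz2⟩ := hPadd (s + i) a
        (fun ξ => if l ξ ≤ i then p ^ (i - l ξ) * (f ξ).val else 0)
        (fun ξ => if l ξ ≤ i then f ξ • ξ else 0) hfin.toFinset.toList (Nat.le_add_right _ _) (by
          intro ξ hξ
          have hξB : ξ ∈ B := by simpa using hξ
          by_cases h5 : l ξ ≤ i
          · simp only [h5, if_true]
            rw [pow_mul]
            have h6 := hsmul _ _ _ (f ξ).val (by omega)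
              (hpowi _ _ _ (i - l ξ) (Nat.le_add_right _ _) (hgen2 ξ hξB))
            have h7 : s + l ξ + (i - l ξ) = s + i := by omega
            rw [h7] at h6
            have h8 : (f ξ).val • ξ = f ξ • ξ := by
              conv_rhs => rw [← ZMod.natCast_zmod_val (f ξ)]
              rw [Nat.cast_smul_eq_nsmul]
            rw [← h8]
            exact h6
          · simp only [h5, if_false, pow_zero]
            exact hone _ (Nat.le_add_right _ _))
      have h5 : (hfin.toFinset.toList.map fun ξ => if l ξ ≤ i then f ξ • ξ else 0).sum = ζ := by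
        rw [Finset.sum_map_toList, ← Finset.sum_filter]
        exact hf
      rw [h5] at hz1
      refine ⟨fun ξ => a ξ + if l ξ ≤ i then p ^ (i - l ξ) * (f ξ).val else 0, ?_⟩
      rw [hz2, mul_inv_rev, mul_assoc]
      refine hnext (s + i) _ (Nat.le_add_right _ _) (by omega) ?_
      have h6 := hmul _ _ _ _ _ (Nat.le_add_right _ _) (hinv _ _ _ (Nat.le_add_right _ _) hz1) h1
      rwa [neg_add_cancel] at h6
  refine ⟨hfin.toFinset.toList.map fun ξ => ⟨gen ξ, hgen1 ξ⟩, ?_, fun x => ?_⟩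
  · rw [List.length_map, Finset.length_toList]
    exact hcard
  · obtain ⟨a, ζ, h1⟩ := happ (e - s) (by omega) x x.2
    rw [Nat.add_sub_cancel' hse] at h1
    have h2 := hlast _ _ h1
    have h3 : (x : G) = P a hfin.toFinset.toList := by
      rw [inv_mul_eq_one] at h2
      exact h2.symm
    have h4 : ∀ m : List V, ∀ y : H, (y : G) = P a m →
        y ∈ cyc (m.map fun ξ => (⟨gen ξ, hgen1 ξ⟩ : H)) := by
      intro m
      induction m with
      | nil =>
        intro y hy
        exact Subtype.ext (by simpa [P] using hy)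
      | cons ξ m ih =>
        intro y hy
        refine ⟨a ξ, ⟨P a m, hPH a m⟩, ih _ rfl, Subtype.ext ?_⟩
        rw [hy]
        simp [P]
    exact h4 _ x h3

end Pool.Agent.LRch
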