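import Mathlib

/-!
# Package LRch-Frat: Frattini argument and Schur-Zassenhaus

`G` finite, `p` prime, `N` a normal subgroup which contains all elements of `p`-power order. Then
there is a subgroup `H` of order prime to `p` with `G = N H`.

*Proof.* Let `P` be a Sylow `p`-subgroup of `N`. By Frattini's argument
(`Sylow.normalizer_sup_eq_top`) `G = N_G(P') N`, `P'` the image of `P` in `G`. `P'` is a Sylow
`p`-subgroup of `G`: a Sylow `p`-subgroup `Q` of `G` containing `P'` consists of elements of `p`-power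
order, so `Q ≤ N`, so `Q = P'` by the maximality of `P` (or: compare cardinalities; or start with a
Sylow subgroup of `G` and use `Sylow.subtype`). In `M = N_G(P')` the subgroup `P'` is normal of order a
power of `p` and index prime to `p`, so it has a complement `H` in `M`
(`Subgroup.exists_right_complement'_of_coprime`, Schur-Zassenhaus), of order the index. Finally
`G = N M = N P' H = N H` as `P' ≤ N`.

Difficulty: 0.8 h.
-/

set_option autoImplicit false

namespace Pool.Agent.LRch

theorem frattini_sz {G : Type*} [Group G] [Finite G] {p : ℕ} [Fact p.Prime] (N : Subgroup G)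
    [N.Normal] (hN : ∀ g : G, (∃ k : ℕ, g ^ (p ^ k) = 1) → g ∈ N) :
    ∃ H : Subgroup G, (Nat.card H).Coprime p ∧ ∀ x, ∃ a ∈ N, ∃ b ∈ H, x = a * b := by
  classical
  obtain ⟨Q⟩ : Nonempty (Sylow p G) := inferInstance
  have hQN : (Q : Subgroup G) ≤ N := by
    intro g hg
    apply hN g
    obtain ⟨k, hk⟩ := Q.isPGroup' ⟨g, hg⟩
    exact ⟨k, by simpa using congrArg Subtype.val hk⟩
  set M : Subgroup G := Subgroup.normalizer (Q : Set G) with hM
  have hfr : M ⊔ N = ⊤ := Sylow.normalizer_sup_eq_top' Q hQN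
  have hQM : (Q : Subgroup G) ≤ M := Subgroup.le_normalizer
  set Q' : Subgroup M := (Q : Subgroup G).subgroupOf M with hQ'
  have : Q'.Normal := Subgroup.normal_in_normalizer
  have hcard : Nat.card Q' = Nat.card (Q : Subgroup G) :=
    Nat.card_congr (Subgroup.subgroupOfEquivOfLe hQM).toEquiv
  have hidx : ¬ p ∣ Q'.index := by
    intro h
    have h1 : Q'.index ∣ (Q : Subgroup G).index := Subgroup.relIndex_dvd_index_of_le hQM
    exact Q.not_dvd_index (h.trans h1)
  have hcop : Nat.Coprime (Nat.card Q') Q'.index := by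
    rw [hcard]
    obtain ⟨n, hn⟩ := IsPGroup.iff_card.1 Q.isPGroup'
    have hn' : Nat.card (Q : Subgroup G) = p ^ n := hn
    rw [hn']
    exact Nat.Coprime.pow_left n ((Nat.Prime.coprime_iff_not_dvd (Fact.out)).2 hidx)
  obtain ⟨H', hH'⟩ := Subgroup.exists_right_complement'_of_coprime hcop
  refine ⟨H'.map M.subtype, ?_, ?_⟩
  · have h1 : Nat.card (H'.map M.subtype) = Nat.card H' :=
      Nat.card_congr (H'.equivMapOfInjective M.subtype M.subtype_injective).toEquiv.symm
    have h2 : Q'.index = Nat.card H' := hH'.symm.index_eq_card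
    rw [h1, ← h2]
    exact ((Nat.Prime.coprime_iff_not_dvd (Fact.out)).2 hidx).symm
  · intro x
    have hx : x ∈ ((N ⊔ M : Subgroup G) : Set G) := by
      rw [sup_comm, hfr]
      trivial
    rw [Subgroup.normal_mul] at hx
    obtain ⟨a, ha, m, hm, rfl⟩ := hx
    obtain ⟨⟨q, h⟩, hqh⟩ := hH'.2 ⟨m, hm⟩
    have hqh' : ((q : M) : G) * ((h : M) : G) = m := by
      simpa using congrArg Subtype.val hqh
    refine ⟨a * ((q : M) : G), N.mul_mem ha (hQN (Subgroup.mem_subgroupOf.1 q.2)),
      ((h : M) : G), ⟨(h : M), h.2, rfl⟩, ?_⟩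
    rw [mul_assoc, hqh']

end Pool.Agent.LRch
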