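import Pool.Agent.LRch.Gen
import Pool.Agent.ECD.GLCode

/-!
# Matrix groups generated by definable families: definability

`gset R m v` is the set of the invertible matrices of size `r` over `ℤ/m` whose residues satisfy
the relation `R` with the parameters `v`, `gsub R m v` the group generated by it, and
`Reach R m v` the relation of reachability on `(ℤ/m)^r` by multiplications with elements of
`gset R m v`.
-/

set_option autoImplicit false

namespace Pool.Agent.LRch

open Finset Pool.Agent.Grz Pool.Agent.GAvg Pool.Agent.PTr Pool.Agent.MTr Pool.Agent.LPC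
open Pool.Agent.ECD

variable {r n : ℕ}

/-- the residues of the entries of an invertible matrix over `ℤ/m` -/
def res {m : ℕ} (g : GL (Fin r) (ZMod m)) (k : Fin (r * r)) : ℕ :=
  ((g : Matrix (Fin r) (Fin r) (ZMod m)) (finProdFinEquiv.symm k).1 (finProdFinEquiv.symm k).2).val

/-- the invertible matrices over `ℤ/m` whose residues satisfy `R v` -/
def gset (R : (Fin (n + r * r) → ℕ) → Prop) (m : ℕ) (v : Fin n → ℕ) : Set (GL (Fin r) (ZMod m)) :=
  {g | R (Fin.append v (res g))}

/-- the group generated by `gset R m v` -/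
def gsub (R : (Fin (n + r * r) → ℕ) → Prop) (m : ℕ) (v : Fin n → ℕ) :
    Subgroup (GL (Fin r) (ZMod m)) :=
  Subgroup.closure (gset R m v)

/-- reachability by steps `u ↦ g u`, `g ∈ gset R m v` -/
def Reach (R : (Fin (n + r * r) → ℕ) → Prop) (m : ℕ) (v : Fin n → ℕ) :
    (Fin r → ZMod m) → (Fin r → ZMod m) → Prop :=
  Relation.ReflTransGen fun u u' => ∃ g ∈ gset R m v,
    u' = (g : Matrix (Fin r) (Fin r) (ZMod m)).mulVec u

theorem res_inj {m : ℕ} {g h : GL (Fin r) (ZMod (m + 1))} (e : res g = res h) : g = h := by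
  refine Units.ext (Matrix.ext fun i j => ?_)
  have h1 := congrFun e (finProdFinEquiv (i, j))
  unfold res at h1
  rw [Equiv.symm_apply_apply] at h1
  exact ZMod.val_injective _ h1

/-- reachability by elements of the generated group -/
theorem reach_iff {m : ℕ} [NeZero m] {R : (Fin (n + r * r) → ℕ) → Prop} {v : Fin n → ℕ}
    {x y : Fin r → ZMod m} : Reach R m v x y ↔
      ∃ h ∈ gsub R m v, y = (h : Matrix (Fin r) (Fin r) (ZMod m)).mulVec x := by
  constructor
  · intro h
    induction h with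
    | refl => exact ⟨1, one_mem _, by rw [Units.val_one, Matrix.one_mulVec]⟩
    | tail _ h2 ih =>
      obtain ⟨h, hh, rfl⟩ := ih
      obtain ⟨g, hg, rfl⟩ := h2
      refine ⟨g * h, mul_mem (Subgroup.subset_closure hg) hh, ?_⟩
      rw [Units.val_mul, Matrix.mulVec_mulVec]
  · rintro ⟨h, hh, rfl⟩
    have h3 : h ∈ Submonoid.closure (gset R m v) := by
      rw [← Subgroup.closure_toSubmonoid_of_finite]
      exact hh
    clear hh
    induction h3 using Submonoid.closure_induction_left with
    | one =>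
      rw [Units.val_one, Matrix.one_mulVec]
      exact Relation.ReflTransGen.refl
    | mul_left g hg h _ ih =>
      refine ih.tail ⟨g, hg, ?_⟩
      rw [Units.val_mul, Matrix.mulVec_mulVec]

/-- `ℤ/(p v)` as `ℤ/(M v + 1)` -/
theorem exists_pred {p : (Fin n → ℕ) → ℕ} (hp : DFun n p) (hprime : ∀ v, (p v).Prime) :
    ∃ M : (Fin n → ℕ) → ℕ, DFun n M ∧ ∀ v, p v = M v + 1 :=
  ⟨fun v => p v - 1, hp.sub (DFun.const 1), fun v => (Nat.sub_add_cancel (hprime v).one_le).symm⟩

/-- the family of the groups `GL_r(ℤ/(v + 1))` -/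
noncomputable abbrev glG (r : ℕ) : GFam 1 := (glAlg r).toG

/-- the residues are definable if the code is -/
theorem res_def {k : ℕ} {M : (Fin k → ℕ) → ℕ} (hM : DFun k M)
    {A : ∀ u : Fin k → ℕ, GL (Fin r) (ZMod (M u + 1))}
    (hA : DFun k (fun u => (glG r).enc (fun _ : Fin 1 => M u) (A u))) (i : Fin (r * r)) :
    DFun k (fun u => res (A u) i) :=
  gl_entry hM hA _ _

/-- the family of sets is definable -/
theorem gset_def {R : (Fin (n + r * r) → ℕ) → Prop} (hR : Delta0 (n + r * r) R) {k : ℕ}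
    {M : (Fin k → ℕ) → ℕ} (hM : DFun k M) {v : Fin n → (Fin k → ℕ) → ℕ}
    (hv : ∀ i, DFun k (v i)) {A : ∀ u : Fin k → ℕ, GL (Fin r) (ZMod (M u + 1))}
    (hA : DFun k (fun u => (glG r).enc (fun _ : Fin 1 => M u) (A u))) :
    Delta0 k (fun u => A u ∈ gset R (M u + 1) (fun i => v i u)) := by
  refine (hR.subst (n := k) (h := Fin.append v fun i u => res (A u) i) (fun i => ?_)).of_iff
    fun u => ?_
  · refine Fin.addCases (fun i => ?_) (fun i => ?_) i
    · rw [Fin.append_left]
      exact hv i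
    · rw [Fin.append_right]
      exact res_def hM hA i
  · refine iff_of_eq (congrArg R ?_)
    funext i
    refine Fin.addCases (fun i => ?_) (fun i => ?_) i
    · rw [Fin.append_left, Fin.append_left]
    · rw [Fin.append_right, Fin.append_right]

/-- membership in the generated group is definable -/
theorem gsub_def (c : ℕ)
    (hc : ∀ (p : ℕ) [Fact p.Prime] (H : Subgroup (GL (Fin r) (ZMod p))), BGen H c)
    {R : (Fin (n + r * r) → ℕ) → Prop} (hR : Delta0 (n + r * r) R) {k : ℕ}
    {M : (Fin k → ℕ) → ℕ} (hM : DFun k M) (hprime : ∀ u, (M u + 1).Prime)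
    {v : Fin n → (Fin k → ℕ) → ℕ}
    (hv : ∀ i, DFun k (v i)) {A : ∀ u : Fin k → ℕ, GL (Fin r) (ZMod (M u + 1))}
    (hA : DFun k (fun u => (glG r).enc (fun _ : Fin 1 => M u) (A u))) :
    Delta0 k (fun u => A u ∈ gsub R (M u + 1) (fun i => v i u)) := by
  refine closure_def (glG r) c (σ := fun _ u => M u) (fun _ => hM)
    (S := fun u => gset R (M u + 1) (fun i => v i u)) ?_ ?_ hA
  · exact gset_def hR hM.weak (v := fun i w => v i fun j => w j.succ) (fun i => (hv i).weak)
      ((glG r).gdec (σ := fun _ w => M fun j => w j.succ) (fun _ => hM.weak) (DFun.proj 0))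
  · intro u
    have : Fact (M u + 1).Prime := ⟨hprime u⟩
    exact hc (M u + 1) _

/-- images of vectors are definable -/
theorem mulVec_def {k : ℕ} {M : (Fin k → ℕ) → ℕ} (hM : DFun k M)
    {A : ∀ u : Fin k → ℕ, GL (Fin r) (ZMod (M u + 1))}
    (hA : DFun k (fun u => (glG r).enc (fun _ : Fin 1 => M u) (A u)))
    {x y : Fin r → (Fin k → ℕ) → ℕ} (hx : ∀ i, DFun k (x i)) (hy : ∀ i, DFun k (y i)) :
    Delta0 k (fun u => (fun i => (y i u : ZMod (M u + 1))) =
      (A u : Matrix (Fin r) (Fin r) (ZMod (M u + 1))).mulVec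
        fun i => (x i u : ZMod (M u + 1))) := by
  have h1 : Delta0 k (fun u => ∀ i : Fin r, y i u % (M u + 1) =
      (∑ j : Fin r, res (A u) (finProdFinEquiv (i, j)) * x j u) % (M u + 1)) := by
    refine Delta0.allOf fun i => Delta0.eqFun (DFun.mod (hy i) hM) (DFun.mod ?_ hM)
    exact DFun.finSum univ fun j => (res_def hM hA _).mul (hx j)
  refine h1.of_iff fun u => ?_
  rw [funext_iff]
  refine forall_congr' fun i => ?_
  rw [← ZMod.natCast_eq_natCast_iff', Matrix.mulVec_eq_sum, Finset.sum_apply]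
  refine iff_of_eq (congrArg _ ?_)
  push_cast
  refine Finset.sum_congr rfl fun j _ => ?_
  unfold res
  rw [Equiv.symm_apply_apply, ZMod.natCast_zmod_val, Pi.smul_apply, MulOpposite.smul_eq_mul_unop,
    MulOpposite.unop_op, Matrix.transpose_apply]

/-- reachability is definable -/
theorem reach_def (c : ℕ)
    (hc : ∀ (p : ℕ) [Fact p.Prime] (H : Subgroup (GL (Fin r) (ZMod p))), BGen H c)
    {R : (Fin (n + r * r) → ℕ) → Prop} (hR : Delta0 (n + r * r) R) {k : ℕ}
    {M : (Fin k → ℕ) → ℕ} (hM : DFun k M) (hprime : ∀ u, (M u + 1).Prime)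
    {v : Fin n → (Fin k → ℕ) → ℕ} (hv : ∀ i, DFun k (v i))
    {x y : Fin r → (Fin k → ℕ) → ℕ} (hx : ∀ i, DFun k (x i)) (hy : ∀ i, DFun k (y i)) :
    Delta0 k (fun u => Reach R (M u + 1) (fun i => v i u)
      (fun i => (x i u : ZMod (M u + 1))) (fun i => (y i u : ZMod (M u + 1)))) := by
  have h1 : Delta0 k (fun u => ∃ h : GL (Fin r) (ZMod (M u + 1)),
      h ∈ gsub R (M u + 1) (fun i => v i u) ∧ (fun i => (y i u : ZMod (M u + 1))) =
      (h : Matrix (Fin r) (Fin r) (ZMod (M u + 1))).mulVec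
        fun i => (x i u : ZMod (M u + 1))) := by
    refine (glG r).gex (σ := fun _ u => M u) (fun _ => hM)
      (A := fun u (h : GL (Fin r) (ZMod (M u + 1))) => h ∈ gsub R (M u + 1) (fun i => v i u) ∧
        (fun i => (y i u : ZMod (M u + 1))) =
          (h : Matrix (Fin r) (Fin r) (ZMod (M u + 1))).mulVec
            fun i => (x i u : ZMod (M u + 1))) ?_
    have h2 : DFun (k + 1) (fun w => (glG r).enc (fun _ : Fin 1 => M fun j => w j.succ)
        ((glG r).dec (fun _ : Fin 1 => M fun j => w j.succ) (w 0))) :=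
      (glG r).gdec (σ := fun _ w => M fun j => w j.succ) (fun _ => hM.weak) (DFun.proj 0)
    exact (gsub_def c hc hR hM.weak (fun u => hprime _) (fun i => (hv i).weak) h2).and
      (mulVec_def hM.weak h2 (fun i => (hx i).weak) (fun i => (hy i).weak))
  exact h1.of_iff fun u => reach_iff

end Pool.Agent.LRch
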