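import Pool.Agent.LRch.Defs
import Pool.Agent.ECD.GOrd

/-!
# Generated subgroups in families of groups with definable products

`Φ` is a family of groups with definable products. If all subgroups of the groups `Φ.G (σ u)`
are products of at most `c` cyclic groups, then the subgroup generated by a definable family of
sets is definable (`closure_def`).
-/

set_option autoImplicit false

namespace Pool.Agent.LRch

open Finset Pool.Agent.Grz Pool.Agent.GAvg Pool.Agent.PTr Pool.Agent.MTr Pool.Agent.LPC
open Pool.Agent.ECD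

/-- In a finite group a set of products of powers that contains `S` and is closed under products
contains the subgroup generated by `S`. -/
theorem closure_subset_cyc {G : Type*} [Group G] [Finite G] {S : Set G} {l : List G}
    (h1 : ∀ x ∈ S, x ∈ cyc l) (h2 : ∀ x y, x ∈ cyc l → y ∈ cyc l → x * y ∈ cyc l) {x : G}
    (hx : x ∈ Subgroup.closure S) : x ∈ cyc l := by
  have h3 : x ∈ Submonoid.closure S := by
    rw [← Subgroup.closure_toSubmonoid_of_finite]
    exact hx
  let M : Submonoid G :=
    { carrier := cyc l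
      mul_mem' := fun {a b} ha hb => h2 a b ha hb
      one_mem' := one_mem_cyc l }
  have h4 : Submonoid.closure S ≤ M := Submonoid.closure_le.2 h1
  exact h4 h3

/-- a list of exactly `c` elements -/
theorem BGen.ofFn {G : Type*} [Group G] {c : ℕ} (h : BGen G c) :
    ∃ a : Fin c → G, ∀ x, x ∈ cyc (List.ofFn a) := by
  obtain ⟨l, hl, h1⟩ := h
  have h2 : ∃ m : List G, m.length = c ∧ ∀ x, x ∈ cyc m := by
    refine ⟨l ++ List.replicate (c - l.length) 1, ?_, fun x => ?_⟩
    · rw [List.length_append, List.length_replicate]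
      omega
    · rw [mem_cyc_append]
      exact ⟨x, h1 x, 1, one_mem_cyc _, (mul_one x).symm⟩
  obtain ⟨m, rfl, hm⟩ := h2
  exact ⟨m.get, fun x => by rw [List.ofFn_get]; exact hm x⟩

/-- membership in the generated subgroup by a universal formula over `G ^ c` -/
theorem mem_closure_iff {G : Type*} [Group G] [Finite G] {c : ℕ} {S : Set G}
    (h : BGen (Subgroup.closure S) c) {x : G} : x ∈ Subgroup.closure S ↔
      ∀ a : Fin c → G, (∀ y ∈ S, y ∈ cyc (List.ofFn a)) →
        (∀ y z, y ∈ cyc (List.ofFn a) → z ∈ cyc (List.ofFn a) → y * z ∈ cyc (List.ofFn a)) →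
        x ∈ cyc (List.ofFn a) := by
  constructor
  · intro hx a h1 h2
    exact closure_subset_cyc h1 h2 hx
  · intro hx
    obtain ⟨a, ha⟩ := h.ofFn
    have h3 : ∀ y : G, y ∈ cyc (List.ofFn fun j => (a j : G)) ↔ y ∈ Subgroup.closure S := by
      intro y
      have h4 := mem_cyc_map (Subgroup.closure S).subtype (l := List.ofFn a) (y := y)
      rw [List.map_ofFn] at h4
      constructor
      · intro hy
        obtain ⟨z, -, hz⟩ := h4.1 hy
        rw [← hz]
        exact z.2
      · intro hy
        exact h4.2 ⟨⟨y, hy⟩, ha _, rfl⟩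
    refine (h3 x).1 (hx _ ?_ ?_)
    · intro y hy
      exact (h3 y).2 (Subgroup.subset_closure hy)
    · intro y z hy hz
      exact (h3 _).2 (mul_mem ((h3 y).1 hy) ((h3 z).1 hz))

variable {r : ℕ} (Φ : GFam r)

/-- products of powers are definable -/
theorem cyc_def (l : ℕ) : ∀ {n : ℕ} {σ : Fin r → (Fin n → ℕ) → ℕ},
    (∀ i, DFun n (σ i)) → ∀ {a : Fin l → ∀ u : Fin n → ℕ, Φ.G (fun i => σ i u)}
    {x : ∀ u : Fin n → ℕ, Φ.G (fun i => σ i u)},
    (∀ j, DFun n (fun u => Φ.enc _ (a j u))) → DFun n (fun u => Φ.enc _ (x u)) →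
    Delta0 n (fun u => x u ∈ cyc (List.ofFn fun j => a j u)) := by
  induction l with
  | zero =>
    intro n σ hσ a x ha hx
    refine (Φ.geq hx (Φ.gone hσ)).of_iff fun u => ?_
    rw [List.ofFn_zero, mem_cyc_nil]
  | succ l ih =>
    intro n σ hσ a x ha hx
    have hσ1 : ∀ i, DFun (n + 1) (fun w : Fin (n + 1) → ℕ => σ i (fun j => w j.succ)) :=
      fun i => (hσ i).weak
    have h1 : Delta0 (n + 1) (fun w =>
        (a 0 (fun j => w j.succ) ^ w 0)⁻¹ * x (fun j => w j.succ) ∈
          cyc (List.ofFn fun j : Fin l => a j.succ (fun j => w j.succ))) := by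
      refine ih (σ := fun i w => σ i (fun j => w j.succ)) hσ1
        (a := fun j w => a j.succ (fun j => w j.succ))
        (x := fun w => (a 0 (fun j => w j.succ) ^ w 0)⁻¹ * x (fun j => w j.succ))
        (fun j => (ha j.succ).weak) ?_
      exact Φ.gmul hσ1 (Q := fun w => x (fun j => w j.succ))
        (Φ.ginv hσ1 (Φ.gpow hσ1 (g := fun w => a 0 (fun j => w j.succ)) (ha 0).weak
          (DFun.proj 0))) hx.weak
    refine (Delta0.bexFun (b := fun u => Φ.N (fun i => σ i u) + 1)
      (P := fun t u => (a 0 u ^ t)⁻¹ * x u ∈ cyc (List.ofFn fun j : Fin l => a j.succ u))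
      ((Φ.hN.comp hσ).add (DFun.const 1)) h1).of_iff fun u => ?_
    rw [List.ofFn_succ, mem_cyc_cons]
    constructor
    · rintro ⟨t, y, hy, h⟩
      refine ⟨t % orderOf (a 0 u), ?_, ?_⟩
      · exact (Nat.mod_lt _ (orderOf_pos _)).le.trans
          ((orderOf_le_card (x := a 0 u)).trans (Φ.card_le _))
      · rw [pow_mod_orderOf, h, inv_mul_cancel_left]
        exact hy
    · rintro ⟨t, -, h⟩
      exact ⟨t, _, h, (mul_inv_cancel_left _ _).symm⟩

/-- **Generated subgroups are definable** if the subgroups are products of a bounded number of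
cyclic groups. -/
theorem closure_def (c : ℕ) {n : ℕ} {σ : Fin r → (Fin n → ℕ) → ℕ} (hσ : ∀ i, DFun n (σ i))
    {S : ∀ u : Fin n → ℕ, Set (Φ.G (fun i => σ i u))}
    (hS : Delta0 (n + 1) (fun w =>
      Φ.dec (fun i => σ i (fun j => w j.succ)) (w 0) ∈ S (fun j => w j.succ)))
    (hc : ∀ u, BGen (Subgroup.closure (S u)) c)
    {x : ∀ u : Fin n → ℕ, Φ.G (fun i => σ i u)} (hx : DFun n (fun u => Φ.enc _ (x u))) :
    Delta0 n (fun u => x u ∈ Subgroup.closure (S u)) := by
  have h1 : Delta0 n (fun u => ∃ z : Fin c → ℕ, (∀ k, z k ≤ Φ.N (fun i => σ i u)) ∧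
      ((∀ y, y ∈ S u → y ∈ cyc (List.ofFn fun j => Φ.dec (fun i => σ i u) (z j))) ∧
        (∀ y y', y ∈ cyc (List.ofFn fun j => Φ.dec (fun i => σ i u) (z j)) →
          y' ∈ cyc (List.ofFn fun j => Φ.dec (fun i => σ i u) (z j)) →
          y * y' ∈ cyc (List.ofFn fun j => Φ.dec (fun i => σ i u) (z j))) ∧
        ¬ x u ∈ cyc (List.ofFn fun j => Φ.dec (fun i => σ i u) (z j)))) := by
    refine Delta0.bexVec (Φ.hN.comp hσ) (P := fun (z : Fin c → ℕ) u =>
      ((∀ y, y ∈ S u → y ∈ cyc (List.ofFn fun j => Φ.dec (fun i => σ i u) (z j))) ∧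
        (∀ y y', y ∈ cyc (List.ofFn fun j => Φ.dec (fun i => σ i u) (z j)) →
          y' ∈ cyc (List.ofFn fun j => Φ.dec (fun i => σ i u) (z j)) →
          y * y' ∈ cyc (List.ofFn fun j => Φ.dec (fun i => σ i u) (z j))) ∧
        ¬ x u ∈ cyc (List.ofFn fun j => Φ.dec (fun i => σ i u) (z j)))) ?_
    intro m z v hz hv
    have hσ0 : ∀ i, DFun m (fun w => σ i (fun j => v j w)) := fun i => (hσ i).comp hv
    have hσ1 : ∀ i, DFun (m + 1) (fun w => σ i (fun j => v j (fun k => w k.succ))) :=
      fun i => (hσ0 i).weak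
    have hσ2 : ∀ i, DFun (m + 1 + 1) (fun w => σ i (fun j => v j (fun k => w k.succ.succ))) :=
      fun i => (hσ0 i).weak.weak
    -- membership in the set of products, in one more variable
    have hP1 : Delta0 (m + 1) (fun w => Φ.dec (fun i => σ i (fun j => v j (fun k => w k.succ)))
        (w 0) ∈ cyc (List.ofFn fun j : Fin c => Φ.dec (fun i => σ i
          (fun j => v j (fun k => w k.succ))) (z j (fun k => w k.succ)))) :=
      cyc_def Φ c (σ := fun i w => σ i (fun j => v j (fun k => w k.succ))) hσ1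
        (a := fun j w => Φ.dec (fun i => σ i (fun j => v j (fun k => w k.succ)))
          (z j (fun k => w k.succ)))
        (x := fun w => Φ.dec (fun i => σ i (fun j => v j (fun k => w k.succ))) (w 0))
        (fun j => Φ.gdec hσ1 (hz j).weak) (Φ.gdec hσ1 (DFun.proj 0))
    refine Delta0.and ?_ (Delta0.and ?_ ?_)
    · refine Φ.gall (σ := fun i w => σ i (fun j => v j w)) hσ0
        (A := fun w y => y ∈ S (fun j => v j w) →
          y ∈ cyc (List.ofFn fun j => Φ.dec (fun i => σ i (fun j => v j w)) (z j w)))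
        (Delta0.imp ?_ hP1)
      have h2 := hS.subst (n := m + 1) (h := Fin.cons (fun w => w 0)
        (fun j w => v j (fun k => w k.succ))) (fun i => by
          refine Fin.cases ?_ (fun j => ?_) i
          · exact DFun.proj 0
          · exact (hv j).weak)
      exact h2
    · have hP2 : ∀ {x : ∀ w : Fin (m + 1 + 1) → ℕ, Φ.G (fun i => σ i
          (fun j => v j (fun k => w k.succ.succ)))}, DFun (m + 1 + 1) (fun w => Φ.enc _ (x w)) →
          Delta0 (m + 1 + 1) (fun w => x w ∈ cyc (List.ofFn fun j : Fin c =>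
            Φ.dec (fun i => σ i (fun j => v j (fun k => w k.succ.succ)))
              (z j (fun k => w k.succ.succ)))) := fun hx =>
        cyc_def Φ c (σ := fun i w => σ i (fun j => v j (fun k => w k.succ.succ))) hσ2
          (a := fun j w => Φ.dec (fun i => σ i (fun j => v j (fun k => w k.succ.succ)))
            (z j (fun k => w k.succ.succ)))
          (fun j => Φ.gdec hσ2 (hz j).weak.weak) hx
      refine Φ.gall (σ := fun i w => σ i (fun j => v j w)) hσ0
        (A := fun w y => ∀ y', y ∈ cyc (List.ofFn fun j =>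
            Φ.dec (fun i => σ i (fun j => v j w)) (z j w)) →
          y' ∈ cyc (List.ofFn fun j => Φ.dec (fun i => σ i (fun j => v j w)) (z j w)) →
          y * y' ∈ cyc (List.ofFn fun j => Φ.dec (fun i => σ i (fun j => v j w)) (z j w))) ?_
      refine Φ.gall (σ := fun i w => σ i (fun j => v j (fun k => w k.succ))) hσ1
        (A := fun w y' => Φ.dec (fun i => σ i (fun j => v j (fun k => w k.succ))) (w 0) ∈
            cyc (List.ofFn fun j => Φ.dec (fun i => σ i (fun j => v j (fun k => w k.succ)))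
              (z j (fun k => w k.succ))) →
          y' ∈ cyc (List.ofFn fun j => Φ.dec (fun i => σ i (fun j => v j (fun k => w k.succ)))
              (z j (fun k => w k.succ))) →
          Φ.dec (fun i => σ i (fun j => v j (fun k => w k.succ))) (w 0) * y' ∈
            cyc (List.ofFn fun j => Φ.dec (fun i => σ i (fun j => v j (fun k => w k.succ)))
              (z j (fun k => w k.succ)))) ?_
      exact (hP2 (Φ.gdec hσ2 (DFun.proj 1))).imp ((hP2 (Φ.gdec hσ2 (DFun.proj 0))).imp
        (hP2 (Φ.gmul hσ2 (Φ.gdec hσ2 (DFun.proj 1)) (Φ.gdec hσ2 (DFun.proj 0)))))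
    · refine Delta0.not ?_
      exact cyc_def Φ c (σ := fun i w => σ i (fun j => v j w)) hσ0
        (a := fun j w => Φ.dec (fun i => σ i (fun j => v j w)) (z j w))
        (x := fun w => x (fun j => v j w)) (fun j => Φ.gdec hσ0 (hz j))
        (hx.comp (h := v) hv)
  refine h1.not.of_iff fun u => ?_
  rw [mem_closure_iff (hc u)]
  constructor
  · rintro h ⟨z, -, h2, h3, h4⟩
    exact h4 (h _ h2 h3)
  · intro h a h2 h3
    by_contra h4
    refine h ⟨fun j => Φ.enc _ (a j), fun k => Φ.bd _ _, ?_⟩
    simp only [Φ.dec_enc]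
    exact ⟨h2, h3, h4⟩

end Pool.Agent.LRch
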