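import Pool.Agent.LRch.Defs

/-!
# Package LRch-Grp: group theory of products of cyclic subgroups

All statements are elementary; `cyc`, `BGen` and the basic facts are in `Defs.lean`.

*`BGen.of_surjective`.* Take the image of the list (`mem_cyc_map`).

*`BGen.ext`.* `f : G →* Q`, lists `l` in `ker f` and `k` in `range f`. Lift the elements of `k` to `G`
(`k'`, with `k'.map f = k` after coercion). For `x ∈ G` there is `z ∈ cyc k'` with `f z = f x`, so
`x * z⁻¹ ∈ ker f` is in `cyc l` and `x = (x * z⁻¹) * z ∈ cyc (l ++ k')`.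

*`BGen.mul`.* The list `l ++ k` (images in `G`), `mem_cyc_append`.

*`bgen_of_card`.* The list of all elements (`Finset.univ.toList`), `mem_cyc_of_mem`.

*`bgen_of_index`.* Append to the list of `H` representatives of the right cosets `H x`:
`x = a * b`, `a ∈ H`, `b` in a finite set with `H.index` elements (for instance
`Subgroup.exists_right_transversal` or `Quotient.out` of `QuotientGroup.rightRel H`).

*`bgen_of_cyclic`.* A generator `g`; every element of a finite cyclic group is a natural power of `g`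
(`mem_powers_iff_mem_zpowers`).

Difficulty: 0.5 h.
-/

set_option autoImplicit false

namespace Pool.Agent.LRch

theorem BGen.of_surjective {G H : Type*} [Group G] [Group H] {c : ℕ} (h : BGen G c) (f : G →* H)
    (hf : Function.Surjective f) : BGen H c := by
  obtain ⟨l, hl, h1⟩ := h
  refine ⟨l.map f, by rw [List.length_map]; exact hl, fun y => ?_⟩
  obtain ⟨x, hx⟩ := hf y
  exact (mem_cyc_map f).2 ⟨x, h1 x, hx⟩

theorem BGen.of_mulEquiv {G H : Type*} [Group G] [Group H] {c : ℕ} (h : BGen G c) (e : G ≃* H) :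
    BGen H c :=
  h.of_surjective e.toMonoidHom e.surjective

theorem BGen.ext {G Q : Type*} [Group G] [Group Q] {c d : ℕ} (f : G →* Q) (h1 : BGen f.ker c)
    (h2 : BGen f.range d) : BGen G (c + d) := by
  classical
  obtain ⟨l, hl, h1⟩ := h1
  obtain ⟨k, hk, h2⟩ := h2
  have hch : ∀ q : f.range, ∃ g : G, f.rangeRestrict g = q := fun q =>
    f.rangeRestrict_surjective q
  choose r hr using hch
  have hmap : (k.map r).map f.rangeRestrict = k := by
    rw [List.map_map]
    conv_rhs => rw [← List.map_id k]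
    exact List.map_congr_left fun q _ => hr q
  refine ⟨l.map f.ker.subtype ++ k.map r, ?_, fun x => ?_⟩
  · rw [List.length_append, List.length_map, List.length_map]
    exact Nat.add_le_add hl hk
  · have h3 : f.rangeRestrict x ∈ cyc ((k.map r).map f.rangeRestrict) := by
      rw [hmap]
      exact h2 _
    obtain ⟨z, hz, hzx⟩ := (mem_cyc_map f.rangeRestrict).1 h3
    have h4 : f z = f x := by
      have h5 := congrArg Subtype.val hzx
      simpa using h5
    have h5 : x * z⁻¹ ∈ f.ker := by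
      rw [MonoidHom.mem_ker, map_mul, map_inv, h4, mul_inv_cancel]
    refine mem_cyc_append.2 ⟨x * z⁻¹, ?_, z, hz, by rw [inv_mul_cancel_right]⟩
    exact (mem_cyc_map f.ker.subtype).2 ⟨⟨x * z⁻¹, h5⟩, h1 _, rfl⟩

theorem BGen.mul {G : Type*} [Group G] {c d : ℕ} (H K : Subgroup G) (hH : BGen H c)
    (hK : BGen K d) (h : ∀ x, ∃ a ∈ H, ∃ b ∈ K, x = a * b) : BGen G (c + d) := by
  obtain ⟨l, hl, h1⟩ := hH
  obtain ⟨k, hk, h2⟩ := hK
  refine ⟨l.map H.subtype ++ k.map K.subtype, ?_, fun x => ?_⟩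
  · rw [List.length_append, List.length_map, List.length_map]
    exact Nat.add_le_add hl hk
  · obtain ⟨a, ha, b, hb, hx⟩ := h x
    exact mem_cyc_append.2 ⟨a, (mem_cyc_map H.subtype).2 ⟨⟨a, ha⟩, h1 _, rfl⟩, b,
      (mem_cyc_map K.subtype).2 ⟨⟨b, hb⟩, h2 _, rfl⟩, hx⟩

theorem bgen_of_card {G : Type*} [Group G] [Finite G] {m : ℕ} (h : Nat.card G ≤ m) :
    BGen G m := by
  classical
  have := Fintype.ofFinite G
  refine ⟨(Finset.univ : Finset G).toList, ?_, fun x => mem_cyc_of_mem ?_⟩
  · rw [Finset.length_toList, Finset.card_univ, ← Nat.card_eq_fintype_card]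
    exact h
  · rw [Finset.mem_toList]
    exact Finset.mem_univ x

theorem bgen_of_index {G : Type*} [Group G] (H : Subgroup G) {c m : ℕ} (hH : BGen H c)
    (h0 : H.index ≠ 0) (hi : H.index ≤ m) : BGen G (c + m) := by
  classical
  obtain ⟨l, hl, h1⟩ := hH
  have : H.FiniteIndex := ⟨h0⟩
  have : Finite (G ⧸ H) := Subgroup.finite_quotient_of_finiteIndex
  have := Fintype.ofFinite (G ⧸ H)
  refine ⟨l.map H.subtype ++ (Finset.univ : Finset (G ⧸ H)).toList.map (fun q => q.out⁻¹), ?_,
    fun x => ?_⟩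
  · rw [List.length_append, List.length_map, List.length_map, Finset.length_toList,
      Finset.card_univ, ← Nat.card_eq_fintype_card]
    exact Nat.add_le_add hl hi
  · obtain ⟨u, hu⟩ := QuotientGroup.mk_out_eq_mul H x⁻¹
    refine mem_cyc_append.2 ⟨(u : G), ?_, ((x⁻¹ : G) : G ⧸ H).out⁻¹, ?_, ?_⟩
    · exact (mem_cyc_map H.subtype).2 ⟨u, h1 _, rfl⟩
    · refine mem_cyc_of_mem ?_
      rw [List.mem_map]
      exact ⟨((x⁻¹ : G) : G ⧸ H), by rw [Finset.mem_toList]; exact Finset.mem_univ _, rfl⟩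
    · rw [hu, mul_inv_rev, inv_inv, mul_inv_cancel_left]

theorem bgen_of_cyclic {G : Type*} [Group G] [Finite G] [IsCyclic G] : BGen G 1 := by
  obtain ⟨g, hg⟩ := IsCyclic.exists_generator (α := G)
  refine ⟨[g], le_refl _, fun x => ?_⟩
  obtain ⟨t, ht⟩ := mem_powers_iff_mem_zpowers.2 (hg x)
  refine mem_cyc_cons.2 ⟨t, 1, rfl, ?_⟩
  rw [mul_one]
  exact ht.symm

end Pool.Agent.LRch
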