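import Mathlib

/-!
# Jordan's theorem, the group theoretic part
-/

set_option autoImplicit false

namespace Pool.Agent.LRch

open scoped commutatorElement

/-- The group theoretic part of Jordan's theorem: `ν h` plays the role of `‖h - 1‖`.

PROOF. Let `E = {h | ν h < ε}` and `A = Subgroup.closure E`.
(1) Any two elements of `E` commute. Suppose not: the set of the `a ∈ E` which do not commute with
some element of `E` is non-empty and finite; take `a` in it with `ν a` minimal
(`Set.exists_min_image` / `Finset.exists_min_image`). `a ≠ 1`, so `0 < ν a` by `hnn` and `h0`. Let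
`b ∈ E` and `c = ⁅a, b⁆`. `ν c ≤ 2 * ν a * ν b < ν a` (if `ν b = 0` then `b = 1`, `c = 1` and
`ν c ≤ 0 < ν a`; otherwise `2 * ν b < 2 * ε ≤ 1`; in both cases `2 * ν a * ν b < ν a` because
`2 * ν b < 1` and `0 < ν a`). So `ν c < ν a < ε`, `c ∈ E`, and by the minimality `c` commutes with
every element of `E`, in particular with `a` and `b`. `ν c ≤ 2 * ν a * ν b < 2 * ε ^ 2 ≤ δ`
(strict since `ν a < ε`, `0 ≤ ν b < ε`), so `c = 1` by `hcen`, so `a * b = b * a`
(`commutatorElement_eq_one_iff_mul_comm`). So `a` commutes with all of `E`, a contradiction.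
(2) Hence `A` is commutative: `Subgroup.closure_induction₂` or `Subgroup.closureCommGroupOfComm`.
(3) Index: the representatives `Quotient.out q`, `q : H ⧸ A` (`Finite`, `Fintype.ofFinite`) form a
finite set `S = Finset.univ.image Quotient.out` with `A.index` elements
(`Subgroup.index = Nat.card (H ⧸ A)`); for `g ≠ h` in `S` the classes are different, so
`g⁻¹ * h ∉ A` (`QuotientGroup.eq`), so `g⁻¹ * h ∉ E`, i.e. `ε ≤ ν (g⁻¹ * h)`. By `hpack`,
`A.index = S.card ≤ J`. -/
theorem jordan_abstract {H : Type*} [Group H] [Finite H] (ν : H → ℝ) (ε δ : ℝ) (J : ℕ)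
    (hnn : ∀ h, 0 ≤ ν h) (h0 : ∀ h, ν h = 0 → h = 1)
    (hcom : ∀ a b : H, ν ⁅a, b⁆ ≤ 2 * ν a * ν b) (hε : 0 < ε) (hε1 : 2 * ε ≤ 1)
    (hδ : 2 * ε ^ 2 ≤ δ)
    (hcen : ∀ a b : H, Commute ⁅a, b⁆ a → Commute ⁅a, b⁆ b → ν ⁅a, b⁆ < δ → ⁅a, b⁆ = 1)
    (hpack : ∀ S : Finset H, (∀ g ∈ S, ∀ h ∈ S, g ≠ h → ε ≤ ν (g⁻¹ * h)) → S.card ≤ J) :
    ∃ A : Subgroup H, (∀ a ∈ A, ∀ b ∈ A, a * b = b * a) ∧ A.index ≤ J := by
  classical
  have hE : ∀ a b : H, ν a < ε → ν b < ε → Commute a b := by
    by_contra hne
    push Not at hne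
    obtain ⟨a₀, b₀, ha₀, hb₀, hab₀⟩ := hne
    obtain ⟨a, ⟨haE, b, hbE, hab⟩, hmin⟩ := Set.exists_min_image
      {a : H | ν a < ε ∧ ∃ b, ν b < ε ∧ ¬ Commute a b} ν (Set.toFinite _)
      ⟨a₀, ha₀, b₀, hb₀, hab₀⟩
    have hapos : 0 < ν a := by
      rcases (hnn a).lt_or_eq with h | h
      · exact h
      · exact absurd (by rw [h0 a h.symm]; exact Commute.one_left b) hab
    have hc1 : ν ⁅a, b⁆ < ν a := by
      have h1 := hcom a b
      have h2 : 2 * ν a * ν b < ν a := by nlinarith [hnn b]
      linarith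
    have hcE : ν ⁅a, b⁆ < ε := hc1.trans haE
    have hcc : ∀ d, ν d < ε → Commute ⁅a, b⁆ d := by
      intro d hd
      by_contra hcd
      have := hmin ⁅a, b⁆ ⟨hcE, d, hd, hcd⟩
      linarith
    have hcδ : ν ⁅a, b⁆ < δ := by
      have h1 := hcom a b
      have h2 : 2 * ν a * ν b < 2 * ε ^ 2 := by nlinarith [hnn b]
      linarith
    have hc := hcen a b (hcc a haE) (hcc b hbE) hcδ
    exact hab (commutatorElement_eq_one_iff_mul_comm.mp hc)
  refine ⟨Subgroup.closure {h | ν h < ε}, ?_, ?_⟩
  · intro a ha b hb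
    have h1 : ∀ x ∈ {h | ν h < ε}, ∀ y ∈ Subgroup.closure {h | ν h < ε}, Commute x y := by
      intro x hx y hy
      induction hy using Subgroup.closure_induction with
      | mem y hy => exact hE x y hx hy
      | one => exact Commute.one_right x
      | mul y z _ _ hy hz => exact hy.mul_right hz
      | inv y _ hy => exact hy.inv_right
    have h2 : Commute a b := by
      induction ha using Subgroup.closure_induction with
      | mem x hx => exact h1 x hx b hb
      | one => exact Commute.one_left b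
      | mul x z _ _ hx hz => exact hx.mul_left hz
      | inv x _ hx => exact hx.inv_left
    exact h2
  · have : Fintype (H ⧸ Subgroup.closure {h | ν h < ε}) := Fintype.ofFinite _
    have hinj : Function.Injective
        (Quotient.out : (H ⧸ Subgroup.closure {h | ν h < ε}) → H) := Quotient.out_injective
    have hcard := hpack (Finset.univ.image
      (Quotient.out : (H ⧸ Subgroup.closure {h | ν h < ε}) → H)) ?_
    · rw [Finset.card_image_of_injective _ hinj, Finset.card_univ] at hcard
      rwa [Subgroup.index, Nat.card_eq_fintype_card]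
    · intro g hg h hh hgh
      rw [Finset.mem_image] at hg hh
      obtain ⟨p, _, rfl⟩ := hg
      obtain ⟨q, _, rfl⟩ := hh
      by_contra hlt
      push Not at hlt
      apply hgh
      have hmem : (Quotient.out p)⁻¹ * Quotient.out q ∈ Subgroup.closure {h | ν h < ε} :=
        Subgroup.subset_closure hlt
      have hpq : (QuotientGroup.mk (Quotient.out p) : H ⧸ Subgroup.closure {h | ν h < ε}) =
        QuotientGroup.mk (Quotient.out q) := QuotientGroup.eq.mpr hmem
      have hp : (QuotientGroup.mk (Quotient.out p) : H ⧸ Subgroup.closure {h | ν h < ε}) = p :=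
        Quotient.out_eq' p
      have hq : (QuotientGroup.mk (Quotient.out q) : H ⧸ Subgroup.closure {h | ν h < ε}) = q :=
        Quotient.out_eq' q
      rw [hp, hq] at hpq
      rw [hpq]

end Pool.Agent.LRch
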