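import Mathlib

/-!
# Packing in the unit ball of the matrices
-/

set_option autoImplicit false

namespace Pool.Agent.LRch

open scoped Matrix.Norms.L2Operator

/-- The unit ball of the `r × r` complex matrices contains at most `J` points with mutual
distances at least `ε`.

PROOF. The matrices form a finite dimensional normed space over `ℂ`, so the closed unit ball is
compact (`FiniteDimensional.proper ℂ (Matrix (Fin r) (Fin r) ℂ)`, `isCompact_closedBall`), hence
totally bounded (`IsCompact.totallyBounded`, `Metric.totallyBounded_iff` or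
`Metric.finite_approx_of_totallyBounded`): there is a finite set `T` such that every point of the
ball is at distance `< ε / 2` from some point of `T`. `J = T.card`: choose for every `x ∈ S` such a
point `t x ∈ T`; `t` is injective on `S`, since `t x = t y` gives `‖x - y‖ < ε`
(`Finset.card_le_card_of_injOn`). -/
theorem pack (r : ℕ) (ε : ℝ) (hε : 0 < ε) : ∃ J : ℕ, ∀ S : Finset (Matrix (Fin r) (Fin r) ℂ),
    (∀ x ∈ S, ‖x‖ ≤ 1) → (∀ x ∈ S, ∀ y ∈ S, x ≠ y → ε ≤ ‖x - y‖) → S.card ≤ J := by
  classical
  have : ProperSpace (Matrix (Fin r) (Fin r) ℂ) :=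
    FiniteDimensional.proper ℂ (Matrix (Fin r) (Fin r) ℂ)
  have hc : IsCompact (Metric.closedBall (0 : Matrix (Fin r) (Fin r) ℂ) 1) :=
    isCompact_closedBall _ _
  have htb := hc.totallyBounded
  rw [Metric.totallyBounded_iff] at htb
  obtain ⟨T, hT, hcov⟩ := htb (ε / 2) (by positivity)
  refine ⟨hT.toFinset.card, ?_⟩
  intro S hS1 hS2
  have hex : ∀ x ∈ S, ∃ t ∈ T, dist x t < ε / 2 := by
    intro x hx
    have hx' : x ∈ Metric.closedBall (0 : Matrix (Fin r) (Fin r) ℂ) 1 := by
      rw [mem_closedBall_zero_iff]
      exact hS1 x hx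
    have h2 := hcov hx'
    rw [Set.mem_iUnion₂] at h2
    obtain ⟨t, ht, hxt⟩ := h2
    exact ⟨t, ht, Metric.mem_ball.mp hxt⟩
  choose! t ht1 ht2 using hex
  apply Finset.card_le_card_of_injOn t
  · intro x hx
    exact hT.mem_toFinset.mpr (ht1 x hx)
  · intro x hx y hy hxy
    by_contra hne
    have h1 := hS2 x hx y hy hne
    have h2 := ht2 x hx
    have h3 := ht2 y hy
    have h4 : dist x y < ε := by
      calc dist x y ≤ dist x (t x) + dist (t x) y := dist_triangle _ _ _
        _ = dist x (t x) + dist y (t y) := by rw [hxy, dist_comm (t y) y]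
        _ < ε / 2 + ε / 2 := add_lt_add h2 h3
        _ = ε := by ring
    rw [dist_eq_norm] at h4
    linarith

end Pool.Agent.LRch
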