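import Mathlib
import Pool.Agent.LRch.JorA
import Pool.Agent.LRch.Pack
import Pool.Agent.LRch.ComB

/-!
# Jordan's theorem on finite linear groups
-/

set_option autoImplicit false

namespace Pool.Agent.LRch

open scoped Matrix.Norms.L2Operator commutatorElement

private lemma lrchJordan_norm_le {r : ℕ} (u : Matrix.unitaryGroup (Fin r) ℂ) :
    ‖(u : Matrix (Fin r) (Fin r) ℂ)‖ ≤ 1 := by
  rcases Nat.eq_zero_or_pos r with h | h
  · subst h
    rw [Subsingleton.elim (u : Matrix (Fin 0) (Fin 0) ℂ) 0, norm_zero]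
    exact zero_le_one
  · have : Nonempty (Fin r) := ⟨⟨0, h⟩⟩
    exact (CStarRing.norm_coe_unitary u).le

private lemma lrchJordan_coe_mul_inv {r : ℕ} (u : Matrix.unitaryGroup (Fin r) ℂ) :
    (u : Matrix (Fin r) (Fin r) ℂ) * ((u⁻¹ : Matrix.unitaryGroup (Fin r) ℂ) :
      Matrix (Fin r) (Fin r) ℂ) = 1 := by
  have h : ((u * u⁻¹ : Matrix.unitaryGroup (Fin r) ℂ) : Matrix (Fin r) (Fin r) ℂ) = 1 := by
    rw [mul_inv_cancel]
    rfl
  exact h

private lemma lrchJordan_coe_inv_mul {r : ℕ} (u : Matrix.unitaryGroup (Fin r) ℂ) :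
    ((u⁻¹ : Matrix.unitaryGroup (Fin r) ℂ) : Matrix (Fin r) (Fin r) ℂ) *
      (u : Matrix (Fin r) (Fin r) ℂ) = 1 := by
  have h : ((u⁻¹ * u : Matrix.unitaryGroup (Fin r) ℂ) : Matrix (Fin r) (Fin r) ℂ) = 1 := by
    rw [inv_mul_cancel]
    rfl
  exact h

/-- the embedding of the unitary group into `GL`. -/
private noncomputable def lrchJordanGL (r : ℕ) : Matrix.unitaryGroup (Fin r) ℂ →* GL (Fin r) ℂ where
  toFun u := ⟨(u : Matrix (Fin r) (Fin r) ℂ), ((u⁻¹ : Matrix.unitaryGroup (Fin r) ℂ) :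
      Matrix (Fin r) (Fin r) ℂ), lrchJordan_coe_mul_inv u, lrchJordan_coe_inv_mul u⟩
  map_one' := Units.ext rfl
  map_mul' _ _ := Units.ext rfl

private lemma lrchJordanGL_coe {r : ℕ} (u : Matrix.unitaryGroup (Fin r) ℂ) :
    ((lrchJordanGL r u : GL (Fin r) ℂ) : Matrix (Fin r) (Fin r) ℂ) = u := rfl

private lemma lrchJordanGL_inj {r : ℕ} : Function.Injective (lrchJordanGL r) := by
  intro u v h
  apply Subtype.ext
  exact congrArg (fun g : GL (Fin r) ℂ => (g : Matrix (Fin r) (Fin r) ℂ)) h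

/-- the norm of `⁅a, b⁆ - 1` for unitary matrices.

PROOF. `⁅a, b⁆ - 1 = (a * b - b * a) * (a⁻¹ * b⁻¹)` (`commutatorElement_def`; `b * a * a⁻¹ * b⁻¹ =
1`) and `a * b - b * a = (a - 1) * (b - 1) - (b - 1) * (a - 1)`; `‖a⁻¹ * b⁻¹‖ ≤ 1` since it is
unitary (`CStarRing.norm_of_mem_unitary` for `r ≠ 0`, or `Matrix.l2_opNorm_conjTranspose_mul_self`:
`‖U‖ ^ 2 = ‖1‖ ≤ 1`; for `r = 0` everything is `0`: `Subsingleton`), and `‖X * Y‖ ≤ ‖X‖ * ‖Y‖`,
triangle inequality. -/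
theorem norm_comm_sub_one {r : ℕ} (a b : Matrix.unitaryGroup (Fin r) ℂ) :
    ‖((⁅a, b⁆ : Matrix.unitaryGroup (Fin r) ℂ) : Matrix (Fin r) (Fin r) ℂ) - 1‖ ≤
      2 * ‖(a : Matrix (Fin r) (Fin r) ℂ) - 1‖ * ‖(b : Matrix (Fin r) (Fin r) ℂ) - 1‖ := by
  set A : Matrix (Fin r) (Fin r) ℂ := (a : Matrix (Fin r) (Fin r) ℂ) with hA
  set B : Matrix (Fin r) (Fin r) ℂ := (b : Matrix (Fin r) (Fin r) ℂ) with hB
  set W : Matrix (Fin r) (Fin r) ℂ :=
    ((a⁻¹ * b⁻¹ : Matrix.unitaryGroup (Fin r) ℂ) : Matrix (Fin r) (Fin r) ℂ) with hW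
  have hc : ((⁅a, b⁆ : Matrix.unitaryGroup (Fin r) ℂ) : Matrix (Fin r) (Fin r) ℂ) =
      A * B * W := by
    have h1 : ⁅a, b⁆ = a * b * (a⁻¹ * b⁻¹) := by
      rw [commutatorElement_def]; group
    rw [h1]
    rfl
  have h2 : B * A * W = 1 := by
    have h3 : b * a * (a⁻¹ * b⁻¹) = 1 := by group
    have h4 : B * A * W = ((b * a * (a⁻¹ * b⁻¹) : Matrix.unitaryGroup (Fin r) ℂ) :
        Matrix (Fin r) (Fin r) ℂ) := rfl
    rw [h4, h3]
    rfl
  have h5 : A * B * W - 1 = ((A - 1) * (B - 1) - (B - 1) * (A - 1)) * W := by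
    calc A * B * W - 1 = A * B * W - B * A * W := by rw [h2]
      _ = ((A - 1) * (B - 1) - (B - 1) * (A - 1)) * W := by noncomm_ring
  have hWn : ‖W‖ ≤ 1 := lrchJordan_norm_le _
  have h6 : ‖(A - 1) * (B - 1) - (B - 1) * (A - 1)‖ ≤ 2 * ‖A - 1‖ * ‖B - 1‖ := by
    calc ‖(A - 1) * (B - 1) - (B - 1) * (A - 1)‖
        ≤ ‖(A - 1) * (B - 1)‖ + ‖(B - 1) * (A - 1)‖ := norm_sub_le _ _
      _ ≤ ‖A - 1‖ * ‖B - 1‖ + ‖B - 1‖ * ‖A - 1‖ :=
        add_le_add (norm_mul_le _ _) (norm_mul_le _ _)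
      _ = 2 * ‖A - 1‖ * ‖B - 1‖ := by ring
  rw [hc, h5]
  calc ‖((A - 1) * (B - 1) - (B - 1) * (A - 1)) * W‖
      ≤ ‖(A - 1) * (B - 1) - (B - 1) * (A - 1)‖ * ‖W‖ := norm_mul_le _ _
    _ ≤ ‖(A - 1) * (B - 1) - (B - 1) * (A - 1)‖ * 1 :=
      mul_le_mul_of_nonneg_left hWn (norm_nonneg _)
    _ ≤ 2 * ‖A - 1‖ * ‖B - 1‖ := by rw [mul_one]; exact h6

/-- JORDAN'S THEOREM for unitary representations: a commutative subgroup of bounded index.

PROOF. `δ` from `comm_near_one r`, `ε = min (1 / 2) (δ / 2)` (so `0 < ε`, `2 * ε ≤ 1` and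
`2 * ε ^ 2 ≤ (2 * ε) * ε ≤ ε ≤ δ`), `J` from `pack r ε`. Apply `jordan_abstract` with
`ν h = ‖(τ h : Matrix _ _ ℂ) - 1‖`.
`hnn`: `norm_nonneg`. `h0`: `τ h = 1` and injectivity. `hcom`: `norm_comm_sub_one`,
`map_commutatorElement`. `hcen`: apply `comm_near_one` to the images of `τ a`, `τ b` in `GL`
(`Matrix.UnitaryGroup.embeddingGL`, or `MonoidHom.toHomUnits` of the coercion
`unitaryGroup →* Matrix`, composed with `τ`: call it `κ : H →* GL (Fin r) ℂ`, injective,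
`(κ h : Matrix _ _ ℂ) = τ h`; `κ ⁅a, b⁆ = ⁅κ a, κ b⁆` has finite order since `H` is finite:
`isOfFinOrder_of_finite`, `MonoidHom.isOfFinOrder`). `hpack`: for `S : Finset H` the image
`S.image (fun h => (τ h : Matrix _ _ ℂ))` has the same cardinality (injectivity), its elements have
norm `≤ 1`, and for `g ≠ h`: `ε ≤ ‖τ (g⁻¹ * h) - 1‖ = ‖(τ g)⁻¹ * (τ h - τ g)‖ ≤ ‖τ h - τ g‖`. -/
theorem jordan (r : ℕ) : ∃ J : ℕ, ∀ (H : Type) [Group H] [Finite H]
    (τ : H →* Matrix.unitaryGroup (Fin r) ℂ), Function.Injective τ →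
    ∃ A : Subgroup H, (∀ a ∈ A, ∀ b ∈ A, a * b = b * a) ∧ A.index ≤ J := by
  classical
  obtain ⟨δ, hδ0, hδ⟩ := comm_near_one r
  have hε0 : (0 : ℝ) < min (1 / 2) (δ / 2) := lt_min (by norm_num) (by linarith)
  obtain ⟨J, hJ⟩ := pack r (min (1 / 2) (δ / 2)) hε0
  refine ⟨J, ?_⟩
  intro H _ _ τ hτ
  have hε1 : min (1 / 2 : ℝ) (δ / 2) ≤ 1 / 2 := min_le_left _ _
  have hε2 : min (1 / 2 : ℝ) (δ / 2) ≤ δ / 2 := min_le_right _ _
  refine jordan_abstract (fun h => ‖((τ h : Matrix.unitaryGroup (Fin r) ℂ) :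
    Matrix (Fin r) (Fin r) ℂ) - 1‖) (min (1 / 2) (δ / 2)) δ J (fun h => norm_nonneg _) ?_ ?_
    hε0 (by linarith) (by nlinarith) ?_ ?_
  · intro h hh
    have h1 : ((τ h : Matrix.unitaryGroup (Fin r) ℂ) : Matrix (Fin r) (Fin r) ℂ) - 1 = 0 :=
      norm_eq_zero.mp hh
    have h2 : ((τ h : Matrix.unitaryGroup (Fin r) ℂ) : Matrix (Fin r) (Fin r) ℂ) = 1 :=
      sub_eq_zero.mp h1
    have h3 : τ h = 1 := Subtype.ext h2
    exact hτ (by rw [h3, map_one])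
  · intro a b
    have h1 : τ ⁅a, b⁆ = ⁅τ a, τ b⁆ := map_commutatorElement τ a b
    simp only [h1]
    exact norm_comm_sub_one (τ a) (τ b)
  · intro a b hca hcb hn
    have hκ : Function.Injective ((lrchJordanGL r).comp τ) := lrchJordanGL_inj.comp hτ
    have h1 : ((lrchJordanGL r).comp τ) ⁅a, b⁆ =
        ⁅((lrchJordanGL r).comp τ) a, ((lrchJordanGL r).comp τ) b⁆ :=
      map_commutatorElement ((lrchJordanGL r).comp τ) a b
    have h2 := hδ (((lrchJordanGL r).comp τ) a) (((lrchJordanGL r).comp τ) b)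
    rw [← h1] at h2
    have h3 : ((lrchJordanGL r).comp τ) ⁅a, b⁆ = 1 := by
      apply h2
      · exact MonoidHom.isOfFinOrder _ (isOfFinOrder_of_finite _)
      · exact hca.map ((lrchJordanGL r).comp τ)
      · exact hcb.map ((lrchJordanGL r).comp τ)
      · exact hn
    exact hκ (by rw [h3, map_one])
  · intro S hS
    have hinj : Function.Injective (fun h : H => ((τ h : Matrix.unitaryGroup (Fin r) ℂ) :
        Matrix (Fin r) (Fin r) ℂ)) := fun x y hxy => hτ (Subtype.ext hxy)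
    have hcard : (S.image (fun h : H => ((τ h : Matrix.unitaryGroup (Fin r) ℂ) :
        Matrix (Fin r) (Fin r) ℂ))).card = S.card := Finset.card_image_of_injective S hinj
    rw [← hcard]
    apply hJ
    · intro x hx
      obtain ⟨g, -, rfl⟩ := Finset.mem_image.mp hx
      exact lrchJordan_norm_le _
    · intro x hx y hy hxy
      obtain ⟨g, hg, rfl⟩ := Finset.mem_image.mp hx
      obtain ⟨h, hh, rfl⟩ := Finset.mem_image.mp hy
      have hgh : g ≠ h := fun e => hxy (by rw [e])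
      have h1 := hS g hg h hh hgh
      refine le_trans h1 ?_
      have h2 : ((τ (g⁻¹ * h) : Matrix.unitaryGroup (Fin r) ℂ) : Matrix (Fin r) (Fin r) ℂ) - 1 =
          (((τ g)⁻¹ : Matrix.unitaryGroup (Fin r) ℂ) : Matrix (Fin r) (Fin r) ℂ) *
            (((τ h : Matrix.unitaryGroup (Fin r) ℂ) : Matrix (Fin r) (Fin r) ℂ) -
              ((τ g : Matrix.unitaryGroup (Fin r) ℂ) : Matrix (Fin r) (Fin r) ℂ)) := by
        rw [map_mul, map_inv, mul_sub, lrchJordan_coe_inv_mul]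
        rfl
      have h3 : ‖((τ (g⁻¹ * h) : Matrix.unitaryGroup (Fin r) ℂ) :
          Matrix (Fin r) (Fin r) ℂ) - 1‖ ≤
          ‖((τ h : Matrix.unitaryGroup (Fin r) ℂ) : Matrix (Fin r) (Fin r) ℂ) -
              ((τ g : Matrix.unitaryGroup (Fin r) ℂ) : Matrix (Fin r) (Fin r) ℂ)‖ := by
        rw [h2]
        refine le_trans (norm_mul_le _ _) ?_
        have h4 := lrchJordan_norm_le ((τ g)⁻¹)
        exact mul_le_of_le_one_left (norm_nonneg _) h4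
      exact h3.trans_eq (norm_sub_rev _ _)

end Pool.Agent.LRch
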