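import Mathlib

/-!
# Finite groups of complex matrices are conjugate to groups of unitary matrices
-/

set_option autoImplicit false

namespace Pool.Agent.LRch

open Matrix
open scoped ComplexOrder MatrixOrder

/-- A positive definite complex matrix is `Qᴴ * Q` with `Q` invertible.

PROOF. `B.PosSemidef` (`Matrix.PosDef.posSemidef`), so `0 ≤ B` (`Matrix.nonneg_iff_posSemidef` or
`Matrix.PosSemidef.nonneg`, scope `MatrixOrder`), `Q = CFC.sqrt B` satisfies `Q * Q = B`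
(`CFC.sqrt_mul_sqrt_self`) and is self-adjoint (`(CFC.sqrt_nonneg B).posSemidef.isHermitian`).
`det Q ^ 2 = det B ≠ 0` (`Matrix.PosDef.isUnit`, `Matrix.PosDef.det_pos`), so `Q` is a unit. (Or use
`Matrix.instStarOrderedRing`: `CStarAlgebra.nonneg_iff_eq_star_mul_self`.) -/
theorem exists_factor {r : ℕ} (B : Matrix (Fin r) (Fin r) ℂ) (hB : B.PosDef) :
    ∃ Q : GL (Fin r) ℂ, (Q : Matrix (Fin r) (Fin r) ℂ)ᴴ * (Q : Matrix (Fin r) (Fin r) ℂ) = B := by
  have h0 : 0 ≤ B := hB.posSemidef.nonneg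
  obtain ⟨X, hX⟩ := CStarAlgebra.nonneg_iff_eq_star_mul_self.1 h0
  rw [star_eq_conjTranspose] at hX
  have hu : IsUnit X := by
    rw [Matrix.isUnit_iff_isUnit_det]
    have h1 : IsUnit B.det := (Matrix.isUnit_iff_isUnit_det B).1 hB.isUnit
    rw [hX, det_mul] at h1
    exact isUnit_of_mul_isUnit_right h1
  obtain ⟨Q, hQ⟩ := hu
  exact ⟨Q, by rw [hQ, hX]⟩

/-- A finite group with a faithful complex representation of degree `r` has a faithful unitary
representation of degree `r`.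

PROOF. `B = Σ_h (σ h)ᴴ * (σ h)` (sum over the finite group, `Fintype.ofFinite`) is positive
definite: every summand is positive semidefinite (`Matrix.posSemidef_conjTranspose_mul_self`) and
the one of `h = 1` is the identity matrix, positive definite (`Matrix.PosDef.one`,
`Matrix.PosDef.add_posSemidef`), so split the sum (`Finset.sum_erase_add` ..). For all `h`:
`(σ h)ᴴ * B * (σ h) = B` (reindex the sum by `Equiv.mulRight h`, `map_mul`,
`Matrix.conjTranspose_mul`). Take `Q` from `exists_factor`. Then `U h = Q * σ h * Q⁻¹` satisfies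
`(U h)ᴴ * U h = (Qᴴ)⁻¹ (σ h)ᴴ (Qᴴ Q) (σ h) Q⁻¹ = (Qᴴ)⁻¹ B Q⁻¹ = 1`, so it lies in
`Matrix.unitaryGroup (Fin r) ℂ` (`Matrix.mem_unitaryGroup_iff'`, `star = ᴴ`:
`Matrix.star_eq_conjTranspose`). `τ h = ⟨U h, _⟩` is a homomorphism and injective. -/
theorem exists_unitary_rep {r : ℕ} {H : Type*} [Group H] [Finite H] (σ : H →* GL (Fin r) ℂ)
    (hσ : Function.Injective σ) :
    ∃ τ : H →* Matrix.unitaryGroup (Fin r) ℂ, Function.Injective τ := by
  classical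
  have hF : Fintype H := Fintype.ofFinite H
  set B : Matrix (Fin r) (Fin r) ℂ :=
    ∑ h : H, (σ h : Matrix (Fin r) (Fin r) ℂ)ᴴ * (σ h : Matrix (Fin r) (Fin r) ℂ) with hBdef
  have hB : B.PosDef := by
    refine Matrix.posDef_sum ⟨1, Finset.mem_univ _⟩ fun h _ => ?_
    have h1 := (Matrix.IsUnit.posDef_star_left_conjugate_iff (x := (1 : Matrix (Fin r) (Fin r) ℂ))
      (U := (σ h : Matrix (Fin r) (Fin r) ℂ)) (σ h).isUnit).2 Matrix.PosDef.one
    rwa [mul_one, star_eq_conjTranspose] at h1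
  have hinv : ∀ h : H, (σ h : Matrix (Fin r) (Fin r) ℂ)ᴴ * B *
      (σ h : Matrix (Fin r) (Fin r) ℂ) = B := by
    intro h
    rw [hBdef, Finset.mul_sum, Finset.sum_mul]
    refine Fintype.sum_equiv (Equiv.mulRight h) _ _ fun g => ?_
    simp only [Equiv.coe_mulRight, map_mul, Units.val_mul, conjTranspose_mul, mul_assoc]
  obtain ⟨Q, hQ⟩ := exists_factor B hB
  have hU : ∀ h : H, ((Q * σ h * Q⁻¹ : GL (Fin r) ℂ) : Matrix (Fin r) (Fin r) ℂ) ∈
      Matrix.unitaryGroup (Fin r) ℂ := by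
    intro h
    rw [Matrix.mem_unitaryGroup_iff', star_eq_conjTranspose]
    have h1 : ((Q⁻¹ : GL (Fin r) ℂ) : Matrix (Fin r) (Fin r) ℂ)ᴴ *
        (Q : Matrix (Fin r) (Fin r) ℂ)ᴴ = 1 := by
      rw [← conjTranspose_mul, ← Units.val_mul, mul_inv_cancel, Units.val_one,
        conjTranspose_one]
    have h2 : (Q : Matrix (Fin r) (Fin r) ℂ) *
        ((Q⁻¹ : GL (Fin r) ℂ) : Matrix (Fin r) (Fin r) ℂ) = 1 := by
      rw [← Units.val_mul, mul_inv_cancel, Units.val_one]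
    calc ((Q * σ h * Q⁻¹ : GL (Fin r) ℂ) : Matrix (Fin r) (Fin r) ℂ)ᴴ *
          ((Q * σ h * Q⁻¹ : GL (Fin r) ℂ) : Matrix (Fin r) (Fin r) ℂ)
        = ((Q⁻¹ : GL (Fin r) ℂ) : Matrix (Fin r) (Fin r) ℂ)ᴴ *
          ((σ h : Matrix (Fin r) (Fin r) ℂ)ᴴ * ((Q : Matrix (Fin r) (Fin r) ℂ)ᴴ *
          (Q : Matrix (Fin r) (Fin r) ℂ)) * (σ h : Matrix (Fin r) (Fin r) ℂ)) *
          ((Q⁻¹ : GL (Fin r) ℂ) : Matrix (Fin r) (Fin r) ℂ) := by
          simp only [Units.val_mul, conjTranspose_mul, mul_assoc]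
      _ = ((Q⁻¹ : GL (Fin r) ℂ) : Matrix (Fin r) (Fin r) ℂ)ᴴ * ((Q : Matrix (Fin r) (Fin r) ℂ)ᴴ *
          (Q : Matrix (Fin r) (Fin r) ℂ)) *
          ((Q⁻¹ : GL (Fin r) ℂ) : Matrix (Fin r) (Fin r) ℂ) := by
          rw [hQ, hinv]
      _ = 1 := by
          rw [← mul_assoc, h1, one_mul, h2]
  refine ⟨{ toFun := fun h => ⟨_, hU h⟩, map_one' := ?_, map_mul' := fun a b => ?_ }, ?_⟩
  · apply Subtype.ext
    simp
  · apply Subtype.ext
    change ((Q * σ (a * b) * Q⁻¹ : GL (Fin r) ℂ) : Matrix (Fin r) (Fin r) ℂ) =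
      ((Q * σ a * Q⁻¹ : GL (Fin r) ℂ) : Matrix (Fin r) (Fin r) ℂ) *
      ((Q * σ b * Q⁻¹ : GL (Fin r) ℂ) : Matrix (Fin r) (Fin r) ℂ)
    rw [← Units.val_mul]
    congr 1
    rw [map_mul]
    group
  · intro a b hab
    have h1 : ((Q * σ a * Q⁻¹ : GL (Fin r) ℂ) : Matrix (Fin r) (Fin r) ℂ) =
        ((Q * σ b * Q⁻¹ : GL (Fin r) ℂ) : Matrix (Fin r) (Fin r) ℂ) := congrArg Subtype.val hab
    have h2 : Q * σ a * Q⁻¹ = Q * σ b * Q⁻¹ := Units.ext h1
    exact hσ (mul_left_cancel (mul_right_cancel h2))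

end Pool.Agent.LRch
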