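import Mathlib
import Pool.Agent.LRch.Unit
import Pool.Agent.LRch.Jordan

/-!
# Jordan's theorem with a normal subgroup
-/

set_option autoImplicit false

namespace Pool.Agent.LRch

private theorem index_core_le {G : Type} [Group G] [Finite G] (A : Subgroup G) {J : ℕ}
    (hA : A.index ≤ J) : A.normalCore.index ≤ J.factorial := by
  classical
  have h1 : A.normalCore.index = Nat.card (MulAction.toPermHom G (G ⧸ A)).range := by
    rw [Subgroup.normalCore_eq_ker, Subgroup.index_ker]
  have h2 : Nat.card (MulAction.toPermHom G (G ⧸ A)).range ≤ Nat.card (Equiv.Perm (G ⧸ A)) :=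
    Nat.card_le_card_of_injective _ (Subgroup.subtype_injective _)
  have h3 : Nat.card (Equiv.Perm (G ⧸ A)) = (Nat.card (G ⧸ A)).factorial := Nat.card_perm
  have h4 : Nat.card (G ⧸ A) = A.index := rfl
  rw [h1]
  refine h2.trans ?_
  rw [h3, h4]
  exact Nat.factorial_le hA

/-- JORDAN'S THEOREM: a finite group with a faithful complex representation of degree `r` has a
normal commutative subgroup of index bounded in terms of `r`. -/
theorem jordan_normal (r : ℕ) : ∃ J : ℕ, ∀ (G : Type) [Group G] [Finite G]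
    (f : G →* GL (Fin r) ℂ), Function.Injective f →
    ∃ A : Subgroup G, A.Normal ∧ (∀ x ∈ A, ∀ y ∈ A, x * y = y * x) ∧ A.index ≤ J := by
  obtain ⟨J, hJ⟩ := jordan r
  refine ⟨J.factorial, ?_⟩
  intro G _ _ f hf
  obtain ⟨τ, hτ⟩ := exists_unitary_rep f hf
  obtain ⟨A, hA, hA2⟩ := hJ G τ hτ
  refine ⟨A.normalCore, A.normalCore_normal, ?_, index_core_le A hA2⟩
  intro x hx y hy
  exact hA x (A.normalCore_le hx) y (A.normalCore_le hy)

end Pool.Agent.LRch
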