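import Pool.Agent.LRch.Filt

/-!
# Congruence subgroups of `GL_r(ℤ/p^e)`: products of boundedly many cyclic groups

`LRel e i g ξ`: `g` is the image of `1 + p ^ i X` with an integer matrix `X`, and `ξ` is the image of
`X` modulo `p`.
-/

set_option autoImplicit false

namespace Pool.Agent.LRch

open Matrix

/-- integer matrices to matrices over `ℤ/m` -/
def redm (r m : ℕ) : Matrix (Fin r) (Fin r) ℤ →+* Matrix (Fin r) (Fin r) (ZMod m) :=
  (Int.castRingHom (ZMod m)).mapMatrix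

theorem redm_apply {r m : ℕ} (X : Matrix (Fin r) (Fin r) ℤ) (i j : Fin r) :
    redm r m X i j = ((X i j : ℤ) : ZMod m) := rfl

theorem redm_surj (r m : ℕ) (M : Matrix (Fin r) (Fin r) (ZMod m)) :
    ∃ X, redm r m X = M := by
  choose f hf using fun i j => ZMod.intCast_surjective (M i j)
  exact ⟨Matrix.of f, by ext i j; rw [redm_apply]; exact hf i j⟩

theorem redm_smul {r m : ℕ} (X : Matrix (Fin r) (Fin r) ℤ) (a : ℤ) (h : (m : ℤ) ∣ a) :
    redm r m (a • X) = 0 := by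
  ext i j
  rw [redm_apply]
  obtain ⟨b, rfl⟩ := h
  simp

theorem redm_eq_iff {r m : ℕ} {X Y : Matrix (Fin r) (Fin r) ℤ} :
    redm r m X = redm r m Y ↔ ∃ Z, X = Y + (m : ℤ) • Z := by
  constructor
  · intro h
    have h1 : ∀ i j, ∃ z : ℤ, X i j = Y i j + m * z := by
      intro i j
      have h2 : ((X i j : ℤ) : ZMod m) = ((Y i j : ℤ) : ZMod m) := by
        rw [← redm_apply, ← redm_apply, h]
      obtain ⟨z, hz⟩ := (ZMod.intCast_eq_intCast_iff_dvd_sub _ _ _).1 h2.symm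
      exact ⟨z, by rw [← hz]; ring⟩
    choose z hz using h1
    refine ⟨Matrix.of z, ?_⟩
    ext i j
    rw [hz]
    simp
  · rintro ⟨Z, rfl⟩
    rw [map_add, redm_smul _ _ (dvd_refl _), add_zero]

/-- `(1 + T) ^ p = 1 + p T + p T ^ 2 s + T ^ p` -/
theorem exists_pow_poly {p : ℕ} (hp : p.Prime) : ∃ s : Polynomial ℤ,
    (1 + Polynomial.X) ^ p = 1 + (p : Polynomial ℤ) * Polynomial.X +
      (p : Polynomial ℤ) * Polynomial.X ^ 2 * s + Polynomial.X ^ p := by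
  obtain ⟨t, ht⟩ := exists_add_pow_prime_eq hp (1 : Polynomial ℤ) Polynomial.X
  rw [one_pow, mul_one] at ht
  have hp2 := hp.two_le
  have hp0 : (p : ℤ) ≠ 0 := Nat.cast_ne_zero.2 hp.ne_zero
  have h0 : t.coeff 0 = 1 := by
    have h1 := congrArg (fun f : Polynomial ℤ => f.coeff 1) ht
    simp only [Polynomial.coeff_one_add_X_pow, Polynomial.coeff_add] at h1
    have h2 : ((p : Polynomial ℤ) * Polynomial.X * t).coeff 1 = p * t.coeff 0 := by
      rw [mul_assoc, ← Polynomial.C_eq_natCast, Polynomial.coeff_C_mul, Polynomial.coeff_X_mul]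
    rw [h2, Polynomial.coeff_X_pow, Polynomial.coeff_one, if_neg (by omega), if_neg (by omega),
      Nat.choose_one_right, zero_add, zero_add] at h1
    have h3 : (p : ℤ) * t.coeff 0 = p * 1 := by rw [mul_one]; exact h1.symm
    exact mul_left_cancel₀ hp0 h3
  obtain ⟨s, hs⟩ : Polynomial.X ∣ t - 1 := by
    rw [Polynomial.X_dvd_iff, Polynomial.coeff_sub, h0, Polynomial.coeff_one_zero, sub_self]
  refine ⟨s, ?_⟩
  have h1 : t = 1 + Polynomial.X * s := by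
    rw [← hs]
    ring
  rw [ht, h1]
  ring

theorem pow_one_add {p : ℕ} (hp : p.Prime) {r : ℕ} (i : ℕ) (h1 : 1 ≤ i) (h2 : 2 ≤ i * (p - 1))
    (X : Matrix (Fin r) (Fin r) ℤ) : ∃ Z, (1 + (p : ℤ) ^ i • X) ^ p =
      1 + (p : ℤ) ^ (i + 1) • (X + (p : ℤ) • Z) := by
  obtain ⟨s, hs⟩ := exists_pow_poly hp
  have h3 := congrArg (Polynomial.aeval ((p : ℤ) ^ i • X)) hs
  simp only [map_pow, map_add, map_one, map_mul, Polynomial.aeval_X, map_natCast] at h3
  set S := Polynomial.aeval ((p : ℤ) ^ i • X) s with hS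
  have hp2 := hp.two_le
  obtain ⟨a, ha⟩ : ∃ a, i * p = i + 1 + 1 + a := by
    obtain ⟨q, rfl⟩ : ∃ q, p = q + 1 := ⟨p - 1, by omega⟩
    rw [Nat.add_sub_cancel] at h2
    exact ⟨i * q - 2, by rw [mul_add]; omega⟩
  obtain ⟨b, rfl⟩ : ∃ b, i = 1 + b := ⟨i - 1, by omega⟩
  refine ⟨(p : ℤ) ^ b • (X ^ 2 * S) + (p : ℤ) ^ a • X ^ p, ?_⟩
  rw [h3, smul_pow, smul_pow, ← pow_mul, ← pow_mul, ha]
  have h4 : (p : Matrix (Fin r) (Fin r) ℤ) = (p : ℤ) • 1 := by
    rw [zsmul_one]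
    push_cast
    rfl
  rw [h4]
  simp only [Algebra.smul_mul_assoc, Algebra.mul_smul_comm, one_mul, smul_smul, smul_add]
  rw [add_assoc 1, add_assoc 1, add_assoc]
  congr 1
  congr 1
  congr 1
  · congr 1
    ring
  · congr 1
    ring

section

variable {p : ℕ} {r e : ℕ}

/-- `g` is the image of `1 + p ^ i X`, `ξ` the image of `X` modulo `p` -/
def LRel (p r e i : ℕ) (g : GL (Fin r) (ZMod (p ^ e))) (ξ : Matrix (Fin r) (Fin r) (ZMod p)) :
    Prop :=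
  ∃ X : Matrix (Fin r) (Fin r) ℤ, redm r p X = ξ ∧
    (g : Matrix (Fin r) (Fin r) (ZMod (p ^ e))) = redm r (p ^ e) (1 + (p : ℤ) ^ i • X)

theorem lrel_mul {i : ℕ} (hi : 1 ≤ i) {g g' : GL (Fin r) (ZMod (p ^ e))}
    {ξ ξ' : Matrix (Fin r) (Fin r) (ZMod p)} (h : LRel p r e i g ξ) (h' : LRel p r e i g' ξ') :
    LRel p r e i (g * g') (ξ + ξ') := by
  obtain ⟨X, h1, h2⟩ := h
  obtain ⟨X', h1', h2'⟩ := h'
  refine ⟨X + X' + (p : ℤ) ^ i • (X * X'), ?_, ?_⟩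
  · rw [map_add, map_add, h1, h1', redm_smul _ _ (dvd_pow_self _ (by omega)), add_zero]
  · rw [Units.val_mul, h2, h2', ← map_mul]
    congr 1
    simp only [mul_add, add_mul, one_mul, mul_one, smul_add, Algebra.smul_mul_assoc,
      Algebra.mul_smul_comm]
    abel

theorem lrel_inv {i : ℕ} (hi : 1 ≤ i) (he : 1 ≤ e) {g : GL (Fin r) (ZMod (p ^ e))}
    {ξ : Matrix (Fin r) (Fin r) (ZMod p)} (h : LRel p r e i g ξ) : LRel p r e i g⁻¹ (-ξ) := by
  obtain ⟨X, h1, h2⟩ := h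
  obtain ⟨Y, hY⟩ := redm_surj r (p ^ e) ((g⁻¹ : GL (Fin r) (ZMod (p ^ e))) :
    Matrix (Fin r) (Fin r) (ZMod (p ^ e)))
  have h3 : redm r (p ^ e) Y = redm r (p ^ e) (1 + (p : ℤ) ^ i • (-(X * Y))) := by
    have h4 : redm r (p ^ e) (1 + (p : ℤ) ^ i • X) * redm r (p ^ e) Y = 1 := by
      rw [hY, ← h2, ← Units.val_mul, mul_inv_cancel, Units.val_one]
    rw [← map_mul] at h4
    have h5 : (1 + (p : ℤ) ^ i • X) * Y = Y + (p : ℤ) ^ i • (X * Y) := by
      rw [add_mul, one_mul, Algebra.smul_mul_assoc]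
    rw [h5, map_add] at h4
    rw [map_add, map_one, smul_neg, map_neg, ← h4]
    abel
  have h4 : redm r p Y = 1 := by
    obtain ⟨Z, hZ⟩ := redm_eq_iff.1 h3
    rw [hZ, map_add, map_add, map_one, redm_smul _ _ (dvd_pow_self _ (by omega)),
      redm_smul _ _ (by push_cast; exact dvd_pow_self _ (by omega)), add_zero, add_zero]
  refine ⟨-(X * Y), ?_, ?_⟩
  · rw [map_neg, map_mul, h1, h4, mul_one]
  · rw [← hY, h3]

theorem lrel_one_red {i : ℕ} (hi : 1 ≤ i) {g : GL (Fin r) (ZMod (p ^ e))}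
    {ξ : Matrix (Fin r) (Fin r) (ZMod p)} (h : LRel p r e i g ξ) :
    ∃ Y, redm r p Y = 1 ∧ redm r (p ^ e) Y = (g : Matrix (Fin r) (Fin r) (ZMod (p ^ e))) := by
  obtain ⟨X, -, h2⟩ := h
  refine ⟨1 + (p : ℤ) ^ i • X, ?_, h2.symm⟩
  rw [map_add, map_one, redm_smul _ _ (dvd_pow_self _ (by omega)), add_zero]

theorem lrel_conj {s i : ℕ} (hs : 1 ≤ s) (he : 1 ≤ e) {g z : GL (Fin r) (ZMod (p ^ e))}
    {η ξ : Matrix (Fin r) (Fin r) (ZMod p)} (hg : LRel p r e s g η) (h : LRel p r e i z ξ) :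
    LRel p r e i (g⁻¹ * z * g) ξ := by
  obtain ⟨X, h1, h2⟩ := h
  obtain ⟨Y, hY1, hY2⟩ := lrel_one_red hs (lrel_inv hs he hg)
  obtain ⟨W, hW1, hW2⟩ := lrel_one_red hs hg
  refine ⟨Y * X * W, ?_, ?_⟩
  · rw [map_mul, map_mul, hY1, hW1, h1, one_mul, mul_one]
  · rw [Units.val_mul, Units.val_mul, h2, ← hY2, ← hW2]
    have h3 : redm r (p ^ e) Y * redm r (p ^ e) W = 1 := by
      rw [hY2, hW2, ← Units.val_mul, inv_mul_cancel, Units.val_one]
    have h4 : (p : ℤ) ^ i • (Y * X * W) = Y * ((p : ℤ) ^ i • X) * W := by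
      rw [Algebra.mul_smul_comm, Algebra.smul_mul_assoc]
    rw [h4, map_add, map_add, map_one, map_mul, map_mul, mul_add, add_mul, mul_one, h3]

theorem lrel_pow (hp : p.Prime) {i : ℕ} (hi : 1 ≤ i) (hi2 : 2 ≤ i * (p - 1))
    {g : GL (Fin r) (ZMod (p ^ e))}
    {ξ : Matrix (Fin r) (Fin r) (ZMod p)} (h : LRel p r e i g ξ) :
    LRel p r e (i + 1) (g ^ p) ξ := by
  obtain ⟨X, h1, h2⟩ := h
  obtain ⟨Z, hZ⟩ := pow_one_add hp i hi hi2 X
  refine ⟨X + (p : ℤ) • Z, ?_, ?_⟩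
  · rw [map_add, redm_smul _ _ (dvd_refl _), add_zero, h1]
  · rw [Units.val_pow_eq_pow_val, h2, ← map_pow, hZ]

theorem lrel_next {i : ℕ} {g : GL (Fin r) (ZMod (p ^ e))} (h : LRel p r e i g 0) :
    ∃ ξ, LRel p r e (i + 1) g ξ := by
  obtain ⟨X, h1, h2⟩ := h
  rw [← map_zero (redm r p)] at h1
  obtain ⟨Z, hZ⟩ := redm_eq_iff.1 h1
  refine ⟨redm r p Z, Z, rfl, ?_⟩
  rw [h2, hZ, zero_add, smul_smul, pow_succ]

theorem lrel_last {g : GL (Fin r) (ZMod (p ^ e))} {ξ : Matrix (Fin r) (Fin r) (ZMod p)}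
    (h : LRel p r e e g ξ) : g = 1 := by
  obtain ⟨X, -, h2⟩ := h
  refine Units.ext ?_
  rw [h2, map_add, map_one, redm_smul _ _ (by push_cast; exact dvd_refl _), add_zero,
    Units.val_one]

/-- subgroups of the congruence subgroup of level `s` -/
theorem bgen_cong [Fact p.Prime] {s : ℕ} (hs : 1 ≤ s) (hs2 : 2 ≤ s * (p - 1)) (hse : s ≤ e)
    (H : Subgroup (GL (Fin r) (ZMod (p ^ e)))) (hH : ∀ h ∈ H, ∃ ξ, LRel p r e s h ξ) :
    BGen H (r * r) := by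
  have hp : p.Prime := Fact.out
  have h1 := filt_bgen (p := p) H s e hse (LRel p r e) hH
    (fun i _ => ⟨0, by rw [map_zero], by rw [smul_zero, add_zero, map_one, Units.val_one]⟩)
    (fun i g g' ξ ξ' hi => lrel_mul (hs.trans hi))
    (fun i g ξ hi => lrel_inv (hs.trans hi) (hs.trans hse))
    (fun i g ξ hi => lrel_pow hp (hs.trans hi) (hs2.trans (Nat.mul_le_mul_right _ hi)))
    (fun i g z ξ hi hg => lrel_conj hs (hs.trans hse) (hH g hg).choose_spec)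
    (fun i g hi _ => lrel_next)
    (fun g ξ => lrel_last)
  rw [Module.finrank_matrix, Module.finrank_self, mul_one, Fintype.card_fin] at h1
  exact h1

end

end Pool.Agent.LRch
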