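import Mathlib

/-!
# Package LRch-Lower: points of a parametrised set, lower bound

`K` a finite field with `q` elements, `φ : σ → K[T_1..T_m]` polynomials of total degree at most `d`,
`φ (ι 1), ..., φ (ι m)` algebraically independent. Then the map `K^m → K^σ`, `t ↦ φ(t)`, has at least
`((q - 1) / (d m) + 1) ^ m` values.

*Proof.* Put `e = (q - 1) / (d * m)` (natural division). For `α : Fin m → Fin (e + 1)` let
`F_α = ∏_i (φ (ι i)) ^ (α i)`. They are linearly independent over `K` by algebraic independence
(`AlgebraicIndependent` means that `aeval` is injective, the monomials of `K[Y_1..Y_m]` are linearly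
independent: `MvPolynomial.basisMonomials`, `LinearIndependent.map'`), of total degree at most
`m * e * d ≤ q - 1`, so all exponents in `F_α` are at most `q - 1`: they are in
`MvPolynomial.restrictDegree (Fin m) K (q - 1)`, on which the evaluation as functions on `K^m` is
injective (`MvPolynomial.ker_evalₗ`, `MvPolynomial.restrictDegree` with `Module.finrank` arguments, in
`Mathlib/FieldTheory/Finite/Polynomial.lean`; or
`MvPolynomial.eq_zero_of_eval_zero_at_prod..`). So the functions `t ↦ F_α(t)` on `K^m` are linearly
independent. Each is of the form `h ∘ Φ`, `Φ : K^m → K^σ` the map in question,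
`h(x) = ∏_i x_(ι i) ^ (α i)`, so they all lie in the range of the linear map
`(range Φ → K) → (K^m → K)`, `h ↦ h ∘ Φ`, which has dimension at most `|range Φ|`. Hence
`(e + 1) ^ m ≤ |range Φ|`.

Difficulty: 1.2 h.
-/

set_option autoImplicit false

namespace Pool.Agent.LRch

theorem lower {K : Type*} [Field K] [Fintype K] {σ : Type*} {m d : ℕ} (hm : 0 < m) (hd0 : 0 < d)
    (φ : σ → MvPolynomial (Fin m) K) (hd : ∀ s, (φ s).totalDegree ≤ d) (ι : Fin m → σ)
    (hi : AlgebraicIndependent K (fun i => φ (ι i))) :
    ((Fintype.card K - 1) / (d * m) + 1) ^ m ≤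
      Nat.card (Set.range (fun (t : Fin m → K) (s : σ) => MvPolynomial.eval t (φ s))) := by
  classical
  have hq1 : 1 < Fintype.card K := Fintype.one_lt_card
  obtain ⟨e, he⟩ : ∃ e, e = (Fintype.card K - 1) / (d * m) := ⟨_, rfl⟩
  have hed : e * (d * m) ≤ Fintype.card K - 1 := by
    rw [he]; exact Nat.div_mul_le_self _ _
  rw [← he]
  let E : (Fin m → Fin (e + 1)) → (Fin m →₀ ℕ) :=
    fun α => Finsupp.equivFunOnFinite.symm (fun i => (α i : ℕ))
  have hE : Function.Injective E := by
    intro α β h
    funext i
    apply Fin.ext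
    have h2 := DFunLike.congr_fun h i
    simpa [E] using h2
  have hL0 : LinearIndependent K
      (fun s : Fin m →₀ ℕ => (MvPolynomial.monomial s (1 : K))) := by
    rw [← MvPolynomial.coe_basisMonomials]
    exact (MvPolynomial.basisMonomials (Fin m) K).linearIndependent
  have hL1 : LinearIndependent K (fun α => MvPolynomial.monomial (E α) (1 : K)) :=
    hL0.comp E hE
  let A : MvPolynomial (Fin m) K →ₗ[K] MvPolynomial (Fin m) K :=
    (MvPolynomial.aeval (fun i => φ (ι i))).toLinearMap
  have hA : LinearMap.ker A = ⊥ := LinearMap.ker_eq_bot.mpr hi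
  have hL2 := hL1.map' A hA
  have hF : (A ∘ fun α => MvPolynomial.monomial (E α) (1 : K)) =
      fun α : Fin m → Fin (e + 1) => ∏ i, φ (ι i) ^ (α i : ℕ) := by
    funext α
    simp only [A, Function.comp_apply, AlgHom.toLinearMap_apply, MvPolynomial.aeval_monomial,
      map_one, one_mul]
    rw [Finsupp.prod_fintype _ _ (fun i => pow_zero _)]
    simp [E]
  rw [hF] at hL2
  let Φ : (Fin m → K) → (σ → K) := fun t s => MvPolynomial.eval t (φ s)
  have hfin : Finite (Set.range Φ) := Set.finite_range Φ
  let hft : Fintype (Set.range Φ) := Fintype.ofFinite _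
  let h : (Fin m → Fin (e + 1)) → (Set.range Φ → K) :=
    fun α x => ∏ i, x.1 (ι i) ^ (α i : ℕ)
  have hL : LinearIndependent K h := by
    rw [Fintype.linearIndependent_iff] at hL2 ⊢
    intro g hg
    apply hL2 g
    apply MvPolynomial.eq_zero_of_eval_zero_at_prod_finset _ (fun _ => Finset.univ)
    · intro i
      refine lt_of_le_of_lt (MvPolynomial.degreeOf_le_totalDegree _ i) ?_
      rw [Finset.card_univ]
      have h1 : (∑ α : Fin m → Fin (e + 1), g α • ∏ i, φ (ι i) ^ (α i : ℕ)).totalDegree ≤
          Fintype.card K - 1 := by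
        apply MvPolynomial.totalDegree_finsetSum_le
        intro α _
        refine (MvPolynomial.totalDegree_smul_le _ _).trans ?_
        refine (MvPolynomial.totalDegree_finsetProd _ _).trans ?_
        have h2 : ∀ i ∈ (Finset.univ : Finset (Fin m)),
            (φ (ι i) ^ (α i : ℕ)).totalDegree ≤ e * d := by
          intro i _
          refine (MvPolynomial.totalDegree_pow _ _).trans ?_
          exact Nat.mul_le_mul (Nat.lt_succ_iff.mp (α i).2) (hd _)
        refine (Finset.sum_le_sum h2).trans ?_
        rw [Finset.sum_const, Finset.card_univ, Fintype.card_fin, smul_eq_mul]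
        calc m * (e * d) = e * (d * m) := by ring
          _ ≤ _ := hed
      omega
    · intro t _
      have h1 := congr_fun hg ⟨Φ t, t, rfl⟩
      simp only [Finset.sum_apply, Pi.smul_apply, smul_eq_mul, Pi.zero_apply, h, Φ] at h1
      simpa [MvPolynomial.smul_eval, map_sum, map_prod, map_pow] using h1
  have hc := hL.fintype_card_le_finrank
  rw [Module.finrank_fintype_fun_eq_card, Fintype.card_fun, Fintype.card_fin,
    Fintype.card_fin] at hc
  rw [Nat.card_eq_fintype_card]
  exact hc

end Pool.Agent.LRch
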