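import Pool.Agent.LRch.GLDef

/-!
# Definable matrices over `ℤ/m`

`mdec r m z`: the matrix of size `r` over `ℤ/m` with the digits of `z` in the base `m`; `menc X`: its
inverse. `MD M X`: the entries of the matrices `X u` over `ℤ/(M u + 1)` are definable. `SD M F`: the
family of sets of matrices `F u` is definable.
-/

set_option autoImplicit false

namespace Pool.Agent.LRch

open Finset Pool.Agent.Grz Pool.Agent.GAvg Pool.Agent.PTr Pool.Agent.MTr Pool.Agent.LPC
open Pool.Agent.ECD

/-- square matrices over `ℤ/m` -/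
abbrev Mat (r m : ℕ) := Matrix (Fin r) (Fin r) (ZMod m)

/-- the tail of a vector -/
abbrev tl {n : ℕ} (w : Fin (n + 1) → ℕ) : Fin n → ℕ := fun i => w i.succ

/-- the matrix with the digits of `z` -/
def mdec (r m z : ℕ) : Mat r m :=
  Matrix.of fun i j => ((z / m ^ (finProdFinEquiv (i, j) : ℕ) : ℕ) : ZMod m)

/-- the code of a matrix -/
def menc {r m : ℕ} (X : Mat r m) : ℕ :=
  ∑ k : Fin (r * r), (X (finProdFinEquiv.symm k).1 (finProdFinEquiv.symm k).2).val * m ^ (k : ℕ)

theorem menc_range {r m : ℕ} (X : Mat r m) : menc X = ∑ k ∈ range (r * r),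
    (if h : k < r * r then (X (finProdFinEquiv.symm ⟨k, h⟩).1
      (finProdFinEquiv.symm ⟨k, h⟩).2).val else 0) * m ^ k := by
  rw [menc, ← Fin.sum_univ_eq_sum_range (fun k =>
    (if h : k < r * r then (X (finProdFinEquiv.symm ⟨k, h⟩).1
      (finProdFinEquiv.symm ⟨k, h⟩).2).val else 0) * m ^ k)]
  refine Finset.sum_congr rfl fun k _ => ?_
  rw [dif_pos k.isLt]

theorem mdec_menc {r m : ℕ} (X : Mat r (m + 1)) : mdec r (m + 1) (menc X) = X := by
  ext i j
  rw [mdec, Matrix.of_apply]
  have h1 := dig_sum (q := m + 1) (m := r * r) (Nat.succ_pos m)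
    (fun k => if h : k < r * r then (X (finProdFinEquiv.symm ⟨k, h⟩).1
      (finProdFinEquiv.symm ⟨k, h⟩).2).val else 0) (by
      intro k hk
      rw [dif_pos hk]
      exact ZMod.val_lt _) (finProdFinEquiv (i, j)).isLt
  rw [← menc_range, dif_pos (finProdFinEquiv (i, j)).isLt, Fin.eta, Equiv.symm_apply_apply] at h1
  rw [← ZMod.natCast_mod]
  unfold dig at h1
  rw [h1, ZMod.natCast_zmod_val]

theorem menc_le {r m : ℕ} (X : Mat r (m + 1)) : menc X ≤ (m + 1) ^ (r * r) := by
  rw [menc_range]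
  refine (sum_lt (q := m + 1) (m := r * r) (Nat.succ_pos m)
    (fun k => if h : k < r * r then (X (finProdFinEquiv.symm ⟨k, h⟩).1
      (finProdFinEquiv.symm ⟨k, h⟩).2).val else 0) (by
      intro k hk
      rw [dif_pos hk]
      exact ZMod.val_lt _)).le

variable {r n : ℕ} {M : (Fin n → ℕ) → ℕ}

/-- the matrices `X u` have definable entries -/
def MD (M : (Fin n → ℕ) → ℕ) (X : ∀ u : Fin n → ℕ, Mat r (M u + 1)) : Prop :=
  ∀ i j, DFun n (fun u => (X u i j).val)

theorem MD.comp {m : ℕ} {X : ∀ u : Fin n → ℕ, Mat r (M u + 1)} (hX : MD M X)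
    {v : Fin n → (Fin m → ℕ) → ℕ} (hv : ∀ i, DFun m (v i)) :
    MD (fun w => M fun i => v i w) (fun w => X fun i => v i w) :=
  fun i j => (hX i j).comp hv

theorem MD.weak {X : ∀ u : Fin n → ℕ, Mat r (M u + 1)} (hX : MD M X) :
    MD (fun w : Fin (n + 1) → ℕ => M (tl w)) (fun w => X (tl w)) :=
  fun i j => (hX i j).weak

theorem MD.add {X Y : ∀ u : Fin n → ℕ, Mat r (M u + 1)} (hM : DFun n M) (hX : MD M X)
    (hY : MD M Y) : MD M (fun u => X u + Y u) := by
  intro i j
  have h1 := DFun.mod ((hX i j).add (hY i j)) hM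
  have e : (fun u => ((X u + Y u) i j).val) =
      fun u => ((X u i j).val + (Y u i j).val) % (M u + 1) := by
    funext u
    rw [Matrix.add_apply, ZMod.val_add]
  rw [e]
  exact h1

theorem MD.neg {X : ∀ u : Fin n → ℕ, Mat r (M u + 1)} (hM : DFun n M) (hX : MD M X) :
    MD M (fun u => -X u) := by
  intro i j
  have h1 := DFun.mod ((hM.add (DFun.const 1)).sub (hX i j)) hM
  have e : (fun u => ((-X u) i j).val) = fun u => (M u + 1 - (X u i j).val) % (M u + 1) := by
    funext u
    rw [Matrix.neg_apply, ZMod.neg_val']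
  rw [e]
  exact h1

theorem MD.sub {X Y : ∀ u : Fin n → ℕ, Mat r (M u + 1)} (hM : DFun n M) (hX : MD M X)
    (hY : MD M Y) : MD M (fun u => X u - Y u) := by
  have h := hX.add hM (hY.neg hM)
  have e : (fun u => X u - Y u) = fun u => X u + -Y u := by
    funext u
    rw [sub_eq_add_neg]
  rw [e]
  exact h

theorem MD.mul {X Y : ∀ u : Fin n → ℕ, Mat r (M u + 1)} (hM : DFun n M) (hX : MD M X)
    (hY : MD M Y) : MD M (fun u => X u * Y u) := by
  intro i j
  have h1 := DFun.mod (DFun.finSum univ fun l : Fin r => (hX i l).mul (hY l j)) hM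
  have e : (fun u => ((X u * Y u) i j).val) =
      fun u => (∑ l : Fin r, (X u i l).val * (Y u l j).val) % (M u + 1) := by
    funext u
    rw [← ZMod.val_natCast, Matrix.mul_apply]
    push_cast
    simp only [ZMod.natCast_zmod_val]
  rw [e]
  exact h1

theorem MD.nat (hM : DFun n M) (f : Fin r → Fin r → ℕ) :
    MD M (fun u => Matrix.of fun i j => ((f i j : ℕ) : ZMod (M u + 1))) := by
  intro i j
  have h1 := DFun.mod (DFun.const (n := n) (f i j)) hM
  have e : (fun u => ((Matrix.of fun i j => ((f i j : ℕ) : ZMod (M u + 1)) : Mat r (M u + 1))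
      i j).val) = fun u => f i j % (M u + 1) := by
    funext u
    rw [Matrix.of_apply, ZMod.val_natCast]
  rw [e]
  exact h1

theorem MD.diag (hM : DFun n M) (s : Finset (Fin r)) :
    MD M (fun u => Matrix.diagonal fun i => if i ∈ s then (1 : ZMod (M u + 1)) else 0) := by
  have h := MD.nat hM (fun i j => if i = j ∧ i ∈ s then 1 else 0)
  have e : (fun u => (Matrix.diagonal fun i => if i ∈ s then (1 : ZMod (M u + 1)) else 0 :
      Mat r (M u + 1))) = fun u => Matrix.of fun i j =>
        (((if i = j ∧ i ∈ s then 1 else 0 : ℕ)) : ZMod (M u + 1)) := by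
    funext u
    ext i j
    rw [Matrix.of_apply, Matrix.diagonal_apply]
    by_cases h1 : i = j
    · subst h1
      by_cases h2 : i ∈ s
      · simp [h2]
      · simp [h2]
    · simp [h1]
  rw [e]
  exact h

theorem MD.one (hM : DFun n M) : MD (r := r) M (fun _ => 1) := by
  have h := MD.diag (r := r) hM univ
  have e : (fun u => (1 : Mat r (M u + 1))) =
      fun u => Matrix.diagonal fun i => if i ∈ univ then (1 : ZMod (M u + 1)) else 0 := by
    funext u
    simp only [mem_univ, if_true]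
    exact Matrix.diagonal_one.symm
  rw [e]
  exact h

theorem MD.dec (hM : DFun n M) {z : (Fin n → ℕ) → ℕ} (hz : DFun n z) :
    MD M (fun u => mdec r (M u + 1) (z u)) := by
  intro i j
  have hM1 : DFun n (fun u => M u + 1) := hM.add (DFun.const 1)
  have h1 := DFun.mod (DFun.divPos hz (DFun.powConst hM1 (finProdFinEquiv (i, j) : ℕ))
    (fun u => pow_pos (Nat.succ_pos _) _)) hM
  have e : (fun u => (mdec r (M u + 1) (z u) i j).val) =
      fun u => z u / (M u + 1) ^ (finProdFinEquiv (i, j) : ℕ) % (M u + 1) := by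
    funext u
    rw [mdec, Matrix.of_apply, ZMod.val_natCast]
  rw [e]
  exact h1

theorem MD.enc {X : ∀ u : Fin n → ℕ, Mat r (M u + 1)} (hM : DFun n M) (hX : MD M X) :
    DFun n (fun u => menc (X u)) :=
  DFun.finSum univ fun _ => (hX _ _).mul (DFun.powConst (hM.add (DFun.const 1)) _)

theorem MD.eq {X Y : ∀ u : Fin n → ℕ, Mat r (M u + 1)} (hX : MD M X) (hY : MD M Y) :
    Delta0 n (fun u => X u = Y u) := by
  have h1 : Delta0 n (fun u => ∀ i j, (X u i j).val = (Y u i j).val) :=
    Delta0.allOf fun i => Delta0.allOf fun j => Delta0.eqFun (hX i j) (hY i j)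
  refine h1.of_iff fun u => ?_
  rw [← Matrix.ext_iff]
  exact forall_congr' fun i => forall_congr' fun j => (ZMod.val_injective _).eq_iff.symm

/-- quantification over matrices -/
theorem mex (hM : DFun n M) {A : ∀ u : Fin n → ℕ, Mat r (M u + 1) → Prop}
    (hA : Delta0 (n + 1) (fun w => A (tl w) (mdec r (M (tl w) + 1) (w 0)))) :
    Delta0 n (fun u => ∃ X, A u X) := by
  refine (Delta0.bexFun (b := fun u => (M u + 1) ^ (r * r))
    (P := fun z u => A u (mdec r (M u + 1) z))
    (DFun.powConst (hM.add (DFun.const 1)) _) hA).of_iff fun u => ?_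
  constructor
  · rintro ⟨X, hX⟩
    exact ⟨menc X, menc_le X, by rwa [mdec_menc]⟩
  · rintro ⟨z, -, hz⟩
    exact ⟨_, hz⟩

/-- the family of sets of matrices `F u` is definable -/
def SD (M : (Fin n → ℕ) → ℕ) (F : ∀ u : Fin n → ℕ, Set (Mat r (M u + 1))) : Prop :=
  Delta0 (n + 1) (fun w => mdec r (M (tl w) + 1) (w 0) ∈ F (tl w))

theorem SD.mem' {F : ∀ u : Fin n → ℕ, Set (Mat r (M u + 1))} (hF : SD M F) (hM : DFun n M)
    {m : ℕ} {v : Fin n → (Fin m → ℕ) → ℕ} (hv : ∀ i, DFun m (v i))
    {X : ∀ w : Fin m → ℕ, Mat r (M (fun i => v i w) + 1)}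
    (hX : MD (fun w => M fun i => v i w) X) :
    Delta0 m (fun w => X w ∈ F (fun i => v i w)) := by
  have hM' : DFun m (fun w => M fun i => v i w) := hM.comp hv
  have h1 := Delta0.subst hF (n := m) (h := Fin.cons (fun w => menc (X w)) v) (fun i => by
    refine Fin.cases ?_ (fun j => ?_) i
    · exact hX.enc hM'
    · exact hv j)
  refine h1.of_iff fun w => ?_
  show _ ↔ mdec r (M (fun i => v i w) + 1) (menc (X w)) ∈ F (fun i => v i w)
  rw [mdec_menc]

theorem SD.mem {F : ∀ u : Fin n → ℕ, Set (Mat r (M u + 1))} (hF : SD M F) (hM : DFun n M)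
    {X : ∀ u : Fin n → ℕ, Mat r (M u + 1)} (hX : MD M X) : Delta0 n (fun u => X u ∈ F u) :=
  hF.mem' hM (v := fun i u => u i) (fun i => DFun.proj i) hX

theorem SD.weak {F : ∀ u : Fin n → ℕ, Set (Mat r (M u + 1))} (hF : SD M F) (hM : DFun n M) :
    SD (fun w : Fin (n + 1) → ℕ => M (tl w)) (fun w => F (tl w)) :=
  hF.mem' hM (m := n + 1 + 1) (v := fun i w => w i.succ.succ) (fun _ => DFun.proj _)
    (MD.dec hM.weak.weak (DFun.proj 0))

/-- the sets defined by definable properties of matrices -/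
theorem SD.of {F : ∀ u : Fin n → ℕ, Set (Mat r (M u + 1))}
    (h : Delta0 (n + 1) (fun w => mdec r (M (tl w) + 1) (w 0) ∈ F (tl w))) : SD M F := h

end Pool.Agent.LRch
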