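import Mathlib

/-!
# Package LRch-PElem: elements of `p`-power order of `GL_r(ℤ/p)`, `r < p`, have order `1` or `p`

*Proof.* If `g ^ (p ^ k) = 1` then `(g - 1) ^ (p ^ k) = g ^ (p ^ k) - 1 = 0` (`sub_pow_char_pow`
or the commuting version in the matrix ring of characteristic `p`; `r = 0` is trivial), so
`g - 1` is nilpotent, hence `(g - 1) ^ r = 0`, hence `(g - 1) ^ p = 0`, hence `g ^ p = 1`.
-/

set_option autoImplicit false

namespace Pool.Agent.LRch

theorem pow_p_of_ppow {r p : ℕ} [Fact p.Prime] (hp : r < p) {g : GL (Fin r) (ZMod p)}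
    (h : ∃ k : ℕ, g ^ (p ^ k) = 1) : g ^ p = 1 := by
  obtain ⟨k, hk⟩ := h
  rcases Nat.eq_zero_or_pos r with h0 | h0
  · subst h0
    exact Subsingleton.elim _ _
  have : Nonempty (Fin r) := ⟨⟨0, h0⟩⟩
  have : CharP (Matrix (Fin r) (Fin r) (ZMod p)) p := Matrix.charP p
  set A : Matrix (Fin r) (Fin r) (ZMod p) := (g : Matrix (Fin r) (Fin r) (ZMod p)) with hA
  have hAk : A ^ p ^ k = 1 := by
    have h1 := congrArg (fun x : GL (Fin r) (ZMod p) =>
      (x : Matrix (Fin r) (Fin r) (ZMod p))) hk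
    simpa using h1
  have hc : Commute A 1 := Commute.one_right A
  have hnil : (A - 1) ^ p ^ k = 0 := by
    rw [sub_pow_char_pow_of_commute p k hc, hAk, one_pow, sub_self]
  have hN : IsNilpotent (A - 1) := ⟨_, hnil⟩
  have h2 : (A - 1).charpoly = Polynomial.X ^ Fintype.card (Fin r) := by
    have h3 := Matrix.isNilpotent_charpoly_sub_pow_of_isNilpotent hN
    exact sub_eq_zero.1 h3.eq_zero
  have h4 : (A - 1) ^ r = 0 := by
    have h5 := Matrix.aeval_self_charpoly (A - 1)
    rw [h2, map_pow, Polynomial.aeval_X, Fintype.card_fin] at h5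
    exact h5
  have h6 : (A - 1) ^ p = 0 := by
    have e : (A - 1) ^ (p - r + r) = (A - 1) ^ p := by rw [Nat.sub_add_cancel hp.le]
    rw [← e, pow_add, h4, mul_zero]
  have h7 : A ^ p = 1 := by
    rw [sub_pow_char_of_commute p hc, one_pow] at h6
    exact sub_eq_zero.1 h6
  apply Units.ext
  simpa using h7

end Pool.Agent.LRch
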