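import Mathlib
import Pool.Agent.LRch.Defs
import Pool.Agent.LRch.Emb
import Pool.Agent.LRch.JordanN
import Pool.Agent.LRch.AbDiag
import Pool.Agent.LRch.AbGen

/-!
# Groups of matrices modulo `p` of order prime to `p` are products of boundedly many cyclic groups
-/

set_option autoImplicit false

namespace Pool.Agent.LRch

private theorem bgen_index_aux {G : Type*} [Group G] [Finite G] (A : Subgroup G) {m c : ℕ}
    (hm : A.index ≤ m) (hA : BGen A c) : BGen G (m + c) := by
  classical
  obtain ⟨l, hl, hl2⟩ := hA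
  have : Fintype (G ⧸ A) := Fintype.ofFinite _
  refine ⟨((Finset.univ : Finset (G ⧸ A)).toList).map Quotient.out ++ l.map A.subtype, ?_, ?_⟩
  · rw [List.length_append, List.length_map, List.length_map, Finset.length_toList,
      Finset.card_univ, ← Nat.card_eq_fintype_card]
    exact add_le_add hm hl
  · intro x
    rw [mem_cyc_append]
    have hx : (Quotient.out (x : G ⧸ A))⁻¹ * x ∈ A := by
      rw [← QuotientGroup.eq]
      exact Quotient.out_eq _
    refine ⟨Quotient.out (x : G ⧸ A), ?_, (Quotient.out (x : G ⧸ A))⁻¹ * x, ?_,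
      (mul_inv_cancel_left _ _).symm⟩
    · apply mem_cyc_of_mem
      show Quotient.out (x : G ⧸ A) ∈ ((Finset.univ : Finset (G ⧸ A)).toList).map Quotient.out
      exact List.mem_map_of_mem (Finset.mem_toList.2 (Finset.mem_univ _))
    · rw [mem_cyc_map]
      exact ⟨⟨_, hx⟩, hl2 _, rfl⟩

/-- every finite group of order prime to `p` which embeds in `GL_r(ℤ/p)` is the product of at most
`c` cyclic groups, `c` depends only on `r` -/
theorem pprime (r : ℕ) : ∃ c : ℕ, ∀ (p : ℕ) [Fact p.Prime] (G : Type) [Group G] [Finite G]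
    (f : G →* GL (Fin r) (ZMod p)), Function.Injective f → (Nat.card G).Coprime p →
    BGen G c := by
  obtain ⟨J, hJ⟩ := jordan_normal r
  refine ⟨J + r, ?_⟩
  intro p hp G _ _ f hf hG
  obtain ⟨σ, hσ⟩ := exists_emb_complex G f hf hG
  obtain ⟨A, _, hA, hA2⟩ := hJ G σ hσ
  refine bgen_index_aux A hA2 ?_
  let _ : CommGroup A :=
    { (inferInstance : Group A) with
      mul_comm := fun a b => Subtype.ext (hA a a.2 b b.2) }
  obtain ⟨F, hF⟩ := exists_characters (σ.comp A.subtype)
    (hσ.comp (Subgroup.subtype_injective A))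
  exact bgen_of_characters F hF

end Pool.Agent.LRch
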