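import Pool.Agent.LRch.Unip
import Pool.Agent.LRch.PPrime
import Pool.Agent.LRch.Frat
import Pool.Agent.LRch.PElem

/-!
# Every subgroup of `GL_r(ℤ/p)` is a product of boundedly many cyclic subgroups
-/

set_option autoImplicit false

namespace Pool.Agent.LRch

theorem bgen_gl_emb (r : ℕ) : ∃ c : ℕ, ∀ (p : ℕ) [Fact p.Prime] (G : Type) [Group G] [Finite G]
    (f : G →* GL (Fin r) (ZMod p)), Function.Injective f → BGen G c := by
  obtain ⟨c1, h1⟩ := unip r
  obtain ⟨c2, h2⟩ := pprime r
  obtain ⟨c3, h3⟩ : ∃ c3 : ℕ, ∀ p : ℕ, p ≤ r → p ^ (r * r) ≤ c3 :=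
    ⟨r ^ (r * r), fun p hp => Nat.pow_le_pow_left hp _⟩
  refine ⟨max c3 (c1 + c2), ?_⟩
  intro p hp G _ _ f hf
  rcases Nat.lt_or_ge r p with hr | hr
  · refine BGen.mono (c := c1 + c2) ?_ (le_max_right _ _)
    have hN : ∀ g : G, (∃ k : ℕ, g ^ (p ^ k) = 1) → g ^ p = 1 := by
      rintro g ⟨k, hk⟩
      apply hf
      rw [map_pow, map_one]
      refine pow_p_of_ppow hr ⟨k, ?_⟩
      rw [← map_pow, hk, map_one]
    let N : Subgroup G := Subgroup.closure {g : G | g ^ p = 1}
    have hNn : N.Normal := by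
      refine Subgroup.Normal.mk ?_
      intro x hx g
      have h4 : ∀ y ∈ {g : G | g ^ p = 1}, MulAut.conj g y ∈ {g : G | g ^ p = 1} := by
        intro y hy
        have hy1 : y ^ p = 1 := hy
        change (MulAut.conj g y) ^ p = 1
        rw [← map_pow, hy1, map_one]
      have h5 : N.map (MulAut.conj g).toMonoidHom ≤ N := by
        change (Subgroup.closure _).map _ ≤ _
        rw [MonoidHom.map_closure, Subgroup.closure_le]
        rintro _ ⟨y, hy, rfl⟩
        exact Subgroup.subset_closure (h4 y hy)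
      exact h5 ⟨x, hx, rfl⟩
    obtain ⟨H, hH1, hH2⟩ := frattini_sz (p := p) N (fun g hg => Subgroup.subset_closure (hN g hg))
    refine BGen.mul N H ?_ ?_ hH2
    · refine h1 p hr N (f.comp N.subtype) (hf.comp N.subtype_injective) ?_
      have h6 : (Subgroup.closure {g : N | g ^ p = 1}).map N.subtype = N := by
        rw [MonoidHom.map_closure]
        apply le_antisymm
        · rw [Subgroup.closure_le]
          rintro _ ⟨y, _, rfl⟩
          exact y.2
        · change Subgroup.closure _ ≤ _
          rw [Subgroup.closure_le]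
          intro y hy
          have hy1 : y ^ p = 1 := hy
          refine Subgroup.subset_closure ⟨⟨y, Subgroup.subset_closure hy⟩, ?_, rfl⟩
          exact Subtype.ext hy1
      rw [eq_top_iff]
      intro x _
      have h7 : (x : G) ∈ (Subgroup.closure {g : N | g ^ p = 1}).map N.subtype := by
        rw [h6]
        exact x.2
      obtain ⟨y, hy, hyx⟩ := h7
      have h8 : y = x := Subtype.ext hyx
      exact h8 ▸ hy
    · exact h2 p H (f.comp H.subtype) (hf.comp H.subtype_injective) hH1
  · refine BGen.mono (c := c3) ?_ (le_max_left _ _)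
    refine bgen_of_card ?_
    have h4 : Nat.card G ≤ Nat.card (Matrix (Fin r) (Fin r) (ZMod p)) := by
      refine Nat.card_le_card_of_injective (fun g => ((f g : GL (Fin r) (ZMod p)) :
        Matrix (Fin r) (Fin r) (ZMod p))) ?_
      intro x y hxy
      exact hf (Units.ext hxy)
    refine h4.trans ?_
    have h5 : Nat.card (Matrix (Fin r) (Fin r) (ZMod p)) = p ^ (r * r) := by
      rw [Nat.card_eq_fintype_card]
      have h6 : Fintype.card (Matrix (Fin r) (Fin r) (ZMod p)) =
          Fintype.card (Fin r → Fin r → ZMod p) := rfl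
      rw [h6]
      simp [ZMod.card, pow_mul]
    rw [h5]
    exact h3 p hr

/-- **Bounded generation.** Every subgroup of `GL_r(ℤ/p)` is a product of at most `c(r)` cyclic
subgroups. -/
theorem bgen_gl (r : ℕ) : ∃ c : ℕ, ∀ (p : ℕ) [Fact p.Prime] (H : Subgroup (GL (Fin r) (ZMod p))),
    BGen H c := by
  obtain ⟨c, hc⟩ := bgen_gl_emb r
  exact ⟨c, fun p _ H => hc p H H.subtype H.subtype_injective⟩

end Pool.Agent.LRch
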