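import Pool.Agent.LRch.Lead

/-!
# Bounded generation of the subgroups of `GL_r(ℤ/m)`, `m` with boundedly many prime divisors
-/

set_option autoImplicit false

namespace Pool.Agent.LRch

open Matrix

/-- reduction of invertible matrices -/
def redGL (r : ℕ) {m q : ℕ} (h : q ∣ m) : GL (Fin r) (ZMod m) →* GL (Fin r) (ZMod q) :=
  Matrix.GeneralLinearGroup.map (ZMod.castHom h (ZMod q))

theorem redGL_eq_one_iff {r m q : ℕ} [NeZero m] (h : q ∣ m) (g : GL (Fin r) (ZMod m)) :
    redGL r h g = 1 ↔ ∃ X : Matrix (Fin r) (Fin r) ℤ,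
      (g : Matrix (Fin r) (Fin r) (ZMod m)) = redm r m (1 + (q : ℤ) • X) := by
  obtain ⟨Y, hY⟩ := redm_surj r m (g : Matrix (Fin r) (Fin r) (ZMod m))
  have h1 : ((redGL r h g : GL (Fin r) (ZMod q)) : Matrix (Fin r) (Fin r) (ZMod q)) =
      redm r q Y := by
    ext i j
    change ZMod.castHom h (ZMod q) ((g : Matrix (Fin r) (Fin r) (ZMod m)) i j) = _
    rw [← hY, redm_apply, redm_apply, map_intCast]
  constructor
  · intro h2
    have h3 : redm r q Y = redm r q 1 := by
      rw [← h1, h2, Units.val_one, map_one]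
    obtain ⟨Z, hZ⟩ := redm_eq_iff.1 h3
    exact ⟨Z, by rw [← hY, hZ]⟩
  · rintro ⟨X, hX⟩
    refine Units.ext ?_
    rw [h1, Units.val_one]
    rw [← hY] at hX
    obtain ⟨Z, hZ⟩ := redm_eq_iff.1 hX
    rw [hZ, map_add, map_add, map_one, redm_smul _ _ (dvd_refl _),
      redm_smul _ _ (Int.natCast_dvd_natCast.2 h), add_zero, add_zero]

/-- an element which is trivial modulo two coprime numbers -/
theorem redGL_two {r m q q' : ℕ} [NeZero m] (h : q ∣ m) (h' : q' ∣ m) (hc : q.Coprime q')
    (hm : q * q' = m) (g : GL (Fin r) (ZMod m)) (h1 : redGL r h g = 1)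
    (h2 : redGL r h' g = 1) : g = 1 := by
  obtain ⟨X, hX⟩ := (redGL_eq_one_iff h g).1 h1
  obtain ⟨Y, hY⟩ := (redGL_eq_one_iff h' g).1 h2
  refine Units.ext ?_
  have h4 := hX
  rw [hY] at h4
  obtain ⟨Z, hZ⟩ := redm_eq_iff.1 h4
  rw [hX, Units.val_one, ← map_one (redm r m)]
  have hmul : (m : ℤ) = (q : ℤ) * (q' : ℤ) := by
    rw [← Nat.cast_mul, hm]
  have h5 : ∀ i j, ∃ z : ℤ, (q : ℤ) * X i j = m * z := by
    intro i j
    have h6 := congrFun (congrFun hZ i) j
    simp only [Matrix.add_apply, Matrix.smul_apply, smul_eq_mul] at h6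
    have h7 : (q' : ℤ) ∣ (q : ℤ) * X i j := by
      refine ⟨Y i j - q * Z i j, ?_⟩
      rw [hmul] at h6
      linear_combination -h6
    have h8 : IsCoprime (q' : ℤ) (q : ℤ) := by
      rw [Nat.isCoprime_iff_coprime]
      exact hc.symm
    obtain ⟨z, hz⟩ := h8.dvd_of_dvd_mul_left h7
    exact ⟨z, by rw [hz, hmul]; ring⟩
  choose z hz using h5
  rw [redm_eq_iff]
  refine ⟨Matrix.of z, ?_⟩
  ext i j
  simp only [Matrix.add_apply, Matrix.smul_apply, smul_eq_mul, Matrix.of_apply]
  rw [← hz]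

theorem card_gl_le (r m : ℕ) [NeZero m] (H : Subgroup (GL (Fin r) (ZMod m))) :
    Nat.card H ≤ m ^ (r * r) := by
  have h4 : Nat.card H ≤ Nat.card (Matrix (Fin r) (Fin r) (ZMod m)) := by
    refine Nat.card_le_card_of_injective (fun g => (((g : H) : GL (Fin r) (ZMod m)) :
      Matrix (Fin r) (Fin r) (ZMod m))) ?_
    intro x y hxy
    exact Subtype.ext (Units.ext hxy)
  refine h4.trans ?_
  have h5 : Nat.card (Matrix (Fin r) (Fin r) (ZMod m)) = m ^ (r * r) := by
    rw [Nat.card_eq_fintype_card]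
    have h6 : Fintype.card (Matrix (Fin r) (Fin r) (ZMod m)) =
        Fintype.card (Fin r → Fin r → ZMod m) := rfl
    rw [h6]
    simp [ZMod.card, pow_mul]
  rw [h5]

/-- extension by a congruence subgroup -/
theorem bgen_step {r m q c d : ℕ} [NeZero m] (h : q ∣ m)
    (h1 : ∀ H : Subgroup (GL (Fin r) (ZMod m)), (∀ g ∈ H, redGL r h g = 1) → BGen H c)
    (h2 : ∀ H : Subgroup (GL (Fin r) (ZMod q)), BGen H d)
    (H : Subgroup (GL (Fin r) (ZMod m))) : BGen H (c + d) := by
  let f : H →* GL (Fin r) (ZMod q) := (redGL r h).comp H.subtype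
  refine BGen.ext f ?_ (h2 _)
  have h3 := h1 (f.ker.map H.subtype) (by
    rintro _ ⟨x, hx, rfl⟩
    exact hx)
  exact h3.of_mulEquiv (f.ker.equivMapOfInjective H.subtype H.subtype_injective).symm

theorem bgen_pp (r c0 : ℕ)
    (h0 : ∀ (p : ℕ) [Fact p.Prime] (H : Subgroup (GL (Fin r) (ZMod p))), BGen H c0) :
    ∃ c : ℕ, ∀ (p : ℕ) [Fact p.Prime] (e : ℕ) (H : Subgroup (GL (Fin r) (ZMod (p ^ e)))),
      BGen H c := by
  refine ⟨max (r * r + c0) (r * r + 4 ^ (r * r)), ?_⟩
  intro p hp e H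
  have hpp : p.Prime := hp.out
  have hne : NeZero (p ^ e) := ⟨pow_ne_zero _ hpp.ne_zero⟩
  rcases Nat.eq_zero_or_pos e with he | he
  · subst he
    refine BGen.mono (c := 1 ^ (r * r)) (bgen_of_card ?_) (le_max_of_le_right (by
      rw [one_pow]
      have := Nat.one_le_pow (r * r) 4 (by norm_num)
      omega))
    have h1 := card_gl_le r (p ^ 0) H
    exact h1
  rcases hpp.eq_two_or_odd' with h2 | h2
  · subst h2
    rcases Nat.lt_or_ge e 2 with he2 | he2
    · refine BGen.mono (c := (2 ^ e) ^ (r * r)) (bgen_of_card (card_gl_le r (2 ^ e) H))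
        (le_max_of_le_right ?_)
      have h3 : 2 ^ e ≤ 4 := by
        have : e = 1 := by omega
        subst this
        norm_num
      exact (Nat.pow_le_pow_left h3 _).trans (Nat.le_add_left _ _)
    · refine BGen.mono (bgen_step (q := 2 ^ 2) (pow_dvd_pow 2 he2) (c := r * r)
        (d := (2 ^ 2) ^ (r * r)) ?_ (fun H => bgen_of_card (card_gl_le r (2 ^ 2) H)) H)
        (le_max_of_le_right ?_)
      · intro K hK
        refine bgen_cong (s := 2) (by norm_num) (by norm_num) he2 K fun g hg => ?_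
        obtain ⟨X, hX⟩ := (redGL_eq_one_iff _ g).1 (hK g hg)
        exact ⟨_, X, rfl, by rw [hX]; push_cast; rfl⟩
      · norm_num
  · refine BGen.mono (bgen_step (q := p) (dvd_pow_self p (by omega)) (c := r * r)
      (d := c0) ?_ (fun H => h0 p H) H) (le_max_left _ _)
    intro K hK
    have hp3 : 3 ≤ p := by
      have h3 := hpp.two_le
      rcases h2 with ⟨a, ha⟩
      omega
    refine bgen_cong (s := 1) le_rfl (by omega) he K fun g hg => ?_
    obtain ⟨X, hX⟩ := (redGL_eq_one_iff _ g).1 (hK g hg)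
    exact ⟨_, X, rfl, by rw [hX, pow_one]⟩

theorem bgen_mod_aux (r c : ℕ)
    (h0 : ∀ (p : ℕ) [Fact p.Prime] (e : ℕ) (H : Subgroup (GL (Fin r) (ZMod (p ^ e)))), BGen H c)
    (k : ℕ) : ∀ m : ℕ, m ≠ 0 → m.primeFactors.card ≤ k →
      ∀ H : Subgroup (GL (Fin r) (ZMod m)), BGen H (1 + k * c) := by
  induction k with
  | zero =>
    intro m hm hk H
    have h1 : m = 1 := by
      rcases Nat.primeFactors_eq_empty.1 (Finset.card_eq_zero.1 (Nat.le_zero.1 hk)) with h | h
      · exact absurd h hm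
      · exact h
    subst h1
    have h2 := card_gl_le r 1 H
    rw [one_pow] at h2
    exact BGen.mono (bgen_of_card h2) (by omega)
  | succ k ih =>
    intro m hm hk H
    have hne : NeZero m := ⟨hm⟩
    rcases Nat.lt_or_ge k m.primeFactors.card with h1 | h1
    swap
    · exact (ih m hm h1 H).mono (by gcongr; omega)
    obtain ⟨p, hp⟩ := Finset.card_pos.1 (Nat.lt_of_le_of_lt (Nat.zero_le k) h1)
    have hpp : p.Prime := Nat.prime_of_mem_primeFactors hp
    have : Fact p.Prime := ⟨hpp⟩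
    have hd1 : p ^ m.factorization p ∣ m := Nat.ordProj_dvd m p
    have hd2 : m / p ^ m.factorization p ∣ m := Nat.ordCompl_dvd m p
    have hcard : (m / p ^ m.factorization p).primeFactors.card ≤ k := by
      have h2 : (m / p ^ m.factorization p).primeFactors = m.primeFactors.erase p := by
        rw [← Nat.support_factorization, Nat.factorization_ordCompl, Finsupp.support_erase,
          Nat.support_factorization]
      rw [h2, Finset.card_erase_of_mem hp]
      omega
    have h3 := bgen_step (r := r) hd1 (c := 1 + k * c) (d := c) ?_ (fun H => h0 p _ H) H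
    · exact h3.mono (by rw [add_mul, one_mul]; omega)
    · intro K hK
      let f : K →* GL (Fin r) (ZMod (m / p ^ m.factorization p)) := (redGL r hd2).comp K.subtype
      have hf : Function.Injective f := by
        rw [injective_iff_map_eq_one]
        intro g hg
        have h4 := redGL_two hd1 hd2 (Nat.Coprime.pow_left _ (Nat.coprime_ordCompl hpp hm))
          (Nat.ordProj_mul_ordCompl_eq_self m p) (g : GL (Fin r) (ZMod m)) (hK g g.2) hg
        exact Subtype.ext h4
      exact (ih _ (Nat.ordCompl_pos p hm).ne' hcard f.range).of_mulEquiv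
        (MonoidHom.ofInjective hf).symm

/-- **Bounded generation modulo numbers with at most `k` prime divisors**, from primes. -/
theorem bgen_mod_of (r k c0 : ℕ)
    (h0 : ∀ (p : ℕ) [Fact p.Prime] (H : Subgroup (GL (Fin r) (ZMod p))), BGen H c0) :
    ∃ c : ℕ, ∀ m : ℕ, m ≠ 0 → m.primeFactors.card ≤ k →
      ∀ H : Subgroup (GL (Fin r) (ZMod m)), BGen H c := by
  obtain ⟨c, hc⟩ := bgen_pp r c0 h0
  exact ⟨_, bgen_mod_aux r c hc k⟩

end Pool.Agent.LRch
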