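import Pool.Agent.ECD.PcDefs

/-!
# Package LRch-PclTools: subnormal series with cyclic factors

`PCL i H` (`ECD/PcDefs.lean`): `H` has a subnormal series of length `i` with cyclic factors.

*`pcl_mono`.* Enough `j = i + 1`: take `K = H`, `g = 1`.

*`pcl_map`.* Induction on `i`, `Subgroup.map_sup`, `MonoidHom.map_zpowers`; the normalisation
condition for `K.map f` and `f g`: `y ∈ K.map f ↔ f g * y * (f g)⁻¹ ∈ K.map f` (write `y = f x`, or
`y = (f g)⁻¹ * f x * f g = f (g⁻¹ * x * g)`; no injectivity is needed).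

*`pcl_ext`.* `f : H →* Q`, `N = f.ker.map H.subtype`, `PCL i N`, `PCL j f.range`. Induction on `j`
generalising `H`. `j = 0`: the range is trivial, `N = H`. `j + 1`: `f.range = K ⊔ zpowers q`, `q`
normalises `K`. Let `H' = (K.comap f).map H.subtype`, `f'` the restriction of `f` to `H'` (range `K`,
same kernel); by induction `PCL (i + j) H'`. Choose `g ∈ H` with `f g = q`. Then
`H = H' ⊔ zpowers g` (for `x ∈ H`, `f x ∈ K ⊔ zpowers q = K * zpowers q` as `q` normalises `K`:
`Subgroup.mul_normal`-type argument, or `Subgroup.sup_eq_closure`), and `g` normalises `H'`.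

*`pcl_ker`.* The special case of a cyclic range: `pcl_ext` with `j = 1`, or directly.

*`pcl_card`.* `H` a subgroup of `l`-power order `l ^ a` in a finite group. Induction on `a`: `H` has a
subgroup of order `l ^ (a - 1)` (`Sylow.exists_subgroup_card_pow_prime` or
`IsPGroup`-theory), it has index `l`, the smallest prime divisor of the order, so it is normal in `H`
(`Subgroup.normal_of_index_eq_minFac_card`), and with any `g ∈ H` outside it generates `H`.

Difficulty: 1.0 h.
-/

set_option autoImplicit false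

namespace Pool.Agent.LRch

open Pool.Agent.ECD

private theorem mem_sup_zp {G : Type*} [Group G] {K : Subgroup G} {g : G}
    (hn : ∀ x, x ∈ K ↔ g * x * g⁻¹ ∈ K) {x : G} (hx : x ∈ K ⊔ Subgroup.zpowers g) :
    ∃ k ∈ K, ∃ n : ℤ, x = k * g ^ n := by
  have hg : ∀ (n : ℤ) (y : G), y ∈ K ↔ g ^ n * y * (g ^ n)⁻¹ ∈ K := by
    intro n
    have h1 : g ∈ Subgroup.normalizer (K : Set G) := Subgroup.mem_normalizer_iff.2 hn
    have h2 : g ^ n ∈ Subgroup.normalizer (K : Set G) := Subgroup.zpow_mem _ h1 n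
    exact Subgroup.mem_normalizer_iff.1 h2
  rw [Subgroup.sup_eq_closure] at hx
  induction hx using Subgroup.closure_induction with
  | mem y hy =>
    rcases hy with hy | hy
    · exact ⟨y, hy, 0, by simp⟩
    · obtain ⟨n, rfl⟩ := Subgroup.mem_zpowers_iff.1 hy
      exact ⟨1, K.one_mem, n, by simp⟩
  | one => exact ⟨1, K.one_mem, 0, by simp⟩
  | mul y z _ _ hy hz =>
    obtain ⟨k, hk, n, rfl⟩ := hy
    obtain ⟨k', hk', n', rfl⟩ := hz
    refine ⟨k * (g ^ n * k' * (g ^ n)⁻¹), K.mul_mem hk ((hg n k').1 hk'), n + n', ?_⟩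
    rw [zpow_add]
    group
  | inv y _ hy =>
    obtain ⟨k, hk, n, rfl⟩ := hy
    refine ⟨g ^ (-n) * k⁻¹ * (g ^ (-n))⁻¹, (hg (-n) _).1 (K.inv_mem hk), -n, ?_⟩
    group

theorem pcl_mono {G : Type*} [Group G] {i j : ℕ} {H : Subgroup G} (h : PCL i H) (hij : i ≤ j) :
    PCL j H := by
  induction j, hij using Nat.le_induction with
  | base => exact h
  | succ j _ ih =>
    refine ⟨H, 1, ih, fun x => by simp, ?_⟩
    rw [Subgroup.zpowers_one_eq_bot, sup_bot_eq]

theorem pcl_map {G G' : Type*} [Group G] [Group G'] {i : ℕ} {H : Subgroup G} (h : PCL i H)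
    (f : G →* G') : PCL i (H.map f) := by
  induction i generalizing H with
  | zero =>
    have h1 : H = ⊥ := h
    show H.map f = ⊥
    rw [h1, Subgroup.map_bot]
  | succ i ih =>
    obtain ⟨K, g, hK, hn, rfl⟩ := h
    refine ⟨K.map f, f g, ih hK, ?_, ?_⟩
    · intro y
      constructor
      · rintro ⟨x, hx, rfl⟩
        refine ⟨g * x * g⁻¹, (hn x).1 hx, ?_⟩
        rw [map_mul, map_mul, map_inv]
      · rintro ⟨x, hx, h1⟩
        refine ⟨g⁻¹ * x * g, ?_, ?_⟩
        · refine (hn _).2 ?_
          have h2 : g * (g⁻¹ * x * g) * g⁻¹ = x := by group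
          rw [h2]
          exact hx
        · rw [map_mul, map_mul, map_inv, h1]
          group
    · rw [Subgroup.map_sup, MonoidHom.map_zpowers]

theorem pcl_ext {G Q : Type*} [Group G] [Group Q] {i j : ℕ} {H : Subgroup G} (f : H →* Q)
    (h1 : PCL i (f.ker.map H.subtype)) (h2 : PCL j f.range) : PCL (i + j) H := by
  induction j generalizing H with
  | zero =>
    have h3 : f.range = ⊥ := h2
    have h4 : f.ker.map H.subtype = H := by
      ext x
      constructor
      · rintro ⟨y, _, rfl⟩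
        exact y.2
      · intro hx
        refine ⟨⟨x, hx⟩, ?_, rfl⟩
        have h5 : f ⟨x, hx⟩ ∈ f.range := ⟨_, rfl⟩
        rw [h3, Subgroup.mem_bot] at h5
        exact h5
    rw [h4] at h1
    exact h1
  | succ j ih =>
    obtain ⟨K, q, hK, hn, hr⟩ := h2
    have hKr : K ≤ f.range := by
      rw [hr]
      exact le_sup_left
    have hqr : q ∈ f.range := by
      rw [hr]
      exact (le_sup_right : Subgroup.zpowers q ≤ K ⊔ Subgroup.zpowers q)
        (Subgroup.mem_zpowers q)
    obtain ⟨g, hg⟩ := hqr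
    have hmem : ∀ x : G, x ∈ (K.comap f).map H.subtype ↔ ∃ hx : x ∈ H, f ⟨x, hx⟩ ∈ K := by
      intro x
      constructor
      · rintro ⟨y, hy, rfl⟩
        exact ⟨y.2, hy⟩
      · rintro ⟨hx, hy⟩
        exact ⟨⟨x, hx⟩, hy, rfl⟩
    have hle : (K.comap f).map H.subtype ≤ H := fun x hx => ((hmem x).1 hx).1
    have hrange : (f.comp (Subgroup.inclusion hle)).range = K := by
      ext y
      constructor
      · rintro ⟨x, rfl⟩
        obtain ⟨_, hx⟩ := (hmem x.1).1 x.2
        exact hx
      · intro hy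
        obtain ⟨x, hx⟩ := hKr hy
        refine ⟨⟨x.1, (hmem x.1).2 ⟨x.2, ?_⟩⟩, hx⟩
        have h5 : (⟨x.1, x.2⟩ : H) = x := rfl
        rw [h5, hx]
        exact hy
    have hker : (f.comp (Subgroup.inclusion hle)).ker.map
        ((K.comap f).map H.subtype).subtype = f.ker.map H.subtype := by
      ext x
      constructor
      · rintro ⟨y, hy, rfl⟩
        exact ⟨⟨y.1, hle y.2⟩, hy, rfl⟩
      · rintro ⟨y, hy, rfl⟩
        have hy1 : f y = 1 := hy
        have h5 : f ⟨y.1, y.2⟩ ∈ K := by
          have h6 : (⟨y.1, y.2⟩ : H) = y := rfl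
          rw [h6, hy1]
          exact K.one_mem
        exact ⟨⟨y.1, (hmem y.1).2 ⟨y.2, h5⟩⟩, hy, rfl⟩
    have ih1 : PCL (i + j) ((K.comap f).map H.subtype) :=
      ih (f.comp (Subgroup.inclusion hle)) (by rw [hker]; exact h1) (by rw [hrange]; exact hK)
    refine ⟨(K.comap f).map H.subtype, g.1, ih1, ?_, ?_⟩
    · intro x
      rw [hmem, hmem]
      constructor
      · rintro ⟨hx, hy⟩
        have h5 : g.1 * x * g.1⁻¹ ∈ H := H.mul_mem (H.mul_mem g.2 hx) (H.inv_mem g.2)
        refine ⟨h5, ?_⟩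
        have h6 : (⟨g.1 * x * g.1⁻¹, h5⟩ : H) = g * ⟨x, hx⟩ * g⁻¹ := rfl
        rw [h6, map_mul, map_mul, map_inv, hg]
        exact (hn _).1 hy
      · rintro ⟨hx, hy⟩
        have h5 : x ∈ H := by
          have h6 := H.mul_mem (H.mul_mem (H.inv_mem g.2) hx) g.2
          have h7 : g.1⁻¹ * (g.1 * x * g.1⁻¹) * g.1 = x := by group
          rw [h7] at h6
          exact h6
        refine ⟨h5, ?_⟩
        have h6 : (⟨g.1 * x * g.1⁻¹, hx⟩ : H) = g * ⟨x, h5⟩ * g⁻¹ := rfl
        rw [h6, map_mul, map_mul, map_inv, hg] at hy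
        exact (hn _).2 hy
    · apply le_antisymm
      · intro x hx
        have h5 : f ⟨x, hx⟩ ∈ K ⊔ Subgroup.zpowers q := by
          rw [← hr]
          exact ⟨_, rfl⟩
        obtain ⟨k, hk, n, h6⟩ := mem_sup_zp hn h5
        have h7 : x * (g.1 ^ n)⁻¹ ∈ (K.comap f).map H.subtype := by
          rw [hmem]
          have h8 : x * (g.1 ^ n)⁻¹ ∈ H := H.mul_mem hx (H.inv_mem (H.zpow_mem g.2 n))
          refine ⟨h8, ?_⟩
          have h9 : (⟨x * (g.1 ^ n)⁻¹, h8⟩ : H) = ⟨x, hx⟩ * (g ^ n)⁻¹ := rfl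
          rw [h9, map_mul, map_inv, map_zpow, hg, h6, mul_inv_cancel_right]
          exact hk
        have h8 : x = x * (g.1 ^ n)⁻¹ * g.1 ^ n := by group
        rw [h8]
        exact Subgroup.mul_mem _ (Subgroup.mem_sup_left h7)
          (Subgroup.mem_sup_right (Subgroup.mem_zpowers_iff.2 ⟨n, rfl⟩))
      · refine sup_le hle ?_
        rw [Subgroup.zpowers_le]
        exact g.2

theorem pcl_ker {G Q : Type*} [Group G] [Group Q] {i : ℕ} {H : Subgroup G} (f : H →* Q)
    (h1 : PCL i (f.ker.map H.subtype)) (h2 : IsCyclic f.range) : PCL (i + 1) H := by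
  refine pcl_ext f h1 ?_
  obtain ⟨g, hg⟩ := h2.exists_generator
  refine ⟨⊥, g.1, rfl, fun x => ?_, ?_⟩
  · rw [Subgroup.mem_bot, Subgroup.mem_bot, conj_eq_one_iff]
  · rw [bot_sup_eq]
    apply le_antisymm
    · intro x hx
      obtain ⟨n, hn⟩ := Subgroup.mem_zpowers_iff.1 (hg ⟨x, hx⟩)
      refine Subgroup.mem_zpowers_iff.2 ⟨n, ?_⟩
      have h3 := congrArg Subtype.val hn
      exact h3
    · rw [Subgroup.zpowers_le]
      exact g.2

theorem pcl_card {G : Type*} [Group G] [Finite G] {l a : ℕ} (hl : l.Prime) (H : Subgroup G)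
    (hH : Nat.card H = l ^ a) : PCL a H := by
  have : Fact l.Prime := ⟨hl⟩
  induction a generalizing H with
  | zero =>
    show H = ⊥
    rw [pow_zero] at hH
    exact Subgroup.card_eq_one.1 hH
  | succ a ih =>
    obtain ⟨K, hK⟩ := Sylow.exists_subgroup_card_pow_prime (G := H) l (n := a)
      (by rw [hH]; exact pow_dvd_pow l (Nat.le_succ a))
    have hla : 0 < l ^ a := pow_pos hl.pos a
    have hidx : K.index = l := by
      have h1 := K.card_mul_index
      rw [hK, hH, pow_succ] at h1
      exact Nat.eq_of_mul_eq_mul_left hla h1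
    have hnorm : K.Normal := by
      apply Subgroup.normal_of_index_eq_minFac_card
      rw [hidx, hH, Nat.Prime.pow_minFac hl (Nat.succ_ne_zero a)]
    have hcard : Nat.card (K.map H.subtype) = l ^ a := by
      rw [Subgroup.card_map_of_injective H.subtype_injective]
      exact hK
    have hne : K ≠ ⊤ := by
      intro h
      rw [h, Subgroup.index_top] at hidx
      exact hl.one_lt.ne hidx
    obtain ⟨g, hg⟩ : ∃ g : H, g ∉ K := by
      by_contra hcon
      push Not at hcon
      exact hne (Subgroup.eq_top_iff' K |>.2 hcon)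
    have htop : K ⊔ Subgroup.zpowers g = ⊤ := by
      have h1 : Nat.card K ∣ Nat.card (K ⊔ Subgroup.zpowers g : Subgroup H) :=
        Subgroup.card_dvd_of_le le_sup_left
      have h2 : Nat.card (K ⊔ Subgroup.zpowers g : Subgroup H) ∣ l ^ (a + 1) := by
        rw [← hH]
        exact Subgroup.card_subgroup_dvd_card _
      obtain ⟨b, hb, hb2⟩ := (Nat.dvd_prime_pow hl).1 h2
      have hab : a ≤ b := by
        rw [hK, hb2] at h1
        exact (Nat.pow_dvd_pow_iff_le_right hl.one_lt).1 h1
      rcases Nat.lt_or_ge a b with h3 | h3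
      · have h4 : b = a + 1 := by omega
        apply Subgroup.eq_top_of_card_eq
        rw [hb2, h4, hH]
      · exfalso
        have h4 : b = a := le_antisymm h3 hab
        have h5 : K = K ⊔ Subgroup.zpowers g := by
          apply Subgroup.eq_of_le_of_card_ge le_sup_left
          rw [hb2, h4, hK]
        apply hg
        rw [h5]
        exact Subgroup.mem_sup_right (Subgroup.mem_zpowers g)
    refine ⟨K.map H.subtype, g.1, ih _ hcard, ?_, ?_⟩
    · intro x
      constructor
      · rintro ⟨y, hy, rfl⟩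
        exact ⟨g * y * g⁻¹, hnorm.conj_mem y hy g, rfl⟩
      · rintro ⟨y, hy, h5⟩
        refine ⟨g⁻¹ * y * g, ?_, ?_⟩
        · have h6 := hnorm.conj_mem y hy g⁻¹
          rw [inv_inv] at h6
          exact h6
        · have h6 : (y : G) = g.1 * x * g.1⁻¹ := h5
          show g.1⁻¹ * (y : G) * g.1 = x
          rw [h6]
          group
    · have h5 := congrArg (Subgroup.map H.subtype) htop
      rw [Subgroup.map_sup, MonoidHom.map_zpowers, ← MonoidHom.range_eq_map,
        Subgroup.range_subtype] at h5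
      exact h5.symm

end Pool.Agent.LRch
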