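import Mathlib

/-!
# The rank of a matrix by existence of factors

*`rank_eq_iff`.* `→`: by Gauss (`Matrix.Pivot.exists_list_transvec_mul_diagonal_mul_list_transvec` or
a basis argument) `X = L * diagonal d * L'` with invertible `L`, `L'`; `s = {i | d i ≠ 0}`; the
diagonal matrix `diagonal d` and the 0-1 matrix of `s` are multiples of each other; `s.card` is the
rank (`Matrix.rank_diagonal`, invertible factors). `←`: the ranks of `X` and of the 0-1 diagonal
matrix are equal by `Matrix.rank_mul_le_left/right` twice, and the latter is `s.card`.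
-/

set_option autoImplicit false

namespace Pool.Agent.LRch

private theorem rank_of_factors {K : Type*} [Field K] {r : ℕ} {X : Matrix (Fin r) (Fin r) K}
    {s : Finset (Fin r)}
    (h1 : ∃ P Q : Matrix (Fin r) (Fin r) K,
      P * X * Q = Matrix.diagonal (fun i => if i ∈ s then 1 else 0))
    (h2 : ∃ P Q : Matrix (Fin r) (Fin r) K,
      P * Matrix.diagonal (fun i => if i ∈ s then (1 : K) else 0) * Q = X) : X.rank = s.card := by
  classical
  have h3 : (Matrix.diagonal (fun i => if i ∈ s then (1 : K) else 0)).rank = s.card := by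
    rw [Matrix.rank_diagonal, Fintype.card_subtype]
    congr 1
    ext i
    simp
  obtain ⟨P, Q, h1⟩ := h1
  obtain ⟨P', Q', h2⟩ := h2
  rw [← h3]
  refine le_antisymm ?_ ?_
  · rw [← h2]
    exact (Matrix.rank_mul_le_left _ _).trans (Matrix.rank_mul_le_right _ _)
  · rw [← h1]
    exact (Matrix.rank_mul_le_left _ _).trans (Matrix.rank_mul_le_right _ _)

theorem rank_eq_iff {K : Type*} [Field K] {r k : ℕ} (X : Matrix (Fin r) (Fin r) K) :
    X.rank = k ↔ ∃ s : Finset (Fin r), s.card = k ∧
      (∃ P Q : Matrix (Fin r) (Fin r) K,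
        P * X * Q = Matrix.diagonal (fun i => if i ∈ s then 1 else 0)) ∧
      ∃ P Q : Matrix (Fin r) (Fin r) K,
        P * Matrix.diagonal (fun i => if i ∈ s then (1 : K) else 0) * Q = X := by
  classical
  constructor
  · intro h
    obtain ⟨L, L', D, hX⟩ := Matrix.Pivot.exists_list_transvec_mul_diagonal_mul_list_transvec X
    set A := (L.map Matrix.TransvectionStruct.toMatrix).prod with hA
    set B := (L'.map Matrix.TransvectionStruct.toMatrix).prod with hB
    have hAu : IsUnit A.det := by
      rw [hA, Matrix.TransvectionStruct.det_toMatrix_prod]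
      exact isUnit_one
    have hBu : IsUnit B.det := by
      rw [hB, Matrix.TransvectionStruct.det_toMatrix_prod]
      exact isUnit_one
    have h1 : ∃ P Q : Matrix (Fin r) (Fin r) K, P * X * Q =
        Matrix.diagonal (fun i => if i ∈ Finset.univ.filter (fun i => D i ≠ 0) then 1 else 0) := by
      refine ⟨Matrix.diagonal (fun i => (D i)⁻¹) * A⁻¹, B⁻¹, ?_⟩
      have h2 : A⁻¹ * X * B⁻¹ = Matrix.diagonal D := by
        rw [hX, Matrix.mul_assoc, Matrix.mul_assoc, Matrix.mul_assoc, Matrix.mul_nonsing_inv _ hBu,
          Matrix.mul_one, ← Matrix.mul_assoc, Matrix.nonsing_inv_mul _ hAu, Matrix.one_mul]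
      rw [Matrix.mul_assoc, Matrix.mul_assoc, ← Matrix.mul_assoc A⁻¹, h2,
        Matrix.diagonal_mul_diagonal]
      congr 1
      funext i
      by_cases hi : D i = 0
      · simp [hi]
      · simp [hi]
    have h2 : ∃ P Q : Matrix (Fin r) (Fin r) K, P * Matrix.diagonal (fun i =>
        if i ∈ Finset.univ.filter (fun i => D i ≠ 0) then (1 : K) else 0) * Q = X := by
      refine ⟨A * Matrix.diagonal D, B, ?_⟩
      rw [hX, Matrix.mul_assoc A, Matrix.diagonal_mul_diagonal]
      congr 3
      funext i
      by_cases hi : D i = 0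
      · simp [hi]
      · simp [hi]
    exact ⟨_, by rw [← rank_of_factors h1 h2, h], h1, h2⟩
  · rintro ⟨s, hs, h1, h2⟩
    rw [rank_of_factors h1 h2, hs]

end Pool.Agent.LRch
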