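import Mathlib

/-!
# Finite monoids with a rank function: local groups

`RankFn rk`: the properties of the rank of square matrices over a field that we use. `Loc rk k a c e`:
`a`, `c`, `a * c` have rank `k` and `e` is the idempotent with `e * c = c`, `a * e = a`,
`e ∈ c * M * a`.
-/

set_option autoImplicit false

namespace Pool.Agent.LRch

/-- the properties of the rank of square matrices that we use -/
structure RankFn {M : Type*} [Monoid M] (rk : M → ℕ) : Prop where
  left : ∀ x y : M, rk (x * y) ≤ rk x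
  right : ∀ x y : M, rk (x * y) ≤ rk y
  exl : ∀ x y : M, rk (x * y) = rk y → ∃ z : M, y = z * (x * y)
  exr : ∀ x y : M, rk (x * y) = rk x → ∃ z : M, x = x * y * z
  reg : ∀ x : M, ∃ y : M, x * y * x = x

section Mon

variable {M : Type*} [Monoid M] {rk : M → ℕ} {k : ℕ}

theorem RankFn.glue (hr : RankFn rk) {x a y : M} (ha : rk a = k) (h1 : rk (x * a) = k)
    (h2 : rk (a * y) = k) : rk (x * a * y) = k := by
  obtain ⟨z, hz⟩ := hr.exl x a (h1.trans ha.symm)
  refine le_antisymm ((hr.left _ _).trans h1.le) ?_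
  rw [← h2]
  conv_lhs => rw [hz]
  rw [mul_assoc]
  exact hr.right _ _

/-- a factor of an element of rank `k` with factors of rank at most `k` -/
theorem RankFn.left_eq (hr : RankFn rk) {x y : M} (h : rk (x * y) = k) (hx : rk x ≤ k) :
    rk x = k :=
  le_antisymm hx (h ▸ hr.left x y)

theorem RankFn.right_eq (hr : RankFn rk) {x y : M} (h : rk (x * y) = k) (hy : rk y ≤ k) :
    rk y = k :=
  le_antisymm hy (h ▸ hr.right x y)

/-- the idempotent `e` of the local group of the edge from `c` to `a` -/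
structure Loc (rk : M → ℕ) (k : ℕ) (a c e : M) : Prop where
  ha : rk a = k
  hc : rk c = k
  hac : rk (a * c) = k
  he : ∃ n, e = c * n * a
  ec : e * c = c
  ae : a * e = a

theorem Loc.idem {a c e : M} (h : Loc rk k a c e) : e * e = e := by
  obtain ⟨n, hn⟩ := h.he
  conv_lhs => rhs; rw [hn]
  rw [← mul_assoc, ← mul_assoc, h.ec, ← hn]

theorem RankFn.exists_loc (hr : RankFn rk) {a c : M} (ha : rk a = k) (hc : rk c = k)
    (hac : rk (a * c) = k) : ∃ e, Loc rk k a c e := by
  obtain ⟨n, hn⟩ := hr.reg (a * c)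
  obtain ⟨x, hx⟩ := hr.exl a c (hac.trans hc.symm)
  obtain ⟨y, hy⟩ := hr.exr a c (hac.trans ha.symm)
  refine ⟨c * n * a, ha, hc, hac, ⟨n, rfl⟩, ?_, ?_⟩
  · calc c * n * a * c = x * (a * c * n * (a * c)) := by
          conv_lhs => rw [mul_assoc, mul_assoc]; lhs; rw [hx]
          simp only [mul_assoc]
      _ = c := by rw [hn, ← hx]
  · calc a * (c * n * a) = a * c * n * (a * c) * y := by
          conv_lhs => rhs; rhs; rw [hy]
          simp only [mul_assoc]
      _ = a := by rw [hn, ← hy]

theorem Loc.rk_e (hr : RankFn rk) {a c e : M} (h : Loc rk k a c e) : rk e = k := by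
  refine le_antisymm ?_ ?_
  · obtain ⟨n, hn⟩ := h.he
    rw [hn]
    exact (hr.right _ _).trans h.ha.le
  · rw [← h.hc]
    conv_lhs => rw [← h.ec]
    exact hr.left _ _

/-- elements of the local monoid can be cancelled -/
theorem Loc.cancel (hr : RankFn rk) {a c e y u v : M} (h : Loc rk k a c e) (hy : rk y = k)
    (hye : y * e = y) (hu : e * u = u) (hv : e * v = v) (huv : y * u = y * v) : u = v := by
  obtain ⟨z, hz⟩ := hr.exl y e (by rw [hye, hy, h.rk_e hr])
  rw [hye] at hz
  rw [← hu, ← hv, hz, mul_assoc, mul_assoc, huv]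

/-- the product of local elements of rank `k` has rank `k` -/
theorem Loc.rk_mul (hr : RankFn rk) {a c e y x : M} (h : Loc rk k a c e) (hy : rk y = k)
    (hye : y * e = y) (hx : rk x = k) (hex : e * x = x) : rk (y * x) = k := by
  have h1 := hr.glue (x := y) (a := e) (y := x) (h.rk_e hr) (by rw [hye, hy]) (by rw [hex, hx])
  rwa [hye] at h1

theorem Loc.rk_pow (hr : RankFn rk) {a c e y : M} (h : Loc rk k a c e) (hy : rk y = k)
    (hye : y * e = y) (hey : e * y = y) (n : ℕ) : rk (y ^ (n + 1)) = k := by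
  induction n with
  | zero => rw [zero_add, pow_one, hy]
  | succ n ih =>
    rw [pow_succ']
    refine h.rk_mul hr hy hye ih ?_
    rw [pow_succ', ← mul_assoc, hey]

theorem Loc.pow_cancel (hr : RankFn rk) {a c e y u v : M} (h : Loc rk k a c e) (hy : rk y = k)
    (hye : y * e = y) (hey : e * y = y) (hu : e * u = u) (hv : e * v = v) (n : ℕ)
    (huv : y ^ n * u = y ^ n * v) : u = v := by
  induction n generalizing u v with
  | zero => rwa [pow_zero, one_mul, one_mul] at huv
  | succ n ih =>
    rw [pow_succ, mul_assoc, mul_assoc] at huv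
    refine h.cancel hr hy hye hu hv (ih ?_ ?_ huv)
    · rw [← mul_assoc, hey]
    · rw [← mul_assoc, hey]

/-- the local elements of rank `k` have finite order -/
theorem Loc.exists_pow [Finite M] (hr : RankFn rk) {a c e y : M} (h : Loc rk k a c e)
    (hy : rk y = k) (hye : y * e = y) (hey : e * y = y) : ∃ n, 0 < n ∧ y ^ n = e := by
  obtain ⟨i, j, hij, he⟩ := Finite.exists_ne_map_eq_of_infinite (fun n : ℕ => y ^ n)
  wlog hlt : i < j generalizing i j
  · exact this j i hij.symm he.symm (lt_of_le_of_ne (not_lt.1 hlt) hij.symm)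
  obtain ⟨d, rfl⟩ := Nat.exists_eq_add_of_lt hlt
  have he' : y ^ i * (y ^ (d + 1)) = y ^ i := by
    rw [← pow_add]
    exact he.symm
  have h1 : y ^ (d + 1) * e = y ^ (d + 1) := by rw [pow_succ, mul_assoc, hye]
  have h2 : e * y ^ (d + 1) = y ^ (d + 1) := by rw [pow_succ', ← mul_assoc, hey]
  refine ⟨d + 1, Nat.succ_pos _, h.pow_cancel hr hy hye hey h2 h.idem i ?_⟩
  rw [← h1, ← mul_assoc, he']

/-- the inverse in the local group is a power -/
theorem Loc.exists_inv [Finite M] (hr : RankFn rk) {a c e y : M} (h : Loc rk k a c e)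
    (hy : rk y = k) (hye : y * e = y) (hey : e * y = y) : ∃ n, 0 < n ∧ y ^ n * y = e := by
  obtain ⟨n, hn, h1⟩ := h.exists_pow hr hy hye hey
  refine ⟨2 * n - 1, by omega, ?_⟩
  rw [← pow_succ, show 2 * n - 1 + 1 = n + n by omega, pow_add, h1, h.idem]

/-- the identity used in the telescoping products -/
theorem Loc.identity [Finite M] (hr : RankFn rk) {a c e b α α' β s s' : M}
    (h : Loc rk k a c e) (hb : rk b = k) (hβb : rk (β * b) = k) (heβ : e * (β * b) = β * b)
    (hα : α = b * α') (hαk : rk α = k) (hαe : α * e = α) (hs : s = b * s') :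
    ∃ n, 0 < n ∧ (β * α) ^ n * (β * α) = e ∧ α * (β * α) ^ n * (β * s) = s := by
  have h1 : rk (β * α) = k := by
    have h2 := hr.glue (x := β) (a := b) (y := α') hb hβb (by rw [← hα, hαk])
    rwa [mul_assoc, ← hα] at h2
  have h2 : β * α * e = β * α := by rw [mul_assoc, hαe]
  have h3 : e * (β * α) = β * α := by
    rw [hα, ← mul_assoc β b, ← mul_assoc e, heβ]
  obtain ⟨n, hn, h4⟩ := h.exists_inv hr h1 h2 h3
  refine ⟨n, hn, h4, ?_⟩
  obtain ⟨z, hz⟩ := hr.exl β b (by rw [hβb, hb])
  have h5 : β * (α * (β * α) ^ n * (β * s)) = β * s := by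
    have h6 : β * (α * (β * α) ^ n * (β * s)) = (β * α) ^ n * (β * α) * (β * s) := by
      rw [← pow_succ, pow_succ']
      simp only [mul_assoc]
    rw [h6, h4, hs, ← mul_assoc β b, ← mul_assoc e, heβ]
  have h7 : ∀ w, b * w = z * (β * (b * w)) := by
    intro w
    conv_lhs => rw [hz]
    simp only [mul_assoc]
  have h8 : α * (β * α) ^ n * (β * s) = b * (α' * (β * α) ^ n * (β * s)) := by
    conv_lhs => lhs; lhs; rw [hα]
    simp only [mul_assoc]
  rw [h8, h7, ← h8, h5, hs, ← h7]

end Mon

end Pool.Agent.LRch
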