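import Pool.Agent.LRch.SgCard

/-!
# Families of affine maps, moduli with prime values

`MM R m v`: the `k × l` matrices over `ℤ/m` whose residues satisfy `R` with the parameters `v`.
`AReach S`: reachability by affine steps `u ↦ X (u, 1)`, `X ∈ S`, `S` a set of `r × (r + 1)`
matrices. `aff X`: the square matrix with the additional row `(0, ..., 0, 1)`.
-/

set_option autoImplicit false

namespace Pool.Agent.LRch

open Finset Pool.Agent.Grz Pool.Agent.GAvg Pool.Agent.PTr Pool.Agent.MTr Pool.Agent.LPC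
open Pool.Agent.ECD

/-- the `k × l` matrices over `ℤ/m` whose residues satisfy `R` with the parameters `v` -/
def MM {n k l : ℕ} (R : (Fin (n + k * l) → ℕ) → Prop) (m : ℕ) (v : Fin n → ℕ) :
    Set (Matrix (Fin k) (Fin l) (ZMod m)) :=
  {X | R (Fin.append v fun i => (X (finProdFinEquiv.symm i).1 (finProdFinEquiv.symm i).2).val)}

/-- reachability by affine steps `u ↦ X (u, 1)` -/
def AReach {r m : ℕ} (S : Set (Matrix (Fin r) (Fin (r + 1)) (ZMod m))) :
    (Fin r → ZMod m) → (Fin r → ZMod m) → Prop :=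
  Relation.ReflTransGen fun u u' => ∃ X ∈ S, u' = X.mulVec (Fin.snoc u 1 : Fin (r + 1) → ZMod m)

/-- the square matrix with the additional row `(0, ..., 0, 1)` -/
def aff {r m : ℕ} (X : Matrix (Fin r) (Fin (r + 1)) (ZMod m)) : Mat (r + 1) m :=
  Matrix.of (Fin.snoc (α := fun _ => Fin (r + 1) → ZMod m) (fun i => X i) (Pi.single (Fin.last r) 1))

/-- the first rows -/
def unaff {r m : ℕ} (Y : Mat (r + 1) m) : Matrix (Fin r) (Fin (r + 1)) (ZMod m) :=
  Matrix.of fun i j => Y i.castSucc j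

theorem unaff_aff {r m : ℕ} (X : Matrix (Fin r) (Fin (r + 1)) (ZMod m)) : unaff (aff X) = X := by
  ext i j
  simp [unaff, aff]

theorem mem_aff_iff {r m : ℕ} {S : Set (Matrix (Fin r) (Fin (r + 1)) (ZMod m))}
    {Y : Mat (r + 1) m} : Y ∈ aff '' S ↔
      unaff Y ∈ S ∧ ∀ j, Y (Fin.last r) j = if j = Fin.last r then 1 else 0 := by
  constructor
  · rintro ⟨X, hX, rfl⟩
    rw [unaff_aff]
    refine ⟨hX, fun j => ?_⟩
    simp [aff, Pi.single_apply]
  · rintro ⟨h1, h2⟩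
    refine ⟨unaff Y, h1, ?_⟩
    ext i j
    refine Fin.lastCases ?_ (fun i => ?_) i
    · rw [h2 j]
      simp [aff, Pi.single_apply]
    · simp [aff, unaff]

theorem aff_mulVec {r m : ℕ} (X : Matrix (Fin r) (Fin (r + 1)) (ZMod m)) (u : Fin r → ZMod m) :
    (aff X).mulVec (Fin.snoc u 1 : Fin (r + 1) → ZMod m) =
      (Fin.snoc (X.mulVec (Fin.snoc u 1 : Fin (r + 1) → ZMod m)) 1 : Fin (r + 1) → ZMod m) := by
  ext i
  refine Fin.lastCases ?_ (fun i => ?_) i
  · rw [Fin.snoc_last, Matrix.mulVec]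
    simp [aff, dotProduct, Pi.single_apply]
  · rw [Fin.snoc_castSucc, Matrix.mulVec, Matrix.mulVec]
    simp [aff]

theorem areach_iff {r m : ℕ} {S : Set (Matrix (Fin r) (Fin (r + 1)) (ZMod m))}
    {x : Fin r → ZMod m} {y' : Fin (r + 1) → ZMod m} :
    SReach (aff '' S) (Fin.snoc x 1) y' ↔ ∃ y, AReach S x y ∧ y' = Fin.snoc y 1 := by
  constructor
  · intro h
    induction h with
    | refl => exact ⟨x, Relation.ReflTransGen.refl, rfl⟩
    | tail _ h2 ih =>
      obtain ⟨y, h3, rfl⟩ := ih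
      obtain ⟨_, ⟨X, hX, rfl⟩, rfl⟩ := h2
      exact ⟨_, h3.tail ⟨X, hX, rfl⟩, aff_mulVec X y⟩
  · rintro ⟨y, h, rfl⟩
    induction h with
    | refl => exact Relation.ReflTransGen.refl
    | tail _ h2 ih =>
      obtain ⟨X, hX, rfl⟩ := h2
      exact ih.tail ⟨aff X, ⟨X, hX, rfl⟩, (aff_mulVec X _).symm⟩

theorem snoc_inj {r m : ℕ} {x y : Fin r → ZMod m}
    (h : (Fin.snoc x 1 : Fin (r + 1) → ZMod m) = Fin.snoc y 1) : x = y := by
  funext i
  have := congrFun h i.castSucc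
  rwa [Fin.snoc_castSucc, Fin.snoc_castSucc] at this

theorem areach_iff' {r m : ℕ} {S : Set (Matrix (Fin r) (Fin (r + 1)) (ZMod m))}
    {x y : Fin r → ZMod m} :
    AReach S x y ↔ SReach (aff '' S) (Fin.snoc x 1) (Fin.snoc y 1) := by
  rw [areach_iff]
  constructor
  · intro h
    exact ⟨y, h, rfl⟩
  · rintro ⟨z, h, h1⟩
    rwa [snoc_inj h1]

theorem card_areach {r m : ℕ} {S : Set (Matrix (Fin r) (Fin (r + 1)) (ZMod m))}
    {x : Fin r → ZMod m} :
    Nat.card {y // AReach S x y} = Nat.card {y' // SReach (aff '' S) (Fin.snoc x 1) y'} := by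
  refine Nat.card_congr (Equiv.ofBijective (fun y => ⟨Fin.snoc y.1 1, areach_iff'.1 y.2⟩) ⟨?_, ?_⟩)
  · intro y z h
    exact Subtype.ext (snoc_inj (congrArg Subtype.val h))
  · rintro ⟨y', h⟩
    obtain ⟨y, h1, rfl⟩ := areach_iff.1 h
    exact ⟨⟨y, h1⟩, rfl⟩

end Pool.Agent.LRch
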