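import Pool.Agent.LRch.SgA

/-!
# Local groups generated by a set

`LG J e`: the elements `x` of `e * A * e` such that `x + (1 - e)` is in the group generated by the
units `y + (1 - e)`, `y ∈ J`. `pw E L`: the products of at most `L` elements of `E`.
-/

set_option autoImplicit false

namespace Pool.Agent.LRch

section Ring

variable {A : Type*} [Ring A]

/-- the elements `x` of `e * A * e` such that `x + (1 - e)` is in the group generated by the units
`y + (1 - e)`, `y ∈ J` -/
def LG (J : Set A) (e : A) : Set A :=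
  {x | e * x = x ∧ x * e = x ∧
    ∃ u ∈ Subgroup.closure {u : Aˣ | ∃ y ∈ J, (u : A) = y + (1 - e)}, (u : A) = x + (1 - e)}

theorem loc_mul {e x y : A} (he : e * e = e) (hx : x * e = x) (hy : e * y = y) :
    (x + (1 - e)) * (y + (1 - e)) = x * y + (1 - e) := by
  have h1 : x * (1 - e) = 0 := by rw [mul_sub, mul_one, hx, sub_self]
  have h2 : (1 - e) * y = 0 := by rw [sub_mul, one_mul, hy, sub_self]
  have h3 : (1 - e) * (1 - e) = 1 - e := by
    rw [mul_sub, mul_one, sub_mul, one_mul, he, sub_self, sub_zero]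
  rw [add_mul, mul_add, mul_add, h1, h2, h3, add_zero, zero_add]

theorem lg_mul {J : Set A} {e x y : A} (he : e * e = e) (hx : x ∈ LG J e) (hy : y ∈ LG J e) :
    x * y ∈ LG J e := by
  obtain ⟨h1, h2, u, hu, h3⟩ := hx
  obtain ⟨h4, h5, v, hv, h6⟩ := hy
  refine ⟨by rw [← mul_assoc, h1], by rw [mul_assoc, h5], u * v, mul_mem hu hv, ?_⟩
  rw [Units.val_mul, h3, h6, loc_mul he h2 h4]

theorem lg_pow {J : Set A} {e x : A} (he : e * e = e) (hx : x ∈ LG J e) {n : ℕ} (hn : 0 < n) :
    x ^ n ∈ LG J e := by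
  induction n, hn using Nat.le_induction with
  | base => simpa using hx
  | succ n _ ih =>
    rw [pow_succ]
    exact lg_mul he ih hx

theorem lg_of_mem {J : Set A} {e y : A} (he : e * e = e) (hy : y ∈ J) (h1 : e * y = y)
    (h2 : y * e = y) {n : ℕ} (hn : 0 < n) (h3 : y ^ n = e) : y ∈ LG J e := by
  have h4 : ∀ m : ℕ, 0 < m → (y + (1 - e)) ^ m = y ^ m + (1 - e) := by
    intro m hm
    induction m, hm using Nat.le_induction with
    | base => simp
    | succ m hm ih =>
      rw [pow_succ, ih, loc_mul he ?_ h1, ← pow_succ]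
      obtain ⟨m, rfl⟩ := Nat.exists_eq_succ_of_ne_zero (Nat.pos_iff_ne_zero.1 hm)
      rw [Nat.succ_eq_add_one, pow_succ, mul_assoc, h2]
  have h5 : (y + (1 - e)) ^ n = 1 := by rw [h4 n hn, h3, add_sub_cancel]
  obtain ⟨u, hu⟩ := IsUnit.of_pow_eq_one h5 hn.ne'
  exact ⟨h1, h2, u, Subgroup.subset_closure ⟨y, hy, hu⟩, hu⟩

theorem lg_sound [Finite A] {J : Set A} {e : A} (he : e * e = e)
    (hJ : ∀ y ∈ J, e * y = y ∧ y * e = y) {C : Subsemigroup A} (hJC : J ⊆ C) (heC : e ∈ C)
    {x : A} (hx : x ∈ LG J e) : x ∈ C := by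
  obtain ⟨h1, h2, u, hu, h3⟩ := hx
  have h4 : u ∈ Submonoid.closure {u : Aˣ | ∃ y ∈ J, (u : A) = y + (1 - e)} := by
    rw [← Subgroup.closure_toSubmonoid_of_finite]
    exact hu
  have h5 : ∃ z ∈ C, e * z = z ∧ z * e = z ∧ (u : A) = z + (1 - e) := by
    clear h3 hu
    induction h4 using Submonoid.closure_induction with
    | mem u hu =>
      obtain ⟨y, hy, h⟩ := hu
      exact ⟨y, hJC hy, (hJ y hy).1, (hJ y hy).2, h⟩
    | one => exact ⟨e, heC, he, he, by rw [Units.val_one, add_sub_cancel]⟩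
    | mul u v _ _ hu hv =>
      obtain ⟨z, hz, h6, h7, h8⟩ := hu
      obtain ⟨w, hw, h9, h10, h11⟩ := hv
      refine ⟨z * w, mul_mem hz hw, by rw [← mul_assoc, h6], by rw [mul_assoc, h10], ?_⟩
      rw [Units.val_mul, h8, h11, loc_mul he h7 h9]
  obtain ⟨z, hz, -, -, h6⟩ := h5
  rw [h3] at h6
  rw [add_right_cancel h6]
  exact hz

end Ring

section Mon

variable {M : Type*} [Monoid M]

/-- the products of at most `L` elements of `E` -/
def pw (E : Set M) : ℕ → Set M
  | 0 => {1}
  | L + 1 => {x | x ∈ pw E L ∨ ∃ a ∈ E, ∃ y ∈ pw E L, x = a * y}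

theorem one_mem_pw (E : Set M) (L : ℕ) : (1 : M) ∈ pw E L := by
  induction L with
  | zero => exact rfl
  | succ L ih => exact Or.inl ih

theorem pw_mono (E : Set M) {L L' : ℕ} (h : L ≤ L') : pw E L ⊆ pw E L' := by
  induction L', h using Nat.le_induction with
  | base => exact fun _ hx => hx
  | succ L' _ ih => exact fun _ hx => Or.inl (ih hx)

theorem pw_subset {E F : Set M} (h : E ⊆ F) (L : ℕ) : pw E L ⊆ pw F L := by
  induction L with
  | zero => exact fun _ hx => hx
  | succ L ih =>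
    rintro x (hx | ⟨a, ha, y, hy, rfl⟩)
    · exact Or.inl (ih hx)
    · exact Or.inr ⟨a, h ha, y, ih hy, rfl⟩

theorem mul_mem_pw_one {E : Set M} {L : ℕ} {a y : M} (ha : a ∈ E) (hy : y ∈ pw E L) :
    a * y ∈ pw E (L + 1) := Or.inr ⟨a, ha, y, hy, rfl⟩

theorem mem_pw_one {E : Set M} {a : M} (ha : a ∈ E) : a ∈ pw E 1 :=
  Or.inr ⟨a, ha, 1, rfl, (mul_one a).symm⟩

theorem mul_mem_pw {E : Set M} {L L' : ℕ} {x y : M} (hx : x ∈ pw E L) (hy : y ∈ pw E L') :
    x * y ∈ pw E (L + L') := by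
  induction L generalizing x with
  | zero =>
    have : x = 1 := hx
    rw [this, one_mul]
    exact pw_mono E (Nat.le_add_left _ _) hy
  | succ L ih =>
    rcases hx with hx | ⟨a, ha, z, hz, rfl⟩
    · exact pw_mono E (by omega) (ih hx)
    · rw [mul_assoc]
      exact pw_mono E (by omega) (mul_mem_pw_one ha (ih hz))

theorem pw_subset_closure (E : Set M) (L : ℕ) : pw E L ⊆ Submonoid.closure E := by
  induction L with
  | zero =>
    intro x hx
    have : x = 1 := hx
    rw [this]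
    exact one_mem _
  | succ L ih =>
    rintro x (hx | ⟨a, ha, y, hy, rfl⟩)
    · exact ih hx
    · exact mul_mem (Submonoid.subset_closure ha) (ih hy)

theorem exists_pw_of_mem_closure {E : Set M} {x : M} (hx : x ∈ Submonoid.closure E) :
    ∃ L, x ∈ pw E L := by
  induction hx using Submonoid.closure_induction with
  | mem a ha => exact ⟨1, mem_pw_one ha⟩
  | one => exact ⟨0, rfl⟩
  | mul x y _ _ hx hy =>
    obtain ⟨L, hL⟩ := hx
    obtain ⟨L', hL'⟩ := hy
    exact ⟨L + L', mul_mem_pw hL hL'⟩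

/-- a nontrivial product of at most `L` elements has a last factor -/
theorem pw_cases {E : Set M} {L : ℕ} {x : M} (hx : x ∈ pw E (L + 1)) :
    x = 1 ∨ ∃ a ∈ E, ∃ y ∈ pw E L, x = a * y := by
  induction L generalizing x with
  | zero =>
    rcases hx with hx | hx
    · exact Or.inl hx
    · exact Or.inr hx
  | succ L ih =>
    rcases hx with hx | hx
    · rcases ih hx with h | ⟨a, ha, y, hy, h⟩
      · exact Or.inl h
      · exact Or.inr ⟨a, ha, y, Or.inl hy, h⟩
    · exact Or.inr hx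

end Mon

end Pool.Agent.LRch
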