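import Pool.Agent.LRch.SgB

/-!
# Walks and local groups

`W rk k E a b s`: `s` is the product of a walk from `a` to `b` with steps in `E` (all partial
products have rank `k`). `BW rk k E L`: walks can be shortened to length `L + 2`. The local group of
an edge from `c` to `a` is generated by the walks of length at most `2 * L + 4` from `a` to `c`.
-/

set_option autoImplicit false

namespace Pool.Agent.LRch

/-- `s` is the product of a walk from `a` to `b` -/
inductive W {M : Type*} [Monoid M] (rk : M → ℕ) (k : ℕ) (E : Set M) (a : M) : M → M → Prop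
  | base : a ∈ E → W rk k E a a a
  | step {b s b' : M} : W rk k E a b s → b' ∈ E → rk (b' * s) = k → W rk k E a b' (b' * s)

/-- connections can be shortened to length `L` -/
def BW {M : Type*} [Monoid M] (rk : M → ℕ) (k : ℕ) (E : Set M) (L : ℕ) : Prop :=
  ∀ a ∈ E, ∀ b ∈ E, ∀ X ∈ Submonoid.closure E, rk (b * X * a) = k →
    ∃ Y ∈ pw E L, rk (b * Y * a) = k

/-- the short walks from `a` to `c` -/
def JJ {M : Type*} [Monoid M] (rk : M → ℕ) (k : ℕ) (E : Set M) (L : ℕ) (a c : M) : Set M :=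
  {y | rk y = k ∧ ((y = a ∧ c = a) ∨ ∃ X ∈ pw E (2 * L + 2), y = c * X * a)}

section Mon

variable {M : Type*} [Monoid M] {rk : M → ℕ} {k L : ℕ} {E : Set M} {a b s : M}

theorem W.ha (h : W rk k E a b s) : a ∈ E := by
  induction h with
  | base h => exact h
  | step _ _ _ ih => exact ih

theorem W.hb (h : W rk k E a b s) : b ∈ E := by
  cases h with
  | base h => exact h
  | step _ h _ => exact h

theorem W.rk_eq (hE : ∀ a ∈ E, rk a = k) (h : W rk k E a b s) : rk s = k := by
  cases h with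
  | base h => exact hE a h
  | step _ _ h => exact h

theorem W.left (h : W rk k E a b s) : ∃ s', s = b * s' := by
  cases h with
  | base h => exact ⟨1, (mul_one a).symm⟩
  | step _ _ h => exact ⟨_, rfl⟩

theorem W.mem (h : W rk k E a b s) : s ∈ Submonoid.closure E := by
  induction h with
  | base h => exact Submonoid.subset_closure h
  | step _ h _ ih => exact mul_mem (Submonoid.subset_closure h) ih

theorem W.cases' (h : W rk k E a b s) :
    (s = a ∧ b = a) ∨ ∃ X ∈ Submonoid.closure E, s = b * X * a := by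
  induction h with
  | base h => exact Or.inl ⟨rfl, rfl⟩
  | step h1 h2 _ ih =>
    right
    rcases ih with ⟨h3, h4⟩ | ⟨X, hX, h3⟩
    · exact ⟨1, one_mem _, by rw [h3, mul_one]⟩
    · refine ⟨_ * X, mul_mem (Submonoid.subset_closure h1.hb) hX, ?_⟩
      rw [h3]
      simp only [mul_assoc]

theorem W.ae {c e : M} (he : Loc rk k a c e) (h : W rk k E a b s) : s * e = s := by
  induction h with
  | base h => exact he.ae
  | step _ _ _ ih => rw [mul_assoc, ih]

/-- extension of a walk -/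
theorem W.ext (hr : RankFn rk) (hE : ∀ a ∈ E, rk a = k) (h : W rk k E a b s) {m : ℕ} {X : M}
    (hX : X ∈ pw E m) (hk : rk (X * b) = k) :
    (X = 1 ∧ W rk k E a b (X * s)) ∨ ∃ c ∈ E, ∃ Y ∈ pw E m, X = c * Y ∧ rk (Y * b) = k ∧
      W rk k E a c (X * s) := by
  induction m generalizing X with
  | zero =>
    have : X = 1 := hX
    subst this
    exact Or.inl ⟨rfl, by rwa [one_mul]⟩
  | succ m ih =>
    rcases hX with hX | ⟨c, hc, Y, hY, rfl⟩
    · rcases ih hX hk with h1 | ⟨c, hc, Y, hY, h1⟩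
      · exact Or.inl h1
      · exact Or.inr ⟨c, hc, Y, Or.inl hY, h1⟩
    · right
      have h1 : rk (Y * b) = k := by
        rw [mul_assoc] at hk
        exact hr.right_eq hk ((hr.right _ _).trans (hE b h.hb).le)
      obtain ⟨s', hs'⟩ := h.left
      have h2 : rk (c * (Y * s)) = k := by
        have h3 := hr.glue (x := c * Y) (a := b) (y := s') (hE b h.hb) hk
          (by rw [← hs', h.rk_eq hE])
        rw [hs']
        rw [← h3]
        simp only [mul_assoc]
      refine ⟨c, hc, Y, Or.inl hY, rfl, h1, ?_⟩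
      rw [mul_assoc]
      rcases ih hY h1 with ⟨-, h3⟩ | ⟨d, hd, Z, hZ, -, -, h3⟩
      · exact h3.step hc h2
      · exact h3.step hc h2

end Mon

section Ring

variable {A : Type*} [Ring A] {rk : A → ℕ} {k L : ℕ} {E : Set A} {a c e b s : A}

theorem JJ.ee (he : Loc rk k a c e) {y : A} (hy : y ∈ JJ rk k E L a c) :
    e * y = y ∧ y * e = y := by
  obtain ⟨-, ⟨rfl, rfl⟩ | ⟨X, -, rfl⟩⟩ := hy
  · exact ⟨he.ec, he.ae⟩
  · exact ⟨by rw [← mul_assoc, ← mul_assoc, he.ec], by rw [mul_assoc, he.ae]⟩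

theorem JJ.mem_LG [Finite A] (hr : RankFn rk) (he : Loc rk k a c e) {y : A}
    (hy : y ∈ JJ rk k E L a c) : y ∈ LG (JJ rk k E L a c) e := by
  obtain ⟨h1, h2⟩ := JJ.ee he hy
  obtain ⟨n, hn, h3⟩ := he.exists_pow hr hy.1 h2 h1
  exact lg_of_mem he.idem hy h1 h2 hn h3

theorem JJ.mem_closure (ha : a ∈ E) (hc : c ∈ E) {y : A} (hy : y ∈ JJ rk k E L a c) :
    y ∈ Subsemigroup.closure E := by
  obtain ⟨-, ⟨rfl, rfl⟩ | ⟨X, hX, rfl⟩⟩ := hy
  · exact Subsemigroup.subset_closure ha
  · have h1 : ∀ m (X : A), X ∈ pw E m → ∀ z ∈ Subsemigroup.closure E,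
        X * z ∈ Subsemigroup.closure E := by
      intro m
      induction m with
      | zero =>
        intro X hX z hz
        have : X = 1 := hX
        rwa [this, one_mul]
      | succ m ih =>
        rintro X (hX | ⟨b, hb, Y, hY, rfl⟩) z hz
        · exact ih X hX z hz
        · rw [mul_assoc]
          exact mul_mem (Subsemigroup.subset_closure hb) (ih Y hY z hz)
    rw [mul_assoc]
    exact mul_mem (Subsemigroup.subset_closure hc) (h1 _ X hX a (Subsemigroup.subset_closure ha))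

/-- **The local group is generated by short walks.** -/
theorem W.mem_LG [Finite A] (hr : RankFn rk) (hE : ∀ a ∈ E, rk a = k) (hB : BW rk k E L)
    (he : Loc rk k a c e) (hc : c ∈ E) (h : W rk k E a b s) : ∀ β : A, rk (β * b) = k →
    (β = 1 ∧ b = c ∨ ∃ X ∈ pw E L, β = c * X) → β * s ∈ LG (JJ rk k E L a c) e := by
  induction h with
  | base ha =>
    intro β hβ hβ'
    refine JJ.mem_LG hr he ⟨hβ, ?_⟩
    rcases hβ' with ⟨h1, h2⟩ | ⟨X, hX, rfl⟩
    · left
      exact ⟨by rw [h1, one_mul], h2.symm⟩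
    · right
      exact ⟨X, pw_mono E (by omega) hX, rfl⟩
  | @step b' s' b h hb hk ih =>
    intro β hβ hβ'
    have hb'k := hE b' h.hb
    have hbk := hE b hb
    obtain ⟨s1, hs1⟩ := h.left
    -- the return from `b'`
    have hbb : rk (b * b') = k := by
      refine hr.left_eq (x := b * b') (y := s1) ?_ ((hr.left _ _).trans hbk.le)
      rw [mul_assoc, ← hs1, hk]
    have hβb : rk (β * b * b') = k := hr.glue hbk hβ hbb
    obtain ⟨X', hX', hX'k⟩ : ∃ X' ∈ pw E L, rk (c * X' * b') = k := by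
      rcases hβ' with ⟨h1, h2⟩ | ⟨X, hX, rfl⟩
      · refine hB b' h.hb c hc 1 (one_mem _) ?_
        rw [mul_one, ← h2, hbb]
      · refine hB b' h.hb c hc (X * b) (mul_mem (pw_subset_closure E L hX)
          (Submonoid.subset_closure hb)) ?_
        rw [← hβb]
        simp only [mul_assoc]
    -- the short walk to `b'`
    obtain ⟨α, hαk, hα⟩ : ∃ α, rk α = k ∧ ((α = a ∧ b' = a) ∨ ∃ Y ∈ pw E L, α = b' * Y * a) := by
      rcases h.cases' with ⟨h1, h2⟩ | ⟨Y, hY, h1⟩
      · exact ⟨a, he.ha, Or.inl ⟨rfl, h2⟩⟩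
      · obtain ⟨Z, hZ, hZk⟩ := hB a h.ha b' h.hb Y hY (by rw [← h1, h.rk_eq hE])
        exact ⟨_, hZk, Or.inr ⟨Z, hZ, rfl⟩⟩
    obtain ⟨α1, hα1⟩ : ∃ α1, α = b' * α1 := by
      rcases hα with ⟨h1, h2⟩ | ⟨Y, -, h1⟩
      · exact ⟨1, by rw [h1, h2, mul_one]⟩
      · exact ⟨Y * a, by rw [h1, mul_assoc]⟩
    have hαe : α * e = α := by
      rcases hα with ⟨h1, -⟩ | ⟨Y, -, h1⟩
      · rw [h1, he.ae]
      · rw [h1, mul_assoc, he.ae]
    obtain ⟨n, hn, -, hid⟩ := he.identity hr (β := c * X') (α := α) (α' := α1) (s := s')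
      (s' := s1) hb'k hX'k (by rw [← mul_assoc, ← mul_assoc, he.ec]) hα1 hαk hαe hs1
    have hgk : rk (β * b * α) = k := by
      have h1 : rk (β * b * b' * α1) = k := hr.glue hb'k hβb (by rw [← hα1, hαk])
      rwa [mul_assoc (β * b), ← hα1] at h1
    have hhk : rk (c * X' * α) = k := by
      have h1 : rk (c * X' * b' * α1) = k := hr.glue hb'k hX'k (by rw [← hα1, hαk])
      rwa [mul_assoc (c * X'), ← hα1] at h1
    have hg : β * b * α ∈ LG (JJ rk k E L a c) e := by
      refine JJ.mem_LG hr he ⟨hgk, Or.inr ?_⟩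
      rcases hβ' with ⟨h1, h2⟩ | ⟨X, hX, rfl⟩
      · rcases hα with ⟨h3, -⟩ | ⟨Y, hY, h3⟩
        · exact ⟨1, one_mem_pw _ _, by rw [h1, h2, h3, one_mul, mul_one]⟩
        · refine ⟨b' * Y, pw_mono E (by omega) (mul_mem_pw_one h.hb hY), ?_⟩
          rw [h1, h2, h3, one_mul]
          simp only [mul_assoc]
      · rcases hα with ⟨h3, -⟩ | ⟨Y, hY, h3⟩
        · refine ⟨X * b, pw_mono E (by omega) (mul_mem_pw hX (mem_pw_one hb)), ?_⟩
          rw [h3]
          simp only [mul_assoc]
        · refine ⟨X * (b * (b' * Y)), pw_mono E (by omega)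
            (mul_mem_pw hX (mul_mem_pw_one hb (mul_mem_pw_one h.hb hY))), ?_⟩
          rw [h3]
          simp only [mul_assoc]
    have hh : c * X' * α ∈ LG (JJ rk k E L a c) e := by
      refine JJ.mem_LG hr he ⟨hhk, Or.inr ?_⟩
      rcases hα with ⟨h3, -⟩ | ⟨Y, hY, h3⟩
      · exact ⟨X', pw_mono E (by omega) hX', by rw [h3]⟩
      · refine ⟨X' * (b' * Y), pw_mono E (by omega) (mul_mem_pw hX' (mul_mem_pw_one h.hb hY)), ?_⟩
        rw [h3]
        simp only [mul_assoc]
    have hq := ih (c * X') hX'k (Or.inr ⟨X', hX', rfl⟩)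
    have hfin : β * (b * s') = β * b * α * (c * X' * α) ^ n * (c * X' * s') := by
      conv_lhs => rw [← hid]
      simp only [mul_assoc]
    rw [hfin]
    exact lg_mul he.idem (lg_mul he.idem hg (lg_pow he.idem hh hn)) hq

end Ring

end Pool.Agent.LRch
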