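import Pool.Agent.LRch.Emb
import Pool.Agent.LRch.JordanN
import Pool.Agent.LRch.AbDiag
import Pool.Agent.LRch.Chars
import Pool.Agent.ECD.PcCard

/-!
# Sylow subgroups of subgroups of `GL_r(ℤ/p)` have short series with cyclic factors
-/

set_option autoImplicit false

namespace Pool.Agent.LRch

open Pool.Agent.ECD

/-- a finite group of complex matrices has a normal subgroup of bounded index which is
simultaneously diagonalisable -/
theorem exists_normal_chars (r : ℕ) : ∃ J : ℕ, ∀ (G : Type) [Group G] [Finite G]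
    (f : G →* GL (Fin r) ℂ), Function.Injective f →
    ∃ A : Subgroup G, A.Normal ∧ A.index ≤ J ∧ ∃ χ : A →* (Fin r → ℂˣ), Function.Injective χ := by
  obtain ⟨J, hJ⟩ := jordan_normal r
  refine ⟨J, fun G _ _ f hf => ?_⟩
  obtain ⟨A, h1, h2, h3⟩ := hJ G f hf
  let c : CommGroup A := { (inferInstance : Group A) with
    mul_comm := fun x y => Subtype.ext (h2 x x.2 y y.2) }
  obtain ⟨χ, hχ⟩ := @exists_characters r A c _ (f.comp A.subtype) (hf.comp A.subtype_injective)
  exact ⟨A, h1, h3, χ, hχ⟩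

/-- an `l`-group which embeds in `GL_r(ℤ/p)` -/
theorem pcl_lgroup (r : ℕ) : ∃ R : ℕ, ∀ (p : ℕ) [Fact p.Prime] (l : ℕ) [Fact l.Prime] (G : Type)
    [Group G] [Finite G] (f : G →* GL (Fin r) (ZMod p)), Function.Injective f → IsPGroup l G →
    PCL R (⊤ : Subgroup G) := by
  obtain ⟨J, hJ⟩ := exists_normal_chars r
  refine ⟨max (r * r) (r + J), ?_⟩
  intro p hp l hl G _ _ f hf hG
  obtain ⟨a, ha⟩ := IsPGroup.iff_card.1 hG
  rcases eq_or_ne l p with rfl | hlp
  · refine pcl_mono (i := r * r) ?_ (le_max_left _ _)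
    have h4 : Nat.card G ≤ Nat.card (Matrix (Fin r) (Fin r) (ZMod l)) := by
      refine Nat.card_le_card_of_injective (fun g => ((f g : GL (Fin r) (ZMod l)) :
        Matrix (Fin r) (Fin r) (ZMod l))) ?_
      intro x y hxy
      exact hf (Units.ext hxy)
    have h5 : Nat.card (Matrix (Fin r) (Fin r) (ZMod l)) = l ^ (r * r) := by
      rw [Nat.card_eq_fintype_card]
      have h6 : Fintype.card (Matrix (Fin r) (Fin r) (ZMod l)) =
          Fintype.card (Fin r → Fin r → ZMod l) := rfl
      rw [h6]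
      simp [ZMod.card, pow_mul]
    have h7 : a ≤ r * r := by
      rw [ha, h5] at h4
      exact (Nat.pow_le_pow_iff_right hl.out.one_lt).1 h4
    refine pcl_mono (pcl_card hl.out (⊤ : Subgroup G) (a := a) ?_) h7
    rw [Subgroup.card_top, ha]
  · refine pcl_mono (i := r + J) ?_ (le_max_right _ _)
    have hcop : (Nat.card G).Coprime p := by
      rw [ha]
      exact ((Nat.coprime_primes hl.out hp.out).2 hlp).pow_left a
    obtain ⟨g, hg⟩ := exists_emb_complex G f hf hcop
    obtain ⟨A, h1, h3, χ, hχ⟩ := hJ G g hg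
    have h4 : PCL r A := pcl_chars r A χ hχ
    let q : (⊤ : Subgroup G) →* G ⧸ A := (QuotientGroup.mk' A).comp (⊤ : Subgroup G).subtype
    have h5 : q.ker.map (⊤ : Subgroup G).subtype = A := by
      ext x
      simp only [Subgroup.mem_map, MonoidHom.mem_ker]
      constructor
      · rintro ⟨y, hy, rfl⟩
        exact (QuotientGroup.eq_one_iff _).1 hy
      · intro hx
        exact ⟨⟨x, Subgroup.mem_top x⟩, (QuotientGroup.eq_one_iff _).2 hx, rfl⟩
    refine pcl_ext q (by rw [h5]; exact h4) ?_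
    have h6 : q.range = ⊤ := by
      rw [MonoidHom.range_eq_top]
      intro x
      obtain ⟨y, rfl⟩ := QuotientGroup.mk'_surjective A x
      exact ⟨⟨y, Subgroup.mem_top y⟩, rfl⟩
    rw [h6]
    obtain ⟨b, hb⟩ := IsPGroup.iff_card.1 (hG.to_quotient A)
    have h7 : b ≤ J := by
      have h8 : Nat.card (G ⧸ A) ≤ J := h3
      rw [hb] at h8
      exact ((Nat.lt_pow_self hl.out.one_lt).le).trans h8
    refine pcl_mono (pcl_card hl.out (⊤ : Subgroup (G ⧸ A)) (a := b) ?_) h7
    rw [Subgroup.card_top, hb]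

/-- the orders of the subgroups of `GL_r(ℤ/p)` are determined by short series -/
theorem sylPC_gl (r : ℕ) : ∃ R : ℕ, ∀ (p : ℕ) [Fact p.Prime] (H : Subgroup (GL (Fin r) (ZMod p))),
    SylPC H R := by
  obtain ⟨R, hR⟩ := pcl_lgroup r
  refine ⟨R, fun p _ H l hl => ?_⟩
  have : Fact l.Prime := ⟨hl⟩
  obtain ⟨P⟩ : Nonempty (Sylow l H) := inferInstance
  refine ⟨(P : Subgroup H).map H.subtype, ?_, ?_, ?_⟩
  · rintro _ ⟨y, _, rfl⟩
    exact y.2
  · have h1 := hR p l (P : Subgroup H) (H.subtype.comp (P : Subgroup H).subtype)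
      (H.subtype_injective.comp (P : Subgroup H).subtype_injective) P.isPGroup'
    have h2 := pcl_map h1 (H.subtype.comp (P : Subgroup H).subtype)
    have h3 : (⊤ : Subgroup (P : Subgroup H)).map (H.subtype.comp (P : Subgroup H).subtype) =
        (P : Subgroup H).map H.subtype := by
      rw [← Subgroup.map_map, ← MonoidHom.range_eq_map, Subgroup.range_subtype]
    rw [h3] at h2
    exact h2
  · have h4 : Nat.card ((P : Subgroup H).map H.subtype) = Nat.card (P : Subgroup H) :=
      Nat.card_congr ((P : Subgroup H).equivMapOfInjective H.subtype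
        H.subtype_injective).toEquiv.symm
    rw [h4, Sylow.card_eq_multiplicity]

end Pool.Agent.LRch
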