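import Pool.Agent.LRch.SgReach
import Pool.Agent.LRch.SylGL
import Pool.Agent.ECD.PcFin

/-!
# The order of the generated group and the number of reachable points
-/

set_option autoImplicit false

namespace Pool.Agent.LRch

open Finset Pool.Agent.Grz Pool.Agent.GAvg Pool.Agent.PTr Pool.Agent.MTr Pool.Agent.LPC
open Pool.Agent.ECD

variable {r : ℕ}

/-- the group generated by the invertible elements of `S` -/
def HH {m : ℕ} (S : Set (Mat r m)) : Subgroup (GL (Fin r) (ZMod m)) :=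
  Subgroup.closure {g | gmat g ∈ S}

theorem mem_HH_iff {m : ℕ} [NeZero m] {S : Set (Mat r m)} (hS : ∀ X ∈ S, IsUnit X) {X : Mat r m} :
    X ∈ Submonoid.closure S ↔ ∃ g ∈ HH S, gmat g = X := by
  constructor
  · intro h
    induction h using Submonoid.closure_induction with
    | mem X hX =>
      obtain ⟨g, rfl⟩ := hS X hX
      exact ⟨g, Subgroup.subset_closure hX, rfl⟩
    | one => exact ⟨1, one_mem _, rfl⟩
    | mul X Y _ _ hX hY =>
      obtain ⟨g, hg, rfl⟩ := hX
      obtain ⟨h, hh, rfl⟩ := hY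
      exact ⟨g * h, mul_mem hg hh, Units.val_mul _ _⟩
  · rintro ⟨g, hg, rfl⟩
    have h3 : g ∈ Submonoid.closure {g : GL (Fin r) (ZMod m) | gmat g ∈ S} := by
      rw [← Subgroup.closure_toSubmonoid_of_finite]
      exact hg
    clear hg
    induction h3 using Submonoid.closure_induction with
    | mem g hg => exact Submonoid.subset_closure hg
    | one => exact one_mem _
    | mul g h _ _ hg hh => exact mul_mem hg hh

theorem card_HH {m : ℕ} [NeZero m] {S : Set (Mat r m)} (hS : ∀ X ∈ S, IsUnit X) :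
    Nat.card (Submonoid.closure S) = Nat.card (HH S) := by
  symm
  refine Nat.card_congr (Equiv.ofBijective (fun g => ⟨gmat g.1, (mem_HH_iff hS).2 ⟨g.1, g.2, rfl⟩⟩)
    ⟨?_, ?_⟩)
  · intro g h e
    exact Subtype.ext (Units.ext (congrArg Subtype.val e))
  · rintro ⟨X, hX⟩
    obtain ⟨g, hg, rfl⟩ := (mem_HH_iff hS).1 hX
    exact ⟨⟨g, hg⟩, rfl⟩

/-- the action of invertible matrices on vectors -/
@[reducible]
def actV (r m : ℕ) : MulAction (GL (Fin r) (ZMod m)) (Fin r → ZMod m) where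
  smul g u := (gmat g).mulVec u
  one_smul u := Matrix.one_mulVec u
  mul_smul g h u := (Matrix.mulVec_mulVec u (gmat g) (gmat h)).symm

/-- the stabiliser of a vector -/
def ST {m : ℕ} (S : Set (Mat r m)) (x : Fin r → ZMod m) : Subgroup (GL (Fin r) (ZMod m)) :=
  letI := actV r m
  HH S ⊓ MulAction.stabilizer (GL (Fin r) (ZMod m)) x

theorem mem_ST {m : ℕ} {S : Set (Mat r m)} {x : Fin r → ZMod m} {g : GL (Fin r) (ZMod m)} :
    g ∈ ST S x ↔ g ∈ HH S ∧ (gmat g).mulVec x = x := Iff.rfl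

theorem card_orbit {m : ℕ} [NeZero m] {S : Set (Mat r m)} (hS : ∀ X ∈ S, IsUnit X)
    (x : Fin r → ZMod m) :
    Nat.card {y // SReach S x y} = Nat.card (HH S) / Nat.card (ST S x) := by
  let := actV r m
  have h1 : Nat.card {y // SReach S x y} = (MulAction.orbit (HH S) x).ncard := by
    rw [← Nat.card_coe_set_eq]
    refine Nat.card_congr (Equiv.subtypeEquivRight fun y => ?_)
    rw [sreach_iff]
    constructor
    · rintro ⟨X, hX, rfl⟩
      obtain ⟨g, hg, rfl⟩ := (mem_HH_iff hS).1 hX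
      exact ⟨⟨g, hg⟩, rfl⟩
    · rintro ⟨⟨g, hg⟩, rfl⟩
      exact ⟨gmat g, (mem_HH_iff hS).2 ⟨g, hg, rfl⟩, rfl⟩
  have h2 := MulAction.index_stabilizer (HH S) x
  have h3 := (MulAction.stabilizer (HH S) x).index_mul_card
  have h4 : Nat.card (MulAction.stabilizer (HH S) x) = Nat.card (ST S x) := by
    have h5 : (MulAction.stabilizer (HH S) x).map (HH S).subtype = ST S x := by
      ext g
      rw [mem_ST]
      constructor
      · rintro ⟨⟨h, hh⟩, h6, rfl⟩
        exact ⟨hh, h6⟩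
      · rintro ⟨h6, h7⟩
        exact ⟨⟨g, h6⟩, h7, rfl⟩
    rw [← h5]
    exact Nat.card_congr ((MulAction.stabilizer (HH S) x).equivMapOfInjective (HH S).subtype
      (HH S).subtype_injective).toEquiv
  rw [h1, ← h2, ← h3, h4]
  rw [Nat.mul_div_cancel _ Nat.card_pos]

variable {c : ℕ} (hc : ∀ (p : ℕ) [Fact p.Prime] (H : Subgroup (GL (Fin r) (ZMod p))), BGen H c)

include hc

theorem HH_def {n : ℕ} {M : (Fin n → ℕ) → ℕ} (hM : DFun n M) (hp : ∀ u, (M u + 1).Prime)
    {S : ∀ u : Fin n → ℕ, Set (Mat r (M u + 1))} (hS : SD M S)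
    {A : ∀ u : Fin n → ℕ, GL (Fin r) (ZMod (M u + 1))}
    (hA : DFun n (fun u => (glG r).enc (fun _ : Fin 1 => M u) (A u))) :
    Delta0 n (fun u => A u ∈ HH (S u)) := by
  refine closure_def (glG r) c (σ := fun _ u => M u) (fun _ => hM)
    (S := fun u => {g : GL (Fin r) (ZMod (M u + 1)) | gmat g ∈ S u}) ?_ ?_ hA
  · have h2 : DFun (n + 1) (fun w => (glG r).enc (fun _ : Fin 1 => M (tl w))
        ((glG r).dec (fun _ : Fin 1 => M (tl w)) (w 0))) :=
      (glG r).gdec (σ := fun _ w => M (tl w)) (fun _ => hM.weak) (DFun.proj 0)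
    have h3 : MD (fun w : Fin (n + 1) → ℕ => M (tl w)) (fun w =>
        gmat ((glG r).dec (fun _ : Fin 1 => M (tl w)) (w 0))) :=
      fun i j => gl_entry hM.weak h2 i j
    exact (hS.weak hM).mem hM.weak h3
  · intro u
    have : Fact (M u + 1).Prime := ⟨hp u⟩
    exact hc (M u + 1) _

theorem card_HH_def {n : ℕ} {M : (Fin n → ℕ) → ℕ} (hM : DFun n M) (hp : ∀ u, (M u + 1).Prime)
    {S : ∀ u : Fin n → ℕ, Set (Mat r (M u + 1))} (hS : SD M S) :
    DFun n (fun u => Nat.card (HH (S u))) := by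
  obtain ⟨R, hR⟩ := sylPC_gl r
  refine (glG r).card_sub (σ := fun _ u => M u) (fun _ => hM) (H := fun u => HH (S u)) ?_ R ?_
  · exact HH_def hc hM.weak (fun u => hp _) (hS.weak hM)
      ((glG r).gdec (σ := fun _ w => M (tl w)) (fun _ => hM.weak) (DFun.proj 0))
  · intro u
    have : Fact (M u + 1).Prime := ⟨hp u⟩
    exact hR (M u + 1) _

theorem card_ST_def {n : ℕ} {M : (Fin n → ℕ) → ℕ} (hM : DFun n M) (hp : ∀ u, (M u + 1).Prime)
    {S : ∀ u : Fin n → ℕ, Set (Mat r (M u + 1))} (hS : SD M S)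
    {x : Fin r → (Fin n → ℕ) → ℕ} (hx : ∀ i, DFun n (x i)) :
    DFun n (fun u => Nat.card (ST (S u) fun i => (x i u : ZMod (M u + 1)))) := by
  obtain ⟨R, hR⟩ := sylPC_gl r
  refine (glG r).card_sub (σ := fun _ u => M u) (fun _ => hM)
    (H := fun u => ST (S u) fun i => (x i u : ZMod (M u + 1))) ?_ R ?_
  · have h2 : DFun (n + 1) (fun w => (glG r).enc (fun _ : Fin 1 => M (tl w))
        ((glG r).dec (fun _ : Fin 1 => M (tl w)) (w 0))) :=
      (glG r).gdec (σ := fun _ w => M (tl w)) (fun _ => hM.weak) (DFun.proj 0)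
    have h3 : MD (fun w : Fin (n + 1) → ℕ => M (tl w)) (fun w =>
        gmat ((glG r).dec (fun _ : Fin 1 => M (tl w)) (w 0))) :=
      fun i j => gl_entry hM.weak h2 i j
    have h4 := MD.mulVec hM.weak h3 (fun i => (hx i).weak) (fun i => (hx i).weak)
    refine ((HH_def hc hM.weak (fun u => hp _) (hS.weak hM) h2).and h4).of_iff fun w => ?_
    exact mem_ST.trans (and_congr_right fun _ => eq_comm)
  · intro u
    have : Fact (M u + 1).Prime := ⟨hp u⟩
    exact hR (M u + 1) _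

theorem card_sreach_def {n : ℕ} {M : (Fin n → ℕ) → ℕ} (hM : DFun n M)
    (hp : ∀ u, (M u + 1).Prime) {S : ∀ u : Fin n → ℕ, Set (Mat r (M u + 1))} (hS : SD M S)
    (hU : ∀ u, ∀ X ∈ S u, IsUnit X)
    {x : Fin r → (Fin n → ℕ) → ℕ} (hx : ∀ i, DFun n (x i)) :
    DFun n (fun u => Nat.card {y // SReach (S u) (fun i => (x i u : ZMod (M u + 1))) y}) := by
  have h1 := DFun.divPos (card_HH_def hc hM hp hS) (card_ST_def hc hM hp hS hx)
    (fun u => Nat.card_pos)
  have e : (fun u => Nat.card {y // SReach (S u) (fun i => (x i u : ZMod (M u + 1))) y}) =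
      fun u => Nat.card (HH (S u)) / Nat.card (ST (S u) fun i => (x i u : ZMod (M u + 1))) := by
    funext u
    exact card_orbit (hU u) _
  rw [e]
  exact h1

end Pool.Agent.LRch
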