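import Pool.Agent.LRch.SgLin

/-!
# Products of rank `k` as bounded products of elements of `E` and of local groups
-/

set_option autoImplicit false

namespace Pool.Agent.LRch

section Mon

variable {M : Type*} [Monoid M] {rk : M → ℕ} {k L : ℕ} {E : Set M} {a b s : M}

theorem W.ext' (hr : RankFn rk) (hE : ∀ a ∈ E, rk a = k) (h : W rk k E a b s) {m : ℕ} {c Y : M}
    (hc : c ∈ E) (hY : Y ∈ pw E m) (hk : rk (c * Y * b) = k) : W rk k E a c (c * Y * s) := by
  have h1 : rk (Y * b) = k := by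
    rw [mul_assoc] at hk
    exact hr.right_eq hk ((hr.right _ _).trans (hE b h.hb).le)
  obtain ⟨s', hs'⟩ := h.left
  have h2 : rk (c * (Y * s)) = k := by
    have h3 := hr.glue (x := c * Y) (a := b) (y := s') (hE b h.hb) hk
      (by rw [← hs', h.rk_eq hE])
    rw [hs']
    rw [← h3]
    simp only [mul_assoc]
  rw [mul_assoc]
  rcases h.ext hr hE hY h1 with ⟨-, h3⟩ | ⟨d, hd, Z, hZ, -, -, h3⟩
  · exact h3.step hc h2
  · exact h3.step hc h2

theorem list_mem_pw {l : List M} (hl : ∀ x ∈ l, x ∈ E) : l.prod ∈ pw E l.length := by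
  induction l with
  | nil => exact one_mem_pw E _
  | cons x l ih =>
    rw [List.prod_cons]
    exact mul_mem_pw_one (hl x List.mem_cons_self)
      (ih fun y hy => hl y (List.mem_cons_of_mem _ hy))

/-- lists of elements of `E` with a product of rank `k` are walks -/
theorem W.of_list (hr : RankFn rk) (hE : ∀ a ∈ E, rk a = k) (ha : a ∈ E) {l : List M}
    (hl : ∀ x ∈ l, x ∈ E) (hk : rk (l.prod * a) = k) :
    ∃ b, W rk k E a b (l.prod * a) := by
  cases l with
  | nil =>
    rw [List.prod_nil, one_mul]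
    exact ⟨a, W.base ha⟩
  | cons c l =>
    rw [List.prod_cons] at hk ⊢
    exact ⟨c, (W.base ha).ext' hr hE (hl c List.mem_cons_self)
      (list_mem_pw fun y hy => hl y (List.mem_cons_of_mem _ hy)) hk⟩

theorem longest_suffix {α : Type*} (P : List α → Prop) (h0 : P []) (l : List α) :
    ∃ l2 l1, l = l2 ++ l1 ∧ P l1 ∧ (l2 = [] ∨ ∃ l3 x, l2 = l3 ++ [x] ∧ ¬ P (x :: l1)) := by
  induction l with
  | nil => exact ⟨[], [], rfl, h0, Or.inl rfl⟩
  | cons x l ih =>
    obtain ⟨l2, l1, rfl, h1, h2⟩ := ih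
    rcases h2 with rfl | ⟨l3, y, rfl, h3⟩
    · by_cases h4 : P (x :: l1)
      · exact ⟨[], x :: l1, rfl, h4, Or.inl rfl⟩
      · exact ⟨[x], l1, rfl, h1, Or.inr ⟨[], x, rfl, h4⟩⟩
    · exact ⟨x :: (l3 ++ [y]), l1, rfl, h1, Or.inr ⟨x :: l3, y, rfl, h3⟩⟩

theorem mul_pw_mem {C : Subsemigroup M} {F : Set M} (hF : F ⊆ C) {m : ℕ} {x y : M} (hx : x ∈ C)
    (hy : y ∈ pw F m) : x * y ∈ C := by
  induction m generalizing x y with
  | zero =>
    have : y = 1 := hy
    rwa [this, mul_one]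
  | succ m ih =>
    rcases hy with hy | ⟨b, hb, z, hz, rfl⟩
    · exact ih hx hy
    · rw [← mul_assoc]
      exact ih (mul_mem hx (hF hb)) hz

theorem list_of_mem_closure {x : M} (hx : x ∈ Submonoid.closure E) :
    ∃ l : List M, (∀ y ∈ l, y ∈ E) ∧ l.prod = x :=
  Submonoid.exists_list_of_mem_closure hx

theorem exists_of_mem_subsemigroup {x : M} (hx : x ∈ Subsemigroup.closure E) :
    ∃ z ∈ Submonoid.closure E, ∃ a ∈ E, x = z * a := by
  induction hx using Subsemigroup.closure_induction with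
  | mem x hx => exact ⟨1, one_mem _, x, hx, (one_mul x).symm⟩
  | mul x y _ _ hx hy =>
    obtain ⟨z, hz, a, ha, rfl⟩ := hx
    obtain ⟨w, hw, b, hb, rfl⟩ := hy
    exact ⟨z * a * w, mul_mem (mul_mem hz (Submonoid.subset_closure ha)) hw, b, hb, by
      simp only [mul_assoc]⟩

end Mon

section Ring

variable {A : Type*} [Ring A] {rk : A → ℕ} {k L : ℕ} {E : Set A} {a b s : A}

/-- the elements of the local groups -/
def GG (rk : A → ℕ) (k : ℕ) (E : Set A) (L : ℕ) : Set A :=
  {x | ∃ a ∈ E, ∃ c ∈ E, ∃ e, Loc rk k a c e ∧ (∃ y, y ∈ JJ rk k E L a c) ∧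
    x ∈ LG (JJ rk k E L a c) e}

theorem GG.mem_closure [Finite A] (hr : RankFn rk) {x : A} (hx : x ∈ GG rk k E L) :
    x ∈ Subsemigroup.closure E := by
  obtain ⟨a, ha, c, hc, e, he, ⟨y, hy⟩, hx⟩ := hx
  refine lg_sound he.idem (fun y hy => JJ.ee he hy) (fun y hy => JJ.mem_closure ha hc hy) ?_ hx
  obtain ⟨h1, h2⟩ := JJ.ee he hy
  obtain ⟨n, hn, h3⟩ := he.exists_pow hr hy.1 h2 h1
  rw [← h3]
  have h4 := JJ.mem_closure ha hc hy
  clear h3
  induction n, hn using Nat.le_induction with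
  | base => simpa using h4
  | succ n _ ih =>
    rw [pow_succ]
    exact mul_mem ih h4

/-- **Walks inside a strongly connected part.** -/
theorem W.seg [Finite A] (hr : RankFn rk) (hE : ∀ a ∈ E, rk a = k) (hB : BW rk k E L)
    (h : W rk k E a b s) {X : A} (hX : X ∈ Submonoid.closure E) (hk : rk (a * X * b) = k) :
    s ∈ pw (E ∪ GG rk k E L) (L + 3) := by
  have ha := h.ha
  have hb := h.hb
  rcases h.cases' with ⟨h1, h2⟩ | ⟨Y, hY, h1⟩
  · rw [h1]
    exact pw_mono _ (by omega) (mem_pw_one (Or.inl ha))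
  obtain ⟨Z, hZ, hZk⟩ := hB a ha b hb Y hY (by rw [← h1, h.rk_eq hE])
  obtain ⟨X', hX', hk'⟩ := hB b hb a ha X hX hk
  have hWα : W rk k E a b (b * Z * a) := (W.base ha).ext' hr hE hb hZ hZk
  rcases pw_cases (pw_mono E (Nat.le_succ L) hX') with rfl | ⟨c, hc, V, hV, rfl⟩
  · -- the element itself is in a local group
    rw [mul_one] at hk'
    obtain ⟨e, he⟩ := hr.exists_loc (hE a ha) (hE b hb) hk'
    have h3 := h.mem_LG hr hE hB he hb 1 (by rw [one_mul, hE b hb]) (Or.inl ⟨rfl, rfl⟩)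
    rw [one_mul] at h3
    refine pw_mono _ (by omega) (mem_pw_one (Or.inr ⟨a, ha, b, hb, e, he, ⟨b * Z * a, ?_⟩, h3⟩))
    exact ⟨hZk, Or.inr ⟨Z, pw_mono E (by omega) hZ, rfl⟩⟩
  · have hac : rk (a * c) = k := by
      refine hr.left_eq (x := a * c) (y := V * b) ?_ ((hr.left _ _).trans (hE a ha).le)
      rw [← hk']
      simp only [mul_assoc]
    have hcb : rk (c * V * b) = k := by
      refine hr.right_eq (x := a) (y := c * V * b) ?_ ((hr.right _ _).trans (hE b hb).le)
      rw [← hk']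
      simp only [mul_assoc]
    obtain ⟨e, he⟩ := hr.exists_loc (hE a ha) (hE c hc) hac
    have h3 := h.mem_LG hr hE hB he hc (c * V) hcb (Or.inr ⟨V, hV, rfl⟩)
    have h4 := hWα.mem_LG hr hE hB he hc (c * V) hcb (Or.inr ⟨V, hV, rfl⟩)
    obtain ⟨s', hs'⟩ := h.left
    obtain ⟨n, hn, -, hid⟩ := he.identity hr (β := c * V) (α := b * Z * a) (α' := Z * a) (s := s)
      (s' := s') (hE b hb) hcb (by rw [← mul_assoc, ← mul_assoc, he.ec]) (mul_assoc _ _ _) hZk
      (by rw [mul_assoc, he.ae]) hs'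
    have h5 : (c * V * (b * Z * a)) ^ n * (c * V * s) ∈ GG rk k E L := by
      refine ⟨a, ha, c, hc, e, he, ⟨c * V * (b * Z * a), ?_, Or.inr ?_⟩,
        lg_mul he.idem (lg_pow he.idem h4 hn) h3⟩
      · have h6 := hr.glue (x := c * V) (a := b) (y := Z * a) (hE b hb) hcb
          (by rw [← mul_assoc, hZk])
        rw [← h6]
        simp only [mul_assoc]
      · refine ⟨V * (b * Z), pw_mono E (by omega) (mul_mem_pw hV (mul_mem_pw_one hb hZ)), ?_⟩
        simp only [mul_assoc]
    rw [← hid, mul_assoc]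
    have h7 : b * Z * a ∈ pw (E ∪ GG rk k E L) (L + 2) := by
      rw [mul_assoc]
      exact mul_mem_pw_one (Or.inl hb)
        (mul_mem_pw (pw_subset Set.subset_union_left L hZ) (mem_pw_one (Or.inl ha)))
    have h8 := mul_mem_pw h7 (mem_pw_one (E := E ∪ GG rk k E L) (Or.inr h5))
    exact pw_mono _ (by omega) h8

/-- **Decomposition of a product of rank `k`.** -/
theorem decomp [Finite A] (hr : RankFn rk) (hE : ∀ a ∈ E, rk a = k) (hB : BW rk k E L)
    {dm : A → ℕ} (hd1 : ∀ x ∈ Submonoid.closure E, ∀ y, dm (x * y) ≤ dm y)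
    (hd2 : ∀ x ∈ Submonoid.closure E, ∀ y, dm (x * y) = dm y → ∀ b ∈ E, rk (b * y) = k →
      ∃ X ∈ Submonoid.closure E, rk (b * X * (x * y)) = k) (d : ℕ) :
    ∀ y, dm y ≤ d → ∀ z ∈ Submonoid.closure E, rk (z * y) = k →
      z ∈ pw (E ∪ GG rk k E L) (d * (L + 4) + (L + 3)) := by
  induction d with
  | zero =>
    intro y hy z hz hk
    obtain ⟨l, hl, rfl⟩ := list_of_mem_closure hz
    rcases List.eq_nil_or_concat l with rfl | ⟨l', b, rfl⟩
    · exact one_mem_pw _ _
    rw [List.concat_eq_append, List.prod_append, List.prod_singleton] at hk hz ⊢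
    rw [List.concat_eq_append] at hl
    have hb : b ∈ E := hl b (by simp)
    have hl' : ∀ x ∈ l', x ∈ E := fun x hx => hl x (by simp [hx])
    have h1 : rk (l'.prod * b) = k := by
      refine hr.left_eq (y := y) hk ((hr.right _ _).trans (hE b hb).le)
    obtain ⟨c, hW⟩ := W.of_list hr hE hb hl' h1
    have h2 : rk (b * y) = k := by
      rw [mul_assoc] at hk
      exact hr.right_eq hk ((hr.left _ _).trans (hE b hb).le)
    have h3 : dm (l'.prod * b * y) = dm y := by
      have := hd1 _ hz y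
      omega
    obtain ⟨X, hX, hXk⟩ := hd2 _ hz y h3 b hb h2
    obtain ⟨s', hs'⟩ := hW.left
    refine pw_mono _ (by omega) (hW.seg hr hE hB hX ?_)
    refine hr.left_eq (x := b * X * c) (y := s' * y) ?_ ?_
    · rw [← hXk, hs']
      simp only [mul_assoc]
    · rw [mul_assoc]
      exact (hr.left _ _).trans (hE b hb).le
  | succ d ih =>
    intro y hy z hz hk
    obtain ⟨l, hl, rfl⟩ := list_of_mem_closure hz
    obtain ⟨l2, l1, rfl, h1, h2⟩ := longest_suffix (fun l => dm (l.prod * y) = dm y)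
      (by rw [List.prod_nil, one_mul]) l
    have hl1 : ∀ x ∈ l1, x ∈ E := fun x hx => hl x (by simp [hx])
    have hl2 : ∀ x ∈ l2, x ∈ E := fun x hx => hl x (by simp [hx])
    rw [List.prod_append] at hk hz ⊢
    have hc1 : l1.prod ∈ Submonoid.closure E :=
      Submonoid.list_prod_mem _ fun x hx => Submonoid.subset_closure (hl1 x hx)
    -- the segment
    have hseg : l1.prod ∈ pw (E ∪ GG rk k E L) (L + 3) := by
      rcases List.eq_nil_or_concat l1 with rfl | ⟨l', b, rfl⟩
      · exact one_mem_pw _ _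
      rw [List.concat_eq_append] at hl1
      rw [List.concat_eq_append, List.prod_append, List.prod_singleton] at hk hc1 h1 ⊢
      have hb : b ∈ E := hl1 b (by simp)
      have hl' : ∀ x ∈ l', x ∈ E := fun x hx => hl1 x (by simp [hx])
      have h4 : rk (l'.prod * b * y) = k := by
        rw [mul_assoc] at hk
        exact hr.right_eq hk (((hr.left _ _).trans (hr.right _ _)).trans (hE b hb).le)
      have h3 : rk (l'.prod * b) = k :=
        hr.left_eq (y := y) h4 ((hr.right _ _).trans (hE b hb).le)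
      obtain ⟨c, hW⟩ := W.of_list hr hE hb hl' h3
      have h5 : rk (b * y) = k := by
        rw [mul_assoc] at h4
        exact hr.right_eq h4 ((hr.left _ _).trans (hE b hb).le)
      obtain ⟨X, hX, hXk⟩ := hd2 _ hc1 y h1 b hb h5
      obtain ⟨s', hs'⟩ := hW.left
      refine hW.seg hr hE hB hX ?_
      refine hr.left_eq (x := b * X * c) (y := s' * y) ?_ ?_
      · rw [← hXk, hs']
        simp only [mul_assoc]
      · rw [mul_assoc]
        exact (hr.left _ _).trans (hE b hb).le
    rcases h2 with rfl | ⟨l3, x, rfl, h3⟩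
    · rw [List.prod_nil, one_mul]
      exact pw_mono _ (by omega) hseg
    · have hx : x ∈ E := hl2 x (by simp)
      have hl3 : ∀ y ∈ l3, y ∈ E := fun y hy => hl2 y (by simp [hy])
      have hc3 : l3.prod ∈ Submonoid.closure E :=
        Submonoid.list_prod_mem _ fun x hx => Submonoid.subset_closure (hl3 x hx)
      rw [List.prod_append, List.prod_singleton] at hk ⊢
      rw [List.prod_cons] at h3
      have h4 : dm (x * (l1.prod * y)) < dm y := by
        refine lt_of_le_of_ne ?_ (by rwa [← mul_assoc])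
        rw [← h1]
        exact hd1 x (Submonoid.subset_closure hx) _
      have h5 : rk (l3.prod * (x * (l1.prod * y))) = k := by
        rw [← hk]
        simp only [mul_assoc]
      have h6 := ih (x * (l1.prod * y)) (by omega) l3.prod hc3 h5
      have h7 := mul_mem_pw (mul_mem_pw h6 (mem_pw_one (Or.inl hx))) hseg
      refine pw_mono _ ?_ h7
      rw [Nat.succ_mul]
      omega

/-- the products of rank `k` -/
theorem mem_closure_rank [Finite A] (hr : RankFn rk) (hE : ∀ a ∈ E, rk a = k)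
    (hB : BW rk k E L) (hC : CH rk k E L) {x : A} (hx : rk x = k) :
    x ∈ Subsemigroup.closure E ↔ ∃ a ∈ E ∪ GG rk k E L,
      ∃ y ∈ pw (E ∪ GG rk k E L) (L * (L + 4) + (L + 4)), x = a * y := by
  constructor
  · intro h
    obtain ⟨dm, h1, h2, h3⟩ := hC
    obtain ⟨z, hz, a, ha, rfl⟩ := exists_of_mem_subsemigroup h
    have h4 := decomp hr hE hB h2 h3 L a (h1 a) z hz hx
    rcases pw_cases (pw_mono _ (Nat.le_succ _) h4) with rfl | ⟨b, hb, y, hy, rfl⟩
    · exact ⟨a, Or.inl ha, 1, one_mem_pw _ _, by rw [one_mul, mul_one]⟩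
    · have h5 := mul_mem_pw hy (mem_pw_one (E := E ∪ GG rk k E L) (Or.inl ha))
      exact ⟨b, hb, y * a, pw_mono _ (by omega) h5, by rw [mul_assoc]⟩
  · rintro ⟨a, ha, y, hy, rfl⟩
    have h1 : E ∪ GG rk k E L ⊆ Subsemigroup.closure E := by
      rintro x (hx | hx)
      · exact Subsemigroup.subset_closure hx
      · exact GG.mem_closure hr hx
    exact mul_pw_mem h1 (h1 ha) hy

end Ring

end Pool.Agent.LRch
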