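import Pool.Agent.LRch.SgD

/-!
# The semigroup generated by a set, by descending recursion on the rank
-/

set_option autoImplicit false

namespace Pool.Agent.LRch

section Defs

variable {A : Type*} [Ring A] (rk : A → ℕ)

/-- the elements of rank `k` of `S * T` -/
def EE (S T : Set A) (k : ℕ) : Set A := {x | rk x = k ∧ ∃ a ∈ S, ∃ t ∈ T, x = a * t}

/-- the products of rank `k` of elements of `E` (all of rank `k`) -/
def CC (E : Set A) (k L : ℕ) : Set A :=
  {x | rk x = k ∧ ∃ a ∈ E ∪ GG rk k E L,
    ∃ y ∈ pw (E ∪ GG rk k E L) (L * (L + 4) + (L + 4)), x = a * y}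

/-- `1` and the products of elements of `S` of rank larger than `r - i` -/
def TT (S : Set A) (L : ℕ → ℕ) (r : ℕ) : ℕ → Set A
  | 0 => {1}
  | i + 1 => {x | x ∈ TT S L r i ∨ (rk x = r - i ∧ ∃ q ∈ TT S L r i,
      ∃ y ∈ CC rk (EE rk S (TT S L r i) (r - i)) (r - i) (L (r - i)), x = q * y)}

end Defs

section Ring

variable {A : Type*} [Ring A] {rk : A → ℕ}

theorem one_mem_TT (S : Set A) (L : ℕ → ℕ) (r i : ℕ) : (1 : A) ∈ TT rk S L r i := by
  induction i with
  | zero => exact rfl
  | succ i ih => exact Or.inl ih

theorem mem_CC_iff [Finite A] (hr : RankFn rk) {E : Set A} {k L : ℕ} (hE : ∀ a ∈ E, rk a = k)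
    (hB : BW rk k E L) (hC : CH rk k E L) {x : A} :
    x ∈ CC rk E k L ↔ rk x = k ∧ x ∈ Subsemigroup.closure E :=
  and_congr_right fun hx => (mem_closure_rank hr hE hB hC hx).symm

theorem mem_submonoid_iff {S : Set A} {x : A} :
    x ∈ Submonoid.closure S ↔ x = 1 ∨ x ∈ Subsemigroup.closure S := by
  constructor
  · intro h
    induction h using Submonoid.closure_induction with
    | mem x hx => exact Or.inr (Subsemigroup.subset_closure hx)
    | one => exact Or.inl rfl
    | mul x y _ _ hx hy =>
      rcases hx with rfl | hx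
      · rwa [one_mul]
      · rcases hy with rfl | hy
        · rw [mul_one]
          exact Or.inr hx
        · exact Or.inr (mul_mem hx hy)
  · rintro (rfl | h)
    · exact one_mem _
    · have h2 : Subsemigroup.closure S ≤ (Submonoid.closure S).toSubsemigroup :=
        Subsemigroup.closure_le.2 Submonoid.subset_closure
      exact h2 h

/-- **The semigroup by recursion on the rank.** -/
theorem mem_TT_iff [Finite A] (hr : RankFn rk) {r : ℕ} (hrr : ∀ x, rk x ≤ r) {L : ℕ → ℕ}
    (hL : ∀ (k : ℕ) (E : Set A), (∀ a ∈ E, rk a = k) → BW rk k E (L k) ∧ CH rk k E (L k))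
    (S : Set A) (i : ℕ) (hi : i ≤ r + 1) (x : A) : x ∈ TT rk S L r i ↔
      x = 1 ∨ (x ∈ Subsemigroup.closure S ∧ r < rk x + i) := by
  induction i generalizing x with
  | zero =>
    constructor
    · intro h
      exact Or.inl h
    · rintro (h | ⟨-, h⟩)
      · exact h
      · exact absurd h (by have := hrr x; omega)
  | succ i ih =>
    have hi' : i ≤ r := Nat.le_of_succ_le_succ hi
    replace ih := fun x => ih (Nat.le_succ_of_le hi') x
    obtain ⟨k, hk⟩ : ∃ k, k = r - i := ⟨_, rfl⟩
    obtain ⟨T, hT⟩ : ∃ T, T = TT rk S L r i := ⟨_, rfl⟩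
    obtain ⟨E, hE⟩ : ∃ E, E = EE rk S T k := ⟨_, rfl⟩
    have hEk : ∀ a ∈ E, rk a = k := by
      intro a ha
      rw [hE] at ha
      exact ha.1
    have hCC : ∀ x, x ∈ CC rk E k (L k) ↔ rk x = k ∧ x ∈ Subsemigroup.closure E := fun x =>
      mem_CC_iff hr hEk (hL k E hEk).1 (hL k E hEk).2
    rw [← hT] at ih
    have hTS : ∀ t ∈ T, t = 1 ∨ t ∈ Subsemigroup.closure S := fun t ht =>
      ((ih t).1 ht).imp id And.left
    have hmul : ∀ t ∈ T, ∀ y ∈ Subsemigroup.closure S, t * y ∈ Subsemigroup.closure S := by
      intro t ht y hy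
      rcases hTS t ht with rfl | h
      · rwa [one_mul]
      · exact mul_mem h hy
    have hES : E ⊆ Subsemigroup.closure S := by
      intro x hx
      rw [hE] at hx
      obtain ⟨-, a, ha, t, ht, rfl⟩ := hx
      rcases hTS t ht with rfl | h
      · rw [mul_one]
        exact Subsemigroup.subset_closure ha
      · exact mul_mem (Subsemigroup.subset_closure ha) h
    have h1T : (1 : A) ∈ T := by
      rw [hT]
      exact one_mem_TT _ _ _ _
    -- the products of lists
    have key : ∀ l : List A, (∀ x ∈ l, x ∈ S) → l ≠ [] → rk l.prod = k →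
        ∃ q ∈ T, ∃ y ∈ CC rk E k (L k), l.prod = q * y := by
      intro l
      induction l with
      | nil => exact fun _ h => absurd rfl h
      | cons a l ihl =>
        intro hl _ hk1
        rw [List.prod_cons] at hk1 ⊢
        have ha : a ∈ S := hl a List.mem_cons_self
        have hl' : ∀ x ∈ l, x ∈ S := fun x hx => hl x (List.mem_cons_of_mem _ hx)
        have hEmem : ∀ t ∈ T, rk (a * t) = k → a * t ∈ E := by
          intro t ht h
          rw [hE]
          exact ⟨h, a, ha, t, ht, rfl⟩
        have hCof : ∀ y ∈ E, y ∈ CC rk E k (L k) := fun y hy =>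
          (hCC y).2 ⟨hEk y hy, Subsemigroup.subset_closure hy⟩
        have hin : l = [] ∨ l.prod ∈ Subsemigroup.closure S := by
          rcases eq_or_ne l [] with h | h
          · exact Or.inl h
          · right
            obtain ⟨b, l'', rfl⟩ := List.exists_cons_of_ne_nil h
            rw [List.prod_cons]
            have h2 : ∀ m : List A, (∀ x ∈ m, x ∈ S) → ∀ z ∈ Subsemigroup.closure S,
                z * m.prod ∈ Subsemigroup.closure S := by
              intro m
              induction m with
              | nil => intro _ z hz; rwa [List.prod_nil, mul_one]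
              | cons c m ihm =>
                intro hm z hz
                rw [List.prod_cons, ← mul_assoc]
                exact ihm (fun x hx => hm x (List.mem_cons_of_mem _ hx)) _
                  (mul_mem hz (Subsemigroup.subset_closure (hm c List.mem_cons_self)))
            exact h2 l'' (fun x hx => hl' x (List.mem_cons_of_mem _ hx)) b
              (Subsemigroup.subset_closure (hl' b List.mem_cons_self))
        rcases hin with rfl | hin
        · exact ⟨1, h1T, a * 1, hCof _ (hEmem 1 h1T hk1), by rw [List.prod_nil, one_mul]⟩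
        rcases eq_or_ne l [] with rfl | hne
        · exact ⟨1, h1T, a * 1, hCof _ (hEmem 1 h1T hk1), by rw [List.prod_nil, one_mul]⟩
        have hge : k ≤ rk l.prod := hk1 ▸ hr.right a l.prod
        rcases hge.eq_or_lt with heq | hlt
        · obtain ⟨q, hq, y, hy, h3⟩ := ihl hl' hne heq.symm
          rw [h3, ← mul_assoc] at hk1 ⊢
          obtain ⟨hyk, hyE⟩ := (hCC y).1 hy
          have hge2 : k ≤ rk (a * q) := hk1 ▸ hr.left (a * q) y
          rcases hge2.eq_or_lt with heq2 | hlt2
          · refine ⟨1, h1T, a * q * y, (hCC _).2 ⟨hk1, mul_mem ?_ hyE⟩, (one_mul _).symm⟩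
            exact Subsemigroup.subset_closure (hEmem q hq heq2.symm)
          · refine ⟨a * q, (ih _).2 (Or.inr ⟨?_, by omega⟩), y, hy, rfl⟩
            rcases hTS q hq with rfl | h
            · rw [mul_one]
              exact Subsemigroup.subset_closure ha
            · exact mul_mem (Subsemigroup.subset_closure ha) h
        · exact ⟨1, h1T, a * l.prod, hCof _ (hEmem _ ((ih _).2 (Or.inr ⟨hin, by omega⟩)) hk1),
            (one_mul _).symm⟩
    have hstep : x ∈ TT rk S L r (i + 1) ↔ x ∈ T ∨ (rk x = k ∧ ∃ q ∈ T,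
        ∃ y ∈ CC rk E k (L k), x = q * y) := by
      rw [hE, hT, hk]
      exact Iff.rfl
    rw [hstep, ih]
    constructor
    · rintro ((h | ⟨h1, h2⟩) | ⟨h1, q, hq, y, hy, rfl⟩)
      · exact Or.inl h
      · exact Or.inr ⟨h1, by omega⟩
      · refine Or.inr ⟨hmul q hq y ?_, by omega⟩
        exact Subsemigroup.closure_le.2 hES ((hCC y).1 hy).2
    · rintro (h | ⟨h1, h2⟩)
      · exact Or.inl (Or.inl h)
      · rcases Nat.lt_or_ge r (rk x + i) with h3 | h3
        · exact Or.inl (Or.inr ⟨h1, h3⟩)
        · have hxk : rk x = k := by omega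
          refine Or.inr ⟨hxk, ?_⟩
          obtain ⟨z, hz, a, ha, rfl⟩ := exists_of_mem_subsemigroup h1
          obtain ⟨l, hl, rfl⟩ := list_of_mem_closure hz
          have h4 := key (l ++ [a]) (by
            intro x hx
            rcases List.mem_append.1 hx with h | h
            · exact hl x h
            · rw [List.mem_singleton.1 h]
              exact ha) (by simp) (by rw [List.prod_append, List.prod_singleton, hxk])
          rwa [List.prod_append, List.prod_singleton] at h4

theorem mem_monoid_iff [Finite A] (hr : RankFn rk) {r : ℕ} (hrr : ∀ x, rk x ≤ r) {L : ℕ → ℕ}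
    (hL : ∀ (k : ℕ) (E : Set A), (∀ a ∈ E, rk a = k) → BW rk k E (L k) ∧ CH rk k E (L k))
    (S : Set A) (x : A) : x ∈ Submonoid.closure S ↔ x ∈ TT rk S L r (r + 1) := by
  rw [mem_TT_iff hr hrr hL S (r + 1) le_rfl, mem_submonoid_iff]
  constructor
  · rintro (h | h)
    · exact Or.inl h
    · exact Or.inr ⟨h, by omega⟩
  · rintro (h | h)
    · exact Or.inl h
    · exact Or.inr h.1

end Ring

end Pool.Agent.LRch
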