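import Pool.Agent.LRch.MDef
import Pool.Agent.LRch.RkIff
import Pool.Agent.LRch.SgE

/-!
# Semigroups generated by definable families of matrices are definable
-/

set_option autoImplicit false

namespace Pool.Agent.LRch

open Finset Pool.Agent.Grz Pool.Agent.GAvg Pool.Agent.PTr Pool.Agent.MTr Pool.Agent.LPC
open Pool.Agent.ECD

/-- the rank -/
noncomputable abbrev rkm (r m : ℕ) : Mat r m → ℕ := fun A => A.rank

variable {r : ℕ}

/-- the matrix of an element of `GL` -/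
abbrev gmat {m : ℕ} (g : GL (Fin r) (ZMod m)) : Mat r m := (g : Matrix (Fin r) (Fin r) (ZMod m))

/-- matrices which are a multiple of another one -/
theorem dvd_def {n : ℕ} {M : (Fin n → ℕ) → ℕ} (hM : DFun n M)
    {X Y : ∀ u : Fin n → ℕ, Mat r (M u + 1)} (hX : MD M X) (hY : MD M Y) :
    Delta0 n (fun u => ∃ P Q, P * X u * Q = Y u) := by
  refine mex hM (A := fun u P => ∃ Q, P * X u * Q = Y u) ?_
  refine mex hM.weak (A := fun w Q => mdec r (M (tl w) + 1) (w 0) * X (tl w) * Q = Y (tl w)) ?_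
  exact MD.eq (((MD.dec hM.weak (DFun.proj 0)).weak.mul hM.weak.weak hX.weak.weak).mul
    hM.weak.weak (MD.dec hM.weak.weak (DFun.proj 0))) hY.weak.weak

theorem rk_def {n : ℕ} {M : (Fin n → ℕ) → ℕ} (hM : DFun n M) (hp : ∀ u, (M u + 1).Prime)
    {X : ∀ u : Fin n → ℕ, Mat r (M u + 1)} (hX : MD M X) (k : ℕ) :
    Delta0 n (fun u => rkm r (M u + 1) (X u) = k) := by
  have h1 : Delta0 n (fun u => ∃ s : {s : Finset (Fin r) // s.card = k},
      (∃ P Q, P * X u * Q = Matrix.diagonal fun i => if i ∈ s.1 then (1 : ZMod (M u + 1)) else 0) ∧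
      ∃ P Q, P * (Matrix.diagonal fun i => if i ∈ s.1 then (1 : ZMod (M u + 1)) else 0) * Q =
        X u) :=
    Delta0.exOf fun s => (dvd_def hM hX (MD.diag hM s.1)).and (dvd_def hM (MD.diag hM s.1) hX)
  refine h1.of_iff fun u => ?_
  have : Fact (M u + 1).Prime := ⟨hp u⟩
  have h2 := rank_eq_iff (k := k) (X u)
  constructor
  · intro h
    obtain ⟨s, hs, h3, h4⟩ := h2.1 h
    exact ⟨⟨s, hs⟩, h3, h4⟩
  · rintro ⟨⟨s, hs⟩, h3, h4⟩
    exact h2.2 ⟨s, hs, h3, h4⟩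

/-! ### Products -/

theorem pw_def (L : ℕ) : ∀ {n : ℕ} {M : (Fin n → ℕ) → ℕ} (_ : DFun n M)
    {E : ∀ u : Fin n → ℕ, Set (Mat r (M u + 1))} (_ : SD M E)
    {X : ∀ u : Fin n → ℕ, Mat r (M u + 1)} (_ : MD M X),
    Delta0 n (fun u => X u ∈ pw (E u) L) := by
  induction L with
  | zero =>
    intro n M hM E hE X hX
    exact hX.eq (MD.one hM)
  | succ L ih =>
    intro n M hM E hE X hX
    refine Delta0.or (ih hM hE hX) ?_
    refine mex hM (A := fun u a => a ∈ E u ∧ ∃ y ∈ pw (E u) L, X u = a * y) ?_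
    refine Delta0.and hE ?_
    have hd := MD.dec (r := r) hM.weak (DFun.proj 0)
    refine mex hM.weak (A := fun w y => y ∈ pw (E (tl w)) L ∧
      X (tl w) = mdec r (M (tl w) + 1) (w 0) * y) ?_
    have hd2 := MD.dec (r := r) hM.weak.weak (DFun.proj 0)
    exact (ih hM.weak.weak ((hE.weak hM).weak hM.weak) hd2).and
      (hX.weak.weak.eq (hd.weak.mul hM.weak.weak hd2))

section Fam

variable {n : ℕ} {M : (Fin n → ℕ) → ℕ} (hM : DFun n M)

include hM

omit hM in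
theorem SD.union {E F : ∀ u : Fin n → ℕ, Set (Mat r (M u + 1))} (hE : SD M E) (hF : SD M F) :
    SD M (fun u => E u ∪ F u) := Delta0.or hE hF

theorem prod_def {S T : ∀ u : Fin n → ℕ, Set (Mat r (M u + 1))} (hS : SD M S) (hT : SD M T)
    {X : ∀ u : Fin n → ℕ, Mat r (M u + 1)} (hX : MD M X) :
    Delta0 n (fun u => ∃ a ∈ S u, ∃ t ∈ T u, X u = a * t) := by
  refine mex hM (A := fun u a => a ∈ S u ∧ ∃ t ∈ T u, X u = a * t) ?_
  refine Delta0.and hS ?_
  have hd := MD.dec (r := r) hM.weak (DFun.proj 0)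
  refine mex hM.weak (A := fun w t => t ∈ T (tl w) ∧
    X (tl w) = mdec r (M (tl w) + 1) (w 0) * t) ?_
  have hd2 := MD.dec (r := r) hM.weak.weak (DFun.proj 0)
  exact (((hT.weak hM).weak hM.weak).mem hM.weak.weak hd2).and
    (hX.weak.weak.eq (hd.weak.mul hM.weak.weak hd2))

variable (hp : ∀ u, (M u + 1).Prime)

include hp

theorem EE_def {S T : ∀ u : Fin n → ℕ, Set (Mat r (M u + 1))} (hS : SD M S) (hT : SD M T)
    (k : ℕ) : SD M (fun u => EE (rkm r (M u + 1)) (S u) (T u) k) := by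
  have hd := MD.dec (r := r) hM.weak (DFun.proj 0)
  exact (rk_def hM.weak (fun u => hp _) hd k).and
    (prod_def hM.weak (hS.weak hM) (hT.weak hM) hd)

theorem loc_def {a c e : ∀ u : Fin n → ℕ, Mat r (M u + 1)} (ha : MD M a) (hc : MD M c)
    (he : MD M e) (k : ℕ) : Delta0 n (fun u => Loc (rkm r (M u + 1)) k (a u) (c u) (e u)) := by
  have h1 : Delta0 n (fun u => ∃ m, e u = c u * m * a u) := by
    refine mex hM (A := fun u m => e u = c u * m * a u) ?_
    exact he.weak.eq ((hc.weak.mul hM.weak (MD.dec hM.weak (DFun.proj 0))).mul hM.weak ha.weak)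
  refine ((rk_def hM hp ha k).and ((rk_def hM hp hc k).and ((rk_def hM hp (ha.mul hM hc) k).and
    (h1.and (((he.mul hM hc).eq hc).and ((ha.mul hM he).eq ha)))))).of_iff fun u => ?_
  constructor
  · rintro ⟨h1, h2, h3, h4, h5, h6⟩
    exact ⟨h1, h2, h3, h4, h5, h6⟩
  · rintro ⟨h1, h2, h3, h4, h5, h6⟩
    exact ⟨h1, h2, h3, h4, h5, h6⟩

theorem JJ_def {E : ∀ u : Fin n → ℕ, Set (Mat r (M u + 1))} (hE : SD M E)
    {a c y : ∀ u : Fin n → ℕ, Mat r (M u + 1)} (ha : MD M a) (hc : MD M c) (hy : MD M y)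
    (k L : ℕ) : Delta0 n (fun u => y u ∈ JJ (rkm r (M u + 1)) k (E u) L (a u) (c u)) := by
  refine (rk_def hM hp hy k).and (Delta0.or ((hy.eq ha).and (hc.eq ha)) ?_)
  refine mex hM (A := fun u X => X ∈ pw (E u) (2 * L + 2) ∧ y u = c u * X * a u) ?_
  have hd := MD.dec (r := r) hM.weak (DFun.proj 0)
  exact (pw_def _ hM.weak (hE.weak hM) hd).and
    (hy.weak.eq ((hc.weak.mul hM.weak hd).mul hM.weak ha.weak))

end Fam

/-! ### Local groups -/

section Grp

variable {c : ℕ} (hc : ∀ (p : ℕ) [Fact p.Prime] (H : Subgroup (GL (Fin r) (ZMod p))), BGen H c)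

include hc

theorem gcl_def {n : ℕ} {M : (Fin n → ℕ) → ℕ} (hM : DFun n M) (hp : ∀ u, (M u + 1).Prime)
    {J : ∀ u : Fin n → ℕ, Set (Mat r (M u + 1))} (hJ : SD M J)
    {e : ∀ u : Fin n → ℕ, Mat r (M u + 1)} (he : MD M e)
    {A : ∀ u : Fin n → ℕ, GL (Fin r) (ZMod (M u + 1))}
    (hA : DFun n (fun u => (glG r).enc (fun _ : Fin 1 => M u) (A u))) :
    Delta0 n (fun u => A u ∈ Subgroup.closure {g : GL (Fin r) (ZMod (M u + 1)) |
      ∃ y ∈ J u, (g : Mat r (M u + 1)) = y + (1 - e u)}) := by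
  refine closure_def (glG r) c (σ := fun _ u => M u) (fun _ => hM)
    (S := fun u => {g : GL (Fin r) (ZMod (M u + 1)) |
      ∃ y ∈ J u, (g : Mat r (M u + 1)) = y + (1 - e u)}) ?_ ?_ hA
  · have h2 : DFun (n + 1) (fun w => (glG r).enc (fun _ : Fin 1 => M (tl w))
        ((glG r).dec (fun _ : Fin 1 => M (tl w)) (w 0))) :=
      (glG r).gdec (σ := fun _ w => M (tl w)) (fun _ => hM.weak) (DFun.proj 0)
    have h3 : MD (fun w : Fin (n + 1) → ℕ => M (tl w)) (fun w =>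
        gmat ((glG r).dec (fun _ : Fin 1 => M (tl w)) (w 0))) :=
      fun i j => gl_entry hM.weak h2 i j
    refine mex hM.weak (A := fun w y => y ∈ J (tl w) ∧
      gmat ((glG r).dec (fun _ : Fin 1 => M (tl w)) (w 0)) = y + (1 - e (tl w))) ?_
    have hd := MD.dec (r := r) hM.weak.weak (DFun.proj 0)
    exact (((hJ.weak hM).weak hM.weak).mem hM.weak.weak hd).and (h3.weak.eq
      (hd.add hM.weak.weak ((MD.one hM.weak.weak).sub hM.weak.weak he.weak.weak)))
  · intro u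
    have : Fact (M u + 1).Prime := ⟨hp u⟩
    exact hc (M u + 1) _

theorem LG_def {n : ℕ} {M : (Fin n → ℕ) → ℕ} (hM : DFun n M) (hp : ∀ u, (M u + 1).Prime)
    {J : ∀ u : Fin n → ℕ, Set (Mat r (M u + 1))} (hJ : SD M J)
    {e X : ∀ u : Fin n → ℕ, Mat r (M u + 1)} (he : MD M e) (hX : MD M X) :
    Delta0 n (fun u => X u ∈ LG (J u) (e u)) := by
  refine ((he.mul hM hX).eq hX).and (((hX.mul hM he).eq hX).and ?_)
  refine (glG r).gex (σ := fun _ u => M u) (fun _ => hM)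
    (A := fun u (g : GL (Fin r) (ZMod (M u + 1))) =>
      g ∈ Subgroup.closure {g : GL (Fin r) (ZMod (M u + 1)) |
      ∃ y ∈ J u, (g : Mat r (M u + 1)) = y + (1 - e u)} ∧
      (g : Mat r (M u + 1)) = X u + (1 - e u)) ?_
  have h2 : DFun (n + 1) (fun w => (glG r).enc (fun _ : Fin 1 => M (tl w))
      ((glG r).dec (fun _ : Fin 1 => M (tl w)) (w 0))) :=
    (glG r).gdec (σ := fun _ w => M (tl w)) (fun _ => hM.weak) (DFun.proj 0)
  have h3 : MD (fun w : Fin (n + 1) → ℕ => M (tl w)) (fun w =>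
      gmat ((glG r).dec (fun _ : Fin 1 => M (tl w)) (w 0))) :=
    fun i j => gl_entry hM.weak h2 i j
  exact (gcl_def hc hM.weak (fun u => hp _) (hJ.weak hM) he.weak h2).and (h3.eq
    (hX.weak.add hM.weak ((MD.one hM.weak).sub hM.weak he.weak)))

theorem GG_def {n : ℕ} {M : (Fin n → ℕ) → ℕ} (hM : DFun n M) (hp : ∀ u, (M u + 1).Prime)
    {E : ∀ u : Fin n → ℕ, Set (Mat r (M u + 1))} (hE : SD M E) (k L : ℕ)
    {X : ∀ u : Fin n → ℕ, Mat r (M u + 1)} (hX : MD M X) :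
    Delta0 n (fun u => X u ∈ GG (rkm r (M u + 1)) k (E u) L) := by
  refine mex hM (A := fun u a => a ∈ E u ∧ ∃ c ∈ E u, ∃ e, Loc (rkm r (M u + 1)) k a c e ∧
    (∃ y, y ∈ JJ (rkm r (M u + 1)) k (E u) L a c) ∧
      X u ∈ LG (JJ (rkm r (M u + 1)) k (E u) L a c) e) ?_
  refine Delta0.and hE ?_
  have ha := MD.dec (r := r) hM.weak (DFun.proj 0)
  refine mex hM.weak (A := fun w c => c ∈ E (tl w) ∧ ∃ e,
    Loc (rkm r (M (tl w) + 1)) k (mdec r (M (tl w) + 1) (w 0)) c e ∧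
    (∃ y, y ∈ JJ (rkm r (M (tl w) + 1)) k (E (tl w)) L (mdec r (M (tl w) + 1) (w 0)) c) ∧
      X (tl w) ∈ LG (JJ (rkm r (M (tl w) + 1)) k (E (tl w)) L
        (mdec r (M (tl w) + 1) (w 0)) c) e) ?_
  refine Delta0.and (hE.weak hM) ?_
  refine mex hM.weak.weak (A := fun w e =>
    Loc (rkm r (M (tl (tl w)) + 1)) k (mdec r (M (tl (tl w)) + 1) (tl w 0))
      (mdec r (M (tl (tl w)) + 1) (w 0)) e ∧
    (∃ y, y ∈ JJ (rkm r (M (tl (tl w)) + 1)) k (E (tl (tl w))) L
      (mdec r (M (tl (tl w)) + 1) (tl w 0)) (mdec r (M (tl (tl w)) + 1) (w 0))) ∧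
      X (tl (tl w)) ∈ LG (JJ (rkm r (M (tl (tl w)) + 1)) k (E (tl (tl w))) L
        (mdec r (M (tl (tl w)) + 1) (tl w 0)) (mdec r (M (tl (tl w)) + 1) (w 0))) e) ?_
  have hM3 := hM.weak.weak.weak
  have hE4 := (((hE.weak hM).weak hM.weak).weak hM.weak.weak).weak hM3
  have hcc := MD.dec (r := r) hM.weak.weak (DFun.proj 0)
  have hee := MD.dec (r := r) hM3 (DFun.proj 0)
  have hyy := MD.dec (r := r) hM3.weak (DFun.proj 0)
  have hJ := JJ_def hM3.weak (fun u => hp _) hE4 ha.weak.weak.weak hcc.weak.weak hyy k L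
  refine (loc_def hM3 (fun u => hp _) ha.weak.weak hcc.weak hee k).and (Delta0.and ?_ ?_)
  · exact mex hM3 (A := fun w y => y ∈ JJ (rkm r (M (tl (tl (tl w))) + 1)) k
      (E (tl (tl (tl w)))) L (mdec r (M (tl (tl (tl w))) + 1) (tl (tl w) 0))
        (mdec r (M (tl (tl (tl w))) + 1) (tl w 0))) hJ
  · exact LG_def hc hM3 (fun u => hp _) (J := fun w => JJ (rkm r (M (tl (tl (tl w))) + 1)) k
      (E (tl (tl (tl w)))) L (mdec r (M (tl (tl (tl w))) + 1) (tl (tl w) 0))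
        (mdec r (M (tl (tl (tl w))) + 1) (tl w 0))) hJ hee hX.weak.weak.weak

/-! ### The descent on the rank -/

theorem CC_def {n : ℕ} {M : (Fin n → ℕ) → ℕ} (hM : DFun n M) (hp : ∀ u, (M u + 1).Prime)
    {E : ∀ u : Fin n → ℕ, Set (Mat r (M u + 1))} (hE : SD M E) (k L : ℕ) :
    SD M (fun u => CC (rkm r (M u + 1)) (E u) k L) := by
  have hd := MD.dec (r := r) hM.weak (DFun.proj 0)
  have hG : SD M (fun u => E u ∪ GG (rkm r (M u + 1)) k (E u) L) :=
    SD.union hE (GG_def hc hM.weak (fun u => hp _) (hE.weak hM) k L hd)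
  refine (rk_def hM.weak (fun u => hp _) hd k).and ?_
  have hG1 := hG.weak hM
  exact prod_def hM.weak (S := fun w => E (tl w) ∪ GG (rkm r (M (tl w) + 1)) k (E (tl w)) L)
    (T := fun w => pw (E (tl w) ∪ GG (rkm r (M (tl w) + 1)) k (E (tl w)) L)
      (L * (L + 4) + (L + 4))) hG1
    (pw_def (L * (L + 4) + (L + 4)) hM.weak.weak
      (E := fun w => E (tl (tl w)) ∪ GG (rkm r (M (tl (tl w)) + 1)) k (E (tl (tl w))) L)
      (hG1.weak hM.weak) (MD.dec hM.weak.weak (DFun.proj 0))) hd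

theorem TT_def {n : ℕ} {M : (Fin n → ℕ) → ℕ} (hM : DFun n M) (hp : ∀ u, (M u + 1).Prime)
    {S : ∀ u : Fin n → ℕ, Set (Mat r (M u + 1))} (hS : SD M S) (L : ℕ → ℕ) (i : ℕ) :
    SD M (fun u => TT (rkm r (M u + 1)) (S u) L r i) := by
  have hd := MD.dec (r := r) hM.weak (DFun.proj 0)
  induction i with
  | zero => exact hd.eq (MD.one hM.weak)
  | succ i ih =>
    refine Delta0.or ih ((rk_def hM.weak (fun u => hp _) hd (r - i)).and ?_)
    have hC := CC_def hc hM hp (EE_def hM hp hS ih (r - i)) (r - i) (L (r - i))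
    exact prod_def hM.weak (S := fun w => TT (rkm r (M (tl w) + 1)) (S (tl w)) L r i)
      (T := fun w => CC (rkm r (M (tl w) + 1)) (EE (rkm r (M (tl w) + 1)) (S (tl w))
        (TT (rkm r (M (tl w) + 1)) (S (tl w)) L r i) (r - i)) (r - i) (L (r - i)))
      (ih.weak hM) (hC.weak hM) hd

/-- **The monoids generated by definable families of matrices are definable.** -/
theorem monoid_def {n : ℕ} {M : (Fin n → ℕ) → ℕ} (hM : DFun n M) (hp : ∀ u, (M u + 1).Prime)
    {S : ∀ u : Fin n → ℕ, Set (Mat r (M u + 1))} (hS : SD M S) :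
    SD M (fun u => (Submonoid.closure (S u) : Set (Mat r (M u + 1)))) := by
  choose L hL using sg_lin r
  refine (TT_def hc hM hp hS L (r + 1)).of_iff fun w => ?_
  have : Fact (M (tl w) + 1).Prime := ⟨hp _⟩
  exact mem_monoid_iff (rk := rkm r (M (tl w) + 1)) (rankFn_matrix (ZMod (M (tl w) + 1)) r)
    (fun x => (Matrix.rank_le_width x)) (fun k E hE => hL k (ZMod (M (tl w) + 1)) E hE) _ _

/-- **The semigroups generated by definable families of matrices are definable.** -/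
theorem semigroup_def {n : ℕ} {M : (Fin n → ℕ) → ℕ} (hM : DFun n M) (hp : ∀ u, (M u + 1).Prime)
    {S : ∀ u : Fin n → ℕ, Set (Mat r (M u + 1))} (hS : SD M S) :
    SD M (fun u => (Subsemigroup.closure (S u) : Set (Mat r (M u + 1)))) := by
  have hd := MD.dec (r := r) hM.weak (DFun.proj 0)
  refine (prod_def hM.weak (S := fun w =>
    (Submonoid.closure (S (tl w)) : Set (Mat r (M (tl w) + 1)))) (T := fun w => S (tl w))
    ((monoid_def hc hM hp hS).weak hM) (hS.weak hM) hd).of_iff fun w => ?_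
  constructor
  · intro h
    exact exists_of_mem_subsemigroup h
  · rintro ⟨z, hz, a, ha, h⟩
    show mdec r (M (tl w) + 1) (w 0) ∈ Subsemigroup.closure (S (tl w))
    rw [h]
    rcases mem_submonoid_iff.1 hz with rfl | hz
    · rw [one_mul]
      exact Subsemigroup.subset_closure ha
    · exact mul_mem hz (Subsemigroup.subset_closure ha)

end Grp

end Pool.Agent.LRch
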