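import Pool.Agent.LRch.SgAff

/-!
# The final theorems, from bounded generation
-/

set_option autoImplicit false

namespace Pool.Agent.LRch

open Finset Pool.Agent.Grz Pool.Agent.GAvg Pool.Agent.PTr Pool.Agent.MTr Pool.Agent.LPC
open Pool.Agent.ECD

theorem SD.comp {r n : ℕ} {M : (Fin n → ℕ) → ℕ} {F : ∀ u : Fin n → ℕ, Set (Mat r (M u + 1))}
    (hF : SD M F) (hM : DFun n M) {m : ℕ} {v : Fin n → (Fin m → ℕ) → ℕ}
    (hv : ∀ i, DFun m (v i)) : SD (fun w => M fun i => v i w) (fun w => F fun i => v i w) :=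
  hF.mem' hM (m := m + 1) (v := fun i w => v i (tl w)) (fun i => (hv i).weak)
    (MD.dec (hM.comp (m := n) fun i => (hv i).weak) (DFun.proj 0))

/-- substitution of entries -/
theorem rel_def {n N k : ℕ} {R : (Fin (n + N) → ℕ) → Prop} (hR : Delta0 (n + N) R)
    {v : Fin n → (Fin k → ℕ) → ℕ} (hv : ∀ i, DFun k (v i)) {f : Fin N → (Fin k → ℕ) → ℕ}
    (hf : ∀ i, DFun k (f i)) : Delta0 k (fun w => R (Fin.append (fun i => v i w) fun i => f i w)) := by
  refine (hR.subst (n := k) (h := Fin.append v f) (fun i => ?_)).of_iff fun w => ?_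
  · refine Fin.addCases (fun i => ?_) (fun i => ?_) i
    · rw [Fin.append_left]
      exact hv i
    · rw [Fin.append_right]
      exact hf i
  · refine iff_of_eq (congrArg R ?_)
    funext i
    refine Fin.addCases (fun i => ?_) (fun i => ?_) i
    · rw [Fin.append_left, Fin.append_left]
    · rw [Fin.append_right, Fin.append_right]

theorem MM_def {n r : ℕ} {M : (Fin n → ℕ) → ℕ} (hM : DFun n M) {R : (Fin (n + r * r) → ℕ) → Prop}
    (hR : Delta0 (n + r * r) R) :
    SD M (fun u => (MM R (M u + 1) u : Set (Mat r (M u + 1)))) := by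
  have hd := MD.dec (r := r) hM.weak (DFun.proj 0)
  exact rel_def hR (v := fun i w => w i.succ) (fun i => DFun.proj _) (fun i => hd _ _)

theorem aff_def {n r : ℕ} {M : (Fin n → ℕ) → ℕ} (hM : DFun n M)
    {R : (Fin (n + r * (r + 1)) → ℕ) → Prop} (hR : Delta0 (n + r * (r + 1)) R) :
    SD M (fun u => (aff '' (MM R (M u + 1) u : Set (Matrix (Fin r) (Fin (r + 1))
      (ZMod (M u + 1)))) : Set (Mat (r + 1) (M u + 1)))) := by
  have hd := MD.dec (r := r + 1) hM.weak (DFun.proj 0)
  have h1 := rel_def hR (v := fun i (w : Fin (n + 1) → ℕ) => w i.succ) (fun i => DFun.proj _)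
    (f := fun i w => ((mdec (r + 1) (M (tl w) + 1) (w 0))
      (finProdFinEquiv.symm i).1.castSucc (finProdFinEquiv.symm i).2).val) (fun i => hd _ _)
  have h2 : Delta0 (n + 1) (fun w => ∀ j : Fin (r + 1),
      ((mdec (r + 1) (M (tl w) + 1) (w 0)) (Fin.last r) j).val =
        (if j = Fin.last r then 1 else 0) % (M (tl w) + 1)) :=
    Delta0.allOf fun j => Delta0.eqFun (hd _ _) (DFun.mod (DFun.const _) hM.weak)
  refine (h1.and h2).of_iff fun w => ?_
  refine mem_aff_iff.trans (and_congr Iff.rfl (forall_congr' fun j => ?_))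
  have h3 : (if j = Fin.last r then (1 : ZMod (M (tl w) + 1)) else 0) =
      (((if j = Fin.last r then 1 else 0 : ℕ)) : ZMod (M (tl w) + 1)) := by
    split_ifs <;> simp
  rw [h3, ← ZMod.val_natCast]
  exact (ZMod.val_injective _).eq_iff.symm

theorem aff_unit {r m : ℕ} [Fact m.Prime] {X : Matrix (Fin r) (Fin (r + 1)) (ZMod m)}
    (h : Function.Injective fun u : Fin r → ZMod m =>
      X.mulVec (Fin.snoc u 1 : Fin (r + 1) → ZMod m)) : IsUnit (aff X) := by
  rw [← Matrix.mulVec_injective_iff_isUnit]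
  have h1 : ∀ w, (aff X).mulVec w = 0 → w = 0 := by
    intro w hw
    have h2 : w (Fin.last r) = 0 := by
      have h3 := congrFun hw (Fin.last r)
      rw [Matrix.mulVec] at h3
      simpa [aff, dotProduct, Pi.single_apply] using h3
    have h4 : X.mulVec w = 0 := by
      funext i
      have h3 := congrFun hw i.castSucc
      rw [Matrix.mulVec] at h3
      rw [Matrix.mulVec]
      simpa [aff] using h3
    have h5 : (Fin.snoc (fun i => w i.castSucc) 1 : Fin (r + 1) → ZMod m) =
        w + (Fin.snoc 0 1 : Fin (r + 1) → ZMod m) := by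
      funext i
      refine Fin.lastCases ?_ (fun i => ?_) i
      · rw [Fin.snoc_last, Pi.add_apply, h2, Fin.snoc_last, zero_add]
      · rw [Fin.snoc_castSucc, Pi.add_apply, Fin.snoc_castSucc, Pi.zero_apply, add_zero]
    have h6 : (fun i => w i.castSucc) = (0 : Fin r → ZMod m) := by
      refine h ?_
      show X.mulVec _ = X.mulVec _
      rw [h5, Matrix.mulVec_add, h4, zero_add]
    funext i
    refine Fin.lastCases ?_ (fun i => ?_) i
    · exact h2
    · exact congrFun h6 i
  intro a b hab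
  have h2 := h1 (a - b) (by rw [Matrix.mulVec_sub]; exact sub_eq_zero.2 hab)
  exact sub_eq_zero.1 h2

section Main

variable {n r : ℕ} {p : (Fin n → ℕ) → ℕ} (hp : DFun n p) (hprime : ∀ v, (p v).Prime)

include hp hprime

theorem main_mem {c : ℕ}
    (hc : ∀ (p : ℕ) [Fact p.Prime] (H : Subgroup (GL (Fin r) (ZMod p))), BGen H c)
    {R : (Fin (n + r * r) → ℕ) → Prop} (hR : Delta0 (n + r * r) R) :
    Delta0 (n + r * r) (fun w => ∃ X ∈ Submonoid.closure (MM (k := r) (l := r) R
      (p fun i => w (Fin.castAdd (r * r) i)) fun i => w (Fin.castAdd (r * r) i)),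
      ∀ i, (X (finProdFinEquiv.symm i).1 (finProdFinEquiv.symm i).2).val =
        w (Fin.natAdd n i)) := by
  obtain ⟨M, hM, hpM⟩ := exists_pred hp hprime
  have hp' : ∀ v, (M v + 1).Prime := fun v => hpM v ▸ hprime v
  have hv : ∀ i : Fin n, DFun (n + r * r) (fun w => w (Fin.castAdd (r * r) i)) :=
    fun i => DFun.proj _
  have hM' : DFun (n + r * r) (fun w => M fun i => w (Fin.castAdd (r * r) i)) := hM.comp hv
  have h1 := (monoid_def hc hM hp' (MM_def hM hR)).comp hM hv
  have h2 : Delta0 (n + r * r) (fun w => ∃ X : Mat r ((M fun i => w (Fin.castAdd (r * r) i)) + 1),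
      X ∈ Submonoid.closure (MM R ((M fun i => w (Fin.castAdd (r * r) i)) + 1)
        fun i => w (Fin.castAdd (r * r) i)) ∧
      ∀ i, (X (finProdFinEquiv.symm i).1 (finProdFinEquiv.symm i).2).val =
        w (Fin.natAdd n i)) := by
    refine mex hM' (A := fun w X => X ∈ Submonoid.closure
      (MM R ((M fun i => w (Fin.castAdd (r * r) i)) + 1) fun i => w (Fin.castAdd (r * r) i)) ∧
      ∀ i, (X (finProdFinEquiv.symm i).1 (finProdFinEquiv.symm i).2).val =
        w (Fin.natAdd n i)) ?_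
    exact Delta0.and h1 (Delta0.allOf fun i =>
      Delta0.eqFun (MD.dec hM'.weak (DFun.proj 0) _ _) (DFun.proj _))
  refine h2.of_iff fun w => ?_
  rw [hpM]

theorem main_reach {c : ℕ}
    (hc : ∀ (p : ℕ) [Fact p.Prime] (H : Subgroup (GL (Fin (r + 1)) (ZMod p))), BGen H c)
    {R : (Fin (n + r * (r + 1)) → ℕ) → Prop} (hR : Delta0 (n + r * (r + 1)) R)
    {x y : Fin r → (Fin n → ℕ) → ℕ} (hx : ∀ i, DFun n (x i)) (hy : ∀ i, DFun n (y i)) :
    Delta0 n (fun v => AReach (MM R (p v) v) (fun i => (x i v : ZMod (p v)))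
      (fun i => (y i v : ZMod (p v)))) := by
  obtain ⟨M, hM, hpM⟩ := exists_pred hp hprime
  have hp' : ∀ v, (M v + 1).Prime := fun v => hpM v ▸ hprime v
  have hsn : ∀ x : Fin r → (Fin n → ℕ) → ℕ, (∀ i, DFun n (x i)) → ∀ i,
      DFun n ((Fin.snoc x (fun _ => 1) : Fin (r + 1) → (Fin n → ℕ) → ℕ) i) := by
    intro x hx i
    refine Fin.lastCases ?_ (fun i => ?_) i
    · rw [Fin.snoc_last]
      exact DFun.const 1
    · rw [Fin.snoc_castSucc]
      exact hx i
  have h1 := sreach_def hc hM hp' (aff_def hM hR) (hsn x hx) (hsn y hy)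
  refine h1.of_iff fun v => ?_
  rw [hpM v, areach_iff']
  have e : ∀ x : Fin r → (Fin n → ℕ) → ℕ,
      (Fin.snoc (fun i => (x i v : ZMod (M v + 1))) 1 : Fin (r + 1) → ZMod (M v + 1)) =
      fun i => (((Fin.snoc x (fun _ => 1) : Fin (r + 1) → (Fin n → ℕ) → ℕ) i v : ℕ) :
        ZMod (M v + 1)) := by
    intro x
    funext i
    refine Fin.lastCases ?_ (fun i => ?_) i
    · rw [Fin.snoc_last, Fin.snoc_last, Nat.cast_one]
    · rw [Fin.snoc_castSucc, Fin.snoc_castSucc]
  rw [e x, e y]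

theorem main_card {c : ℕ}
    (hc : ∀ (p : ℕ) [Fact p.Prime] (H : Subgroup (GL (Fin r) (ZMod p))), BGen H c)
    {R : (Fin (n + r * r) → ℕ) → Prop} (hR : Delta0 (n + r * r) R)
    (hU : ∀ v, ∀ X ∈ MM (k := r) (l := r) R (p v) v, IsUnit X) :
    DFun n (fun v => Nat.card (Submonoid.closure (MM (k := r) (l := r) R (p v) v))) := by
  obtain ⟨M, hM, hpM⟩ := exists_pred hp hprime
  have hp' : ∀ v, (M v + 1).Prime := fun v => hpM v ▸ hprime v
  have h1 := card_HH_def hc hM hp' (MM_def hM hR)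
  have e : (fun v => Nat.card (Submonoid.closure (MM (k := r) (l := r) R (p v) v))) =
      fun u => Nat.card (HH (MM (k := r) (l := r) R (M u + 1) u)) := by
    funext v
    have h2 := hU v
    rw [hpM v] at h2 ⊢
    exact card_HH h2
  rw [e]
  exact h1

theorem main_orbit {c : ℕ}
    (hc : ∀ (p : ℕ) [Fact p.Prime] (H : Subgroup (GL (Fin (r + 1)) (ZMod p))), BGen H c)
    {R : (Fin (n + r * (r + 1)) → ℕ) → Prop} (hR : Delta0 (n + r * (r + 1)) R)
    (hU : ∀ v, ∀ X ∈ MM (k := r) (l := r + 1) R (p v) v,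
      Function.Injective fun u : Fin r → ZMod (p v) =>
        X.mulVec (Fin.snoc u 1 : Fin (r + 1) → ZMod (p v)))
    {x : Fin r → (Fin n → ℕ) → ℕ} (hx : ∀ i, DFun n (x i)) :
    DFun n (fun v => Nat.card {y // AReach (MM R (p v) v) (fun i => (x i v : ZMod (p v))) y}) := by
  obtain ⟨M, hM, hpM⟩ := exists_pred hp hprime
  have hp' : ∀ v, (M v + 1).Prime := fun v => hpM v ▸ hprime v
  have hU' : ∀ v, ∀ Y ∈ aff '' (MM (k := r) (l := r + 1) R (M v + 1) v), IsUnit Y := by
    rintro v _ ⟨X, hX, rfl⟩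
    have : Fact (M v + 1).Prime := ⟨hp' v⟩
    have h1 := hU v
    rw [hpM v] at h1
    exact aff_unit (h1 X hX)
  have hsn : ∀ i, DFun n ((Fin.snoc x (fun _ => 1) : Fin (r + 1) → (Fin n → ℕ) → ℕ) i) := by
    intro i
    refine Fin.lastCases ?_ (fun i => ?_) i
    · rw [Fin.snoc_last]
      exact DFun.const 1
    · rw [Fin.snoc_castSucc]
      exact hx i
  have h1 := card_sreach_def hc hM hp' (aff_def hM hR) hU' hsn
  have e : (fun v => Nat.card {y // AReach (MM R (p v) v) (fun i => (x i v : ZMod (p v))) y}) =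
      fun v => Nat.card {y // SReach (aff '' (MM (k := r) (l := r + 1) R (M v + 1) v))
        (fun i => (((Fin.snoc x (fun _ => 1) : Fin (r + 1) → (Fin n → ℕ) → ℕ) i v : ℕ) :
          ZMod (M v + 1))) y} := by
    funext v
    rw [hpM v, card_areach]
    have e : (Fin.snoc (fun i => (x i v : ZMod (M v + 1))) 1 : Fin (r + 1) → ZMod (M v + 1)) =
        fun i => (((Fin.snoc x (fun _ => 1) : Fin (r + 1) → (Fin n → ℕ) → ℕ) i v : ℕ) :
          ZMod (M v + 1)) := by
      funext i
      refine Fin.lastCases ?_ (fun i => ?_) i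
      · rw [Fin.snoc_last, Fin.snoc_last, Nat.cast_one]
      · rw [Fin.snoc_castSucc, Fin.snoc_castSucc]
    rw [e]
  rw [e]
  exact h1

end Main

end Pool.Agent.LRch
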