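import Pool.Agent.LRch.SgA

/-!
# The rank of square matrices over a field is a rank function
-/

set_option autoImplicit false

namespace Pool.Agent.LRch

open Matrix

theorem exists_ginv {K : Type*} [Field K] {r : ℕ} (A : Matrix (Fin r) (Fin r) K) :
    ∃ B : Matrix (Fin r) (Fin r) K, A * B * A = A := by
  obtain ⟨s, hs⟩ := LinearMap.exists_rightInverse_of_surjective (LinearMap.rangeRestrict A.toLin')
    (LinearMap.range_rangeRestrict _)
  obtain ⟨p, hp⟩ := LinearMap.exists_leftInverse_of_injective
    (LinearMap.range A.toLin').subtype (Submodule.ker_subtype _)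
  refine ⟨LinearMap.toMatrix' (s ∘ₗ p), ?_⟩
  apply Matrix.toLin'.injective
  rw [Matrix.toLin'_mul, Matrix.toLin'_mul, Matrix.toLin'_toMatrix']
  ext1 i
  apply LinearMap.ext
  intro v
  simp only [LinearMap.comp_apply]
  have h1 : p (A.toLin' (LinearMap.single K (fun _ => K) i v)) =
      LinearMap.rangeRestrict A.toLin' (LinearMap.single K (fun _ => K) i v) := by
    have := LinearMap.congr_fun hp (LinearMap.rangeRestrict A.toLin'
      (LinearMap.single K (fun _ => K) i v))
    simpa using this
  rw [h1]
  have h2 := LinearMap.congr_fun hs (LinearMap.rangeRestrict A.toLin'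
    (LinearMap.single K (fun _ => K) i v))
  have h3 := congrArg Subtype.val h2
  simpa using h3

theorem exl_matrix {K : Type*} [Field K] {r : ℕ} (x y : Matrix (Fin r) (Fin r) K)
    (h : (x * y).rank = y.rank) : ∃ z : Matrix (Fin r) (Fin r) K, y = z * (x * y) := by
  obtain ⟨g, hg⟩ := exists_ginv (x * y)
  refine ⟨y * g, ?_⟩
  have hle : LinearMap.ker y.mulVecLin ≤ LinearMap.ker (x * y).mulVecLin := by
    intro v hv
    rw [LinearMap.mem_ker, Matrix.mulVecLin_apply] at hv ⊢
    rw [← Matrix.mulVec_mulVec, hv, Matrix.mulVec_zero]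
  have hker : LinearMap.ker y.mulVecLin = LinearMap.ker (x * y).mulVecLin := by
    apply Submodule.eq_of_le_of_finrank_eq hle
    have h1 := LinearMap.finrank_range_add_finrank_ker y.mulVecLin
    have h2 := LinearMap.finrank_range_add_finrank_ker (x * y).mulVecLin
    have h3 : Module.finrank K (LinearMap.range (x * y).mulVecLin) =
        Module.finrank K (LinearMap.range y.mulVecLin) := h
    omega
  have key : ∀ v, y *ᵥ (g *ᵥ ((x * y) *ᵥ v) - v) = 0 := by
    intro v
    have : g *ᵥ ((x * y) *ᵥ v) - v ∈ LinearMap.ker y.mulVecLin := by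
      rw [hker, LinearMap.mem_ker, Matrix.mulVecLin_apply, Matrix.mulVec_sub,
        Matrix.mulVec_mulVec, Matrix.mulVec_mulVec, hg, sub_self]
    simpa [LinearMap.mem_ker] using this
  apply Matrix.toLin'.injective
  apply LinearMap.ext
  intro v
  have hv := key v
  rw [Matrix.mulVec_sub, sub_eq_zero] at hv
  simp only [Matrix.toLin'_apply]
  rw [← hv, Matrix.mulVec_mulVec, Matrix.mulVec_mulVec]

theorem rankFn_matrix_aux (K : Type*) [Field K] (r : ℕ) :
    RankFn (fun A : Matrix (Fin r) (Fin r) K => A.rank) where
  left x y := Matrix.rank_mul_le_left x y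
  right x y := Matrix.rank_mul_le_right x y
  exl x y h := exl_matrix x y h
  exr x y h := by
    obtain ⟨z, hz⟩ := exl_matrix yᵀ xᵀ (by
      rw [← Matrix.transpose_mul, Matrix.rank_transpose, Matrix.rank_transpose]
      exact h)
    refine ⟨zᵀ, ?_⟩
    have := congrArg Matrix.transpose hz
    rw [Matrix.transpose_transpose, Matrix.transpose_mul, Matrix.transpose_mul,
      Matrix.transpose_transpose, Matrix.transpose_transpose] at this
    exact this
  reg x := exists_ginv x

end Pool.Agent.LRch
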