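import Pool.Agent.LRch.SgLn
import Pool.Agent.LRch.SgRk

/-!
# Walks of matrices of rank `k`: bounds from linear algebra

`K` a field, `M = Matrix (Fin r) (Fin r) K`, `rk = Matrix.rank`, `E` a set of matrices of rank `k`.

*`rankFn_matrix`.* `left`, `right`: `Matrix.rank_mul_le_left/right`. `reg`: every linear map `f` has
a generalised inverse `g` (`f g f = f`). `exl`: the rank of `x y` is the rank of `y`, so `x y w = 0`
implies `y w = 0`; with `g` a generalised inverse of `x y`: `x y (g x y - 1) = 0`, so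
`y (g x y - 1) = 0` and `z = y g` works. `exr`: the same for ranges (or transpose).

*`sg_lin`.* Let `ρ X` be the `k`-th tensor power: the matrix with index set `Fin k → Fin r`,
`ρ X I J = ∏ i, X (I i) (J i)`, multiplicative (`Finset.prod_univ_sum`,
`Fintype.piFinset`). For `P Q : M`, `Λ P Q Y = ∑ σ : Perm (Fin k), sign σ * (ρ P * Y * ρ Q) ι (ι ∘ σ)`
(`ι i = Fin.castLE i`) is linear in `Y`, and `Λ P Q (ρ X)` is the determinant of the upper left
`k × k` block of `P * X * Q`. Hence for all `X`: `k ≤ rank X ↔ ∃ P Q, Λ P Q (ρ X) ≠ 0`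
(`→`: `P X Q = diag (1^k, 0)` for some `P, Q`; `←`: rank of a product, of a block).
`L = finrank = (r ^ k) ^ 2`.
`BW`: `V m = span {ρ X | X ∈ pw E m}` is increasing with `V (m+1) = V m + ρ(E) V m`, so it is
constant from the first `m` with `V m = V (m+1)` on, and such an `m ≤ L` exists; if the linear
function `Y ↦ Λ P Q (ρ b * Y * ρ a)` is not zero at `ρ X`, `X ∈ closure E`, it is not zero at some
`ρ Y`, `Y ∈ pw E L`.
`CH`: `dm y = finrank (span {ρ (X * y) | X ∈ closure E})`. Then `dm (x * y) ≤ dm y` for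
`x ∈ closure E`, and in the case of equality the spans are equal, so `ρ y` is a linear combination of
elements `ρ (X * (x * y))`; since `Λ P Q (ρ b * ρ y) ≠ 0` for some `P, Q`, there is an `X` with
`Λ P Q (ρ b * ρ (X * (x * y))) ≠ 0`, so `k ≤ rank (b * X * (x * y))`, and `≤` holds as `rank b = k`.
-/

set_option autoImplicit false

namespace Pool.Agent.LRch

/-- a dimension function for the set of elements reachable from `y` -/
def CH {M : Type*} [Monoid M] (rk : M → ℕ) (k : ℕ) (E : Set M) (L : ℕ) : Prop :=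
  ∃ dm : M → ℕ, (∀ y, dm y ≤ L) ∧ (∀ x ∈ Submonoid.closure E, ∀ y, dm (x * y) ≤ dm y) ∧
    ∀ x ∈ Submonoid.closure E, ∀ y, dm (x * y) = dm y → ∀ b ∈ E, rk (b * y) = k →
      ∃ X ∈ Submonoid.closure E, rk (b * X * (x * y)) = k

theorem rankFn_matrix (K : Type*) [Field K] (r : ℕ) :
    RankFn (fun A : Matrix (Fin r) (Fin r) K => A.rank) :=
  rankFn_matrix_aux K r

theorem sg_lin (r k : ℕ) : ∃ L : ℕ, ∀ (K : Type) [Field K] (E : Set (Matrix (Fin r) (Fin r) K)),
    (∀ a ∈ E, a.rank = k) → BW (fun A => A.rank) k E L ∧ CH (fun A => A.rank) k E L :=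
  sg_lin_aux r k

end Pool.Agent.LRch
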