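import Pool.Agent.LRch.SgC

/-!
# Walks of matrices of rank `k`: bounds from linear algebra

The matrix with index set `Fin k → Fin r`, `tp k X I J = ∏ i, X (I i) (J i)` is the `k`-th tensor
power of `X`; `k ≤ rank X` iff some linear function of `tp k X` from a fixed family is not zero.
-/

set_option autoImplicit false

namespace Pool.Agent.LRch

/-- a chain of submodules in which equality of neighbours propagates is constant from `L` on -/
theorem chain_const {K W : Type*} [Field K] [AddCommGroup W] [Module K W] [FiniteDimensional K W]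
    (V : ℕ → Submodule K W) (h1 : ∀ m, V m ≤ V (m + 1))
    (h2 : ∀ m, V m = V (m + 1) → V (m + 1) = V (m + 2)) (m : ℕ) :
    V m ≤ V (Module.finrank K W) := by
  have hmono : Monotone V := monotone_nat_of_le_succ h1
  by_cases h : ∃ j, j ≤ Module.finrank K W ∧ V j = V (j + 1)
  · obtain ⟨j, hj, h3⟩ := h
    have h4 : ∀ i, V (j + i) = V (j + i + 1) := by
      intro i
      induction i with
      | zero => exact h3
      | succ i ih => exact h2 _ ih
    have h5 : ∀ i, V (j + i) = V j := by
      intro i
      induction i with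
      | zero => rfl
      | succ i ih => rw [← ih, h4 i]; rfl
    rcases le_total m j with h6 | h6
    · exact hmono (h6.trans hj)
    · obtain ⟨i, rfl⟩ := Nat.exists_eq_add_of_le h6
      rw [h5]
      exact hmono hj
  · push Not at h
    have h3 : ∀ i, i ≤ Module.finrank K W + 1 → i ≤ Module.finrank K (V i) := by
      intro i
      induction i with
      | zero => intro _; exact Nat.zero_le _
      | succ i ih =>
        intro hi
        have h4 := ih (by omega)
        have h5 : Module.finrank K (V i) < Module.finrank K (V (i + 1)) :=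
          Submodule.finrank_lt_finrank_of_lt (lt_of_le_of_ne (h1 i) (h i (by omega)))
        omega
    have h4 := h3 (Module.finrank K W + 1) le_rfl
    have h5 := Submodule.finrank_le (V (Module.finrank K W + 1))
    omega

section

variable {K : Type*} [Field K] {r : ℕ} (k : ℕ)

/-- the `k`-th tensor power of a matrix -/
def tp (X : Matrix (Fin r) (Fin r) K) : Matrix (Fin k → Fin r) (Fin k → Fin r) K :=
  Matrix.of fun I J => ∏ i, X (I i) (J i)

theorem tp_mul (X Y : Matrix (Fin r) (Fin r) K) : tp k (X * Y) = tp k X * tp k Y := by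
  ext I J
  simp only [tp, Matrix.of_apply, Matrix.mul_apply]
  rw [Finset.prod_univ_sum, Fintype.piFinset_univ]
  exact Finset.sum_congr rfl fun _ _ => Finset.prod_mul_distrib

/-- the linear functions of the tensor power which detect the rank -/
def lm (P : Matrix (Fin k) (Fin r) K) (Q : Matrix (Fin r) (Fin k) K) :
    Matrix (Fin k → Fin r) (Fin k → Fin r) K →ₗ[K] K where
  toFun Y := ∑ σ : Equiv.Perm (Fin k), ∑ I : Fin k → Fin r, ∑ J : Fin k → Fin r,
    ((Equiv.Perm.sign σ : ℤ) : K) * (∏ i, P (σ i) (I i)) * (∏ i, Q (J i) i) * Y I J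
  map_add' Y Z := by
    simp only [Matrix.add_apply, mul_add, Finset.sum_add_distrib]
  map_smul' c Y := by
    simp only [Matrix.smul_apply, smul_eq_mul, RingHom.id_apply, Finset.mul_sum]
    refine Finset.sum_congr rfl fun _ _ => Finset.sum_congr rfl fun _ _ =>
      Finset.sum_congr rfl fun _ _ => ?_
    ring

theorem lm_tp (P : Matrix (Fin k) (Fin r) K) (Q : Matrix (Fin r) (Fin k) K)
    (X : Matrix (Fin r) (Fin r) K) : lm k P Q (tp k X) = (P * X * Q).det := by
  rw [Matrix.det_apply]
  change ∑ σ : Equiv.Perm (Fin k), _ = _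
  refine Finset.sum_congr rfl fun σ _ => ?_
  have h1 : ∀ i, (P * X * Q) (σ i) i = ∑ x : Fin r × Fin r, P (σ i) x.1 * X x.1 x.2 * Q x.2 i := by
    intro i
    rw [Matrix.mul_apply, Fintype.sum_prod_type_right]
    refine Finset.sum_congr rfl fun b _ => ?_
    rw [Matrix.mul_apply, Finset.sum_mul]
  simp only [h1]
  rw [Finset.prod_univ_sum, Fintype.piFinset_univ]
  have h2 : ∀ f : (Fin k → Fin r × Fin r) → K,
      ∑ x, f x = ∑ I : Fin k → Fin r, ∑ J : Fin k → Fin r, f fun i => (I i, J i) := by
    intro f
    rw [← Fintype.sum_prod_type']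
    exact Fintype.sum_equiv (Equiv.arrowProdEquivProdArrow (Fin k) (fun _ => Fin r) fun _ => Fin r)
      _ _ fun x => rfl
  rw [h2, Finset.smul_sum]
  refine Finset.sum_congr rfl fun I _ => ?_
  rw [Finset.smul_sum]
  refine Finset.sum_congr rfl fun J _ => ?_
  rw [Finset.prod_mul_distrib, Finset.prod_mul_distrib, Units.smul_def, zsmul_eq_mul]
  simp only [tp, Matrix.of_apply]
  ring

theorem rank_iff (X : Matrix (Fin r) (Fin r) K) :
    k ≤ X.rank ↔ ∃ P Q, lm k P Q (tp k X) ≠ 0 := by
  constructor
  · intro h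
    obtain ⟨v, hv⟩ := exists_linearIndependent_of_le_finrank
      (R := K) (M := LinearMap.range X.mulVecLin) (n := k) h
    have h3 : ∀ i, ∃ w : Fin r → K, X.mulVec w = (v i : Fin r → K) := fun i => (v i).2
    choose w hw using h3
    have h4 : Function.Injective (X * (Matrix.of w).transpose).mulVec := by
      rw [Matrix.mulVec_injective_iff]
      have h5 := hv.map' (LinearMap.range X.mulVecLin).subtype (Submodule.ker_subtype _)
      have h7 : (X * (Matrix.of w).transpose).col =
          (LinearMap.range X.mulVecLin).subtype ∘ v := by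
        funext i
        rw [Function.comp_apply, Submodule.subtype_apply, ← hw i]
        rfl
      rw [h7]
      exact h5
    obtain ⟨g, hg⟩ := LinearMap.exists_leftInverse_of_injective
      (X * (Matrix.of w).transpose).mulVecLin (LinearMap.ker_eq_bot.2 h4)
    refine ⟨LinearMap.toMatrix' g, (Matrix.of w).transpose, ?_⟩
    rw [lm_tp, Matrix.mul_assoc]
    have h6 : LinearMap.toMatrix' g * (X * (Matrix.of w).transpose) = 1 := by
      rw [← LinearMap.toMatrix'_id, ← hg, LinearMap.toMatrix'_comp, ← Matrix.toLin'_apply',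
        LinearMap.toMatrix'_toLin']
    rw [h6, Matrix.det_one]
    exact one_ne_zero
  · rintro ⟨P, Q, h⟩
    rw [lm_tp] at h
    have h1 : (P * X * Q).rank = k := by
      rw [Matrix.rank_of_isUnit _ ((Matrix.isUnit_iff_isUnit_det _).2 (isUnit_iff_ne_zero.2 h)),
        Fintype.card_fin]
    rw [← h1]
    exact (Matrix.rank_mul_le_left _ _).trans (Matrix.rank_mul_le_right _ _)

/-- a linear function of the tensor power which is not zero at `b * X * a` -/
theorem exists_lm {b a X : Matrix (Fin r) (Fin r) K} (h : k ≤ (b * X * a).rank)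
    {S : Set (Matrix (Fin r) (Fin r) K)}
    (hX : tp k X ∈ Submodule.span K (tp k '' S)) : ∃ Y ∈ S, k ≤ (b * Y * a).rank := by
  obtain ⟨P, Q, h1⟩ := (rank_iff k _).1 h
  by_contra hcon
  push Not at hcon
  let f : Matrix (Fin k → Fin r) (Fin k → Fin r) K →ₗ[K] K :=
    (lm k P Q).comp ((LinearMap.mulRight K (tp k a)).comp (LinearMap.mulLeft K (tp k b)))
  have h2 : ∀ Y, f (tp k Y) = lm k P Q (tp k (b * Y * a)) := by
    intro Y
    rw [tp_mul, tp_mul]
    rfl
  have h3 : Submodule.span K (tp k '' S) ≤ LinearMap.ker f := by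
    rw [Submodule.span_le]
    rintro _ ⟨Y, hY, rfl⟩
    change f (tp k Y) = 0
    rw [h2]
    by_contra h4
    exact absurd ((rank_iff k _).2 ⟨P, Q, h4⟩) (not_le.2 (hcon Y hY))
  have h4 : f (tp k X) = 0 := h3 hX
  rw [h2] at h4
  exact h1 h4

theorem span_pw (E : Set (Matrix (Fin r) (Fin r) K)) (m : ℕ) :
    Submodule.span K (tp k '' pw E m) ≤ Submodule.span K
      (tp k '' pw E (Module.finrank K (Matrix (Fin k → Fin r) (Fin k → Fin r) K))) := by
  refine chain_const (K := K) (W := Matrix (Fin k → Fin r) (Fin k → Fin r) K)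
    (fun m => Submodule.span K (tp k '' pw E m)) ?_ ?_ m
  · exact fun m => Submodule.span_mono (Set.image_mono (pw_mono E (Nat.le_succ m)))
  · intro m h
    change Submodule.span K (tp k '' pw E m) = Submodule.span K (tp k '' pw E (m + 1)) at h
    refine le_antisymm (Submodule.span_mono (Set.image_mono (pw_mono E (Nat.le_succ _)))) ?_
    rw [Submodule.span_le]
    rintro _ ⟨x, hx | ⟨a, ha, y, hy, rfl⟩, rfl⟩
    · exact Submodule.subset_span ⟨x, hx, rfl⟩
    · have h1 : tp k y ∈ Submodule.span K (tp k '' pw E m) := by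
        rw [h]
        exact Submodule.subset_span ⟨y, hy, rfl⟩
      have h2 : Submodule.span K (tp k '' pw E m) ≤
          (Submodule.span K (tp k '' pw E (m + 1))).comap (LinearMap.mulLeft K (tp k a)) := by
        rw [Submodule.span_le]
        rintro _ ⟨z, hz, rfl⟩
        refine Submodule.subset_span ⟨a * z, mul_mem_pw_one ha hz, ?_⟩
        rw [tp_mul]
        rfl
      rw [tp_mul]
      exact h2 h1

/-- `BW` and the dimension function -/
theorem sg_lin_aux (r k : ℕ) : ∃ L : ℕ, ∀ (K : Type) [Field K]
    (E : Set (Matrix (Fin r) (Fin r) K)), (∀ a ∈ E, a.rank = k) →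
    BW (fun A => A.rank) k E L ∧
    ∃ dm : Matrix (Fin r) (Fin r) K → ℕ, (∀ y, dm y ≤ L) ∧
      (∀ x ∈ Submonoid.closure E, ∀ y, dm (x * y) ≤ dm y) ∧
      ∀ x ∈ Submonoid.closure E, ∀ y, dm (x * y) = dm y → ∀ b ∈ E, (b * y).rank = k →
        ∃ X ∈ Submonoid.closure E, (b * X * (x * y)).rank = k := by
  refine ⟨Fintype.card (Fin k → Fin r) * Fintype.card (Fin k → Fin r), fun K _ E hE => ?_⟩
  have hL : Module.finrank K (Matrix (Fin k → Fin r) (Fin k → Fin r) K) =
      Fintype.card (Fin k → Fin r) * Fintype.card (Fin k → Fin r) := by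
    rw [Module.finrank_matrix, Module.finrank_self, mul_one]
  constructor
  · intro a ha b hb X hX h
    obtain ⟨m, hm⟩ := exists_pw_of_mem_closure hX
    have h1 : tp k X ∈ Submodule.span K (tp k '' pw E
        (Fintype.card (Fin k → Fin r) * Fintype.card (Fin k → Fin r))) := by
      rw [← hL]
      exact span_pw k E m (Submodule.subset_span ⟨X, hm, rfl⟩)
    obtain ⟨Y, hY, h2⟩ := exists_lm k (b := b) (a := a) (X := X) (le_of_eq h.symm) h1
    refine ⟨Y, hY, le_antisymm ?_ h2⟩
    exact ((Matrix.rank_mul_le_right _ _).trans (hE a ha).le)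
  · refine ⟨fun y => Module.finrank K (Submodule.span K
      ((fun X => tp k (X * y)) '' (Submonoid.closure E : Set (Matrix (Fin r) (Fin r) K)))),
      fun y => ?_, fun x hx y => ?_, fun x hx y h b hb hby => ?_⟩
    · rw [← hL]
      exact Submodule.finrank_le _
    · refine Submodule.finrank_mono (Submodule.span_mono ?_)
      rintro _ ⟨X, hX, rfl⟩
      exact ⟨X * x, mul_mem hX hx, by simp only [mul_assoc]⟩
    · have h1 : Submodule.span K ((fun X => tp k (X * (x * y))) ''
          (Submonoid.closure E : Set (Matrix (Fin r) (Fin r) K))) ≤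
          Submodule.span K ((fun X => tp k (X * y)) ''
          (Submonoid.closure E : Set (Matrix (Fin r) (Fin r) K))) := by
        refine Submodule.span_mono ?_
        rintro _ ⟨X, hX, rfl⟩
        exact ⟨X * x, mul_mem hX hx, by simp only [mul_assoc]⟩
      have h2 := Submodule.eq_of_le_of_finrank_eq h1 h
      have h3 : tp k y ∈ Submodule.span K (tp k '' {z | ∃ X ∈ Submonoid.closure E,
          z = X * (x * y)}) := by
        have h4 : tp k y ∈ Submodule.span K ((fun X => tp k (X * y)) ''
            (Submonoid.closure E : Set (Matrix (Fin r) (Fin r) K))) :=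
          Submodule.subset_span ⟨1, one_mem _, by simp only [one_mul]⟩
        rw [← h2] at h4
        refine Submodule.span_mono ?_ h4
        rintro _ ⟨X, hX, rfl⟩
        exact ⟨X * (x * y), ⟨X, hX, rfl⟩, rfl⟩
      obtain ⟨_, ⟨X, hX, rfl⟩, h5⟩ := exists_lm k (b := b) (a := 1) (X := y)
        (by rw [mul_one, hby]) h3
      refine ⟨X, hX, le_antisymm ?_ ?_⟩
      · exact ((Matrix.rank_mul_le_left _ _).trans (Matrix.rank_mul_le_left _ _)).trans (hE b hb).le
      · rw [mul_one, ← mul_assoc] at h5
        exact h5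

end

end Pool.Agent.LRch
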