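import Pool.Agent.LRch.UCardA
import Pool.Agent.ECD.PcFin

/-!
# The orders of definable subgroups with unique factorisations

The same as `GFam.card_sub` (`ECD/PcFin.lean`) with `SylUB` instead of `SylPC`.
-/

set_option autoImplicit false

namespace Pool.Agent.LRch

open Finset Pool.Agent.Grz Pool.Agent.GAvg Pool.Agent.PTr Pool.Agent.MTr Pool.Agent.LPC
open Pool.Agent.ECD

theorem cmu_iff {G : Type*} [Group G] [Finite G] (H : Subgroup G) (R y N : ℕ)
    (hN : Nat.card G ≤ N) : CMU H R y ↔ ¬ ∃ (g : Fin R → G) (m : Fin R → ℕ),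
      (∀ k, m k ≤ N) ∧ (∀ k, g k ∈ H) ∧ UDat (ECD.ext 1 g) (ECD.ext 0 m) R ∧ ¬ ∏ k, m k ∣ y := by
  have key : ∀ (g : ℕ → G) (m : ℕ → ℕ), UDat g m R ↔
      UDat (ECD.ext 1 fun k : Fin R => g k) (ECD.ext 0 fun k : Fin R => m k) R := fun g m =>
    udat_congr (fun j hj => by rw [ECD.ext, dif_pos hj]) (fun j hj => by rw [ECD.ext, dif_pos hj])
  constructor
  · rintro h ⟨g, m, -, h1, h2, h3⟩
    refine h3 ?_
    have h4 := h (ECD.ext 1 g) (ECD.ext 0 m) (fun j hj => by rw [ECD.ext, dif_pos hj]; exact h1 _) h2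
    rw [Finset.prod_range] at h4
    convert h4 using 2 with k
    rw [ECD.ext, dif_pos k.2]
  · intro h g m hg hm
    by_contra h1
    refine h ⟨fun k => g k, fun k => m k, fun k => (ud_bound hm.1 k k.2).trans hN,
      fun k => hg k k.2, (key g m).1 hm, ?_⟩
    rwa [← Finset.prod_range]

variable {r : ℕ} (Φ : GFam r)

theorem ud_def {n : ℕ} {σ : Fin r → (Fin n → ℕ) → ℕ}
    (hσ : ∀ i, DFun n (σ i)) {g : ℕ → ∀ u : Fin n → ℕ, Φ.G (fun i => σ i u)}
    {m : ℕ → (Fin n → ℕ) → ℕ} (hg : ∀ j, DFun n (fun u => Φ.enc _ (g j u)))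
    (hm : ∀ j, DFun n (m j)) (i : ℕ) :
    Delta0 n (fun u => UD (fun j => g j u) (fun j => m j u) i) := by
  have hσ1 : ∀ i, DFun (n + 1) (fun w : Fin (n + 1) → ℕ => σ i (fun j => w j.succ)) :=
    fun i => (hσ i).weak
  have hσ2 : ∀ i, DFun (n + 1 + 1) (fun w : Fin (n + 1 + 1) → ℕ =>
    σ i (fun j => w j.succ.succ)) := fun i => (hσ i).weak.weak
  have hσ3 : ∀ i, DFun (n + 1 + 1 + 1) (fun w : Fin (n + 1 + 1 + 1) → ℕ =>
    σ i (fun j => w j.succ.succ.succ)) := fun i => (hσ i).weak.weak.weak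
  induction i with
  | zero => exact (Delta0.eqFun (DFun.const 0) (DFun.const 0)).of_iff fun u => by simp [UD]
  | succ i ih =>
    have h1 : Delta0 n (fun u => 0 < m i u) := Delta0.ltFun (DFun.const 0) (hm i)
    have h4 : Delta0 n (fun u => ∀ x, ∀ k, k ≤ m i u → (k < m i u → ∀ k', k' ≤ m i u →
        (k' < m i u → PM (fun j => g j u) (fun j => m j u) i (x * (g i u ^ k)⁻¹) →
          PM (fun j => g j u) (fun j => m j u) i (x * (g i u ^ k')⁻¹) → k = k'))) := by
      -- variables: `w 0 = k'`, `w 1 = k`, `w 2` the code of `x`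
      have h5 : ∀ e : (Fin (n + 1 + 1 + 1) → ℕ) → ℕ, DFun (n + 1 + 1 + 1) e →
          Delta0 (n + 1 + 1 + 1) (fun w => PM (fun j => g j (fun j => w j.succ.succ.succ))
          (fun j => m j (fun j => w j.succ.succ.succ)) i
            (Φ.dec (fun i => σ i (fun j => w j.succ.succ.succ)) (w 2) *
              (g i (fun j => w j.succ.succ.succ) ^ e w)⁻¹)) := fun e he =>
        Φ.pm_def i (σ := fun i w => σ i (fun j => w j.succ.succ.succ)) hσ3
        (g := fun j w => g j (fun j => w j.succ.succ.succ))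
        (m := fun j w => m j (fun j => w j.succ.succ.succ))
        (fun j => (hg j).weak.weak.weak) (fun j => (hm j).weak.weak.weak)
        (Φ.gmul hσ3 (Φ.gdec hσ3 (DFun.proj 2)) (Φ.ginv hσ3 (Φ.gpow hσ3
          (g := fun w => g i (fun j => w j.succ.succ.succ)) (hg i).weak.weak.weak he)))
      refine Φ.gall hσ (A := fun u x => ∀ k, k ≤ m i u → (k < m i u → ∀ k', k' ≤ m i u →
        (k' < m i u → PM (fun j => g j u) (fun j => m j u) i (x * (g i u ^ k)⁻¹) →
          PM (fun j => g j u) (fun j => m j u) i (x * (g i u ^ k')⁻¹) → k = k'))) ?_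
      refine Delta0.ballFun (P := fun k w => k < m i (fun j => w j.succ) → ∀ k',
        k' ≤ m i (fun j => w j.succ) → (k' < m i (fun j => w j.succ) →
          PM (fun j => g j (fun j => w j.succ)) (fun j => m j (fun j => w j.succ)) i
            (Φ.dec (fun i => σ i (fun j => w j.succ)) (w 0) *
              (g i (fun j => w j.succ) ^ k)⁻¹) →
          PM (fun j => g j (fun j => w j.succ)) (fun j => m j (fun j => w j.succ)) i
            (Φ.dec (fun i => σ i (fun j => w j.succ)) (w 0) *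
              (g i (fun j => w j.succ) ^ k')⁻¹) → k = k')) (hm i).weak ?_
      refine (Delta0.ltFun (DFun.proj 0) (hm i).weak.weak).imp ?_
      refine Delta0.ballFun (P := fun k' w => (k' < m i (fun j => w j.succ.succ) →
          PM (fun j => g j (fun j => w j.succ.succ)) (fun j => m j (fun j => w j.succ.succ)) i
            (Φ.dec (fun i => σ i (fun j => w j.succ.succ)) (w 1) *
              (g i (fun j => w j.succ.succ) ^ w 0)⁻¹) →
          PM (fun j => g j (fun j => w j.succ.succ)) (fun j => m j (fun j => w j.succ.succ)) i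
            (Φ.dec (fun i => σ i (fun j => w j.succ.succ)) (w 1) *
              (g i (fun j => w j.succ.succ) ^ k')⁻¹) → w 0 = k')) (hm i).weak.weak ?_
      exact (Delta0.ltFun (DFun.proj 0) (hm i).weak.weak.weak).imp
        ((h5 _ (DFun.proj 1)).imp ((h5 _ (DFun.proj 0)).imp
          (Delta0.eqFun (DFun.proj 1) (DFun.proj 0))))
    refine (ih.and (h1.and h4)).of_iff fun u => ?_
    show _ ∧ _ ∧ _ ↔ _
    constructor
    · rintro ⟨a1, a2, a3⟩
      exact ⟨a1, a2, fun x k _ hk k' _ hk' b1 b2 => a3 x k hk k' hk' b1 b2⟩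
    · rintro ⟨a1, a2, a3⟩
      exact ⟨a1, a2, fun x k hk k' hk' b1 b2 => a3 x k hk.le hk k' hk'.le hk' b1 b2⟩

theorem udat_def {n : ℕ} {σ : Fin r → (Fin n → ℕ) → ℕ}
    (hσ : ∀ i, DFun n (σ i)) {g : ℕ → ∀ u : Fin n → ℕ, Φ.G (fun i => σ i u)}
    {m : ℕ → (Fin n → ℕ) → ℕ} (hg : ∀ j, DFun n (fun u => Φ.enc _ (g j u)))
    (hm : ∀ j, DFun n (m j)) (i : ℕ) :
    Delta0 n (fun u => UDat (fun j => g j u) (fun j => m j u) i) := by
  have hσ1 : ∀ i, DFun (n + 1) (fun w : Fin (n + 1) → ℕ => σ i (fun j => w j.succ)) :=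
    fun i => (hσ i).weak
  have hσ2 : ∀ i, DFun (n + 1 + 1) (fun w : Fin (n + 1 + 1) → ℕ =>
    σ i (fun j => w j.succ.succ)) := fun i => (hσ i).weak.weak
  have h5 : ∀ X : ∀ w : Fin (n + 1 + 1) → ℕ, Φ.G (fun i => σ i (fun j => w j.succ.succ)),
      DFun (n + 1 + 1) (fun w => Φ.enc _ (X w)) →
      Delta0 (n + 1 + 1) (fun w => PM (fun j => g j (fun j => w j.succ.succ))
        (fun j => m j (fun j => w j.succ.succ)) i (X w)) := fun X hX =>
    Φ.pm_def i (σ := fun i w => σ i (fun j => w j.succ.succ)) hσ2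
      (g := fun j w => g j (fun j => w j.succ.succ))
      (m := fun j w => m j (fun j => w j.succ.succ))
      (fun j => (hg j).weak.weak) (fun j => (hm j).weak.weak) hX
  have h6 : Delta0 (n + 1) (fun w => PM (fun j => g j (fun j => w j.succ))
      (fun j => m j (fun j => w j.succ)) i (Φ.dec (fun i => σ i (fun j => w j.succ)) (w 0))) :=
    Φ.pm_def i (σ := fun i w => σ i (fun j => w j.succ)) hσ1
      (g := fun j w => g j (fun j => w j.succ)) (m := fun j w => m j (fun j => w j.succ))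
      (fun j => (hg j).weak) (fun j => (hm j).weak) (Φ.gdec hσ1 (DFun.proj 0))
  refine (ud_def Φ hσ hg hm i).and ?_
  refine Φ.gall hσ (A := fun u x => PM (fun j => g j u) (fun j => m j u) i x → ∀ y,
    PM (fun j => g j u) (fun j => m j u) i y → PM (fun j => g j u) (fun j => m j u) i (x * y)) ?_
  refine h6.imp ?_
  refine Φ.gall hσ1 (A := fun w y =>
    PM (fun j => g j (fun j => w j.succ)) (fun j => m j (fun j => w j.succ)) i y →
    PM (fun j => g j (fun j => w j.succ)) (fun j => m j (fun j => w j.succ)) i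
      (Φ.dec (fun i => σ i (fun j => w j.succ)) (w 0) * y)) ?_
  exact (h5 _ (Φ.gdec hσ2 (DFun.proj 0))).imp
    (h5 _ (Φ.gmul hσ2 (Φ.gdec hσ2 (DFun.proj 1)) (Φ.gdec hσ2 (DFun.proj 0))))

theorem cmu_def {n : ℕ} {σ : Fin r → (Fin n → ℕ) → ℕ} (hσ : ∀ i, DFun n (σ i))
    {H : ∀ u : Fin n → ℕ, Subgroup (Φ.G (fun i => σ i u))}
    (hH : Delta0 (n + 1) (fun w => Φ.dec (fun i => σ i (fun j => w j.succ)) (w 0) ∈
      H (fun j => w j.succ))) (R : ℕ) {y : (Fin n → ℕ) → ℕ} (hy : DFun n y) :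
    Delta0 n (fun u => CMU (H u) R (y u)) := by
  have hN : DFun n (fun u => Φ.N (fun i => σ i u) + 1) := (Φ.hN.comp hσ).add (DFun.const 1)
  -- the matrix
  have hB : ∀ (k : ℕ) (z μ : Fin R → (Fin k → ℕ) → ℕ) (v : Fin n → (Fin k → ℕ) → ℕ),
      (∀ i, DFun k (z i)) → (∀ i, DFun k (μ i)) → (∀ i, DFun k (v i)) →
      Delta0 k (fun w => (∀ i, Φ.dec (fun i => σ i (fun j => v j w)) (z i w) ∈
          H (fun j => v j w)) ∧
        (UDat (ECD.ext 1 fun i : Fin R => Φ.dec (fun i => σ i (fun j => v j w)) (z i w))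
          (ECD.ext 0 fun i => μ i w) R ∧ ¬ ∏ i, μ i w ∣ y (fun j => v j w))) := by
    intro k z μ v hz hμ hv
    have hσ' : ∀ i, DFun k (fun w => σ i (fun j => v j w)) := fun i => (hσ i).comp hv
    refine (Delta0.allOf fun i => ?_).and (Delta0.and ?_ ?_)
    · have := hH.subst (n := k) (h := Fin.cons (z i) v) (fun j => by
        refine Fin.cases ?_ (fun j => ?_) j
        · exact hz i
        · exact hv j)
      exact this
    · have h1 := udat_def Φ (n := k) (σ := fun i w => σ i (fun j => v j w)) hσ'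
        (g := ECD.ext (fun w => 1) fun (i : Fin R) w =>
          Φ.dec (fun i => σ i (fun j => v j w)) (z i w)) (m := ECD.ext (fun _ => 0) μ)
        (fun j => by
          by_cases hj : j < R
          · simp only [ECD.ext, dif_pos hj]
            exact Φ.gdec hσ' (hz _)
          · simp only [ECD.ext, dif_neg hj]
            exact Φ.gone hσ') (fun j => by
          by_cases hj : j < R
          · simp only [ECD.ext, dif_pos hj]
            exact hμ _
          · simp only [ECD.ext, dif_neg hj]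
            exact DFun.const 0) R
      refine h1.of_iff fun w => ?_
      have e1 : (fun j => (ECD.ext (fun w => 1) (fun (i : Fin R) w =>
          Φ.dec (fun i => σ i (fun j => v j w)) (z i w)) : ℕ → ∀ w : Fin k → ℕ,
            Φ.G (fun i => σ i (fun j => v j w))) j w) =
          ECD.ext 1 fun i : Fin R => Φ.dec (fun i => σ i (fun j => v j w)) (z i w) := by
        funext j
        by_cases hj : j < R
        · simp only [ECD.ext, dif_pos hj]
        · simp only [ECD.ext, dif_neg hj]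
      have e2 : (fun j => (ECD.ext (fun _ => 0) μ : ℕ → (Fin k → ℕ) → ℕ) j w) =
          ECD.ext 0 fun i => μ i w := by
        funext j
        by_cases hj : j < R
        · simp only [ECD.ext, dif_pos hj]
        · simp only [ECD.ext, dif_neg hj]
      rw [e1, e2]
    · exact (delta_dvd (dfun_finProd _ hμ) (hy.comp hv)).not
  have hC : Delta0 n (fun u => ∃ z : Fin R → ℕ, (∀ k, z k ≤ Φ.N (fun i => σ i u) + 1) ∧
      ∃ μ : Fin R → ℕ, (∀ k, μ k ≤ Φ.N (fun i => σ i u) + 1) ∧
        ((∀ i, Φ.dec (fun i => σ i u) (z i) ∈ H u) ∧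
        (UDat (ECD.ext 1 fun i : Fin R => Φ.dec (fun i => σ i u) (z i)) (ECD.ext 0 μ) R ∧
          ¬ ∏ i, μ i ∣ y u))) := by
    refine Delta0.bexVec (D := R) (b := fun u => Φ.N (fun i => σ i u) + 1) hN
      (P := fun z u => ∃ μ : Fin R → ℕ, (∀ k, μ k ≤ Φ.N (fun i => σ i u) + 1) ∧
        ((∀ i, Φ.dec (fun i => σ i u) (z i) ∈ H u) ∧
        (UDat (ECD.ext 1 fun i : Fin R => Φ.dec (fun i => σ i u) (z i)) (ECD.ext 0 μ) R ∧
          ¬ ∏ i, μ i ∣ y u))) ?_
    intro m z v hz hv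
    refine Delta0.bexVec (D := R) (b := fun w => Φ.N (fun i => σ i (fun j => v j w)) + 1)
      (hN.comp hv) (P := fun μ w =>
        ((∀ i, Φ.dec (fun i => σ i (fun j => v j w)) (z i w) ∈ H (fun j => v j w)) ∧
        (UDat (ECD.ext 1 fun i : Fin R => Φ.dec (fun i => σ i (fun j => v j w)) (z i w))
          (ECD.ext 0 μ) R ∧ ¬ ∏ i, μ i ∣ y (fun j => v j w)))) ?_
    intro k μ v' hμ hv'
    exact hB k (fun i w => z i (fun j => v' j w)) μ (fun i w => v i (fun j => v' j w))
      (fun i => (hz i).comp hv') hμ (fun i => (hv i).comp hv')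
  refine hC.not.of_iff fun u => ?_
  rw [cmu_iff (H u) R (y u) (Φ.N (fun i => σ i u) + 1) (Φ.card_le _)]
  refine not_congr ⟨?_, ?_⟩
  · rintro ⟨g, m, h1, h2, h3, h4⟩
    have e : ∀ i, Φ.dec (fun i => σ i u) (Φ.enc _ (g i)) = g i := fun i => Φ.dec_enc _ _
    refine ⟨fun i => Φ.enc _ (g i), fun i => (Φ.bd _ _).trans (Nat.le_succ _), m, h1, ?_, ?_, h4⟩
    · intro i
      rw [e]
      exact h2 i
    · have e' : (fun i : Fin R => Φ.dec (fun i => σ i u) (Φ.enc _ (g i))) = g := funext e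
      rw [e']
      exact h3
  · rintro ⟨z, -, m, h1, h2, h3, h4⟩
    exact ⟨_, m, h1, h2, h3, h4⟩

/-- the orders of definable subgroups -/
theorem card_subU {n : ℕ} {σ : Fin r → (Fin n → ℕ) → ℕ} (hσ : ∀ i, DFun n (σ i))
    {H : ∀ u : Fin n → ℕ, Subgroup (Φ.G (fun i => σ i u))}
    (hH : Delta0 (n + 1) (fun w => Φ.dec (fun i => σ i (fun j => w j.succ)) (w 0) ∈
      H (fun j => w j.succ))) (R : ℕ) (hR : ∀ u, SylUB (H u) R) :
    DFun n (fun u => Nat.card (H u)) := by
  have hσ1 : ∀ i, DFun (n + 1) (fun w : Fin (n + 1) → ℕ => σ i (fun j => w j.succ)) :=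
    fun i => (hσ i).weak
  have hσ2 : ∀ i, DFun (n + 1 + 1) (fun w : Fin (n + 1 + 1) → ℕ =>
    σ i (fun j => w j.succ.succ)) := fun i => (hσ i).weak.weak
  have hH1 : Delta0 (n + 1 + 1) (fun w => Φ.dec (fun i => σ i (fun j => w j.succ.succ)) (w 0) ∈
      H (fun j => w j.succ.succ)) :=
    hH.rename (n := n + 1 + 1) (Fin.cons 0 (fun j => j.succ.succ))
  have hH2 : Delta0 (n + 1 + 1 + 1) (fun w =>
      Φ.dec (fun i => σ i (fun j => w j.succ.succ.succ)) (w 0) ∈
      H (fun j => w j.succ.succ.succ)) :=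
    hH.rename (n := n + 1 + 1 + 1) (Fin.cons 0 (fun j => j.succ.succ.succ))
  have h1 : Delta0 (n + 1) (fun w => CMU (H (fun j => w j.succ)) R (w 0)) :=
    cmu_def Φ (σ := fun i w => σ i (fun j => w j.succ)) hσ1 (H := fun w => H fun j => w j.succ)
      hH1 R (DFun.proj 0)
  have h2 : Delta0 (n + 1 + 1) (fun w => CMU (H (fun j => w j.succ.succ)) R (w 0)) :=
    cmu_def Φ (σ := fun i w => σ i (fun j => w j.succ.succ)) hσ2
      (H := fun w => H fun j => w j.succ.succ) hH2 R (DFun.proj 0)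
  refine DFun.ofGraph (b := fun u => Φ.N (fun i => σ i u) + 1)
    ((Φ.hN.comp hσ).add (DFun.const 1)) (fun u => ?_)
    ((((Delta0.ltFun (DFun.const 0) (DFun.proj 0)).and h1).and
      (Delta0.ballFun (P := fun y' w => y' < w 0 → 0 < y' → ¬ CMU (H (fun j => w j.succ)) R y')
        (DFun.proj 0) ((Delta0.ltFun (DFun.proj 0) (DFun.proj 1)).imp
          ((Delta0.ltFun (DFun.const 0) (DFun.proj 0)).imp h2.not)))).of_iff fun w =>
            cardU_iff (hR fun j => w j.succ) (w 0))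
  exact (Nat.card_le_card_of_injective _ Subtype.val_injective).trans (Φ.card_le _)

end Pool.Agent.LRch
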