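import Pool.Agent.LRch.SgFinal
import Pool.Agent.LRch.UCard

/-!
# Invertible matrices over `ℤ/m`

`m v = M v + 1` is a family of moduli such that all subgroups of `GL_r(ℤ/m v)` are products of at
most `c` cyclic groups (and for the orders: have Sylow subgroups with unique factorisations).
-/

set_option autoImplicit false

namespace Pool.Agent.LRch

open Finset Pool.Agent.Grz Pool.Agent.GAvg Pool.Agent.PTr Pool.Agent.MTr Pool.Agent.LPC
open Pool.Agent.ECD

section Ctx

variable {r c : ℕ}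

/-- the code of the decoded element -/
theorem gdec_def {n : ℕ} {M : (Fin n → ℕ) → ℕ} (hM : DFun n M) :
    DFun (n + 1) (fun w => (glG r).enc (fun _ : Fin 1 => M (tl w))
      ((glG r).dec (fun _ : Fin 1 => M (tl w)) (w 0))) :=
  (glG r).gdec (σ := fun _ w => M (tl w)) (fun _ => hM.weak) (DFun.proj 0)

theorem gmat_def {n : ℕ} {M : (Fin n → ℕ) → ℕ} (hM : DFun n M) :
    MD (fun w : Fin (n + 1) → ℕ => M (tl w)) (fun w =>
      gmat (r := r) ((glG r).dec (fun _ : Fin 1 => M (tl w)) (w 0))) :=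
  fun i j => gl_entry hM.weak (gdec_def hM) i j

theorem HH_defB {n : ℕ} {M : (Fin n → ℕ) → ℕ} (hM : DFun n M)
    (hB : ∀ u (H : Subgroup (GL (Fin r) (ZMod (M u + 1)))), BGen H c)
    {S : ∀ u : Fin n → ℕ, Set (Mat r (M u + 1))} (hS : SD M S)
    {A : ∀ u : Fin n → ℕ, GL (Fin r) (ZMod (M u + 1))}
    (hA : DFun n (fun u => (glG r).enc (fun _ : Fin 1 => M u) (A u))) :
    Delta0 n (fun u => A u ∈ HH (S u)) :=
  closure_def (glG r) c (σ := fun _ u => M u) (fun _ => hM)
    (S := fun u => {g : GL (Fin r) (ZMod (M u + 1)) | gmat g ∈ S u})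
    ((hS.weak hM).mem hM.weak (gmat_def hM)) (fun u => hB u _) hA

/-- **Groups generated by definable families of invertible matrices.** -/
theorem grp_def {n : ℕ} {M : (Fin n → ℕ) → ℕ} (hM : DFun n M)
    (hB : ∀ u (H : Subgroup (GL (Fin r) (ZMod (M u + 1)))), BGen H c)
    {S : ∀ u : Fin n → ℕ, Set (Mat r (M u + 1))} (hS : SD M S)
    (hU : ∀ u, ∀ X ∈ S u, IsUnit X) :
    SD M (fun u => (Submonoid.closure (S u) : Set (Mat r (M u + 1)))) := by
  have h1 : Delta0 (n + 1) (fun w => ∃ g : GL (Fin r) (ZMod (M (tl w) + 1)),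
      g ∈ HH (S (tl w)) ∧ gmat g = mdec r (M (tl w) + 1) (w 0)) := by
    refine (glG r).gex (σ := fun _ w => M (tl w)) (fun _ => hM.weak)
      (A := fun w (g : GL (Fin r) (ZMod (M (tl w) + 1))) =>
        g ∈ HH (S (tl w)) ∧ gmat g = mdec r (M (tl w) + 1) (w 0)) ?_
    exact (HH_defB hM.weak.weak (fun u => hB _) ((hS.weak hM).weak hM.weak)
      (gdec_def hM.weak)).and ((gmat_def hM.weak).eq (MD.dec hM.weak (DFun.proj 0)).weak)
  exact h1.of_iff fun w => mem_HH_iff (hU _)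

theorem sreach_defB {n : ℕ} {M : (Fin n → ℕ) → ℕ} (hM : DFun n M)
    (hB : ∀ u (H : Subgroup (GL (Fin r) (ZMod (M u + 1)))), BGen H c)
    {S : ∀ u : Fin n → ℕ, Set (Mat r (M u + 1))} (hS : SD M S)
    (hU : ∀ u, ∀ X ∈ S u, IsUnit X)
    {x y : Fin r → (Fin n → ℕ) → ℕ} (hx : ∀ i, DFun n (x i)) (hy : ∀ i, DFun n (y i)) :
    Delta0 n (fun u => SReach (S u) (fun i => (x i u : ZMod (M u + 1)))
      (fun i => (y i u : ZMod (M u + 1)))) := by
  have h1 : Delta0 n (fun u => ∃ X : Mat r (M u + 1), X ∈ Submonoid.closure (S u) ∧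
      (fun i => (y i u : ZMod (M u + 1))) = X.mulVec fun i => (x i u : ZMod (M u + 1))) := by
    refine mex hM (A := fun u X => X ∈ Submonoid.closure (S u) ∧
      (fun i => (y i u : ZMod (M u + 1))) = X.mulVec fun i => (x i u : ZMod (M u + 1))) ?_
    exact Delta0.and (grp_def hM hB hS hU) (MD.mulVec hM.weak (MD.dec hM.weak (DFun.proj 0))
      (fun i => (hx i).weak) (fun i => (hy i).weak))
  exact h1.of_iff fun u => sreach_iff

theorem card_HH_defB {n : ℕ} {M : (Fin n → ℕ) → ℕ} (hM : DFun n M)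
    (hB : ∀ u (H : Subgroup (GL (Fin r) (ZMod (M u + 1)))), BGen H c) {Q : ℕ}
    (hQ : ∀ u (H : Subgroup (GL (Fin r) (ZMod (M u + 1)))), SylUB H Q)
    {S : ∀ u : Fin n → ℕ, Set (Mat r (M u + 1))} (hS : SD M S) :
    DFun n (fun u => Nat.card (HH (S u))) :=
  card_subU (glG r) (σ := fun _ u => M u) (fun _ => hM) (H := fun u => HH (S u))
    (HH_defB hM.weak (fun u => hB _) (hS.weak hM) (gdec_def hM)) Q (fun u => hQ u _)

theorem card_ST_defB {n : ℕ} {M : (Fin n → ℕ) → ℕ} (hM : DFun n M)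
    (hB : ∀ u (H : Subgroup (GL (Fin r) (ZMod (M u + 1)))), BGen H c) {Q : ℕ}
    (hQ : ∀ u (H : Subgroup (GL (Fin r) (ZMod (M u + 1)))), SylUB H Q)
    {S : ∀ u : Fin n → ℕ, Set (Mat r (M u + 1))} (hS : SD M S)
    {x : Fin r → (Fin n → ℕ) → ℕ} (hx : ∀ i, DFun n (x i)) :
    DFun n (fun u => Nat.card (ST (S u) fun i => (x i u : ZMod (M u + 1)))) := by
  refine card_subU (glG r) (σ := fun _ u => M u) (fun _ => hM)
    (H := fun u => ST (S u) fun i => (x i u : ZMod (M u + 1))) ?_ Q (fun u => hQ u _)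
  have h4 := MD.mulVec hM.weak (gmat_def hM) (fun i => (hx i).weak) (fun i => (hx i).weak)
  refine ((HH_defB hM.weak (fun u => hB _) (hS.weak hM) (gdec_def hM)).and h4).of_iff fun w => ?_
  exact mem_ST.trans (and_congr_right fun _ => eq_comm)

theorem card_sreach_defB {n : ℕ} {M : (Fin n → ℕ) → ℕ} (hM : DFun n M)
    (hB : ∀ u (H : Subgroup (GL (Fin r) (ZMod (M u + 1)))), BGen H c) {Q : ℕ}
    (hQ : ∀ u (H : Subgroup (GL (Fin r) (ZMod (M u + 1)))), SylUB H Q)
    {S : ∀ u : Fin n → ℕ, Set (Mat r (M u + 1))} (hS : SD M S)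
    (hU : ∀ u, ∀ X ∈ S u, IsUnit X)
    {x : Fin r → (Fin n → ℕ) → ℕ} (hx : ∀ i, DFun n (x i)) :
    DFun n (fun u => Nat.card {y // SReach (S u) (fun i => (x i u : ZMod (M u + 1))) y}) := by
  have h1 := DFun.divPos (card_HH_defB hM hB hQ hS) (card_ST_defB hM hB hQ hS hx)
    (fun u => Nat.card_pos)
  have e : (fun u => Nat.card {y // SReach (S u) (fun i => (x i u : ZMod (M u + 1))) y}) =
      fun u => Nat.card (HH (S u)) / Nat.card (ST (S u) fun i => (x i u : ZMod (M u + 1))) := by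
    funext u
    exact card_orbit (hU u) _
  rw [e]
  exact h1

end Ctx

/-- bijective affine maps over `ℤ/m` -/
theorem aff_unit' {r m : ℕ} [NeZero m] {X : Matrix (Fin r) (Fin (r + 1)) (ZMod m)}
    (h : Function.Injective fun u : Fin r → ZMod m =>
      X.mulVec (Fin.snoc u 1 : Fin (r + 1) → ZMod m)) : IsUnit (aff X) := by
  rw [← Matrix.mulVec_surjective_iff_isUnit]
  refine Finite.surjective_of_injective ?_
  have h1 : ∀ w, (aff X).mulVec w = 0 → w = 0 := by
    intro w hw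
    have h2 : w (Fin.last r) = 0 := by
      have h3 := congrFun hw (Fin.last r)
      rw [Matrix.mulVec] at h3
      simpa [aff, dotProduct, Pi.single_apply] using h3
    have h4 : X.mulVec w = 0 := by
      funext i
      have h3 := congrFun hw i.castSucc
      rw [Matrix.mulVec] at h3
      rw [Matrix.mulVec]
      simpa [aff] using h3
    have h5 : (Fin.snoc (fun i => w i.castSucc) 1 : Fin (r + 1) → ZMod m) =
        w + (Fin.snoc 0 1 : Fin (r + 1) → ZMod m) := by
      funext i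
      refine Fin.lastCases ?_ (fun i => ?_) i
      · rw [Fin.snoc_last, Pi.add_apply, h2, Fin.snoc_last, zero_add]
      · rw [Fin.snoc_castSucc, Pi.add_apply, Fin.snoc_castSucc, Pi.zero_apply, add_zero]
    have h6 : (fun i => w i.castSucc) = (0 : Fin r → ZMod m) := by
      refine h ?_
      show X.mulVec _ = X.mulVec _
      rw [h5, Matrix.mulVec_add, h4, zero_add]
    funext i
    refine Fin.lastCases ?_ (fun i => ?_) i
    · exact h2
    · exact congrFun h6 i
  intro a b hab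
  have h2 := h1 (a - b) (by rw [Matrix.mulVec_sub]; exact sub_eq_zero.2 hab)
  exact sub_eq_zero.1 h2

/-- `ℤ/(m v)` as `ℤ/(M v + 1)` -/
theorem exists_pred' {n : ℕ} {m : (Fin n → ℕ) → ℕ} (hm : DFun n m) (h0 : ∀ v, m v ≠ 0) :
    ∃ M : (Fin n → ℕ) → ℕ, DFun n M ∧ ∀ v, m v = M v + 1 :=
  ⟨fun v => m v - 1, hm.sub (DFun.const 1),
    fun v => (Nat.sub_add_cancel (Nat.one_le_iff_ne_zero.2 (h0 v))).symm⟩

section Main

variable {n r : ℕ} {m : (Fin n → ℕ) → ℕ} (hm : DFun n m) (h0 : ∀ v, m v ≠ 0)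

include hm h0

theorem mod_mem {c : ℕ} (hB : ∀ v (H : Subgroup (GL (Fin r) (ZMod (m v)))), BGen H c)
    {R : (Fin (n + r * r) → ℕ) → Prop} (hR : Delta0 (n + r * r) R)
    (hU : ∀ v, ∀ X ∈ MM (k := r) (l := r) R (m v) v, IsUnit X) :
    Delta0 (n + r * r) (fun w => ∃ X ∈ Submonoid.closure (MM (k := r) (l := r) R
      (m fun i => w (Fin.castAdd (r * r) i)) fun i => w (Fin.castAdd (r * r) i)),
      ∀ i, (X (finProdFinEquiv.symm i).1 (finProdFinEquiv.symm i).2).val =
        w (Fin.natAdd n i)) := by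
  obtain ⟨M, hM, hpM⟩ := exists_pred' hm h0
  have hB' : ∀ v (H : Subgroup (GL (Fin r) (ZMod (M v + 1)))), BGen H c := by
    intro v
    rw [← hpM v]
    exact hB v
  have hU' : ∀ v, ∀ X ∈ MM (k := r) (l := r) R (M v + 1) v, IsUnit X := by
    intro v
    rw [← hpM v]
    exact hU v
  have hv : ∀ i : Fin n, DFun (n + r * r) (fun w => w (Fin.castAdd (r * r) i)) :=
    fun i => DFun.proj _
  have hM' : DFun (n + r * r) (fun w => M fun i => w (Fin.castAdd (r * r) i)) := hM.comp hv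
  have h1 := (grp_def hM hB' (MM_def hM hR) hU').comp hM hv
  have h2 : Delta0 (n + r * r) (fun w => ∃ X : Mat r ((M fun i => w (Fin.castAdd (r * r) i)) + 1),
      X ∈ Submonoid.closure (MM R ((M fun i => w (Fin.castAdd (r * r) i)) + 1)
        fun i => w (Fin.castAdd (r * r) i)) ∧
      ∀ i, (X (finProdFinEquiv.symm i).1 (finProdFinEquiv.symm i).2).val =
        w (Fin.natAdd n i)) := by
    refine mex hM' (A := fun w X => X ∈ Submonoid.closure
      (MM R ((M fun i => w (Fin.castAdd (r * r) i)) + 1) fun i => w (Fin.castAdd (r * r) i)) ∧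
      ∀ i, (X (finProdFinEquiv.symm i).1 (finProdFinEquiv.symm i).2).val =
        w (Fin.natAdd n i)) ?_
    exact Delta0.and h1 (Delta0.allOf fun i =>
      Delta0.eqFun (MD.dec hM'.weak (DFun.proj 0) _ _) (DFun.proj _))
  refine h2.of_iff fun w => ?_
  rw [hpM]

theorem mod_card {c Q : ℕ} (hB : ∀ v (H : Subgroup (GL (Fin r) (ZMod (m v)))), BGen H c)
    (hQ : ∀ v (H : Subgroup (GL (Fin r) (ZMod (m v)))), SylUB H Q)
    {R : (Fin (n + r * r) → ℕ) → Prop} (hR : Delta0 (n + r * r) R)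
    (hU : ∀ v, ∀ X ∈ MM (k := r) (l := r) R (m v) v, IsUnit X) :
    DFun n (fun v => Nat.card (Submonoid.closure (MM (k := r) (l := r) R (m v) v))) := by
  obtain ⟨M, hM, hpM⟩ := exists_pred' hm h0
  have hB' : ∀ v (H : Subgroup (GL (Fin r) (ZMod (M v + 1)))), BGen H c := by
    intro v
    rw [← hpM v]
    exact hB v
  have hQ' : ∀ v (H : Subgroup (GL (Fin r) (ZMod (M v + 1)))), SylUB H Q := by
    intro v
    rw [← hpM v]
    exact hQ v
  have h1 := card_HH_defB hM hB' hQ' (MM_def hM hR)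
  have e : (fun v => Nat.card (Submonoid.closure (MM (k := r) (l := r) R (m v) v))) =
      fun u => Nat.card (HH (MM (k := r) (l := r) R (M u + 1) u)) := by
    funext v
    have h2 := hU v
    rw [hpM v] at h2 ⊢
    exact card_HH h2
  rw [e]
  exact h1

omit hm h0 in
private theorem hsn {x : Fin r → (Fin n → ℕ) → ℕ} (hx : ∀ i, DFun n (x i)) (i : Fin (r + 1)) :
    DFun n ((Fin.snoc x (fun _ => 1) : Fin (r + 1) → (Fin n → ℕ) → ℕ) i) := by
  refine Fin.lastCases ?_ (fun i => ?_) i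
  · rw [Fin.snoc_last]
    exact DFun.const 1
  · rw [Fin.snoc_castSucc]
    exact hx i

omit hm h0 in
private theorem hsn_eq (x : Fin r → (Fin n → ℕ) → ℕ) (v : Fin n → ℕ) (N : ℕ) :
    (Fin.snoc (fun i => (x i v : ZMod N)) 1 : Fin (r + 1) → ZMod N) =
      fun i => (((Fin.snoc x (fun _ => 1) : Fin (r + 1) → (Fin n → ℕ) → ℕ) i v : ℕ) :
        ZMod N) := by
  funext i
  refine Fin.lastCases ?_ (fun i => ?_) i
  · rw [Fin.snoc_last, Fin.snoc_last, Nat.cast_one]
  · rw [Fin.snoc_castSucc, Fin.snoc_castSucc]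

theorem mod_reach {c : ℕ}
    (hB : ∀ v (H : Subgroup (GL (Fin (r + 1)) (ZMod (m v)))), BGen H c)
    {R : (Fin (n + r * (r + 1)) → ℕ) → Prop} (hR : Delta0 (n + r * (r + 1)) R)
    (hU : ∀ v, ∀ X ∈ MM (k := r) (l := r + 1) R (m v) v,
      Function.Injective fun u : Fin r → ZMod (m v) =>
        X.mulVec (Fin.snoc u 1 : Fin (r + 1) → ZMod (m v)))
    {x y : Fin r → (Fin n → ℕ) → ℕ} (hx : ∀ i, DFun n (x i)) (hy : ∀ i, DFun n (y i)) :
    Delta0 n (fun v => AReach (MM R (m v) v) (fun i => (x i v : ZMod (m v)))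
      (fun i => (y i v : ZMod (m v)))) := by
  obtain ⟨M, hM, hpM⟩ := exists_pred' hm h0
  have hB' : ∀ v (H : Subgroup (GL (Fin (r + 1)) (ZMod (M v + 1)))), BGen H c := by
    intro v
    rw [← hpM v]
    exact hB v
  have hU' : ∀ v, ∀ Y ∈ aff '' (MM (k := r) (l := r + 1) R (M v + 1) v), IsUnit Y := by
    rintro v _ ⟨X, hX, rfl⟩
    have h1 := hU v
    rw [hpM v] at h1
    exact aff_unit' (h1 X hX)
  have h1 := sreach_defB hM hB' (aff_def hM hR) hU' (hsn hx) (hsn hy)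
  refine h1.of_iff fun v => ?_
  rw [hpM v, areach_iff', hsn_eq x, hsn_eq y]

theorem mod_orbit {c Q : ℕ}
    (hB : ∀ v (H : Subgroup (GL (Fin (r + 1)) (ZMod (m v)))), BGen H c)
    (hQ : ∀ v (H : Subgroup (GL (Fin (r + 1)) (ZMod (m v)))), SylUB H Q)
    {R : (Fin (n + r * (r + 1)) → ℕ) → Prop} (hR : Delta0 (n + r * (r + 1)) R)
    (hU : ∀ v, ∀ X ∈ MM (k := r) (l := r + 1) R (m v) v,
      Function.Injective fun u : Fin r → ZMod (m v) =>
        X.mulVec (Fin.snoc u 1 : Fin (r + 1) → ZMod (m v)))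
    {x : Fin r → (Fin n → ℕ) → ℕ} (hx : ∀ i, DFun n (x i)) :
    DFun n (fun v => Nat.card {y // AReach (MM R (m v) v) (fun i => (x i v : ZMod (m v))) y}) := by
  obtain ⟨M, hM, hpM⟩ := exists_pred' hm h0
  have hB' : ∀ v (H : Subgroup (GL (Fin (r + 1)) (ZMod (M v + 1)))), BGen H c := by
    intro v
    rw [← hpM v]
    exact hB v
  have hQ' : ∀ v (H : Subgroup (GL (Fin (r + 1)) (ZMod (M v + 1)))), SylUB H Q := by
    intro v
    rw [← hpM v]
    exact hQ v
  have hU' : ∀ v, ∀ Y ∈ aff '' (MM (k := r) (l := r + 1) R (M v + 1) v), IsUnit Y := by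
    rintro v _ ⟨X, hX, rfl⟩
    have h1 := hU v
    rw [hpM v] at h1
    exact aff_unit' (h1 X hX)
  have h1 := card_sreach_defB hM hB' hQ' (aff_def hM hR) hU' (hsn hx)
  have e : (fun v => Nat.card {y // AReach (MM R (m v) v) (fun i => (x i v : ZMod (m v))) y}) =
      fun v => Nat.card {y // SReach (aff '' (MM (k := r) (l := r + 1) R (M v + 1) v))
        (fun i => (((Fin.snoc x (fun _ => 1) : Fin (r + 1) → (Fin n → ℕ) → ℕ) i v : ℕ) :
          ZMod (M v + 1))) y} := by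
    funext v
    rw [hpM v, card_areach, hsn_eq x]
  rw [e]
  exact h1

end Main

end Pool.Agent.LRch
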