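import Pool.Agent.LRch.SgDef

/-!
# Reachability by linear maps
-/

set_option autoImplicit false

namespace Pool.Agent.LRch

open Finset Pool.Agent.Grz Pool.Agent.GAvg Pool.Agent.PTr Pool.Agent.MTr Pool.Agent.LPC
open Pool.Agent.ECD

variable {r : ℕ}

/-- `y` is reachable from `x` by steps `u ↦ X u`, `X ∈ S` -/
def SReach {m : ℕ} (S : Set (Mat r m)) : (Fin r → ZMod m) → (Fin r → ZMod m) → Prop :=
  Relation.ReflTransGen fun u u' => ∃ X ∈ S, u' = X.mulVec u

theorem sreach_iff {m : ℕ} {S : Set (Mat r m)} {x y : Fin r → ZMod m} :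
    SReach S x y ↔ ∃ X ∈ Submonoid.closure S, y = X.mulVec x := by
  constructor
  · intro h
    induction h with
    | refl => exact ⟨1, one_mem _, by rw [Matrix.one_mulVec]⟩
    | tail _ h2 ih =>
      obtain ⟨h, hh, rfl⟩ := ih
      obtain ⟨g, hg, rfl⟩ := h2
      exact ⟨g * h, mul_mem (Submonoid.subset_closure hg) hh, by rw [Matrix.mulVec_mulVec]⟩
  · rintro ⟨h, hh, rfl⟩
    induction hh using Submonoid.closure_induction_left with
    | one =>
      rw [Matrix.one_mulVec]
      exact Relation.ReflTransGen.refl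
    | mul_left g hg h _ ih =>
      refine ih.tail ⟨g, hg, ?_⟩
      rw [Matrix.mulVec_mulVec]

/-- images of vectors are definable -/
theorem MD.mulVec {k : ℕ} {M : (Fin k → ℕ) → ℕ} (hM : DFun k M)
    {A : ∀ u : Fin k → ℕ, Mat r (M u + 1)} (hA : MD M A)
    {x y : Fin r → (Fin k → ℕ) → ℕ} (hx : ∀ i, DFun k (x i)) (hy : ∀ i, DFun k (y i)) :
    Delta0 k (fun u => (fun i => (y i u : ZMod (M u + 1))) =
      (A u).mulVec fun i => (x i u : ZMod (M u + 1))) := by
  have h1 : Delta0 k (fun u => ∀ i : Fin r, y i u % (M u + 1) =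
      (∑ j : Fin r, (A u i j).val * x j u) % (M u + 1)) := by
    refine Delta0.allOf fun i => Delta0.eqFun (DFun.mod (hy i) hM) (DFun.mod ?_ hM)
    exact DFun.finSum univ fun j => (hA i j).mul (hx j)
  refine h1.of_iff fun u => ?_
  rw [funext_iff]
  refine forall_congr' fun i => ?_
  rw [← ZMod.natCast_eq_natCast_iff', Matrix.mulVec_eq_sum, Finset.sum_apply]
  refine iff_of_eq (congrArg _ ?_)
  push_cast
  refine Finset.sum_congr rfl fun j _ => ?_
  rw [ZMod.natCast_zmod_val, Pi.smul_apply, MulOpposite.smul_eq_mul_unop,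
    MulOpposite.unop_op, Matrix.transpose_apply]

variable {c : ℕ} (hc : ∀ (p : ℕ) [Fact p.Prime] (H : Subgroup (GL (Fin r) (ZMod p))), BGen H c)

include hc

/-- **Reachability by definable families of linear maps is definable.** -/
theorem sreach_def {n : ℕ} {M : (Fin n → ℕ) → ℕ} (hM : DFun n M) (hp : ∀ u, (M u + 1).Prime)
    {S : ∀ u : Fin n → ℕ, Set (Mat r (M u + 1))} (hS : SD M S)
    {x y : Fin r → (Fin n → ℕ) → ℕ} (hx : ∀ i, DFun n (x i)) (hy : ∀ i, DFun n (y i)) :
    Delta0 n (fun u => SReach (S u) (fun i => (x i u : ZMod (M u + 1)))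
      (fun i => (y i u : ZMod (M u + 1)))) := by
  have h1 : Delta0 n (fun u => ∃ X : Mat r (M u + 1), X ∈ Submonoid.closure (S u) ∧
      (fun i => (y i u : ZMod (M u + 1))) = X.mulVec fun i => (x i u : ZMod (M u + 1))) := by
    refine mex hM (A := fun u X => X ∈ Submonoid.closure (S u) ∧
      (fun i => (y i u : ZMod (M u + 1))) = X.mulVec fun i => (x i u : ZMod (M u + 1))) ?_
    exact Delta0.and (monoid_def hc hM hp hS) (MD.mulVec hM.weak (MD.dec hM.weak (DFun.proj 0))
      (fun i => (hx i).weak) (fun i => (hy i).weak))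
  exact h1.of_iff fun u => sreach_iff

end Pool.Agent.LRch
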