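import Pool.Agent.LRch.UGrp

/-!
# Orders from subgroups with unique factorisations: group theory
-/

set_option autoImplicit false

namespace Pool.Agent.LRch

open Finset Pool.Agent.ECD

/-- the products `g 0 ^ k 0 * ... * g (i - 1) ^ k (i - 1)` with `k j < m j` are different -/
def UD {G : Type*} [Group G] (g : ℕ → G) (m : ℕ → ℕ) : ℕ → Prop
  | 0 => True
  | i + 1 => UD g m i ∧ 0 < m i ∧ ∀ x : G, ∀ k, k < m i → ∀ k', k' < m i →
      PM g m i (x * (g i ^ k)⁻¹) → PM g m i (x * (g i ^ k')⁻¹) → k = k'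

/-- and they are closed under multiplication -/
def UDat {G : Type*} [Group G] (g : ℕ → G) (m : ℕ → ℕ) (i : ℕ) : Prop :=
  UD g m i ∧ ∀ x, PM g m i x → ∀ y, PM g m i y → PM g m i (x * y)

/-- `y` is a common multiple of the orders of the subgroups of `H` given by such data of
length `R`. -/
def CMU {G : Type*} [Group G] (H : Subgroup G) (R y : ℕ) : Prop :=
  ∀ (g : ℕ → G) (m : ℕ → ℕ), (∀ j < R, g j ∈ H) → UDat g m R → ∏ j ∈ range R, m j ∣ y

theorem pm_succ_set {G : Type*} [Group G] (g : ℕ → G) (m : ℕ → ℕ) (i : ℕ) :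
    {x | PM g m (i + 1) x} = (fun a : G × ℕ => a.1 * g i ^ a.2) ''
      ({x | PM g m i x} ×ˢ (↑(range (m i)) : Set ℕ)) := by
  ext x
  constructor
  · rintro ⟨k, hk, h⟩
    exact ⟨(x * (g i ^ k)⁻¹, k), ⟨h, by simpa using hk⟩, inv_mul_cancel_right _ _⟩
  · rintro ⟨⟨y, k⟩, ⟨h, hk⟩, rfl⟩
    refine ⟨k, by simpa using hk, ?_⟩
    show PM g m i (y * g i ^ k * (g i ^ k)⁻¹)
    rw [mul_inv_cancel_right]
    exact h

theorem pm_succ_inj {G : Type*} [Group G] (g : ℕ → G) (m : ℕ → ℕ) (i : ℕ) :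
    Set.InjOn (fun a : G × ℕ => a.1 * g i ^ a.2)
      ({x | PM g m i x} ×ˢ (↑(range (m i)) : Set ℕ)) ↔
    ∀ x : G, ∀ k, k < m i → ∀ k', k' < m i →
      PM g m i (x * (g i ^ k)⁻¹) → PM g m i (x * (g i ^ k')⁻¹) → k = k' := by
  constructor
  · intro h x k hk k' hk' h1 h2
    have h3 := @h (x * (g i ^ k)⁻¹, k) ⟨h1, by simpa using hk⟩ (x * (g i ^ k')⁻¹, k')
      ⟨h2, by simpa using hk'⟩ (by simp)
    exact congrArg Prod.snd h3
  · rintro h ⟨y, k⟩ ⟨h1, h2⟩ ⟨y', k'⟩ ⟨h1', h2'⟩ h3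
    have h3' : y * g i ^ k = y' * g i ^ k' := h3
    have h4 : k = k' := h (y * g i ^ k) k (by simpa using h2) k' (by simpa using h2')
      (by rw [mul_inv_cancel_right]; exact h1) (by rw [h3', mul_inv_cancel_right]; exact h1')
    subst h4
    rw [mul_left_inj] at h3'
    rw [h3']

theorem pm_ncard_le {G : Type*} [Group G] [Finite G] (g : ℕ → G) (m : ℕ → ℕ) (i : ℕ) :
    {x | PM g m i x}.ncard ≤ ∏ j ∈ range i, m j := by
  induction i with
  | zero =>
    have h : {x | PM g m 0 x} = {1} := rfl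
    rw [h, Set.ncard_singleton, prod_range_zero]
  | succ i ih =>
    rw [pm_succ_set, prod_range_succ]
    refine (Set.ncard_image_le (Set.toFinite _ |>.prod (finite_toSet _))).trans ?_
    rw [Set.ncard_prod, Set.ncard_coe_finset, card_range]
    exact Nat.mul_le_mul_right _ ih

theorem ud_iff {G : Type*} [Group G] [Finite G] (g : ℕ → G) (m : ℕ → ℕ) (i : ℕ) :
    UD g m i ↔ {x | PM g m i x}.ncard = ∏ j ∈ range i, m j ∧ 0 < ∏ j ∈ range i, m j := by
  induction i with
  | zero =>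
    have h : {x | PM g m 0 x} = {1} := rfl
    rw [h, Set.ncard_singleton, prod_range_zero]
    simp [UD]
  | succ i ih =>
    have hfin : ({x | PM g m i x} ×ˢ (↑(range (m i)) : Set ℕ)).Finite :=
      (Set.toFinite _).prod (finite_toSet _)
    have hc : ({x | PM g m i x} ×ˢ (↑(range (m i)) : Set ℕ)).ncard =
        {x | PM g m i x}.ncard * m i := by
      rw [Set.ncard_prod, Set.ncard_coe_finset, card_range]
    rw [pm_succ_set, prod_range_succ]
    show UD g m i ∧ 0 < m i ∧ _ ↔ _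
    rw [← pm_succ_inj, ih]
    constructor
    · rintro ⟨⟨h1, h2⟩, h3, h4⟩
      refine ⟨?_, Nat.mul_pos h2 h3⟩
      rw [Set.InjOn.ncard_image h4, hc, h1]
    · rintro ⟨h1, h2⟩
      have h3 : 0 < ∏ j ∈ range i, m j := Nat.pos_of_mul_pos_right h2
      have h4 : 0 < m i := Nat.pos_of_mul_pos_left h2
      have h5 := Set.ncard_image_le (f := fun a : G × ℕ => a.1 * g i ^ a.2) hfin
      rw [h1, hc] at h5
      have h6 : {x | PM g m i x}.ncard = ∏ j ∈ range i, m j :=
        le_antisymm (pm_ncard_le g m i) (Nat.le_of_mul_le_mul_right h5 h4)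
      refine ⟨⟨h6, h3⟩, h4, (Set.ncard_image_iff hfin).1 ?_⟩
      rw [h1, hc, h6]

theorem ud_bound {G : Type*} [Group G] [Finite G] {g : ℕ → G} {m : ℕ → ℕ} {i : ℕ}
    (h : UD g m i) : ∀ j < i, m j ≤ Nat.card G := by
  intro j hj
  obtain ⟨h1, h2⟩ := (ud_iff g m i).1 h
  have h3 : m j ∣ ∏ j ∈ range i, m j := dvd_prod_of_mem _ (mem_range.2 hj)
  have h4 : {x | PM g m i x}.ncard ≤ Nat.card G := Set.ncard_le_card _
  exact (Nat.le_of_dvd h2 h3).trans (h1 ▸ h4)

/-- the subgroup given by the data -/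
theorem udat_subgroup {G : Type*} [Group G] [Finite G] (g : ℕ → G) (m : ℕ → ℕ) (i : ℕ)
    (h : UDat g m i) : ∃ K : Subgroup G, (∀ x, x ∈ K ↔ PM g m i x) ∧
      Nat.card K = ∏ j ∈ range i, m j ∧
      ∀ H : Subgroup G, (∀ j < i, g j ∈ H) → K ≤ H := by
  obtain ⟨h1, h2⟩ := h
  obtain ⟨h3, h4⟩ := (ud_iff g m i).1 h1
  have hpow : ∀ x, PM g m i x → ∀ n, PM g m i (x ^ (n + 1)) := by
    intro x hx n
    induction n with
    | zero => rw [zero_add, pow_one]; exact hx
    | succ n ih => rw [pow_succ]; exact h2 _ ih _ hx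
  have hone : ∀ x, PM g m i x → PM g m i 1 := by
    intro x hx
    have h5 := hpow x hx (orderOf x - 1)
    rwa [Nat.sub_add_cancel (orderOf_pos x), pow_orderOf_eq_one] at h5
  have hinv : ∀ x, PM g m i x → PM g m i x⁻¹ := by
    intro x hx
    have h5 : x ^ (2 * orderOf x - 2 + 1) = x⁻¹ := by
      have h6 := orderOf_pos x
      rw [eq_inv_iff_mul_eq_one, ← pow_succ]
      have h7 : 2 * orderOf x - 2 + 1 + 1 = orderOf x * 2 := by omega
      rw [h7, pow_mul, pow_orderOf_eq_one, one_pow]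
    rw [← h5]
    exact hpow x hx _
  have hne : ∃ x, PM g m i x := by
    rw [← h3, Set.ncard_pos] at h4
    exact h4
  let K : Subgroup G :=
    { carrier := {x | PM g m i x}
      mul_mem' := fun {a b} ha hb => h2 a ha b hb
      one_mem' := hne.elim hone
      inv_mem' := fun {a} ha => hinv a ha }
  refine ⟨K, fun x => Iff.rfl, ?_, ?_⟩
  · exact h3
  · intro H hH
    have h5 : ∀ l ≤ i, ∀ x, PM g m l x → x ∈ H := by
      intro l
      induction l with
      | zero =>
        intro _ x hx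
        have hx1 : x = 1 := hx
        rw [hx1]
        exact H.one_mem
      | succ l ih =>
        rintro hl x ⟨k, hk, hx⟩
        have h6 := H.mul_mem (ih (by omega) _ hx) (H.pow_mem (hH l (by omega)) k)
        rwa [inv_mul_cancel_right] at h6
    exact fun x hx => h5 i le_rfl x hx

theorem pm_getD {G : Type*} [Group G] (l : List (G × ℕ)) (i : ℕ) : ∀ x : G,
    PM (fun j => (l.getD j (1, 1)).1) (fun j => (l.getD j (1, 1)).2) i x ↔
      x ∈ cycb (l.take i) := by
  induction i with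
  | zero =>
    intro x
    rw [List.take_zero]
    exact Iff.rfl
  | succ i ih =>
    intro x
    show (∃ k, k < (l.getD i (1, 1)).2 ∧ PM _ _ i (x * ((l.getD i (1, 1)).1 ^ k)⁻¹)) ↔ _
    simp only [ih]
    by_cases hi : i < l.length
    · rw [List.take_succ_eq_append_getElem hi, mem_cycb_append, List.getD_eq_getElem _ _ hi]
      constructor
      · rintro ⟨k, hk, h⟩
        exact ⟨_, h, _, ⟨k, hk, 1, rfl, rfl⟩, by rw [mul_one, inv_mul_cancel_right]⟩
      · rintro ⟨y, hy, z, ⟨k, hk, w, hw, rfl⟩, rfl⟩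
        have hw1 : w = 1 := hw
        refine ⟨k, hk, ?_⟩
        rw [hw1, mul_one, mul_inv_cancel_right]
        exact hy
    · rw [List.take_of_length_le (not_lt.1 hi), List.take_of_length_le (by omega),
        List.getD_eq_default _ _ (not_lt.1 hi)]
      constructor
      · rintro ⟨k, -, h⟩
        simpa using h
      · intro h
        exact ⟨0, Nat.one_pos, by simpa using h⟩

theorem prod_getD {G : Type*} [Group G] (l : List (G × ℕ)) (i : ℕ) :
    ∏ j ∈ range i, (l.getD j (1, 1)).2 = ((l.take i).map Prod.snd).prod := by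
  induction i with
  | zero => simp
  | succ i ih =>
    rw [prod_range_succ, ih]
    by_cases hi : i < l.length
    · rw [List.take_succ_eq_append_getElem hi, List.getD_eq_getElem _ _ hi, List.map_append,
        List.prod_append]
      simp
    · rw [List.take_of_length_le (not_lt.1 hi), List.take_of_length_le (by omega),
        List.getD_eq_default _ _ (not_lt.1 hi)]
      simp

/-- data for a subgroup with a unique factorisation -/
theorem ub_data {G : Type*} [Group G] [Finite G] {P : Subgroup G} {R : ℕ} (h : UB P R) :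
    ∃ (g : ℕ → G) (m : ℕ → ℕ), UDat g m R ∧ (∀ x, x ∈ P ↔ PM g m R x) ∧ (∀ j, g j ∈ P) ∧
      ∏ j ∈ range R, m j = Nat.card P := by
  obtain ⟨l, h1, h2, h3⟩ := h
  let l' : List (G × ℕ) := l.map fun a => (P.subtype a.1, a.2)
  have hl' : l'.length ≤ R := by
    rw [List.length_map]
    exact h1
  have e1 : ∀ x, PM (fun j => (l'.getD j (1, 1)).1) (fun j => (l'.getD j (1, 1)).2) R x ↔
      x ∈ P := by
    intro x
    rw [pm_getD, List.take_of_length_le hl', mem_cycb_map]
    constructor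
    · rintro ⟨y, -, rfl⟩
      exact y.2
    · intro hx
      exact ⟨⟨x, hx⟩, h3 _, rfl⟩
  have e2 : ∏ j ∈ range R, (l'.getD j (1, 1)).2 = Nat.card P := by
    rw [prod_getD, List.take_of_length_le hl', ← h2, List.map_map]
    rfl
  refine ⟨fun j => (l'.getD j (1, 1)).1, fun j => (l'.getD j (1, 1)).2, ⟨?_, ?_⟩,
    fun x => (e1 x).symm, ?_, e2⟩
  · rw [ud_iff, e2]
    have e3 : {x | PM (fun j => (l'.getD j (1, 1)).1) (fun j => (l'.getD j (1, 1)).2) R x} =
        (P : Set G) := Set.ext e1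
    rw [e3]
    exact ⟨rfl, Nat.card_pos⟩
  · intro x hx y hy
    rw [e1] at hx hy ⊢
    exact P.mul_mem hx hy
  · intro j
    by_cases hj : j < l'.length
    · show (l'.getD j (1, 1)).1 ∈ P
      rw [List.getD_eq_getElem _ _ hj]
      simp [l']
    · show (l'.getD j (1, 1)).1 ∈ P
      rw [List.getD_eq_default _ _ (not_lt.1 hj)]
      exact P.one_mem

theorem cmu_card {G : Type*} [Group G] [Finite G] (H : Subgroup G) (R : ℕ) :
    CMU H R (Nat.card H) := by
  intro g m hg h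
  obtain ⟨P, -, h2, h3⟩ := udat_subgroup g m R h
  rw [← h2]
  exact Subgroup.card_dvd_of_le (h3 H hg)

theorem card_dvd_of_cmu {G : Type*} [Group G] [Finite G] {H : Subgroup G} {R : ℕ}
    (hR : SylUB H R) {y : ℕ} (hy : CMU H R y) : Nat.card H ∣ y := by
  have hG : Nat.card H ≠ 0 := Nat.card_pos.ne'
  rcases Nat.eq_zero_or_pos y with rfl | hy0
  · exact dvd_zero _
  refine (Nat.factorization_prime_le_iff_dvd hG hy0.ne').1 fun l hl => ?_
  obtain ⟨P, hPH, hP, hl2⟩ := hR l hl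
  obtain ⟨g, m, h1, -, h7, h8⟩ := ub_data hP
  have h6 : Nat.card P ∣ y := by
    rw [← h8]
    exact hy g m (fun j _ => hPH (h7 j)) h1
  exact (hl.pow_dvd_iff_le_factorization hy0.ne').1 (hl2.trans h6)

/-- the order is the least positive common multiple -/
theorem cardU_iff {G : Type*} [Group G] [Finite G] {H : Subgroup G} {R : ℕ}
    (hR : SylUB H R) (y : ℕ) :
    y = Nat.card H ↔ (0 < y ∧ CMU H R y) ∧
      ∀ y', y' ≤ y → (y' < y → 0 < y' → ¬ CMU H R y') := by
  constructor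
  · rintro rfl
    refine ⟨⟨Nat.card_pos, cmu_card H R⟩, fun y' _ h1 h2 h3 => ?_⟩
    exact absurd (Nat.le_of_dvd h2 (card_dvd_of_cmu hR h3)) (not_le.2 h1)
  · rintro ⟨⟨h1, h2⟩, h3⟩
    have h4 := Nat.le_of_dvd h1 (card_dvd_of_cmu hR h2)
    by_contra h5
    exact h3 _ h4 (lt_of_le_of_ne h4 (Ne.symm h5)) Nat.card_pos (cmu_card H R)

theorem ud_congr {G : Type*} [Group G] {g g' : ℕ → G} {m m' : ℕ → ℕ} {i : ℕ}
    (hg : ∀ j < i, g j = g' j) (hm : ∀ j < i, m j = m' j) : UD g m i ↔ UD g' m' i := by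
  induction i with
  | zero => exact Iff.rfl
  | succ i ih =>
    have hg' : ∀ j < i, g j = g' j := fun j hj => hg j (Nat.lt_succ_of_lt hj)
    have hm' : ∀ j < i, m j = m' j := fun j hj => hm j (Nat.lt_succ_of_lt hj)
    have h1 := ih hg' hm'
    have h2 := (pd_congr hg' hm').2
    have e1 := hg i (Nat.lt_succ_self i)
    have e2 := hm i (Nat.lt_succ_self i)
    show (UD g m i ∧ 0 < m i ∧ ∀ x : G, ∀ k, k < m i → ∀ k', k' < m i →
      PM g m i (x * (g i ^ k)⁻¹) → PM g m i (x * (g i ^ k')⁻¹) → k = k') ↔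
      (UD g' m' i ∧ 0 < m' i ∧ ∀ x : G, ∀ k, k < m' i → ∀ k', k' < m' i →
      PM g' m' i (x * (g' i ^ k)⁻¹) → PM g' m' i (x * (g' i ^ k')⁻¹) → k = k')
    simp only [h1, h2, e1, e2]

theorem udat_congr {G : Type*} [Group G] {g g' : ℕ → G} {m m' : ℕ → ℕ} {i : ℕ}
    (hg : ∀ j < i, g j = g' j) (hm : ∀ j < i, m j = m' j) : UDat g m i ↔ UDat g' m' i := by
  simp only [UDat, ud_congr hg hm, (pd_congr hg hm).2]

end Pool.Agent.LRch
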