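import Mathlib

/-!
# Unique factorisations into cyclic pieces

`cycb [(a_1, m_1), ..., (a_l, m_l)]` is the set of the products `a_1 ^ t_1 * ... * a_l ^ t_l` with
`t_i < m_i`; `UB G c` says that `G` is such a set for a list of length at most `c` with
`m_1 ⋯ m_l = |G|` (so the representation is unique).
-/

set_option autoImplicit false

namespace Pool.Agent.LRch

/-- the products `a_1 ^ t_1 * ... * a_l ^ t_l` with `t_i < m_i` -/
def cycb {G : Type*} [Monoid G] : List (G × ℕ) → Set G
  | [] => {1}
  | a :: l => {x | ∃ t : ℕ, t < a.2 ∧ ∃ y ∈ cycb l, x = a.1 ^ t * y}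

/-- `G` is a product of at most `c` cyclic pieces, in a unique way -/
def UB (G : Type*) [Group G] (c : ℕ) : Prop :=
  ∃ l : List (G × ℕ), l.length ≤ c ∧ (l.map Prod.snd).prod = Nat.card G ∧ ∀ x, x ∈ cycb l

/-- for every prime `l` there is a subgroup of `H` with `UB` whose order is divisible by the
`l`-part of the order of `H` -/
def SylUB {G : Type*} [Group G] (H : Subgroup G) (R : ℕ) : Prop :=
  ∀ l : ℕ, l.Prime → ∃ P : Subgroup G, P ≤ H ∧ UB P R ∧
    l ^ (Nat.card H).factorization l ∣ Nat.card P

end Pool.Agent.LRch
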