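import Pool.Agent.LRch.Filt
import Pool.Agent.LRch.UDefs

/-!
# Filtered groups: unique factorisations into cyclic pieces

The same as in `Filt.lean` with the orders of the generators and uniqueness.
-/

set_option autoImplicit false

namespace Pool.Agent.LRch

theorem filt_ub {p : ℕ} [Fact p.Prime] {G V : Type*} [Group G] [AddCommGroup V]
    [Module (ZMod p) V] [FiniteDimensional (ZMod p) V] (H : Subgroup G) (s e : ℕ) (hse : s ≤ e)
    (Rel : ℕ → G → V → Prop)
    (hst : ∀ h ∈ H, ∃ ξ, Rel s h ξ)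
    (hone : ∀ i, s ≤ i → Rel i 1 0)
    (hmul : ∀ i g g' ξ ξ', s ≤ i → Rel i g ξ → Rel i g' ξ' → Rel i (g * g') (ξ + ξ'))
    (hinv : ∀ i g ξ, s ≤ i → Rel i g ξ → Rel i g⁻¹ (-ξ))
    (hpow : ∀ i g ξ, s ≤ i → Rel i g ξ → Rel (i + 1) (g ^ p) ξ)
    (hconj : ∀ i g z ξ, s ≤ i → g ∈ H → Rel i z ξ → Rel i (g⁻¹ * z * g) ξ)
    (hnext : ∀ i g, s ≤ i → i < e → Rel i g 0 → ∃ ξ, Rel (i + 1) g ξ)
    (hlast : ∀ g ξ, Rel e g ξ → g = 1)
    (hdown : ∀ i g ξ, s ≤ i → Rel (i + 1) g ξ → Rel i g 0)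
    (huniq : ∀ i ξ, s ≤ i → i < e → Rel i 1 ξ → ξ = 0) :
    UB H (Module.finrank (ZMod p) V) := by
  classical
  -- the spaces of leading terms
  let A : ℕ → AddSubgroup V := fun i =>
    { carrier := {ξ | ∃ g ∈ H, Rel (s + i) g ξ}
      add_mem' := by
        rintro ξ ξ' ⟨g, hg, h1⟩ ⟨g', hg', h2⟩
        exact ⟨g * g', H.mul_mem hg hg', hmul _ _ _ _ _ (Nat.le_add_right _ _) h1 h2⟩
      zero_mem' := ⟨1, H.one_mem, hone _ (Nat.le_add_right _ _)⟩
      neg_mem' := by
        rintro ξ ⟨g, hg, h1⟩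
        exact ⟨g⁻¹, H.inv_mem hg, hinv _ _ _ (Nat.le_add_right _ _) h1⟩ }
  let L : ℕ → Submodule (ZMod p) V := fun i => AddSubgroup.toZModSubmodule p (A i)
  have hmemL : ∀ i ξ, ξ ∈ L i ↔ ∃ g ∈ H, Rel (s + i) g ξ := fun i ξ => Iff.rfl
  have hL : Monotone L := by
    refine monotone_nat_of_le_succ fun i ξ hξ => ?_
    obtain ⟨g, hg, h1⟩ := (hmemL i ξ).1 hξ
    exact (hmemL (i + 1) ξ).2 ⟨g ^ p, H.pow_mem hg p, hpow _ _ _ (Nat.le_add_right _ _) h1⟩
  obtain ⟨B, l, hB1, hB2, hB3⟩ := adapted L hL (e - s)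
  have hfin : B.Finite := hB1.linearIndependent.setFinite
  have hcard : hfin.toFinset.card ≤ Module.finrank (ZMod p) V := by
    have h1 := hB1.linearIndependent
    have : Fintype B := hfin.fintype
    have h2 := h1.fintype_card_le_finrank
    rw [← Set.toFinset_card] at h2
    convert h2 using 2
    ext
    simp
  have hch : ∀ ξ : V, ∃ g ∈ H, ξ ∈ B → Rel (s + l ξ) g ξ := by
    intro ξ
    by_cases h1 : ξ ∈ B
    · obtain ⟨g, hg, h2⟩ := (hmemL _ ξ).1 (hB2 ξ h1).2
      exact ⟨g, hg, fun _ => h2⟩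
    · exact ⟨1, H.one_mem, fun h => absurd h h1⟩
  choose gen hgen1 hgen2 using hch
  -- powers
  have hpowi : ∀ (i : ℕ) (g : G) (ξ : V) (j : ℕ), s ≤ i → Rel i g ξ →
      Rel (i + j) (g ^ (p ^ j)) ξ := by
    intro i g ξ j hi h
    induction j with
    | zero => simpa using h
    | succ j ih =>
      rw [pow_succ, pow_mul]
      exact hpow _ _ _ (hi.trans (Nat.le_add_right _ _)) ih
  have hsmul : ∀ (i : ℕ) (g : G) (ξ : V) (c : ℕ), s ≤ i → Rel i g ξ → Rel i (g ^ c) (c • ξ) := by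
    intro i g ξ c hi h
    induction c with
    | zero => simpa using hone i hi
    | succ c ih =>
      rw [pow_succ, succ_nsmul]
      exact hmul _ _ _ _ _ hi ih h
  -- products along a list
  let P : (V → ℕ) → List V → G := fun a m => (m.map fun ξ => gen ξ ^ a ξ).prod
  have hPH : ∀ a m, P a m ∈ H := by
    intro a m
    refine H.list_prod_mem fun x hx => ?_
    obtain ⟨ξ, -, rfl⟩ := List.mem_map.1 hx
    exact H.pow_mem (hgen1 ξ) _
  have hPadd : ∀ (i : ℕ) (a b : V → ℕ) (c : V → V) (m : List V), s ≤ i →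
      (∀ ξ ∈ m, Rel i (gen ξ ^ b ξ) (c ξ)) →
      ∃ z, Rel i z (m.map c).sum ∧ P (fun ξ => a ξ + b ξ) m = P a m * z := by
    intro i a b c m hi
    induction m with
    | nil =>
      intro _
      exact ⟨1, hone i hi, by simp [P]⟩
    | cons ξ m ih =>
      intro h
      obtain ⟨z, hz1, hz2⟩ := ih fun η hη => h η (List.mem_cons_of_mem _ hη)
      refine ⟨(P a m)⁻¹ * gen ξ ^ b ξ * P a m * z, ?_, ?_⟩
      · rw [List.map_cons, List.sum_cons]
        exact hmul _ _ _ _ _ hi (hconj _ _ _ _ hi (hPH a m) (h ξ List.mem_cons_self)) hz1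
      · have h1 : P (fun ξ => a ξ + b ξ) (ξ :: m) =
            gen ξ ^ (a ξ + b ξ) * P (fun ξ => a ξ + b ξ) m := by simp [P]
        have h2 : P a (ξ :: m) = gen ξ ^ a ξ * P a m := by simp [P]
        rw [h1, h2, hz2, pow_add]
        group
  -- approximation
  have happ : ∀ i, s + i ≤ e → ∀ h ∈ H, ∃ (a : V → ℕ) (ζ : V),
      Rel (s + i) ((P a hfin.toFinset.toList)⁻¹ * h) ζ := by
    intro i
    induction i with
    | zero =>
      intro _ h hh
      obtain ⟨ξ, hξ⟩ := hst h hh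
      exact ⟨fun _ => 0, ξ, by simpa [P] using hξ⟩
    | succ i ih =>
      intro hi h hh
      obtain ⟨a, ζ, h1⟩ := ih (by omega) h hh
      have h2 : ζ ∈ L i := (hmemL i ζ).2 ⟨_, H.mul_mem (H.inv_mem (hPH a _)) hh, h1⟩
      have h3 := hB3 i (by omega) h2
      have h4 : {ξ | ξ ∈ B ∧ l ξ ≤ i} =
          ((hfin.toFinset.filter fun ξ => l ξ ≤ i : Finset V) : Set V) := by
        ext ξ
        simp
      rw [h4] at h3
      obtain ⟨f, -, hf⟩ := Submodule.mem_span_finset.1 h3
      obtain ⟨z, hz1, hz2⟩ := hPadd (s + i) a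
        (fun ξ => if l ξ ≤ i then p ^ (i - l ξ) * (f ξ).val else 0)
        (fun ξ => if l ξ ≤ i then f ξ • ξ else 0) hfin.toFinset.toList (Nat.le_add_right _ _) (by
          intro ξ hξ
          have hξB : ξ ∈ B := by simpa using hξ
          by_cases h5 : l ξ ≤ i
          · simp only [h5, if_true]
            rw [pow_mul]
            have h6 := hsmul _ _ _ (f ξ).val (by omega)
              (hpowi _ _ _ (i - l ξ) (Nat.le_add_right _ _) (hgen2 ξ hξB))
            have h7 : s + l ξ + (i - l ξ) = s + i := by omega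
            rw [h7] at h6
            have h8 : (f ξ).val • ξ = f ξ • ξ := by
              conv_rhs => rw [← ZMod.natCast_zmod_val (f ξ)]
              rw [Nat.cast_smul_eq_nsmul]
            rw [← h8]
            exact h6
          · simp only [h5, if_false, pow_zero]
            exact hone _ (Nat.le_add_right _ _))
      have h5 : (hfin.toFinset.toList.map fun ξ => if l ξ ≤ i then f ξ • ξ else 0).sum = ζ := by
        rw [Finset.sum_map_toList, ← Finset.sum_filter]
        exact hf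
      rw [h5] at hz1
      refine ⟨fun ξ => a ξ + if l ξ ≤ i then p ^ (i - l ξ) * (f ξ).val else 0, ?_⟩
      rw [hz2, mul_inv_rev, mul_assoc]
      refine hnext (s + i) _ (Nat.le_add_right _ _) (by omega) ?_
      have h6 := hmul _ _ _ _ _ (Nat.le_add_right _ _) (hinv _ _ _ (Nat.le_add_right _ _) hz1) h1
      rwa [neg_add_cancel] at h6
  -- orders of the generators
  let M : V → ℕ := fun ξ => p ^ (e - s - l ξ)
  have hMpos : ∀ ξ, 0 < M ξ := fun ξ => Nat.pow_pos (Fact.out : p.Prime).pos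
  have hM1 : ∀ ξ ∈ B, gen ξ ^ M ξ = 1 := by
    intro ξ hξ
    have h1 := hpowi _ _ _ (e - s - l ξ) (Nat.le_add_right _ _) (hgen2 ξ hξ)
    have h2 : s + l ξ + (e - s - l ξ) = e := by
      have := (hB2 ξ hξ).1
      omega
    rw [h2] at h1
    exact hlast _ _ h1
  have hmod : ∀ ξ ∈ B, ∀ a b : ℕ, a ≡ b [MOD M ξ] → gen ξ ^ a = gen ξ ^ b := by
    intro ξ hξ a b hab
    rw [← Nat.mod_add_div a (M ξ), ← Nat.mod_add_div b (M ξ), pow_add, pow_mul, hM1 ξ hξ, one_pow,
      pow_add, pow_mul, hM1 ξ hξ, one_pow, show a % M ξ = b % M ξ from hab]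
  have hdowni : ∀ (i j : ℕ) (g : G) (ξ : V), s ≤ i → 0 < j → Rel (i + j) g ξ → Rel i g 0 := by
    intro i j
    induction j with
    | zero => intro g ξ _ h; exact absurd h (lt_irrefl 0)
    | succ j ih =>
      intro g ξ hi _ h
      rcases Nat.eq_zero_or_pos j with rfl | hj
      · exact hdown _ _ _ hi h
      · exact ih g 0 hi hj (hdown _ _ _ (hi.trans (Nat.le_add_right _ _)) h)
  have hPcongr : ∀ (a b : V → ℕ) (m : List V), (∀ ξ ∈ m, gen ξ ^ a ξ = gen ξ ^ b ξ) →
      P a m = P b m := by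
    intro a b m h
    change (m.map fun ξ => gen ξ ^ a ξ).prod = (m.map fun ξ => gen ξ ^ b ξ).prod
    rw [List.map_congr_left h]
  -- uniqueness
  have hinj : ∀ a b : V → ℕ, P a hfin.toFinset.toList = P b hfin.toFinset.toList →
      ∀ ξ ∈ B, a ξ ≡ b ξ [MOD M ξ] := by
    intro a b hab
    obtain ⟨c, hc⟩ : ∃ c : V → ℕ, ∀ ξ, a ξ + M ξ * b ξ = b ξ + c ξ := by
      refine ⟨fun ξ => a ξ + M ξ * b ξ - b ξ, fun ξ => ?_⟩
      have h1 : b ξ ≤ M ξ * b ξ := Nat.le_mul_of_pos_left _ (hMpos ξ)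
      change a ξ + M ξ * b ξ = b ξ + (a ξ + M ξ * b ξ - b ξ)
      omega
    have h1 : P (fun ξ => b ξ + c ξ) hfin.toFinset.toList = P b hfin.toFinset.toList := by
      rw [← hab]
      refine hPcongr _ _ _ fun ξ hξ => ?_
      have hξB : ξ ∈ B := by simpa using hξ
      rw [← hc]
      refine hmod ξ hξB _ _ ?_
      exact (Nat.modEq_iff_dvd' (by omega)).2 ⟨b ξ, by omega⟩ |>.symm
    have h2 : ∀ i, i ≤ e - s → ∀ ξ ∈ B, p ^ (i - l ξ) ∣ c ξ := by
      intro i
      induction i with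
      | zero => intro _ ξ _; rw [Nat.zero_sub, pow_zero]; exact one_dvd _
      | succ i ih =>
        intro hi ξ0 hξ0
        have hch2 : ∀ ξ, ∃ c', ξ ∈ B → c ξ = p ^ (i - l ξ) * c' := by
          intro ξ
          by_cases h3 : ξ ∈ B
          · obtain ⟨c', hc'⟩ := ih (by omega) ξ h3
            exact ⟨c', fun _ => hc'⟩
          · exact ⟨0, fun h => absurd h h3⟩
        choose c' hc' using hch2
        obtain ⟨z, hz1, hz2⟩ := hPadd (s + i) b c
          (fun ξ => if l ξ ≤ i then c' ξ • ξ else 0) hfin.toFinset.toList (Nat.le_add_right _ _) (by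
            intro ξ hξ
            have hξB : ξ ∈ B := by simpa using hξ
            by_cases h5 : l ξ ≤ i
            · simp only [h5, if_true]
              rw [hc' ξ hξB, pow_mul]
              have h6 := hsmul _ _ _ (c' ξ) (by omega)
                (hpowi _ _ _ (i - l ξ) (Nat.le_add_right _ _) (hgen2 ξ hξB))
              have h7 : s + l ξ + (i - l ξ) = s + i := by omega
              rw [h7] at h6
              exact h6
            · simp only [h5, if_false]
              have h6 := hsmul _ _ _ (c ξ) (Nat.le_add_right _ _) (hgen2 ξ hξB)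
              have h7 : s + l ξ = s + i + (l ξ - i) := by omega
              rw [h7] at h6
              exact hdowni _ _ _ _ (Nat.le_add_right _ _) (by omega) h6)
        rw [h1] at hz2
        have h3 : z = 1 := by
          have h4 : P b hfin.toFinset.toList * z = P b hfin.toFinset.toList * 1 := by
            rw [mul_one]
            exact hz2.symm
          exact mul_left_cancel h4
        rw [h3] at hz1
        have h4 := huniq _ _ (Nat.le_add_right _ _) (by omega) hz1
        rw [Finset.sum_map_toList] at h4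
        have h5 : ∑ ξ ∈ hfin.toFinset, (if l ξ ≤ i then (c' ξ : ZMod p) else 0) • id ξ = 0 := by
          rw [← h4]
          refine Finset.sum_congr rfl fun ξ _ => ?_
          by_cases h6 : l ξ ≤ i
          · simp only [h6, if_true, id, Nat.cast_smul_eq_nsmul]
          · simp only [h6, if_false, zero_smul]
        have hB1' : LinearIndepOn (ZMod p) id (hfin.toFinset : Set V) := by
          rw [Set.Finite.coe_toFinset]
          exact hB1
        have h6 := linearIndepOn_finset_iff.1 hB1' _ h5 ξ0 (by simpa using hξ0)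
        by_cases h7 : l ξ0 ≤ i
        · simp only [h7, if_true] at h6
          obtain ⟨d, hd⟩ := (ZMod.natCast_eq_zero_iff _ _).1 h6
          refine ⟨d, ?_⟩
          rw [hc' ξ0 hξ0, hd, show i + 1 - l ξ0 = (i - l ξ0) + 1 by omega, pow_succ]
          ring
        · rw [show i + 1 - l ξ0 = 0 by omega, pow_zero]
          exact one_dvd _
    intro ξ hξ
    have h3 : M ξ ∣ c ξ := h2 (e - s) le_rfl ξ hξ
    have h4 : a ξ + M ξ * b ξ ≡ b ξ [MOD M ξ] := by
      rw [hc]
      obtain ⟨d, hd⟩ := h3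
      exact (Nat.modEq_iff_dvd' (by omega)).2 ⟨d, by omega⟩ |>.symm
    have h5 : a ξ + M ξ * b ξ ≡ a ξ [MOD M ξ] :=
      (Nat.modEq_iff_dvd' (by omega)).2 ⟨b ξ, by omega⟩ |>.symm
    exact h5.symm.trans h4
  -- the product map is bijective
  let F : (∀ ξ : hfin.toFinset, Fin (M ξ)) → H := fun κ =>
    ⟨P (fun ξ => if h : ξ ∈ hfin.toFinset then (κ ⟨ξ, h⟩ : ℕ) else 0) hfin.toFinset.toList, hPH _ _⟩
  have hF : Function.Bijective F := by
    constructor
    · intro κ κ' h
      have h1 := hinj _ _ (congrArg Subtype.val h)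
      funext ⟨ξ, hξ⟩
      have h2 := h1 ξ (by simpa using hξ)
      simp only [dif_pos hξ] at h2
      exact Fin.ext (Nat.ModEq.eq_of_lt_of_lt h2 (κ ⟨ξ, hξ⟩).2 (κ' ⟨ξ, hξ⟩).2)
    · rintro ⟨x, hx⟩
      obtain ⟨a, ζ, h1⟩ := happ (e - s) (by omega) x hx
      rw [Nat.add_sub_cancel' hse] at h1
      have h2 := hlast _ _ h1
      refine ⟨fun ξ => ⟨a ξ % M ξ, Nat.mod_lt _ (hMpos ξ)⟩, Subtype.ext ?_⟩
      rw [inv_mul_eq_one] at h2
      refine Eq.trans ?_ h2
      refine hPcongr _ _ _ fun ξ hξ => ?_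
      have hξ' : ξ ∈ hfin.toFinset := by simpa using hξ
      simp only [dif_pos hξ']
      exact hmod ξ (by simpa using hξ) _ _ (Nat.mod_modEq _ _)
  have hcardH : Nat.card H = ∏ ξ ∈ hfin.toFinset, M ξ := by
    rw [← Nat.card_congr (Equiv.ofBijective F hF), Nat.card_eq_fintype_card, Fintype.card_pi]
    simp only [Fintype.card_fin]
    exact Finset.prod_coe_sort hfin.toFinset M
  refine ⟨hfin.toFinset.toList.map fun ξ => (⟨gen ξ, hgen1 ξ⟩, M ξ), ?_, ?_, fun x => ?_⟩
  · rw [List.length_map, Finset.length_toList]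
    exact hcard
  · rw [List.map_map, hcardH]
    exact Finset.prod_map_toList _ _
  · obtain ⟨κ, hκ⟩ := hF.2 x
    have h4 : ∀ (a : V → ℕ) (m : List V), (∀ ξ ∈ m, a ξ < M ξ) → ∀ y : H, (y : G) = P a m →
        y ∈ cycb (m.map fun ξ => ((⟨gen ξ, hgen1 ξ⟩ : H), M ξ)) := by
      intro a m
      induction m with
      | nil =>
        intro _ y hy
        exact Subtype.ext (by simpa [P] using hy)
      | cons ξ m ih =>
        intro ha y hy
        refine ⟨a ξ, ha ξ List.mem_cons_self, ⟨P a m, hPH a m⟩,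
          ih (fun η hη => ha η (List.mem_cons_of_mem _ hη)) _ rfl, Subtype.ext ?_⟩
        rw [hy]
        simp [P]
    refine h4 _ _ (fun ξ hξ => ?_) x (congrArg Subtype.val hκ).symm
    have hξ' : ξ ∈ hfin.toFinset := by simpa using hξ
    simp only [dif_pos hξ']
    exact (κ ⟨ξ, hξ'⟩).2

end Pool.Agent.LRch
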