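import Pool.Agent.LRch.UDefs
import Pool.Agent.ECD.PcCard

/-!
# Unique factorisations into cyclic pieces: group theory
-/

set_option autoImplicit false

namespace Pool.Agent.LRch

open Pool.Agent.ECD

theorem mem_cycb_append {G : Type*} [Monoid G] {x : G} {l m : List (G × ℕ)} :
    x ∈ cycb (l ++ m) ↔ ∃ y ∈ cycb l, ∃ z ∈ cycb m, x = y * z := by
  induction l generalizing x with
  | nil =>
    constructor
    · intro h
      exact ⟨1, rfl, x, h, (one_mul x).symm⟩
    · rintro ⟨y, hy, z, hz, h⟩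
      have hy1 : y = 1 := hy
      rw [h, hy1, one_mul]
      exact hz
  | cons a l ih =>
    constructor
    · rintro ⟨t, ht, y, hy, h⟩
      obtain ⟨y1, hy1, z1, hz1, h1⟩ := ih.1 hy
      exact ⟨a.1 ^ t * y1, ⟨t, ht, y1, hy1, rfl⟩, z1, hz1, by rw [h, h1, mul_assoc]⟩
    · rintro ⟨y, ⟨t, ht, y1, hy1, h1⟩, z, hz, h⟩
      exact ⟨t, ht, y1 * z, ih.2 ⟨y1, hy1, z, hz, rfl⟩, by rw [h, h1, mul_assoc]⟩

theorem mem_cycb_map {G H : Type*} [Monoid G] [Monoid H] (f : G →* H) {l : List (G × ℕ)} {y : H} :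
    y ∈ cycb (l.map fun a => (f a.1, a.2)) ↔ ∃ x ∈ cycb l, f x = y := by
  induction l generalizing y with
  | nil =>
    constructor
    · intro h
      have h1 : y = 1 := h
      exact ⟨1, rfl, by rw [map_one, h1]⟩
    · rintro ⟨x, hx, h⟩
      have hx1 : x = 1 := hx
      rw [← h, hx1, map_one]
      rfl
  | cons a l ih =>
    constructor
    · rintro ⟨t, ht, z, hz, h⟩
      obtain ⟨x, hx, h1⟩ := ih.1 hz
      exact ⟨a.1 ^ t * x, ⟨t, ht, x, hx, rfl⟩, by rw [map_mul, map_pow, h1, h]⟩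
    · rintro ⟨x, ⟨t, ht, z, hz, h1⟩, h⟩
      exact ⟨t, ht, f z, ih.2 ⟨z, hz, rfl⟩, by rw [← h, h1, map_mul, map_pow]⟩

theorem UB.mono {G : Type*} [Group G] {c d : ℕ} (h : UB G c) (hcd : c ≤ d) : UB G d := by
  obtain ⟨l, h1, h2⟩ := h
  exact ⟨l, h1.trans hcd, h2⟩

theorem UB.of_mulEquiv {G H : Type*} [Group G] [Group H] {c : ℕ} (h : UB G c) (e : G ≃* H) :
    UB H c := by
  obtain ⟨l, h1, h2, h3⟩ := h
  refine ⟨l.map fun a => (e.toMonoidHom a.1, a.2), by rw [List.length_map]; exact h1, ?_, ?_⟩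
  · rw [List.map_map, ← Nat.card_congr e.toEquiv, ← h2]
    rfl
  · intro y
    exact (mem_cycb_map e.toMonoidHom).2 ⟨e.symm y, h3 _, e.apply_symm_apply y⟩

theorem ub_of_card_one {G : Type*} [Group G] (h : Nat.card G = 1) : UB G 0 := by
  refine ⟨[], le_rfl, by rw [h]; rfl, fun x => ?_⟩
  have h1 : Subsingleton G := (Nat.card_eq_one_iff_unique.1 h).1
  exact Subsingleton.elim x 1

theorem UB.ext {G Q : Type*} [Group G] [Group Q] {c d : ℕ} (f : G →* Q) (h1 : UB f.ker c)
    (h2 : UB f.range d) : UB G (c + d) := by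
  classical
  obtain ⟨l, hl, hlc, h1⟩ := h1
  obtain ⟨k, hk, hkc, h2⟩ := h2
  have hch : ∀ q : f.range, ∃ g : G, f.rangeRestrict g = q := fun q =>
    f.rangeRestrict_surjective q
  choose r hr using hch
  have hmap : (k.map fun a => (r a.1, a.2)).map (fun a => (f.rangeRestrict a.1, a.2)) = k := by
    rw [List.map_map]
    conv_rhs => rw [← List.map_id k]
    exact List.map_congr_left fun q _ => Prod.ext (hr q.1) rfl
  refine ⟨(l.map fun a => (f.ker.subtype a.1, a.2)) ++ k.map fun a => (r a.1, a.2), ?_, ?_,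
    fun x => ?_⟩
  · rw [List.length_append, List.length_map, List.length_map]
    exact Nat.add_le_add hl hk
  · rw [List.map_append, List.prod_append, List.map_map, List.map_map]
    have h3 : (l.map (Prod.snd ∘ fun a => (f.ker.subtype a.1, a.2))) = l.map Prod.snd := rfl
    have h4 : (k.map (Prod.snd ∘ fun a => (r a.1, a.2))) = k.map Prod.snd := rfl
    rw [h3, h4, hlc, hkc, ← Subgroup.index_ker, Subgroup.card_mul_index]
  · have h3 : f.rangeRestrict x ∈ cycb ((k.map fun a => (r a.1, a.2)).map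
        (fun a => (f.rangeRestrict a.1, a.2))) := by
      rw [hmap]
      exact h2 _
    obtain ⟨z, hz, hzx⟩ := (mem_cycb_map f.rangeRestrict).1 h3
    have h4 : f z = f x := by
      have h5 := congrArg Subtype.val hzx
      simpa using h5
    have h5 : x * z⁻¹ ∈ f.ker := by
      rw [MonoidHom.mem_ker, map_mul, map_inv, h4, mul_inv_cancel]
    refine mem_cycb_append.2 ⟨x * z⁻¹, ?_, z, hz, by rw [inv_mul_cancel_right]⟩
    exact (mem_cycb_map f.ker.subtype).2 ⟨⟨x * z⁻¹, h5⟩, h1 _, rfl⟩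

theorem ub_of_pcl {G : Type*} [Group G] [Finite G] {R : ℕ} {P : Subgroup G} (h : PCL R P) :
    UB P R := by
  classical
  obtain ⟨g, m, h1, h2, h3⟩ := pcl_data R P h
  obtain ⟨K, h4, h5, -⟩ := pd_subgroup g m R h1
  have hK : K = P := by
    ext x
    rw [h4, h2]
  rw [hK] at h5
  let g' : ℕ → P := fun j => if hj : g j ∈ P then ⟨g j, hj⟩ else 1
  refine ⟨(List.range R).map fun j => (g' j, m j), by simp, ?_, fun x => ?_⟩
  · rw [List.map_map, h5]
    exact (Multiset.prod_coe _).symm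
  · have h6 : ∀ i, i ≤ R → ∀ x : P, PM g m i x → x ∈ cycb ((List.range i).map fun j =>
        (g' j, m j)) := by
      intro i
      induction i with
      | zero =>
        intro _ x hx
        exact Subtype.ext hx
      | succ i ih =>
        intro hi x hx
        obtain ⟨k, hk, hx⟩ := hx
        have hgi : g i ∈ P := (h3 i (by omega)).1
        have e1 : ((g' i : P) : G) = g i := by
          simp only [g', dif_pos hgi]
        rw [List.range_succ, List.map_append]
        refine mem_cycb_append.2 ⟨x * (g' i ^ k)⁻¹, ih (by omega) _ ?_, g' i ^ k, ?_, ?_⟩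
        · push_cast
          rw [e1]
          exact hx
        · exact ⟨k, hk, 1, rfl, (mul_one _).symm⟩
        · rw [inv_mul_cancel_right]
    exact h6 R le_rfl x ((h2 _).1 x.2)

end Pool.Agent.LRch
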