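import Pool.Agent.LRch.Mods
import Pool.Agent.LRch.UGrp
import Pool.Agent.LRch.UFilt
import Pool.Agent.LRch.SylGL
import Pool.Agent.LRch.RedPGr

/-!
# Sylow subgroups of subgroups of `GL_r(ℤ/m)`, `m` with boundedly many prime divisors
-/

set_option autoImplicit false

namespace Pool.Agent.LRch

open Matrix Pool.Agent.ECD

section

variable {p : ℕ} {r e : ℕ}

theorem lrel_down {i : ℕ} {g : GL (Fin r) (ZMod (p ^ e))} {ξ : Matrix (Fin r) (Fin r) (ZMod p)}
    (h : LRel p r e (i + 1) g ξ) : LRel p r e i g 0 := by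
  obtain ⟨X, h1, h2⟩ := h
  refine ⟨(p : ℤ) • X, redm_smul _ _ (dvd_refl _), ?_⟩
  rw [h2, smul_smul, pow_succ]

theorem lrel_uniq [Fact p.Prime] {i : ℕ} (hi : i < e) {ξ : Matrix (Fin r) (Fin r) (ZMod p)}
    (h : LRel p r e i 1 ξ) : ξ = 0 := by
  obtain ⟨X, h1, h2⟩ := h
  rw [Units.val_one, ← map_one (redm r (p ^ e))] at h2
  obtain ⟨Z, hZ⟩ := redm_eq_iff.1 h2
  have hp0 : (p : ℤ) ^ i ≠ 0 := pow_ne_zero _ (Nat.cast_ne_zero.2 (Fact.out : p.Prime).ne_zero)
  have h3 : X = -(((p : ℤ) ^ (e - i)) • Z) := by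
    ext a b
    have h4 := congrFun (congrFun hZ a) b
    simp only [Matrix.add_apply, Matrix.smul_apply, smul_eq_mul] at h4
    have h5 : (p : ℤ) ^ i * X a b = (p : ℤ) ^ i * (-((p : ℤ) ^ (e - i) * Z a b)) := by
      have h6 : ((p ^ e : ℕ) : ℤ) = (p : ℤ) ^ i * (p : ℤ) ^ (e - i) := by
        rw [← pow_add, Nat.add_sub_cancel' hi.le]
        push_cast
        rfl
      rw [h6] at h4
      linear_combination -h4
    rw [mul_left_cancel₀ hp0 h5, Matrix.neg_apply, Matrix.smul_apply, smul_eq_mul]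
  rw [← h1, h3, map_neg, redm_smul _ _ (dvd_pow_self _ (by omega)), neg_zero]

/-- subgroups of the congruence subgroup of level `s` -/
theorem ub_cong [Fact p.Prime] {s : ℕ} (hs : 1 ≤ s) (hs2 : 2 ≤ s * (p - 1)) (hse : s ≤ e)
    (H : Subgroup (GL (Fin r) (ZMod (p ^ e)))) (hH : ∀ h ∈ H, ∃ ξ, LRel p r e s h ξ) :
    UB H (r * r) := by
  have hp : p.Prime := Fact.out
  have h1 := filt_ub (p := p) H s e hse (LRel p r e) hH
    (fun i _ => ⟨0, by rw [map_zero], by rw [smul_zero, add_zero, map_one, Units.val_one]⟩)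
    (fun i g g' ξ ξ' hi => lrel_mul (hs.trans hi))
    (fun i g ξ hi => lrel_inv (hs.trans hi) (hs.trans hse))
    (fun i g ξ hi => lrel_pow hp (hs.trans hi) (hs2.trans (Nat.mul_le_mul_right _ hi)))
    (fun i g z ξ hi hg => lrel_conj hs (hs.trans hse) (hH g hg).choose_spec)
    (fun i g hi _ => lrel_next)
    (fun g ξ => lrel_last)
    (fun i g ξ hi => lrel_down)
    (fun i ξ hi hie => lrel_uniq hie)
  rw [Module.finrank_matrix, Module.finrank_self, mul_one, Fintype.card_fin] at h1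
  exact h1

end

/-- extension by a congruence subgroup -/
theorem ub_step {r m q c d : ℕ} [NeZero m] (h : q ∣ m) (P : Subgroup (GL (Fin r) (ZMod m)))
    (h1 : ∀ H : Subgroup (GL (Fin r) (ZMod m)), H ≤ P → (∀ g ∈ H, redGL r h g = 1) → UB H c)
    (h2 : UB (P.map (redGL r h)) d) : UB P (c + d) := by
  let f : P →* GL (Fin r) (ZMod q) := (redGL r h).comp P.subtype
  have hf : f.range = P.map (redGL r h) := by
    ext x
    constructor
    · rintro ⟨y, rfl⟩
      exact ⟨y, y.2, rfl⟩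
    · rintro ⟨y, hy, rfl⟩
      exact ⟨⟨y, hy⟩, rfl⟩
  refine UB.ext f ?_ (by rw [hf]; exact h2)
  have h3 := h1 (f.ker.map P.subtype) (by
    rintro _ ⟨x, _, rfl⟩
    exact x.2) (by
    rintro _ ⟨x, hx, rfl⟩
    exact hx)
  exact h3.of_mulEquiv (f.ker.equivMapOfInjective P.subtype P.subtype_injective).symm

/-- `l`-subgroups of `GL_r(ℤ/q)` for `q = 1`, a prime or `4` -/
theorem ub_small (r : ℕ) : ∃ R : ℕ, ∀ q : ℕ, (q = 1 ∨ q.Prime ∨ q = 4) → ∀ l : ℕ, l.Prime →
    ∀ P : Subgroup (GL (Fin r) (ZMod q)), IsPGroup l P → UB P R := by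
  obtain ⟨R, hR⟩ := pcl_lgroup r
  refine ⟨max R (4 ^ (r * r)), ?_⟩
  intro q hq l hl P hP
  have hlf : Fact l.Prime := ⟨hl⟩
  have hcard : ∀ q' : ℕ, q' ≠ 0 → q' ≤ 4 → ∀ P : Subgroup (GL (Fin r) (ZMod q')), IsPGroup l P →
      UB P (4 ^ (r * r)) := by
    intro q' hq0 hq4 P hP
    have : NeZero q' := ⟨hq0⟩
    obtain ⟨a, ha⟩ := IsPGroup.iff_card.1 hP
    have h1 := card_gl_le r q' P
    refine ub_of_pcl (pcl_mono (pcl_card hl P ha) ?_)
    have h2 : a < l ^ a := Nat.lt_pow_self hl.one_lt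
    rw [← ha] at h2
    exact h2.le.trans (h1.trans (Nat.pow_le_pow_left hq4 _))
  rcases hq with rfl | hq | rfl
  · exact (hcard 1 one_ne_zero (by norm_num) P hP).mono (le_max_right _ _)
  · have : Fact q.Prime := ⟨hq⟩
    have h1 := hR q l P P.subtype P.subtype_injective hP
    have h2 := pcl_map h1 P.subtype
    rw [← MonoidHom.range_eq_map, Subgroup.range_subtype] at h2
    exact (ub_of_pcl h2).mono (le_max_left _ _)
  · exact (hcard 4 (by norm_num) le_rfl P hP).mono (le_max_right _ _)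

/-- `l`-subgroups of `GL_r(ℤ/p^e)` -/
theorem ub_pp (r : ℕ) : ∃ R : ℕ, ∀ (p : ℕ) [Fact p.Prime] (e l : ℕ), l.Prime →
    ∀ P : Subgroup (GL (Fin r) (ZMod (p ^ e))), IsPGroup l P → UB P R := by
  obtain ⟨R, hR⟩ := ub_small r
  refine ⟨r * r + R, ?_⟩
  intro p hp e l hl P hP
  have hpp : p.Prime := hp.out
  have hlf : Fact l.Prime := ⟨hl⟩
  have hne : NeZero (p ^ e) := ⟨pow_ne_zero _ hpp.ne_zero⟩
  rcases Nat.eq_zero_or_pos e with he | he
  · subst he
    exact (hR _ (Or.inl (pow_zero p)) l hl P hP).mono (Nat.le_add_left _ _)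
  have hd : p ∣ p ^ e := dvd_pow_self p (by omega)
  rcases eq_or_ne l p with hlp | hlp
  swap
  · refine ub_step hd P ?_ (hR p (Or.inr (Or.inl hpp)) l hl _ (hP.map _))
    intro H hHP hH
    refine (ub_of_card_one ?_).mono (Nat.zero_le _)
    rw [Subgroup.card_eq_one]
    rw [eq_bot_iff]
    intro g hg
    rw [Subgroup.mem_bot]
    obtain ⟨n, rfl⟩ : ∃ n, e = n + 1 := ⟨e - 1, by omega⟩
    obtain ⟨a, ha⟩ := isPGroup_ker_red r p n ⟨g, hH g hg⟩
    obtain ⟨b, hb⟩ := hP ⟨g, hHP hg⟩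
    have ha' : g ^ p ^ a = 1 := congrArg Subtype.val ha
    have hb' : g ^ l ^ b = 1 := congrArg Subtype.val hb
    have h1 : orderOf g ∣ p ^ a := orderOf_dvd_of_pow_eq_one ha'
    have h2 : orderOf g ∣ l ^ b := orderOf_dvd_of_pow_eq_one hb'
    have h3 : (p ^ a).Coprime (l ^ b) :=
      Nat.Coprime.pow _ _ ((Nat.coprime_primes hpp hl).2 (Ne.symm hlp))
    have h4 : orderOf g = 1 := Nat.eq_one_of_dvd_coprimes h3 h1 h2
    exact orderOf_eq_one_iff.1 h4
  subst hlp
  rcases hpp.eq_two_or_odd' with h2 | h2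
  · subst h2
    rcases Nat.lt_or_ge e 2 with he2 | he2
    · have h3 : e = 1 := by omega
      subst h3
      exact (hR (2 ^ 1) (Or.inr (Or.inl (by norm_num))) 2 hl P hP).mono (Nat.le_add_left _ _)
    · have hd4 : 2 ^ 2 ∣ 2 ^ e := pow_dvd_pow 2 he2
      refine ub_step hd4 P ?_ (hR (2 ^ 2) (Or.inr (Or.inr (by norm_num))) 2 hl _ (hP.map _))
      intro K _ hK
      refine ub_cong (s := 2) (by norm_num) (by norm_num) he2 K fun g hg => ?_
      obtain ⟨X, hX⟩ := (redGL_eq_one_iff _ g).1 (hK g hg)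
      exact ⟨_, X, rfl, by rw [hX]; push_cast; rfl⟩
  · refine ub_step hd P ?_ (hR l (Or.inr (Or.inl hpp)) l hl _ (hP.map _))
    intro K _ hK
    have hp3 : 3 ≤ l := by
      have h3 := hpp.two_le
      rcases h2 with ⟨a, ha⟩
      omega
    refine ub_cong (s := 1) le_rfl (by omega) he K fun g hg => ?_
    obtain ⟨X, hX⟩ := (redGL_eq_one_iff _ g).1 (hK g hg)
    exact ⟨_, X, rfl, by rw [hX, pow_one]⟩

theorem ub_mod (r : ℕ) : ∃ R : ℕ, ∀ (k m : ℕ), m ≠ 0 → m.primeFactors.card ≤ k →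
    ∀ l : ℕ, l.Prime → ∀ P : Subgroup (GL (Fin r) (ZMod m)), IsPGroup l P → UB P (k * R) := by
  obtain ⟨R, hR⟩ := ub_pp r
  refine ⟨R, fun k => ?_⟩
  induction k with
  | zero =>
    intro m hm hk l hl P hP
    have h1 : m = 1 := by
      rcases Nat.primeFactors_eq_empty.1 (Finset.card_eq_zero.1 (Nat.le_zero.1 hk)) with h | h
      · exact absurd h hm
      · exact h
    subst h1
    have h2 := card_gl_le r 1 P
    rw [one_pow] at h2
    rw [zero_mul]
    exact ub_of_card_one (le_antisymm h2 Nat.card_pos)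
  | succ k ih =>
    intro m hm hk l hl P hP
    have hne : NeZero m := ⟨hm⟩
    rcases Nat.lt_or_ge k m.primeFactors.card with h1 | h1
    swap
    · exact (ih m hm h1 l hl P hP).mono (Nat.mul_le_mul_right _ (Nat.le_succ k))
    obtain ⟨p, hp⟩ := Finset.card_pos.1 (Nat.lt_of_le_of_lt (Nat.zero_le k) h1)
    have hpp : p.Prime := Nat.prime_of_mem_primeFactors hp
    have : Fact p.Prime := ⟨hpp⟩
    have hd1 : p ^ m.factorization p ∣ m := Nat.ordProj_dvd m p
    have hd2 : m / p ^ m.factorization p ∣ m := Nat.ordCompl_dvd m p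
    have hcard : (m / p ^ m.factorization p).primeFactors.card ≤ k := by
      have h2 : (m / p ^ m.factorization p).primeFactors = m.primeFactors.erase p := by
        rw [← Nat.support_factorization, Nat.factorization_ordCompl, Finsupp.support_erase,
          Nat.support_factorization]
      rw [h2, Finset.card_erase_of_mem hp]
      omega
    have h3 := ub_step (r := r) hd1 P (c := k * R) (d := R) ?_ (hR p _ l hl _ (hP.map _))
    · exact h3.mono (by rw [add_mul, one_mul])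
    · intro K hKP hK
      let f : K →* GL (Fin r) (ZMod (m / p ^ m.factorization p)) := (redGL r hd2).comp K.subtype
      have hf : Function.Injective f := by
        rw [injective_iff_map_eq_one]
        intro g hg
        have h4 := redGL_two hd1 hd2 (Nat.Coprime.pow_left _ (Nat.coprime_ordCompl hpp hm))
          (Nat.ordProj_mul_ordCompl_eq_self m p) (g : GL (Fin r) (ZMod m)) (hK g g.2) hg
        exact Subtype.ext h4
      have hKl : IsPGroup l K := hP.to_le hKP
      exact (ih _ (Nat.ordCompl_pos p hm).ne' hcard l hl f.range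
        (hKl.of_surjective f.rangeRestrict f.rangeRestrict_surjective)).of_mulEquiv
        (MonoidHom.ofInjective hf).symm

/-- **Sylow subgroups of the subgroups of `GL_r(ℤ/m)`**, `m` with at most `k` prime divisors -/
theorem sylUB_mod (r k : ℕ) : ∃ R : ℕ, ∀ m : ℕ, m ≠ 0 → m.primeFactors.card ≤ k →
    ∀ H : Subgroup (GL (Fin r) (ZMod m)), SylUB H R := by
  obtain ⟨R, hR⟩ := ub_mod r
  refine ⟨k * R, fun m hm hk H l hl => ?_⟩
  have : Fact l.Prime := ⟨hl⟩
  have : NeZero m := ⟨hm⟩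
  obtain ⟨P⟩ : Nonempty (Sylow l H) := inferInstance
  have e := (P : Subgroup H).equivMapOfInjective H.subtype H.subtype_injective
  refine ⟨(P : Subgroup H).map H.subtype, ?_, ?_, ?_⟩
  · rintro _ ⟨y, _, rfl⟩
    exact y.2
  · exact hR k m hm hk l hl _ (P.isPGroup'.map H.subtype)
  · have h4 : Nat.card ((P : Subgroup H).map H.subtype) = Nat.card (P : Subgroup H) :=
      Nat.card_congr e.toEquiv.symm
    rw [h4, Sylow.card_eq_multiplicity]

end Pool.Agent.LRch
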