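import Mathlib

/-!
# Package LRch-Upper: points of a parametrised set, upper bound

`K` a finite field with `q` elements, `φ : σ → K[T_1..T_m]` polynomials of total degree at most `d`,
`X` a finite set of points of `K^σ` on which every polynomial `f` with `f(φ) = 0` vanishes. Then
`|X| ≤ (d * (|σ| * (q - 1)) + 1) ^ m`.

*Proof.* Let `V` be the space `MvPolynomial.restrictDegree σ K (q - 1)` of the polynomials with all
exponents at most `q - 1`. Every function on `K^σ` is the evaluation of an element of `V`
(`MvPolynomial.range_evalᵢ` or `MvPolynomial.map_restrict_dom_evalₗ`, in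
`Mathlib/FieldTheory/Finite/Polynomial.lean`), so the restriction `ρ : V → (X → K)` is surjective. The
linear map `L : V → K[T_1..T_m]`, `L f = aeval φ f`, has values of total degree at most
`D = d * (|σ| * (q - 1))` (`f ∈ V` has total degree at most `|σ| * (q - 1)`; `MvPolynomial.aeval` as a
sum of products, `totalDegree_finset_sum_le`, `totalDegree_finset_prod`), and
`ker L ≤ ker ρ` by hypothesis. So `|X| = dim (X → K) = dim V / ker ρ ≤ dim V / ker L = dim range L ≤`
dimension of the polynomials with all exponents at most `D`, `= (D + 1) ^ m`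
(the submodule `restrictDegree (Fin m) K D` or `Submodule.span` of the monomials with exponents
`≤ D`; a span of `(D + 1) ^ m` elements: `finrank_span_finset_le_card` or `finrank_range_le_card`).

Difficulty: 1.2 h.
-/

set_option autoImplicit false

namespace Pool.Agent.LRch

open MvPolynomial in
private theorem totalDegree_aeval_Upper {K : Type*} [Field K] {σ : Type*} [Fintype σ] {m d N : ℕ}
    (φ : σ → MvPolynomial (Fin m) K) (hd : ∀ s, (φ s).totalDegree ≤ d) (f : MvPolynomial σ K)
    (hf : f ∈ restrictDegree σ K N) :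
    (aeval φ f).totalDegree ≤ d * (Fintype.card σ * N) := by
  rw [aeval_def, eval₂_eq']
  refine totalDegree_finsetSum_le fun a ha => ?_
  refine (totalDegree_mul _ _).trans ?_
  have h0 : (algebraMap K (MvPolynomial (Fin m) K) (coeff a f)).totalDegree = 0 :=
    totalDegree_C _
  rw [h0, zero_add]
  refine (totalDegree_finsetProd _ _).trans ?_
  have h1 : ∀ i ∈ (Finset.univ : Finset σ), (φ i ^ a i).totalDegree ≤ N * d := by
    intro i _
    exact (totalDegree_pow _ _).trans
      (Nat.mul_le_mul ((mem_restrictDegree σ f N).1 hf a ha i) (hd i))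
  refine (Finset.sum_le_sum h1).trans (le_of_eq ?_)
  rw [Finset.sum_const, Finset.card_univ, smul_eq_mul]
  ring

open MvPolynomial in
private theorem finrank_restrictDegree_Upper (K : Type*) [Field K] (m D : ℕ) :
    Module.Finite K (restrictDegree (Fin m) K D) ∧
      Module.finrank K (restrictDegree (Fin m) K D) = (D + 1) ^ m := by
  let e : {n : Fin m →₀ ℕ | ∀ i, n i ≤ D} ≃ (Fin m → Fin (D + 1)) :=
    { toFun := fun n i => ⟨n.1 i, Nat.lt_succ_of_le (n.2 i)⟩
      invFun := fun g => ⟨Finsupp.equivFunOnFinite.symm fun i => (g i : ℕ),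
        fun i => Nat.le_of_lt_succ (g i).2⟩
      left_inv := fun n => by
        apply Subtype.ext
        ext i
        rfl
      right_inv := fun g => by
        funext i
        rfl }
  have : Finite {n : Fin m →₀ ℕ | ∀ i, n i ≤ D} := Finite.of_equiv _ e.symm
  let b : Module.Basis {n : Fin m →₀ ℕ | ∀ i, n i ≤ D} K (restrictDegree (Fin m) K D) :=
    basisRestrictSupport K {n : Fin m →₀ ℕ | ∀ i, n i ≤ D}
  refine ⟨Module.Finite.of_basis b, ?_⟩
  rw [Module.finrank_eq_nat_card_basis b, Nat.card_congr e, Nat.card_eq_fintype_card]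
  simp

theorem upper {K : Type*} [Field K] [Fintype K] {σ : Type*} [Fintype σ] {m d : ℕ}
    (φ : σ → MvPolynomial (Fin m) K) (hd : ∀ s, (φ s).totalDegree ≤ d) (X : Finset (σ → K))
    (hX : ∀ f : MvPolynomial σ K, MvPolynomial.aeval φ f = 0 →
      ∀ x ∈ X, MvPolynomial.eval x f = 0) :
    X.card ≤ (d * (Fintype.card σ * (Fintype.card K - 1)) + 1) ^ m := by
  classical
  set D := d * (Fintype.card σ * (Fintype.card K - 1)) with hD
  let V := MvPolynomial.restrictDegree σ K (Fintype.card K - 1)
  let L : V →ₗ[K] MvPolynomial (Fin m) K := (MvPolynomial.aeval φ).toLinearMap.domRestrict V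
  let ρ : V →ₗ[K] (X → K) :=
    (LinearMap.funLeft K K (fun x : X => (x : σ → K))).comp
      ((MvPolynomial.evalₗ K σ).domRestrict V)
  have hρ : Function.Surjective ρ := by
    intro g
    have h1 : (fun x : σ → K => if h : x ∈ X then g ⟨x, h⟩ else 0) ∈
        V.map (MvPolynomial.evalₗ K σ) := by
      rw [show V.map (MvPolynomial.evalₗ K σ) = ⊤ from MvPolynomial.map_restrict_dom_evalₗ K σ]
      trivial
    obtain ⟨f, hf, hfg⟩ := h1
    refine ⟨⟨f, hf⟩, ?_⟩
    funext x
    have h2 := congrFun hfg (x : σ → K)
    simp only [Subtype.coe_eta, Finset.coe_mem, dite_true] at h2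
    exact h2
  have hker : LinearMap.ker L ≤ LinearMap.ker ρ := by
    intro f hf
    rw [LinearMap.mem_ker] at hf ⊢
    funext x
    exact hX f.1 hf x.1 x.2
  let W := MvPolynomial.restrictDegree (Fin m) K D
  obtain ⟨hW1, hW2⟩ := finrank_restrictDegree_Upper K m D
  have hLW : LinearMap.range L ≤ W := by
    rintro _ ⟨f, rfl⟩
    rw [MvPolynomial.mem_restrictDegree]
    intro a ha i
    have h1 : a i ≤ a.sum fun _ e => e := by
      rw [Finsupp.sum_fintype _ _ (fun _ => rfl)]
      exact Finset.single_le_sum (f := fun j => a j) (fun _ _ => Nat.zero_le _)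
        (Finset.mem_univ i)
    exact h1.trans ((MvPolynomial.le_totalDegree ha).trans
      (totalDegree_aeval_Upper φ hd f.1 f.2))
  have hfin : Module.Finite K (LinearMap.range L) :=
    Module.Finite.of_injective (Submodule.inclusion hLW) (Submodule.inclusion_injective hLW)
  let θ : LinearMap.range L →ₗ[K] (X → K) :=
    ((LinearMap.ker L).liftQ ρ hker).comp L.quotKerEquivRange.symm.toLinearMap
  have hθ : Function.Surjective θ := by
    intro g
    obtain ⟨f, hf⟩ := hρ g
    refine ⟨L.quotKerEquivRange (Submodule.Quotient.mk f), ?_⟩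
    change (LinearMap.ker L).liftQ ρ hker
      (L.quotKerEquivRange.symm (L.quotKerEquivRange (Submodule.Quotient.mk f))) = g
    rw [LinearEquiv.symm_apply_apply]
    exact hf
  have h1 : Module.finrank K (X → K) ≤ Module.finrank K (LinearMap.range L) :=
    LinearMap.finrank_le_finrank_of_surjective hθ
  have h2 : Module.finrank K (LinearMap.range L) ≤ Module.finrank K W :=
    Submodule.finrank_mono hLW
  have h3 : Module.finrank K (X → K) = X.card := by
    rw [Module.finrank_fintype_fun_eq_card, Fintype.card_coe]
  rw [← h3, ← hW2]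
  exact h1.trans h2

end Pool.Agent.LRch
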