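import Pool.Agent.LRch.Big

/-!
# Package LRch-Vanish: the relations of the product matrix vanish on the generated monoid

Suppose that every relation `f(big E) = 0` implies `f(F(S) * big E) = 0` for all `F ∈ U` (this is the
closedness of `Closed.lean`), and that `E i (0) = 1`. Then every relation `f` vanishes at every matrix
`g` of the monoid generated by the values `F(c)`, `F ∈ U`, `c ∈ K`.

*Proof.* For a matrix `g` over `K` write `g.map C * big E` for the translate. Claim: for `g` in the
monoid and every relation `f`, `f(g.map C * big E) = 0`. For `g = 1` this is the hypothesis on `f`. If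
it is true for all relations and `g`, and `F ∈ U`, `c ∈ K`: let `f` be a relation; the polynomial
`f_g(x) = f(g x)` (substitution `x_(ij) ↦ ∑_k g_(ik) x_(kj)`, an `aeval`/`bind₁`) is again a relation by
the claim for `g`; by closedness `f_g(big (Fin.cons F E)) = 0`, apply `sub0 c` and `big_cons`:
`f(g.map C * ((F.map (eval c)).map C * big E)) = 0`. So the claim holds for `g * F(c)` (use
`Submonoid.closure_induction_right`, or induction on lists: every element is a product of a list of
values, `Submonoid.exists_list_of_mem_closure`, `List.reverseRecOn`). Evaluate at `T = 0`: by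
`big_eval`, `(big E).map (eval 0) = ∏ E i (0) = 1`, so `f(g) = 0`.

Difficulty: 0.8 h.
-/

set_option autoImplicit false

namespace Pool.Agent.LRch

/-- the substitution `x ↦ g x` -/
private theorem aeval_sub {K : Type*} [Field K] {r : ℕ} {A : Type*} [CommRing A] [Algebra K A]
    (g : Matrix (Fin r) (Fin r) K) (B : Matrix (Fin r) (Fin r) A)
    (f : MvPolynomial (Fin r × Fin r) K) :
    MvPolynomial.aeval (fun s : Fin r × Fin r => B s.1 s.2)
      (MvPolynomial.aeval (fun s : Fin r × Fin r =>
        ∑ k, MvPolynomial.C (g s.1 k) * (MvPolynomial.X (k, s.2) :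
          MvPolynomial (Fin r × Fin r) K)) f) =
      MvPolynomial.aeval (fun s : Fin r × Fin r => (g.map (algebraMap K A) * B) s.1 s.2) f := by
  rw [← AlgHom.comp_apply]
  congr 1
  apply MvPolynomial.algHom_ext
  intro s
  rw [AlgHom.comp_apply, MvPolynomial.aeval_X, MvPolynomial.aeval_X, map_sum, Matrix.mul_apply]
  refine Finset.sum_congr rfl fun k _ => ?_
  rw [map_mul, MvPolynomial.aeval_C, MvPolynomial.aeval_X, Matrix.map_apply]

theorem vanish {K : Type*} [Field K] {r m : ℕ} (U : Set (Matrix (Fin r) (Fin r) (Polynomial K)))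
    (E : Fin m → Matrix (Fin r) (Fin r) (Polynomial K))
    (hE : ∀ i, (E i).map (Polynomial.eval 0) = 1)
    (hcl : ∀ f : MvPolynomial (Fin r × Fin r) K,
      MvPolynomial.aeval (fun s : Fin r × Fin r => big E s.1 s.2) f = 0 →
      ∀ F ∈ U, MvPolynomial.aeval (fun s : Fin r × Fin r =>
        big (Fin.cons F E : Fin (m + 1) → Matrix (Fin r) (Fin r) (Polynomial K)) s.1 s.2) f = 0)
    {g : Matrix (Fin r) (Fin r) K}
    (hg : g ∈ Submonoid.closure {A : Matrix (Fin r) (Fin r) K |
      ∃ F ∈ U, ∃ c : K, A = F.map (Polynomial.eval c)})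
    {f : MvPolynomial (Fin r × Fin r) K}
    (hf : MvPolynomial.aeval (fun s : Fin r × Fin r => big E s.1 s.2) f = 0) :
    MvPolynomial.eval (fun s : Fin r × Fin r => g s.1 s.2) f = 0 := by
  have claim : ∀ f : MvPolynomial (Fin r × Fin r) K,
      MvPolynomial.aeval (fun s : Fin r × Fin r => big E s.1 s.2) f = 0 →
      MvPolynomial.aeval (fun s : Fin r × Fin r => (g.map (algebraMap K
        (MvPolynomial (Fin m) K)) * big E) s.1 s.2) f = 0 := by
    induction hg using Submonoid.closure_induction_right with
    | one =>
      intro f hf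
      rw [Matrix.map_one _ (map_zero _) (map_one _), one_mul]
      exact hf
    | mul_right x hx y hy ih =>
      obtain ⟨F, hF, c, rfl⟩ := hy
      intro f hf
      have h1 := ih f hf
      rw [← aeval_sub] at h1
      have h2 := congrArg (sub0 c) (hcl _ h1 F hF)
      rw [map_zero, ← AlgHom.comp_apply, MvPolynomial.comp_aeval] at h2
      have h3 : (fun s : Fin r × Fin r => sub0 c (big (Fin.cons F E :
          Fin (m + 1) → Matrix (Fin r) (Fin r) (Polynomial K)) s.1 s.2)) =
          fun s : Fin r × Fin r => ((F.map (Polynomial.eval c)).map (algebraMap K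
            (MvPolynomial (Fin m) K)) * big E) s.1 s.2 := by
        funext s
        exact congrFun (congrFun (big_cons F E c) s.1) s.2
      have h4 : MvPolynomial.aeval (fun s : Fin r × Fin r => ((F.map (Polynomial.eval c)).map
          (algebraMap K (MvPolynomial (Fin m) K)) * big E) s.1 s.2)
          (MvPolynomial.aeval (fun s : Fin r × Fin r =>
            ∑ k, MvPolynomial.C (x s.1 k) * (MvPolynomial.X (k, s.2) :
              MvPolynomial (Fin r × Fin r) K)) f) = 0 := by
        rw [← h3]
        exact h2
      rw [aeval_sub, ← mul_assoc, ← Matrix.map_mul] at h4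
      exact h4
  have h1 := congrArg (MvPolynomial.aeval (fun _ : Fin m => (0 : K))) (claim f hf)
  rw [map_zero, ← AlgHom.comp_apply, MvPolynomial.comp_aeval] at h1
  have h2 : (fun s : Fin r × Fin r => MvPolynomial.aeval (fun _ : Fin m => (0 : K))
      ((g.map (algebraMap K (MvPolynomial (Fin m) K)) * big E) s.1 s.2)) =
      fun s : Fin r × Fin r => g s.1 s.2 := by
    funext s
    have h3 := big_eval E (fun _ => 0)
    have h4 : (List.ofFn fun i => (E i).map (Polynomial.eval ((fun _ : Fin m => (0 : K)) i))).prod =
        1 := by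
      apply List.prod_eq_one
      intro A hA
      obtain ⟨i, rfl⟩ := (List.mem_ofFn' _ _).1 hA
      exact hE i
    rw [h4] at h3
    rw [Matrix.mul_apply, map_sum]
    have h5 : ∀ k, MvPolynomial.aeval (fun _ : Fin m => (0 : K))
        (g.map (algebraMap K (MvPolynomial (Fin m) K)) s.1 k * big E k s.2) =
        g s.1 k * (1 : Matrix (Fin r) (Fin r) K) k s.2 := by
      intro k
      rw [← h3, map_mul, Matrix.map_apply, Matrix.map_apply, AlgHom.commutes]
      rfl
    rw [Finset.sum_congr rfl fun k _ => h5 k, ← Matrix.mul_apply, mul_one]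
  rw [h2] at h1
  rw [← MvPolynomial.coe_aeval_eq_eval]
  exact h1

end Pool.Agent.LRch
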