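import Pool.Agent.LRch.Grp
import Pool.Agent.LRch.DensGen
import Pool.Agent.LRch.Curve
import Pool.Agent.LRch.Closed
import Pool.Agent.LRch.Vanish
import Pool.Agent.LRch.Upper
import Pool.Agent.LRch.Lower

/-!
# Package LRch-Unip: groups generated by elements of order `p`

For every `r` there is `c` such that for every prime `p > r`, every finite group `G` which embeds in
`GL_r(ℤ/p)` and is generated by its elements `g` with `g ^ p = 1` satisfies `BGen G c`.

*Proof.* (page (2)) `K = ℤ/p`, `f : G →* GL_r(K)` injective. `S = {g : G | g ^ p = 1}`; for `g ∈ S` let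
`E_g` be a curve of the matrix `f g` (`exists_curve`; `(f g) ^ p = 1`), `U = {E_g : g ∈ S}`. Then
`E_g(0) = 1` (`t = 0`). `closed_max` gives `m ≤ r * r`, `E`, `ι`. Choose `u i ∈ S` with
`E i = E_(u i)`. Since all natural numbers `< p` represent `ZMod p`, the values `E_(u)(c)`, `c ∈ K`, are
the powers `f(u) ^ c.val`, so by `big_eval` the set
`{(big E).map (eval t) | t}` is the image under the injective map `G → Matrix`, `g ↦ (f g : Matrix)`,
of `cyc (List.ofFn u)` (a power `u ^ t` with `t` any natural is `u ^ (t % p)`).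
LOWER: `lower` with `φ s = big E s.1 s.2`, `d = m * r` (`big_degree`), if `m > 0` (then `r > 0`,
`d > 0`): `((p - 1) / (d * m) + 1) ^ m ≤ Nat.card (cyc (List.ofFn u))`.
UPPER: `upper` with `X` = the set of the functions `s ↦ (f g : Matrix) s.1 s.2`, `g ∈ G`; the
hypothesis is `vanish`: `G` is generated as a monoid by `S` (finite group: closure as a group is the
closure as a monoid, or `S` is closed under inverses), so `f g` is in the monoid generated by the
`f u = E_u(1)`. `Nat.card G ≤ (d * (r * r * (p - 1)) + 1) ^ m`.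
CONSTANT: `p ≤ d * m * ((p - 1) / (d * m) + 1)`, so `d * (r * r * (p - 1)) + 1 ≤ C * ((p - 1)/(d*m)+1)`
with `C = (d * r * r + 1) * d * m`, and `Nat.card G ≤ C ^ m * Nat.card (cyc ..)`;
`C ^ m` is bounded by a number `K0` depending only on `r` (`m ≤ r * r`, `d ≤ r * r * r`). For `m = 0`
the bound `upper` gives `Nat.card G ≤ 1`. Then `bgen_dens` with `l = List.ofFn u` and
`BGen.mono`: `c = (3 * K0 + 1) * (2 * (r * r + K0))`.

Difficulty: 1.5 h.
-/

set_option autoImplicit false

namespace Pool.Agent.LRch

private theorem prod_mem_cyc {G : Type*} [Monoid G] {m : ℕ} (u : Fin m → G) (k : Fin m → ℕ) :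
    (List.ofFn fun i => u i ^ k i).prod ∈ cyc (List.ofFn u) := by
  induction m with
  | zero =>
    simp only [List.ofFn_zero, List.prod_nil]
    exact rfl
  | succ m ih =>
    rw [List.ofFn_succ, List.ofFn_succ, List.prod_cons, mem_cyc_cons]
    exact ⟨k 0, _, ih (fun i => u i.succ) (fun i => k i.succ), rfl⟩

private theorem arith {m d r p : ℕ} (hp : 0 < p) (hD : 0 < m → 0 < d) :
    (d * (r * r * (p - 1)) + 1) ^ m ≤
      ((d * (r * r) + 1) * (d * m)) ^ m * ((p - 1) / (d * m) + 1) ^ m := by
  rcases Nat.eq_zero_or_pos m with h | h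
  · subst h
    simp
  · rw [← mul_pow]
    apply Nat.pow_le_pow_left
    have h1 : p - 1 < (d * m) * ((p - 1) / (d * m) + 1) :=
      Nat.lt_mul_div_succ _ (Nat.mul_pos (hD h) h)
    have h2 : p ≤ (d * m) * ((p - 1) / (d * m) + 1) := by omega
    calc d * (r * r * (p - 1)) + 1 ≤ d * (r * r * p) + p := by
          refine Nat.add_le_add ?_ hp
          exact Nat.mul_le_mul_left _ (Nat.mul_le_mul_left _ (Nat.sub_le _ _))
      _ = (d * (r * r) + 1) * p := by ring
      _ ≤ (d * (r * r) + 1) * ((d * m) * ((p - 1) / (d * m) + 1)) := Nat.mul_le_mul_left _ h2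
      _ = _ := by ring

theorem unip (r : ℕ) : ∃ c : ℕ, ∀ (p : ℕ) [Fact p.Prime], r < p →
    ∀ (G : Type) [Group G] [Finite G] (f : G →* GL (Fin r) (ZMod p)), Function.Injective f →
    Subgroup.closure {g : G | g ^ p = 1} = ⊤ → BGen G c := by
  classical
  set K0 : ℕ := ∑ m ∈ Finset.range (r * r + 1), ((m * r * (r * r) + 1) * (m * r * m)) ^ m with hK0
  refine ⟨(3 * K0 + 1) * (2 * (r * r + K0)), ?_⟩
  intro p hpr hrp G _ _ f hf hgen
  have hp0 : 0 < p := hpr.out.pos
  have : Fintype G := Fintype.ofFinite G
  set M : G →* Matrix (Fin r) (Fin r) (ZMod p) := (Units.coeHom _).comp f with hM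
  have hMinj : Function.Injective M := by
    intro a b h
    exact hf (Units.ext h)
  have hc : ∀ g : {g : G | g ^ p = 1}, ∃ E : Matrix (Fin r) (Fin r) (Polynomial (ZMod p)),
      (∀ i j, (E i j).natDegree ≤ r) ∧
      ∀ t : ℕ, E.map (Polynomial.eval (t : ZMod p)) = (M g) ^ t := by
    intro g
    apply exists_curve hrp
    rw [← map_pow]
    have h1 : (g : G) ^ p = 1 := g.2
    rw [h1, map_one]
  choose EE hEd hEt using hc
  have h0 : ∀ E ∈ Set.range EE, E.map (Polynomial.eval 0) = 1 := by
    rintro E ⟨g, rfl⟩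
    have h1 := hEt g 0
    rwa [Nat.cast_zero, pow_zero] at h1
  obtain ⟨m, E, ι, hEU, hm, hind, hcl⟩ := closed_max (Set.range EE) h0
  choose u hu using hEU
  set d : ℕ := m * r with hd
  set φ : Fin r × Fin r → MvPolynomial (Fin m) (ZMod p) := fun s => big E s.1 s.2 with hφ
  have hdeg : ∀ s, (φ s).totalDegree ≤ d := by
    intro s
    refine big_degree E (fun k i j => ?_) s.1 s.2
    rw [← hu k]
    exact hEd (u k) i j
  -- every element of the group is in the monoid generated by the values of the curves
  have hmon : ∀ g : G, M g ∈ Submonoid.closure {A : Matrix (Fin r) (Fin r) (ZMod p) |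
      ∃ F ∈ Set.range EE, ∃ c : ZMod p, A = F.map (Polynomial.eval c)} := by
    intro g
    have hg : g ∈ Subgroup.closure {g : G | g ^ p = 1} := by
      rw [hgen]
      exact Subgroup.mem_top g
    induction hg using Subgroup.closure_induction with
    | mem x hx =>
      apply Submonoid.subset_closure
      refine ⟨EE ⟨x, hx⟩, ⟨_, rfl⟩, ((1 : ℕ) : ZMod p), ?_⟩
      rw [hEt, pow_one]
    | one =>
      rw [map_one]
      exact Submonoid.one_mem _
    | mul x y _ _ hx hy =>
      rw [map_mul]
      exact Submonoid.mul_mem _ hx hy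
    | inv x _ hx =>
      have h1 : x⁻¹ = x ^ (Nat.card G - 1) := by
        rw [inv_eq_iff_mul_eq_one, ← pow_succ', Nat.sub_add_cancel Nat.card_pos,
          pow_card_eq_one']
      rw [h1, map_pow]
      exact Submonoid.pow_mem _ hx _
  -- the upper bound
  set P : G → (Fin r × Fin r → ZMod p) := fun g s => M g s.1 s.2 with hP
  have hPinj : Function.Injective P := by
    intro a b h
    apply hMinj
    ext i j
    exact congrFun h (i, j)
  have hup := upper φ hdeg (Finset.univ.image P) (by
    intro g hg x hx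
    obtain ⟨a, -, rfl⟩ := Finset.mem_image.1 hx
    exact vanish (Set.range EE) E (fun i => h0 _ ⟨u i, hu i⟩) hcl (hmon a) hg)
  rw [Finset.card_image_of_injective _ hPinj, Finset.card_univ, Fintype.card_prod,
    Fintype.card_fin, ZMod.card, ← Nat.card_eq_fintype_card] at hup
  -- the lower bound
  have hlow : ((p - 1) / (d * m) + 1) ^ m ≤
      Nat.card (cyc (List.ofFn fun i => (u i : G))) := by
    rcases Nat.eq_zero_or_pos m with h | h
    · have h1 : ∀ x : ℕ, x ^ m = 1 := by
        intro x
        rw [h, pow_zero]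
      rw [h1]
      have : Nonempty (cyc (List.ofFn fun i => (u i : G))) := ⟨⟨1, one_mem_cyc _⟩⟩
      exact Nat.card_pos
    · have hr0 : 0 < r := by
        rcases Nat.eq_zero_or_pos r with h1 | h1
        · rw [h1, mul_zero] at hm
          omega
        · exact h1
      have h2 := lower h (Nat.mul_pos h hr0) φ hdeg ι hind
      rw [ZMod.card] at h2
      refine h2.trans ?_
      have h3 : Set.range (fun (t : Fin m → ZMod p) (s : Fin r × Fin r) =>
          MvPolynomial.eval t (φ s)) ⊆ P '' (cyc (List.ofFn fun i => (u i : G))) := by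
        rintro _ ⟨t, rfl⟩
        refine ⟨(List.ofFn fun i => (u i : G) ^ (t i).val).prod, prod_mem_cyc _ _, ?_⟩
        funext s
        have h4 : M (List.ofFn fun i => (u i : G) ^ (t i).val).prod =
            (List.ofFn fun i => (E i).map (Polynomial.eval (t i))).prod := by
          rw [map_list_prod, List.map_ofFn]
          congr 2
          funext i
          have h5 := hEt (u i) (t i).val
          rw [ZMod.natCast_val, ZMod.cast_id', id_eq] at h5
          rw [Function.comp_apply, map_pow, ← h5, hu i]
        have h6 := congrFun (congrFun (big_eval E t) s.1) s.2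
        change M _ s.1 s.2 = MvPolynomial.eval t (big E s.1 s.2)
        rw [h4, ← h6]
        rfl
      rw [Nat.card_coe_set_eq, Nat.card_coe_set_eq]
      exact (Set.ncard_le_ncard h3 (Set.toFinite _)).trans (Set.ncard_image_le (Set.toFinite _))
  have hK : Nat.card G ≤ K0 * Nat.card (cyc (List.ofFn fun i => (u i : G))) := by
    refine hup.trans ((arith hp0 (fun h => ?_)).trans (Nat.mul_le_mul ?_ hlow))
    · refine Nat.mul_pos h ?_
      rcases Nat.eq_zero_or_pos r with h1 | h1
      · rw [h1, mul_zero] at hm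
        omega
      · exact h1
    · rw [hK0]
      exact Finset.single_le_sum
        (f := fun m => ((m * r * (r * r) + 1) * (m * r * m)) ^ m)
        (fun _ _ => Nat.zero_le _) (Finset.mem_range.2 (Nat.lt_succ_of_le hm))
  refine (bgen_dens (List.ofFn fun i => (u i : G)) hK).mono ?_
  rw [List.length_ofFn]
  exact Nat.mul_le_mul_left _ (Nat.mul_le_mul_left _ (Nat.add_le_add_right hm _))

end Pool.Agent.LRch
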